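import Pool.Agent.MP_d97ab6_al.H91.Spec

/-! From a covering set of finite measure to an invariant measure on the quotient. -/

namespace Pool.Agent.MP_d97ab6_al.H91

open MeasureTheory Topology Set

namespace Bridge

variable {G : Type*} [Group G] [TopologicalSpace G] [IsTopologicalGroup G]
  [SecondCountableTopology G] [MeasurableSpace G] [BorelSpace G]

theorem exists_fd (Γ : Subgroup G) [DiscreteTopology Γ] {F : Set G} (hF : MeasurableSet F)
    (hc : ∀ g, ∃ γ ∈ Γ, γ * g ∈ F) : ∃ D ⊆ F, MeasurableSet D ∧ ∀ x, ∃! γ : Γ, γ • x ∈ D := by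
  have : Countable Γ := countable_of_Lindelof_of_discrete
  obtain ⟨U, hU, e⟩ := isOpen_induced_iff.1 (isOpen_discrete ({1} : Set Γ))
  obtain ⟨V, hV, hVU⟩ := exists_nhds_split_inv (hU.mem_nhds (show ((1 : Γ) : G) ∈ U from e.ge rfl))
  have ho : ∀ x : G, IsOpen ((· * x⁻¹) ⁻¹' interior V) := fun x =>
    isOpen_interior.preimage (by fun_prop)
  obtain ⟨s, hs, hcov⟩ := TopologicalSpace.countable_cover_nhds fun x : G =>
    (ho x).mem_nhds (show x ∈ _ by simpa using mem_interior_iff_mem_nhds.2 hV)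
  obtain ⟨a, rfl⟩ := hs.exists_eq_range (by
    obtain ⟨x, hx, -⟩ := mem_iUnion₂.1 (hcov.ge (mem_univ 1))
    exact ⟨x, hx⟩)
  let S : ℕ → Set G := fun k => F ∩ (· * (a k)⁻¹) ⁻¹' interior V
  have hS : ∀ k, MeasurableSet (S k) := fun k => hF.inter (ho _).measurableSet
  refine ⟨⋃ k, S k ∩ ⋂ j, ⋂ _ : j < k, ⋂ γ : Γ, ((γ.1 * ·) ⁻¹' S j)ᶜ,
    iUnion_subset fun k x h => h.1.1, .iUnion fun k => (hS k).inter (.iInter fun j => .iInter
      fun _ => .iInter fun γ => (measurable_const_mul _ (hS j)).compl), fun x => ?_⟩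
  have ex : ∃ k, ∃ γ : Γ, γ.1 * x ∈ S k := by
    obtain ⟨γ, h1, h2⟩ := hc x
    obtain ⟨_, ⟨k, rfl⟩, hk⟩ := mem_iUnion₂.1 (hcov.ge (mem_univ (γ * x)))
    exact ⟨k, ⟨γ, h1⟩, h2, hk⟩
  classical
  obtain ⟨γ, hγ⟩ := Nat.find_spec ex
  simp only [mem_iUnion, mem_inter_iff, mem_iInter, mem_compl_iff, mem_preimage, Subgroup.smul_def,
    smul_eq_mul]
  refine ⟨γ, ⟨_, hγ, fun j hj δ h => Nat.find_min ex hj ⟨δ * γ, by
    rwa [Subgroup.coe_mul, mul_assoc]⟩⟩, ?_⟩
  rintro δ ⟨k, hk, hm⟩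
  obtain rfl : k = Nat.find ex := le_antisymm
    (not_lt.1 fun h => hm _ h (γ * δ⁻¹) (by simpa [mul_assoc] using hγ)) (Nat.find_min' ex ⟨δ, hk⟩)
  have h1 := hVU _ (interior_subset hk.2) _ (interior_subset hγ.2)
  exact mul_inv_eq_one.1 ((Set.ext_iff.1 e (δ * γ⁻¹)).1
    (by simpa [div_eq_mul_inv, mul_assoc] using h1))

theorem exists_inv [LocallyCompactSpace G] (Γ : Subgroup G) [DiscreteTopology Γ] (μ : Measure G)
    [μ.IsHaarMeasure] {F : Set G} (hF : μ F < ⊤) (hc : ∀ g, ∃ γ ∈ Γ, γ * g ∈ F) :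
    ∃ ν : @Measure (G ⧸ Γ) (borel (G ⧸ Γ)), ν univ ≠ 0 ∧ ν univ ≠ ⊤ ∧
      ∀ (g : G) (A : Set (G ⧸ Γ)), MeasurableSet[borel (G ⧸ Γ)] A →
        ν ((fun x => g • x) ⁻¹' A) = ν A := by
  have : Countable Γ := countable_of_Lindelof_of_discrete
  obtain ⟨D, hD, hm, hu⟩ := exists_fd Γ (measurableSet_toMeasurable μ F) fun g =>
    (hc g).imp fun γ h => ⟨h.1, subset_toMeasurable μ F h.2⟩
  have fd := IsFundamentalDomain.mk' (μ := μ) hm.nullMeasurableSet hu
  let _ : MeasurableSpace (G ⧸ Γ) := borel _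
  have : BorelSpace (G ⧸ Γ) := ⟨rfl⟩
  have hπ : Measurable fun x : G => ((x⁻¹ : G) : G ⧸ Γ) :=
    (QuotientGroup.continuous_mk.comp continuous_inv).measurable
  have h0 : μ D ≠ 0 := fd.measure_ne_zero (NeZero.ne μ)
  have h1 : μ D ≠ ⊤ := ((measure_mono hD).trans_lt (by rwa [measure_toMeasurable])).ne
  have hv : ∀ A, MeasurableSet A → (μ.restrict D).map (fun x : G => ((x⁻¹ : G) : G ⧸ Γ)) A
      = μ ((fun x : G => ((x⁻¹ : G) : G ⧸ Γ)) ⁻¹' A ∩ D) := fun A hA => by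
    rw [Measure.map_apply hπ hA, Measure.restrict_apply (hπ hA)]
  refine ⟨(μ.restrict D).map fun x : G => ((x⁻¹ : G) : G ⧸ Γ), by simpa [hv], by simpa [hv],
    fun g => ?_⟩
  have hm' : MeasurableSet ((· * g) ⁻¹' D) := measurable_mul_const g hm
  have fd' : IsFundamentalDomain Γ ((· * g) ⁻¹' D) μ := .mk' hm'.nullMeasurableSet fun x => by
    simpa only [mem_preimage, smul_mul_assoc] using hu (x * g)
  have key : ∀ A : Set (G ⧸ Γ), MeasurableSet A →
      μ ((fun x : G => ((x⁻¹ : G) : G ⧸ Γ)) ⁻¹' ((fun x => g • x) ⁻¹' A) ∩ D) =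
      (μ.map (· * g⁻¹)).haarScalarFactor μ • μ ((fun x : G => ((x⁻¹ : G) : G ⧸ Γ)) ⁻¹' A ∩ D) := by
    intro A hA
    rw [fd.measure_set_eq fd' (hπ hA) fun γ => by
      ext x
      simp [Subgroup.smul_def, QuotientGroup.mk_mul_of_mem _ (Γ.inv_mem γ.2)],
      ← Measure.smul_apply, ← Measure.isMulLeftInvariant_eq_smul,
      Measure.map_apply (measurable_mul_const _) ((hπ hA).inter hm')]
    congr 1
    ext x
    simp
  have k1 := key univ .univ
  simp only [preimage_univ, univ_inter, ENNReal.smul_def, smul_eq_mul] at k1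
  intro A hA
  rw [hv _ (measurable_const_smul g hA), hv _ hA, key A hA, ENNReal.smul_def,
    (ENNReal.mul_left_inj h0 h1).1 (k1.symm.trans (one_mul _).symm), one_smul]

end Bridge

theorem rowBridge : SBridge := by
  intro Γ F hΓ hF hc
  have e1 : IsClosedEmbedding fun g : SU31 => g.1.1 :=
    Matrix.SpecialLinearGroup.isClosedEmbedding_val.comp (IsClosed.isClosedEmbedding_subtypeVal
      (isClosed_eq ((continuous_subtype_val.matrix_conjTranspose.matrix_mul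
        continuous_const).matrix_mul continuous_subtype_val) continuous_const))
  have : LocallyCompactSpace (Matrix (Fin 4) (Fin 4) ℂ) :=
    inferInstanceAs (LocallyCompactSpace (Fin 4 → Fin 4 → ℂ))
  have : SecondCountableTopology (Matrix (Fin 4) (Fin 4) ℂ) :=
    inferInstanceAs (SecondCountableTopology (Fin 4 → Fin 4 → ℂ))
  have := e1.locallyCompactSpace
  have := e1.isEmbedding.secondCountableTopology
  borelize ↥SU31
  exact ⟨hΓ, Bridge.exists_inv Γ Measure.haar (hF _) hc⟩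

end Pool.Agent.MP_d97ab6_al.H91
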