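import Pool.Agent.MP_d97ab6_al.H91.Spec

/-! Discreteness of the lifted group and covering by translates of the Siegel set. -/

namespace Pool.Agent.MP_d97ab6_al.H91

open Matrix Complex
open scoped ComplexConjugate

namespace Disc

theorem small {e : ℂ} (he : ‖e - 1‖ < 1 / 10) (m n : ℤ) (h : ‖e * (m + n * I)‖ < 1 / 5) :
    m = 0 ∧ n = 0 := by
  have h1 : 9 / 10 ≤ ‖e‖ := by
    have := norm_sub_norm_le (1 : ℂ) e
    rw [norm_one, norm_sub_rev] at this
    linarith
  rw [norm_mul] at h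
  have h2 : ‖(m + n * I : ℂ)‖ < 1 := by
    by_contra hc
    have := mul_le_mul h1 (not_lt.1 hc) (by norm_num) (norm_nonneg _)
    linarith
  have a := (abs_re_le_norm (m + n * I : ℂ)).trans_lt h2
  have b := (abs_im_le_norm (m + n * I : ℂ)).trans_lt h2
  simp only [add_re, intCast_re, mul_re, I_re, mul_zero, intCast_im, I_im, mul_one, sub_self,
    add_zero, add_im, mul_im, zero_add] at a b
  exact ⟨Int.abs_lt_one_iff.1 (by exact_mod_cast a), Int.abs_lt_one_iff.1 (by exact_mod_cast b)⟩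

theorem I_pow_int (a : ℕ) : ∃ m n : ℤ, I ^ a = m + n * I := by
  induction a with
  | zero => exact ⟨1, 0, by simp⟩
  | succ a ih =>
    obtain ⟨m, n, h⟩ := ih
    refine ⟨-n, m, ?_⟩
    rw [pow_succ, h]
    push_cast
    linear_combination (n : ℂ) * I_mul_I

theorem I_pow_one {e : ℂ} (he : ‖e - 1‖ < 1 / 10) (a : ℕ) (h : ‖e * I ^ a - 1‖ < 1 / 10) :
    I ^ a = 1 := by
  obtain ⟨m, n, e1⟩ := I_pow_int a
  have h2 : ‖e * (((m - 1 : ℤ) : ℂ) + n * I)‖ < 1 / 5 := by
    have e2 : e * (((m - 1 : ℤ) : ℂ) + n * I) = (e * I ^ a - 1) - (e - 1) := by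
      rw [e1]; push_cast; ring
    rw [e2]
    exact (norm_sub_le _ _).trans_lt (by linarith)
  obtain ⟨a1, a2⟩ := small he _ _ h2
  rw [e1, a2, show m = 1 by omega]
  simp

theorem root_one {e : ℂ} (he : ‖e - 1‖ < 1 / 10) (h : e ^ 4 = 1) : e = 1 := by
  have a := abs_lt.1 ((abs_re_le_norm (e - 1)).trans_lt he)
  have b := abs_lt.1 ((abs_im_le_norm (e - 1)).trans_lt he)
  simp only [sub_re, one_re, sub_im, one_im, sub_zero] at a b
  have h1 : (e - 1) * ((e + 1) * (e * e + 1)) = 0 := by linear_combination h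
  rcases mul_eq_zero.1 h1 with h2 | h2
  · exact sub_eq_zero.1 h2
  · exfalso
    rcases mul_eq_zero.1 h2 with h3 | h3
    · have := congrArg re h3
      simp only [add_re, one_re, zero_re] at this
      linarith
    · have := congrArg re h3
      simp only [add_re, mul_re, one_re, zero_re] at this
      nlinarith

theorem smul_isU {c : ℂ} {m : M4} (hm : IsU m) : (c • m)ᴴ * J * (c • m) = (conj c * c) • J := by
  rw [conjTranspose_smul, Matrix.smul_mul, Matrix.smul_mul, Matrix.mul_smul, smul_smul]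
  rw [show mᴴ * J * m = J from hm]
  rfl

theorem normSq_scalar {c : ℂ} {m : M4} (hm : IsU m) (h : IsU (c • m)) : normSq c = 1 := by
  have h1 := (smul_isU (c := c) hm).symm.trans h
  have h2 := congrFun (congrFun h1 1) 1
  have h3 : conj c * c = 1 := by simpa [J] using h2
  rw [← normSq_eq_conj_mul_self] at h3
  exact_mod_cast h3

theorem nrm_pt (c : ℂ) (x0 x1 x2 x3 t u : ℝ) :
    nrm (c • pt x0 x1 x2 x3 t u) = normSq c * u := by
  simp [nrm, herm, pt, normSq_apply]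
  ring

theorem nrm_o : nrm (pt 0 0 0 0 0 2) = 2 := by
  have := nrm_pt 1 0 0 0 0 0 2
  simpa using this

theorem normSq_zeta : normSq zeta = 1 := by
  have h : √2 * √2 = 2 := Real.mul_self_sqrt (by norm_num)
  simp only [zeta, normSq_mk]
  linarith

theorem key (G : Subgroup U31) (H : ∀ g ∈ G, ∀ y, In (kap false) (vec false) y →
    In (kap false) (ap g (vec false)) y → g ∈ P0set ∨ 1 ≤ normSq (g.1 3 0)) (γ : SU31)
    (hγ : γ ∈ lift G) (hW : ∀ i j, ‖γ.1.1 i j - (1 : M4) i j‖ < 1 / 10) : γ = 1 := by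
  obtain ⟨c, g, hg, e⟩ := hγ
  have hc : normSq c = 1 := normSq_scalar (m := γ.1.1) γ.2 (e ▸ g.2)
  have c0 : c ≠ 0 := by
    rintro rfl
    simp at hc
  have w00 : ‖γ.1.1 0 0 - 1‖ < 1 / 10 := by simpa using hW 0 0
  have w30 : ‖γ.1.1 3 0‖ < 1 / 10 := by simpa using hW 3 0
  have i1 : In (kap false) (vec false) (pt 0 0 0 0 0 2) := by
    rw [In, nrm_o]
    simp [herm, vec, pt, kap]
    norm_num
  have i2 : In (kap false) (ap g (vec false)) (pt 0 0 0 0 0 2) := by
    have e1 : herm (ap g (vec false)) (pt 0 0 0 0 0 2) = conj (c * (γ.1.1 0 0 - γ.1.1 3 0)) := by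
      have e2 : (⟨-1, 0⟩ : ℂ) = -1 := by
        apply Complex.ext <;> norm_num
      have e3 : (⟨0, 0⟩ : ℂ) = 0 := rfl
      simp [herm, ap, vec, pt, e, Matrix.mulVec, dotProduct, Fin.sum_univ_four, e2, e3]
      ring
    have n1 : ‖γ.1.1 0 0 - γ.1.1 3 0‖ ≤ 2 := by
      have e2 : γ.1.1 0 0 - γ.1.1 3 0 = (γ.1.1 0 0 - 1) - γ.1.1 3 0 + 1 := by ring
      rw [e2]
      refine (norm_add_le _ _).trans ?_
      have := norm_sub_le (γ.1.1 0 0 - 1) (γ.1.1 3 0)
      rw [norm_one]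
      linarith
    rw [In, nrm_o, e1, normSq_conj, map_mul, hc, one_mul, normSq_eq_norm_sq]
    have := norm_nonneg (γ.1.1 0 0 - γ.1.1 3 0)
    simp only [kap]
    nlinarith
  rcases H g hg _ i1 i2 with ⟨k, sw, a, b, l0, l1, l2, l3, t2, hv, hp⟩ | h
  swap
  · exfalso
    rw [e, Matrix.smul_apply, smul_eq_mul, map_mul, hc, one_mul, normSq_eq_norm_sq] at h
    have := norm_nonneg (γ.1.1 3 0)
    nlinarith
  have e1 : γ.1.1 = c⁻¹ • pm k sw a b l0 l1 l2 l3 t2 := by
    rw [← hp, e, smul_smul, inv_mul_cancel₀ c0, one_smul]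
  rw [pm.eq_def, smul_smul] at e1
  generalize c⁻¹ * zeta ^ k = E at e1
  rw [e1] at hW
  have hE : ‖E - 1‖ < 1 / 10 := by
    have := hW 0 0
    cases sw <;> simpa using this
  have h13 : ‖E * (l0 + l1 * I)‖ < 1 / 10 := by
    have := hW 1 3
    cases sw <;> simpa using this
  have h23 : ‖E * (l2 + l3 * I)‖ < 1 / 10 := by
    have := hW 2 3
    cases sw <;> simpa using this
  obtain ⟨rfl, rfl⟩ := small hE _ _ (h13.trans (by norm_num))
  obtain ⟨rfl, rfl⟩ := small hE _ _ (h23.trans (by norm_num))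
  cases sw with
  | true => exact absurd hv.1 (by decide)
  | false =>
    have h03 : ‖E * (((0 : ℤ) : ℂ) + t2 * I)‖ < 1 / 5 := by
      have h1 : ‖E * (t2 * I / 2)‖ < 1 / 10 := by simpa using hW 0 3
      rw [show E * (((0 : ℤ) : ℂ) + t2 * I) = 2 * (E * (t2 * I / 2)) by push_cast; ring, norm_mul]
      rw [show ‖(2 : ℂ)‖ = 2 by simp]
      linarith
    obtain ⟨-, rfl⟩ := small hE _ _ h03
    have ha := I_pow_one hE a (by simpa using hW 1 1)
    have hb := I_pow_one hE b (by simpa using hW 2 2)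
    have e2 : γ.1.1 = E • (1 : M4) := by
      rw [e1, ha, hb]
      congr 1
      ext i j
      fin_cases i <;> fin_cases j <;> simp
    have hd := γ.1.2
    rw [e2, det_smul, det_one, mul_one, Fintype.card_fin] at hd
    rw [root_one hE hd, one_smul] at e2
    exact Subtype.ext (Subtype.ext e2)

theorem sieg_smul {d : ℂ} (hd : d ≠ 0) {y : V4} (h : Sieg y) : Sieg (d • y) := by
  obtain ⟨c, x0, x1, x2, x3, t, u, hc, e, h⟩ := h
  exact ⟨d * c, x0, x1, x2, x3, t, u, mul_ne_zero hd hc, by rw [e, smul_smul], h⟩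

theorem normSq_det (h : U31) : normSq h.1.det = 1 := by
  have h1 := congrArg det h.2
  have h2 := congrArg det J_mul_J
  rw [det_mul, det_one] at h2
  rw [det_mul, det_mul, det_conjTranspose] at h1
  have h3 : conj h.1.det * h.1.det = 1 := by
    have e : star h.1.det = conj h.1.det := rfl
    rw [e] at h1
    linear_combination J.det * h1 + (1 - conj h.1.det * h.1.det) * h2
  rw [← normSq_eq_conj_mul_self] at h3
  exact_mod_cast h3

theorem exists_lift (G : Subgroup U31) (h : U31) (hh : h ∈ G) :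
    ∃ γ ∈ lift G, ∃ d : ℂ, d ≠ 0 ∧ γ.1.1 = d • h.1 := by
  obtain ⟨d, hd⟩ := IsAlgClosed.exists_pow_nat_eq h.1.det (n := 4) (by norm_num)
  have h1 : normSq d = 1 := by
    have := normSq_det h
    rw [← hd, map_pow] at this
    exact (pow_eq_one_iff_of_nonneg (normSq_nonneg d) (by norm_num)).1 this
  have d0 : d ≠ 0 := by
    rintro rfl
    simp at h1
  have h2 : (d⁻¹ • h.1).det = 1 := by
    rw [det_smul, Fintype.card_fin, ← hd, ← mul_pow, inv_mul_cancel₀ d0, one_pow]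
  have h3 : (d⁻¹ • h.1)ᴴ * J * (d⁻¹ • h.1) = J := by
    rw [smul_isU h.2, ← normSq_eq_conj_mul_self, map_inv₀, h1]
    simp
  refine ⟨⟨⟨d⁻¹ • h.1, h2⟩, h3⟩, ⟨d, h, hh, ?_⟩, d⁻¹, inv_ne_zero d0, rfl⟩
  change h.1 = d • d⁻¹ • h.1
  rw [smul_smul, mul_inv_cancel₀ d0, one_smul]

theorem height {p : U31} (hp : p ∈ P0set) {z : V4} {c : ℂ} {x0 x1 x2 x3 t u : ℝ} (hc : c ≠ 0)
    (e : ap p z = c • pt x0 x1 x2 x3 t u) (h : In (kap false) (vec false) z) : 1 / 20 ≤ u := by
  obtain ⟨k, sw, a, b, l0, l1, l2, l3, t2, -, hp⟩ := hp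
  rw [← In_ap p, e, In, nrm_pt] at h
  have e1 : herm (ap p (vec false)) (c • pt x0 x1 x2 x3 t u) = conj (zeta ^ k) * c := by
    cases sw <;> simp [herm, ap, vec, pt, hp, pm, Matrix.mulVec, dotProduct, Fin.sum_univ_four]
  rw [e1, map_mul, normSq_conj, map_pow, normSq_zeta, one_pow, one_mul] at h
  have := normSq_pos.2 hc
  simp only [kap] at h
  by_contra hu
  nlinarith [mul_pos this (sub_pos.2 (not_le.1 hu))]

theorem ab {x : ℝ} (h0 : 0 ≤ x) (h1 : x ≤ 1 / 2) : |x| ≤ 1 := abs_le.2 ⟨by linarith, by linarith⟩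

end Disc

open Disc

theorem rowDisc : SDisc := by
  intro G H
  apply discreteTopology_of_isOpen_singleton_one
  have e : ({1} : Set (lift G)) =
      ⋂ i, ⋂ j, {γ : lift G | ‖γ.1.1.1 i j - (1 : M4) i j‖ < 1 / 10} := by
    ext γ
    simp only [Set.mem_singleton_iff, Set.mem_iInter, Set.mem_ofPred_eq]
    constructor
    · rintro rfl i j
      change ‖(1 : M4) i j - (1 : M4) i j‖ < _
      simp
    · exact fun h => Subtype.ext (key G H γ.1 γ.2 h)
  rw [e]
  refine isOpen_iInter_of_finite fun i => isOpen_iInter_of_finite fun j => isOpen_lt ?_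
    continuous_const
  have c1 : Continuous fun γ : lift G => γ.1 := continuous_subtype_val
  have c2 : Continuous fun γ : SU31 => γ.1 := continuous_subtype_val
  have c3 : Continuous fun γ : SpecialLinearGroup (Fin 4) ℂ => γ.1 := continuous_subtype_val
  have hc : Continuous fun γ : lift G => γ.1.1.1 := c3.comp (c2.comp c1)
  exact ((hc.matrix_elem i j).sub continuous_const).norm

theorem rowCov : SCov := by
  intro hPg hPr hBr G hP hG g
  have hy : nrm (g.1.1 *ᵥ pt 0 0 0 0 0 2) = 2 := (nrm_ap ⟨g.1.1, g.2⟩ _).trans nrm_o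
  obtain ⟨h, hh, hin⟩ := hG _ (by rw [hy]; norm_num)
  have main : ∃ p ∈ G, Sieg (ap p (ap h (g.1.1 *ᵥ pt 0 0 0 0 0 2))) := by
    rcases hin with hin | hin
    · obtain ⟨p, hp, c, x0, x1, x2, x3, t, u, hc, e, a0, b0, a1, b1, a2, b2, a3, b3, ht, -⟩ :=
        hPr (ap h (g.1.1 *ᵥ pt 0 0 0 0 0 2)) (by rw [nrm_ap, hy]; norm_num)
      exact ⟨p, hP hp, c, x0, x1, x2, x3, t, u, hc, e, ab a0 b0, ab a1 b1, ab a2 b2, ab a3 b3,
        by linarith, height hp hc e hin⟩
    · obtain ⟨a, b, c, x0, x1, x2, x3, t, u, hc, e, a0, b0, a1, b1, a2, b2, a3, b3, t0, t1, u0, -⟩ :=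
        hBr _ hin
      exact ⟨⟨_, hPg.1 0 false a b 0 0 0 0 0⟩, hP ⟨0, false, a, b, 0, 0, 0, 0, 0,
        ⟨by decide, by decide⟩, rfl⟩, c, x0, x1, x2, x3, t, u, hc, e, ab a0 b0, ab a1 b1, ab a2 b2,
        ab a3 b3, abs_le.2 ⟨by linarith, by linarith⟩, by linarith⟩
  obtain ⟨p, hp, hs⟩ := main
  obtain ⟨γ, hγ, d, hd, e⟩ := exists_lift G (p * h) (G.mul_mem hp hh)
  refine ⟨γ, hγ, ?_⟩
  have e1 : (γ * g).1.1 = γ.1.1 * g.1.1 := rfl
  rw [e1, ← Matrix.mulVec_mulVec, e, Matrix.smul_mulVec]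
  rw [← ap_mul] at hs
  exact sieg_smul hd hs

end Pool.Agent.MP_d97ab6_al.H91
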