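import Pool.Agent.MP_d97ab6_al.H91.Spec

/-! Reduction into the box by the cusp group and by the rotations. -/

namespace Pool.Agent.MP_d97ab6_al.H91

open Matrix Complex

namespace Pred

theorem nrm_pt (c : ℂ) (x0 x1 x2 x3 t u : ℝ) :
    nrm (c • pt x0 x1 x2 x3 t u) = normSq c * u := by
  simp [nrm, herm, pt, normSq_apply]
  ring

theorem coords {y : V4} (h : 0 < nrm y) : ∃ (c : ℂ) (x0 x1 x2 x3 t u : ℝ), c ≠ 0 ∧
    y = c • pt x0 x1 x2 x3 t u ∧ 0 < u := by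
  have hc : y 3 ≠ 0 := by
    intro h0
    simp [nrm, herm, h0] at h
    nlinarith [mul_self_nonneg (y 1).re, mul_self_nonneg (y 1).im, mul_self_nonneg (y 2).re,
      mul_self_nonneg (y 2).im]
  have e : y = y 3 • pt (y 1 / y 3).re (y 1 / y 3).im (y 2 / y 3).re (y 2 / y 3).im
      (y 0 / y 3).im (-2 * (y 0 / y 3).re - ((y 1 / y 3).re ^ 2 + (y 1 / y 3).im ^ 2 +
        (y 2 / y 3).re ^ 2 + (y 2 / y 3).im ^ 2)) := by
    have k : ∀ (z : ℂ) (r : ℝ), r = (z / y 3).re → z = y 3 * ⟨r, (z / y 3).im⟩ := by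
      rintro z r rfl
      exact (mul_div_cancel₀ z hc).symm
    funext i
    fin_cases i
    · exact k (y 0) _ (by ring)
    · exact k (y 1) _ rfl
    · exact k (y 2) _ rfl
    · exact (mul_one (y 3)).symm
  refine ⟨_, _, _, _, _, _, _, hc, e, ?_⟩
  rw [e, nrm_pt] at h
  exact (mul_pos_iff_of_pos_left (normSq_pos.2 hc)).1 h

theorem tr0 (l0 l1 l2 l3 t2 : ℤ) (x0 x1 x2 x3 t u : ℝ) :
    pm 0 false 0 0 l0 l1 l2 l3 t2 *ᵥ pt x0 x1 x2 x3 t u = pt (x0 + l0) (x1 + l1) (x2 + l2) (x3 + l3)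
      (t + t2 / 2 - (l0 * x1 - l1 * x0) - (l2 * x3 - l3 * x2)) u := by
  funext i
  fin_cases i <;> apply Complex.ext <;>
    simp [pm, pt, Matrix.mulVec, dotProduct, Fin.sum_univ_four, pow_two] <;> ring

theorem tr1 (l0 l1 l2 l3 t2 : ℤ) (x0 x1 x2 x3 t u : ℝ) :
    pm 0 true 0 0 l0 l1 l2 l3 t2 *ᵥ pt x0 x1 x2 x3 t u = pt (x2 + l0) (x3 + l1) (x0 + l2) (x1 + l3)
      (t + t2 / 2 - (l2 * x1 - l3 * x0) - (l0 * x3 - l1 * x2)) u := by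
  funext i
  fin_cases i <;> apply Complex.ext <;>
    simp [pm, pt, Matrix.mulVec, dotProduct, Fin.sum_univ_four, pow_two] <;> ring

theorem rot {a b : ℕ} (t2 : ℤ) {x0 x1 x2 x3 y0 y1 y2 y3 : ℝ} (t u : ℝ)
    (h1 : I ^ a * ⟨x0, x1⟩ = ⟨y0, y1⟩) (h2 : I ^ b * ⟨x2, x3⟩ = ⟨y2, y3⟩)
    (h3 : y0 ^ 2 + y1 ^ 2 = x0 ^ 2 + x1 ^ 2) (h4 : y2 ^ 2 + y3 ^ 2 = x2 ^ 2 + x3 ^ 2) :
    pm 0 false a b 0 0 0 0 t2 *ᵥ pt x0 x1 x2 x3 t u = pt y0 y1 y2 y3 (t + t2 / 2) u := by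
  funext i
  fin_cases i
  · apply Complex.ext <;> simp [pm, pt, Matrix.mulVec, dotProduct, Fin.sum_univ_four]
    linarith
  · simpa [pm, pt, Matrix.mulVec, dotProduct, Fin.sum_univ_four] using h1
  · simpa [pm, pt, Matrix.mulVec, dotProduct, Fin.sum_univ_four] using h2
  · simp [pm, pt, Matrix.mulVec, dotProduct, Fin.sum_univ_four]

theorem quad (x y : ℝ) : ∃ (a : ℕ) (x' y' : ℝ), I ^ a * ⟨x, y⟩ = ⟨x', y'⟩ ∧ 0 ≤ x' ∧ 0 ≤ y' ∧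
    x' ^ 2 + y' ^ 2 = x ^ 2 + y ^ 2 ∧ (|x| ≤ 1 / 2 → |y| ≤ 1 / 2 → x' ≤ 1 / 2 ∧ y' ≤ 1 / 2) := by
  rcases le_total 0 x with hx | hx <;> rcases le_total 0 y with hy | hy
  · exact ⟨0, x, y, by simp, hx, hy, rfl, fun a b => ⟨(abs_le.1 a).2, (abs_le.1 b).2⟩⟩
  · exact ⟨1, -y, x, by apply Complex.ext <;> simp, by linarith, hx, by ring,
      fun a b => ⟨by linarith [(abs_le.1 b).1], (abs_le.1 a).2⟩⟩
  · exact ⟨3, y, -x, by apply Complex.ext <;> simp [pow_succ], hy, by linarith, by ring,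
      fun a b => ⟨(abs_le.1 b).2, by linarith [(abs_le.1 a).1]⟩⟩
  · exact ⟨2, -x, -y, by apply Complex.ext <;> simp, by linarith, by linarith, by ring,
      fun a b => ⟨by linarith [(abs_le.1 a).1], by linarith [(abs_le.1 b).1]⟩⟩

theorem rnd (x : ℝ) : |x + ((-round x : ℤ) : ℝ)| ≤ 1 / 2 := by
  rw [Int.cast_neg, ← sub_eq_add_neg]
  exact abs_sub_round x

/-- The translation step. -/
theorem step1 (x0 x1 x2 x3 t u : ℝ) : ∃ sw l0 l1 l2 l3 t2, PValid sw l0 l1 l2 l3 t2 ∧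
    ∃ y0 y1 y2 y3 s, pm 0 sw 0 0 l0 l1 l2 l3 t2 *ᵥ pt x0 x1 x2 x3 t u = pt y0 y1 y2 y3 s u ∧
      |y0| ≤ 1 / 2 ∧ |y1| ≤ 1 / 2 ∧ |y2| ≤ 1 / 2 ∧ |y3| ≤ 1 / 2 := by
  rcases Int.emod_two_eq_zero_or_one (-round x0 + -round x1 + -round x2 + -round x3) with h | h
  · exact ⟨false, _, _, _, _, _, ⟨h, by rw [sub_self]; rfl⟩, _, _, _, _, _, tr0 .., rnd _, rnd _,
      rnd _, rnd _⟩
  · exact ⟨true, -round x2, -round x3, -round x0, -round x1, _,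
      ⟨by simp only [if_true]; omega, by rw [sub_self]; rfl⟩, _, _, _, _, _, tr1 .., rnd _, rnd _,
      rnd _, rnd _⟩

end Pred

open H91.Pred

theorem rowPred : SPgrp → SPred := by
  rintro ⟨hU, P, hP⟩ y hy
  obtain ⟨c, x0, x1, x2, x3, t, u, hc, rfl, hu⟩ := coords hy
  obtain ⟨sw, l0, l1, l2, l3, t2, hv, y0, y1, y2, y3, s, e, b0, b1, b2, b3⟩ :=
    step1 x0 x1 x2 x3 t u
  obtain ⟨a, z0, z1, e1, p0, p1, q1, r1⟩ := quad y0 y1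
  obtain ⟨b, z2, z3, e2, p2, p3, q2, r2⟩ := quad y2 y3
  have m1 : (⟨_, hU 0 sw 0 0 l0 l1 l2 l3 t2⟩ : U31) ∈ (P : Set U31) :=
    hP ▸ ⟨_, _, _, _, _, _, _, _, _, hv, rfl⟩
  have m2 : (⟨_, hU 0 false a b 0 0 0 0 (4 * -round (s / 2))⟩ : U31) ∈ (P : Set U31) :=
    hP ▸ ⟨0, false, a, b, 0, 0, 0, 0, 4 * -round (s / 2), ⟨rfl, by simp⟩, rfl⟩
  have m3 := P.mul_mem m2 m1
  rw [← SetLike.mem_coe, hP] at m3
  refine ⟨_, m3, c, z0, z1, z2, z3, s + ((4 * -round (s / 2) : ℤ) : ℝ) / 2, u,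
    hc, ?_, p0, (r1 b0 b1).1, p1, (r1 b0 b1).2, p2, (r2 b2 b3).1, p3, (r2 b2 b3).2, ?_, hu⟩
  · rw [ap_mul, ap_smul, ap_smul, ← rot _ s u e1 e2 q1 q2, ← e]
    rfl
  · have := abs_le.1 (abs_sub_round (s / 2))
    push_cast
    rw [abs_le]
    constructor <;> linarith [this.1, this.2]

theorem rowBred : SBred := by
  intro y hy
  have h0 : 0 < nrm y :=
    (mul_pos_iff_of_pos_left (by norm_num [kap])).1 ((normSq_nonneg _).trans_lt hy)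
  obtain ⟨c, x0, x1, x2, x3, t, u, hc, rfl, hu⟩ := coords h0
  have h1 : herm (vec true) (c • pt x0 x1 x2 x3 t u) =
      c * ⟨-(x0 ^ 2 + x1 ^ 2 + x2 ^ 2 + x3 ^ 2 + u + (1 - √2 / 2)) / 2, t - (-1 + √2 / 4)⟩ := by
    apply Complex.ext <;> simp [herm, vec, pt] <;> ring
  rw [In, h1, nrm_pt, map_mul, mul_left_comm, mul_lt_mul_iff_right₀ (normSq_pos.2 hc),
    normSq_mk] at hy
  simp only [kap] at hy
  have s1 : (1414 / 1000 : ℝ) < √2 := Real.lt_sqrt_of_sq_lt (by norm_num)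
  have s2 : √2 < (1415 / 1000 : ℝ) := (Real.sqrt_lt' (by norm_num)).2 (by norm_num)
  generalize √2 = r at hy s1 s2
  obtain ⟨a, z0, z1, e1, p0, p1, q1, -⟩ := quad x0 x1
  obtain ⟨b, z2, z3, e2, p2, p3, q2, -⟩ := quad x2 x3
  obtain ⟨S, hS⟩ : ∃ S, S = x0 ^ 2 + x1 ^ 2 + x2 ^ 2 + x3 ^ 2 := ⟨_, rfl⟩
  have S0 : 0 ≤ S := by rw [hS]; positivity
  rw [← hS] at hy
  have k1 : (S + u + 2925 / 10000) ^ 2 / 4 + (t - (-1 + r / 4)) ^ 2 < 121 / 250 * u := by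
    nlinarith
  have k2 : (u + 2925 / 10000) ^ 2 / 4 + (t - (-1 + r / 4)) ^ 2 < 121 / 250 * u := by nlinarith
  have k3 : S ≤ 1 / 4 := by
    by_contra h
    nlinarith [sq_nonneg (t - (-1 + r / 4)), sq_nonneg (u - 1 / 2)]
  have k4 : (t - (-1 + r / 4)) ^ 2 ≤ (35 / 100) ^ 2 := by nlinarith [sq_nonneg (u - 7 / 10)]
  have k5 := abs_le.1 (abs_le_of_sq_le_sq' k4 (by norm_num) |> abs_le.2)
  have k6 : ∀ z : ℝ, z ^ 2 ≤ S → z ≤ 1 / 2 := fun z h =>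
    (abs_le_of_sq_le_sq' (by linarith) (by norm_num)).2
  refine ⟨a, b, c, z0, z1, z2, z3, t, u, hc, ?_, p0, k6 _ ?_, p1, k6 _ ?_, p2, k6 _ ?_, p3,
    k6 _ ?_, by linarith [k5.1], by linarith [k5.2], ?_, ?_⟩
  · rw [Matrix.mulVec_smul, rot 0 t u e1 e2 q1 q2]
    simp
  · linarith [sq_nonneg z1, sq_nonneg x2, sq_nonneg x3]
  · linarith [sq_nonneg z0, sq_nonneg x2, sq_nonneg x3]
  · linarith [sq_nonneg z3, sq_nonneg x0, sq_nonneg x1]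
  · linarith [sq_nonneg z2, sq_nonneg x0, sq_nonneg x1]
  · nlinarith [sq_nonneg (t - (-1 + r / 4)), sq_nonneg u]
  · nlinarith [sq_nonneg (t - (-1 + r / 4))]

end Pool.Agent.MP_d97ab6_al.H91
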