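import Pool.Agent.MP_d97ab6_al.H91.Spec

/-! The preimage of the Siegel set has finite Haar measure. -/

namespace Pool.Agent.MP_d97ab6_al.H91

open Matrix Complex MeasureTheory Topology
open scoped ComplexConjugate ENNReal

namespace Vol

/-- The image of the base point. -/
noncomputable def v (g : SU31) : V4 := g.1.1 *ᵥ pt 0 0 0 0 0 2

noncomputable def r (g : SU31) : ℝ := normSq (v g 3)

noncomputable def q (g : SU31) : ℝ := (v g 0 * conj (v g 3)).im

noncomputable def w (g : SU31) : ℝ := normSq (v g 1) + normSq (v g 2)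

theorem v_eq (g : SU31) (i : Fin 4) : v g i = g.1.1 i 3 - g.1.1 i 0 := by
  simp [v, pt, mulVec, dotProduct, Fin.sum_univ_four, Complex.ext_iff]
  constructor <;> ring

theorem emb : IsClosedEmbedding fun g : SU31 => g.1.1 := by
  have h1 : IsClosedEmbedding fun g : SpecialLinearGroup (Fin 4) ℂ => g.1 :=
    IsClosed.isClosedEmbedding_subtypeVal (s := {A : M4 | A.det = 1})
      (isClosed_eq (continuous_id.matrix_det) continuous_const)
  have h2 : IsClosed (SU31 : Set (SpecialLinearGroup (Fin 4) ℂ)) :=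
    isClosed_eq (((h1.continuous.matrix_conjTranspose).matrix_mul continuous_const).matrix_mul
      h1.continuous) continuous_const
  exact h1.comp h2.isClosedEmbedding_subtypeVal

theorem cont_v (i : Fin 4) : Continuous fun g => v g i := by
  simp only [v_eq]
  exact (emb.continuous.matrix_elem i 3).sub (emb.continuous.matrix_elem i 0)

theorem cont_r : Continuous r := continuous_normSq.comp (cont_v 3)

theorem cont_q : Continuous q :=
  continuous_im.comp ((cont_v 0).mul (continuous_conj.comp (cont_v 3)))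

theorem nrm_v (g : SU31) : nrm (v g) = 2 := by
  have := nrm_ap ⟨g.1.1, g.2⟩ (pt 0 0 0 0 0 2)
  refine this.trans ?_
  simp [nrm, herm, pt]
  norm_num

theorem row (g : SU31) (i j : Fin 4) : normSq (g.1.1 i j) ≤ 1 + normSq (v g i) := by
  have h : g.1.1 * J * (g.1.1)ᴴ = J := by
    have := congrArg (· * J) (IsU.right_inv (g := g.1.1) g.2)
    simpa only [Matrix.mul_assoc, J_mul_J, Matrix.mul_one, Matrix.one_mul] using this
  have h1 := congrArg Complex.re (congrFun (congrFun h i) i)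
  have h2 : (J i i).re ≤ 1 := by fin_cases i <;> simp [J]
  have h3 : (g.1.1 * J * (g.1.1)ᴴ) i i = g.1.1 i 3 * conj (g.1.1 i 0) +
      g.1.1 i 1 * conj (g.1.1 i 1) + g.1.1 i 2 * conj (g.1.1 i 2) +
      g.1.1 i 0 * conj (g.1.1 i 3) := by
    simp [J, Matrix.mul_apply, Fin.sum_univ_four]
  have h4 : ∑ k, normSq (g.1.1 i k) ≤ 1 + normSq (v g i) := by
    rw [h3] at h1
    rw [v_eq, Fin.sum_univ_four]
    simp only [normSq_apply, add_re, mul_re, conj_re, conj_im, sub_re, sub_im] at h1 ⊢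
    linarith
  exact (Finset.single_le_sum (fun k _ => normSq_nonneg (g.1.1 i k)) (Finset.mem_univ j)).trans h4

/-- The bounded box. -/
def K : Set SU31 := {g | w g ≤ 160 ∧ |q g| ≤ 280 ∧ 10 ≤ r g ∧ r g ≤ 40}

theorem bd {g : SU31} (h : g ∈ K) (i : Fin 4) : normSq (v g i) ≤ 9000 := by
  obtain ⟨h1, h2, h3, h4⟩ := h
  have n := nrm_v g
  have a1 := normSq_nonneg (v g 1)
  have a2 := normSq_nonneg (v g 2)
  have a3 : normSq (v g 0) * r g = (1 + w g / 2) ^ 2 + q g ^ 2 := by
    have e : 1 + w g / 2 = -(v g 0 * conj (v g 3)).re := by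
      simp only [nrm, herm, w, normSq_apply, add_re, mul_re, conj_re, conj_im] at n ⊢
      linarith
    rw [e]
    simp only [r, q, normSq_apply, mul_re, mul_im, conj_re, conj_im]
    ring
  rw [w] at h1
  fin_cases i
  · have a4 : q g ^ 2 ≤ 280 ^ 2 := sq_le_sq' (abs_le.1 h2).1 (abs_le.1 h2).2
    have a5 : (1 + w g / 2) ^ 2 ≤ 81 ^ 2 := sq_le_sq' (by rw [w]; linarith) (by rw [w]; linarith)
    change normSq (v g 0) ≤ 9000
    nlinarith [normSq_nonneg (v g 0)]
  · change normSq (v g 1) ≤ 9000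
    linarith
  · change normSq (v g 2) ≤ 9000
    linarith
  · change r g ≤ 9000
    linarith

theorem fin_K [MeasurableSpace SU31] (μ : Measure SU31) [IsFiniteMeasureOnCompacts μ] :
    μ K < ⊤ := by
  have h : IsCompact {A : M4 | ∀ i j, A i j ∈ Metric.closedBall (0 : ℂ) 100} :=
    isCompact_pi_infinite fun i => isCompact_pi_infinite fun j => isCompact_closedBall _ _
  refine (measure_mono fun g hg i j => ?_).trans_lt (emb.isCompact_preimage h).measure_lt_top
  rw [mem_closedBall_zero_iff, ← abs_norm, ← abs_of_nonneg (by norm_num : (0 : ℝ) ≤ 100),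
    ← sq_le_sq, ← normSq_eq_norm_sq]
  linarith [row g i j, bd hg i]

/-- Dilation followed by a vertical translation. -/
noncomputable def e (a b : ℝ) (ha : a ≠ 0) : SU31 :=
  ⟨⟨!![(a : ℂ)⁻¹, 0, 0, b * I; 0, 1, 0, 0; 0, 0, 1, 0; 0, 0, 0, a], by
    simp [det_succ_row_zero, Fin.sum_univ_succ, Fin.succAbove, ha]⟩, by
    change _ᴴ * J * _ = J
    ext i j
    fin_cases i <;> fin_cases j <;> simp [J, Matrix.mul_apply, Fin.sum_univ_four, ha]
    ring⟩

theorem v_e (a b : ℝ) (ha : a ≠ 0) (g : SU31) :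
    v (e a b ha * g) = ![(a : ℂ)⁻¹ * v g 0 + b * I * v g 3, v g 1, v g 2, a * v g 3] := by
  have : v (e a b ha * g) = (e a b ha).1.1 *ᵥ v g := (mulVec_mulVec _ _ _).symm
  rw [this]
  ext i
  fin_cases i <;> simp [e, mulVec, dotProduct, Fin.sum_univ_four]

theorem r_e (a b : ℝ) (ha : a ≠ 0) (g : SU31) : r (e a b ha * g) = a ^ 2 * r g := by
  simp [r, v_e, sq]

theorem w_e (a b : ℝ) (ha : a ≠ 0) (g : SU31) : w (e a b ha * g) = w g := by
  simp [w, v_e]

theorem q_e (a b : ℝ) (ha : a ≠ 0) (g : SU31) : q (e a b ha * g) = q g + a * b * r g := by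
  simp [q, r, v_e, normSq_apply, ← ofReal_inv]
  field_simp
  ring

/-- The slabs. -/
def S (a : ℝ) : Set SU31 :=
  {g | w g ≤ 4 * r g ∧ |q g| ≤ 2 * r g ∧ 10 ≤ a ^ 2 * r g ∧ a ^ 2 * r g ≤ 40}

theorem slab [MeasurableSpace SU31] [BorelSpace SU31] (μ : Measure SU31) [μ.IsMulLeftInvariant]
    (N : ℕ) (hN : 1 ≤ N) : N * μ (S N) ≤ μ K := by
  have a1 : (1 : ℝ) ≤ N := by exact_mod_cast hN
  have a0 : (N : ℝ) ≠ 0 := by positivity
  let C : ℕ → Set SU31 := fun m => {g | 0 < r g ∧ |(N : ℝ) ^ 2 * q g - 5 * m * r g| ≤ 2 * r g}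
  have hC : ∀ m, MeasurableSet (C m) := fun m =>
    (isOpen_lt continuous_const cont_r).measurableSet.inter (isClosed_le
      ((continuous_const.mul cont_q).sub (continuous_const.mul cont_r)).abs
      (continuous_const.mul cont_r)).measurableSet
  have hd : Pairwise (Function.onFun Disjoint C) := by
    refine (pairwise_disjoint_on C).2 fun m n hmn => ?_
    refine Set.disjoint_left.2 fun g h1 h2 => ?_
    have : (m : ℝ) + 1 ≤ n := by exact_mod_cast hmn
    nlinarith [h1.1, abs_le.1 h1.2, abs_le.1 h2.2]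
  have h1 : ∀ m ∈ Finset.range N, μ (S N) ≤ μ.restrict K (C m) := fun m hm => by
    have b1 : (m : ℝ) ≤ N := by exact_mod_cast (Finset.mem_range.1 hm).le
    have b0 : (0 : ℝ) ≤ m := m.cast_nonneg
    rw [Measure.restrict_apply (hC m), ← measure_preimage_mul μ (e N (5 * m / N) a0) (C m ∩ K)]
    refine measure_mono fun g ⟨c1, c2, c3, c4⟩ => ?_
    have c0 : 0 < r g :=
      (mul_pos_iff_of_pos_left (a := (N : ℝ) ^ 2) (by positivity)).1 (by linarith)
    have c5 : r g ≤ N * r g := le_mul_of_one_le_left c0.le a1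
    have c6 : N * r g ≤ N ^ 2 * r g := by nlinarith
    have c7 : m * r g ≤ N * r g := by gcongr
    have c8 : 0 ≤ m * r g := by positivity
    simp only [Set.mem_preimage, Set.mem_inter_iff, C, K, Set.mem_ofPred_eq, r_e, q_e, w_e,
      mul_div_cancel₀ _ a0]
    refine ⟨⟨by linarith, ?_⟩, by linarith, ?_, c3, c4⟩
    · rw [show (N : ℝ) ^ 2 * (q g + 5 * m * r g) - 5 * m * (N ^ 2 * r g) = N ^ 2 * q g by ring,
        abs_mul, abs_of_nonneg (sq_nonneg _), mul_left_comm]
      gcongr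
    · rw [abs_le] at c2 ⊢
      constructor <;> linarith [c2.1, c2.2]
  calc N * μ (S N) = ∑ _ ∈ Finset.range N, μ (S N) := by simp
    _ ≤ ∑ m ∈ Finset.range N, μ.restrict K (C m) := Finset.sum_le_sum h1
    _ ≤ μ.restrict K Set.univ := sum_measure_le_measure_univ
        (fun m _ => (hC m).nullMeasurableSet) fun m _ n _ h => (hd h).aedisjoint
    _ = μ K := Measure.restrict_apply_univ _

theorem cover {g : SU31} (h : Sieg (v g)) : ∃ j : ℕ, g ∈ S ((2 ^ j : ℕ) : ℝ) := by
  obtain ⟨c, x0, x1, x2, x3, t, u, hc, hv, h0, h1, h2, h3, ht, hu⟩ := h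
  have e1 : r g = normSq c := by simp [r, hv, pt]
  have e2 : q g = normSq c * t := by
    simp [q, hv, pt, normSq_apply]
    ring
  have e3 : w g = normSq c * (x0 ^ 2 + x1 ^ 2 + x2 ^ 2 + x3 ^ 2) := by
    simp [w, hv, pt, normSq_apply]
    ring
  have e4 : normSq c * u = 2 := by
    rw [← nrm_v g, hv]
    simp [nrm, herm, pt, normSq_apply]
    ring
  have c0 : 0 < normSq c := normSq_pos.2 hc
  obtain ⟨j, j1, j2⟩ := exists_nat_pow_near (x := 40 / normSq c) (y := 4)
    (by rw [one_le_div c0]; nlinarith) (by norm_num)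
  have e5 : ((2 ^ j : ℕ) : ℝ) ^ 2 = 4 ^ j := by
    push_cast
    rw [← pow_mul, mul_comm, pow_mul]
    norm_num
  rw [le_div_iff₀ c0] at j1
  rw [div_lt_iff₀ c0, pow_succ] at j2
  refine ⟨j, ?_, ?_, ?_, ?_⟩
  · rw [e1, e3, mul_comm]
    gcongr
    linarith [(sq_le_one_iff_abs_le_one _).2 h0, (sq_le_one_iff_abs_le_one _).2 h1,
      (sq_le_one_iff_abs_le_one _).2 h2, (sq_le_one_iff_abs_le_one _).2 h3]
  · rw [e1, e2, abs_mul, abs_of_pos c0, mul_comm]
    gcongr
  · rw [e1, e5]; linarith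
  · rw [e1, e5]; exact j1

end Vol

theorem rowVol : SVol := by
  intro _ _ μ _
  have h1 : ∀ j : ℕ, μ (Vol.S ((2 ^ j : ℕ) : ℝ)) ≤ 2⁻¹ ^ j * μ Vol.K := fun j => by
    have := Vol.slab μ (2 ^ j) Nat.one_le_two_pow
    rw [← ENNReal.inv_pow, ← ENNReal.div_eq_inv_mul,
      ENNReal.le_div_iff_mul_le (Or.inl (by simp)) (Or.inl (by simp)), mul_comm]
    exact_mod_cast this
  calc _ ≤ μ (⋃ j : ℕ, Vol.S ((2 ^ j : ℕ) : ℝ)) :=
        measure_mono fun g hg => Set.mem_iUnion.2 (Vol.cover hg)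
    _ ≤ ∑' j : ℕ, 2⁻¹ ^ j * μ Vol.K := (measure_iUnion_le _).trans (ENNReal.tsum_le_tsum h1)
    _ < ⊤ := by
        rw [ENNReal.tsum_mul_right, ENNReal.tsum_geometric]
        exact ENNReal.mul_lt_top (by simp) (Vol.fin_K μ)

end Pool.Agent.MP_d97ab6_al.H91
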