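import Pool.Agent.MP_d97ab6_al.H91.Spec

/-! The cusp group is a group. -/

namespace Pool.Agent.MP_d97ab6_al.H91

open Matrix Complex
open scoped ComplexConjugate

namespace Pgrp

/-- General form of an element fixing the first basis vector. -/
noncomputable def gm (p q r s x y z : ℂ) : M4 :=
  !![1, -(conj x * p + conj y * r), -(conj x * q + conj y * s), z;
    0, p, q, x; 0, r, s, y; 0, 0, 0, 1]

/-- The middle block is unitary. -/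
structure Un (p q r s : ℂ) : Prop where
  h1 : conj p * p + conj r * r = 1
  h2 : conj p * q + conj r * s = 0
  h3 : conj q * p + conj s * r = 0
  h4 : conj q * q + conj s * s = 1

theorem gm_isU {p q r s x y z : ℂ} (h : Un p q r s)
    (hz : conj z + conj x * x + conj y * y + z = 0) : IsU (gm p q r s x y z) := by
  obtain ⟨h1, h2, h3, h4⟩ := h
  unfold IsU
  ext i j
  fin_cases i <;> fin_cases j <;>
    simp [gm, J, Matrix.mul_apply, Fin.sum_univ_four] <;>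
    first | assumption | ring1 | linear_combination hz

theorem gm_mul {p q r s : ℂ} (h : Un p q r s) (x y z p' q' r' s' x' y' z' : ℂ) :
    gm p q r s x y z * gm p' q' r' s' x' y' z' =
      gm (p * p' + q * r') (p * q' + q * s') (r * p' + s * r') (r * q' + s * s')
        (x + (p * x' + q * y')) (y + (r * x' + s * y'))
        (z + z' - (conj x * (p * x' + q * y') + conj y * (r * x' + s * y'))) := by
  obtain ⟨h1, h2, h3, h4⟩ := h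
  ext i j
  fin_cases i <;> fin_cases j <;> simp [gm, Matrix.mul_apply, Fin.sum_univ_four]
  · linear_combination conj x' * p' * h1 + conj x' * r' * h2 + conj y' * p' * h3
      + conj y' * r' * h4
  · linear_combination conj x' * q' * h1 + conj x' * s' * h2 + conj y' * q' * h3
      + conj y' * s' * h4
  all_goals ring

theorem gm_congr {p q r s x y z p' q' r' s' x' y' z' : ℂ} (h1 : p = p') (h2 : q = q')
    (h3 : r = r') (h4 : s = s') (h5 : x = x') (h6 : y = y') (h7 : z = z') :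
    gm p q r s x y z = gm p' q' r' s' x' y' z' := by
  rw [h1, h2, h3, h4, h5, h6, h7]

/-- The corner entry. -/
noncomputable def cz (l0 l1 l2 l3 t : ℤ) : ℂ :=
  (-((l0 : ℂ) ^ 2 + l1 ^ 2 + l2 ^ 2 + l3 ^ 2) + t * I) / 2

theorem pmF (k a b : ℕ) (l0 l1 l2 l3 t : ℤ) : pm k false a b l0 l1 l2 l3 t =
    zeta ^ k • gm (I ^ a) 0 0 (I ^ b) (l0 + l1 * I) (l2 + l3 * I) (cz l0 l1 l2 l3 t) := by
  unfold pm gm cz
  congr 1
  ext i j
  fin_cases i <;> fin_cases j <;> simp <;> ring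

theorem pmT (k a b : ℕ) (l0 l1 l2 l3 t : ℤ) : pm k true a b l0 l1 l2 l3 t =
    zeta ^ k • gm 0 (I ^ a) (I ^ b) 0 (l0 + l1 * I) (l2 + l3 * I) (cz l0 l1 l2 l3 t) := by
  unfold pm gm cz
  congr 1
  ext i j
  fin_cases i <;> fin_cases j <;> simp <;> ring

theorem I_un (a : ℕ) : conj (I ^ a) * I ^ a = 1 := by
  rw [map_pow, ← mul_pow, conj_I, neg_mul, I_mul_I, neg_neg, one_pow]

theorem unF (a b : ℕ) : Un (I ^ a) 0 0 (I ^ b) :=
  ⟨by rw [I_un]; simp, by simp, by simp, by rw [I_un]; simp⟩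

theorem unT (a b : ℕ) : Un 0 (I ^ a) (I ^ b) 0 :=
  ⟨by rw [I_un]; simp, by simp, by simp, by rw [I_un]; simp⟩

theorem zeta_sq : zeta ^ 2 = I := by
  have h : √2 * √2 = 2 := Real.mul_self_sqrt (by norm_num)
  apply Complex.ext
  · simp [zeta, sq]
  · simp [zeta, sq]; nlinarith

theorem zeta_un : conj zeta * zeta = 1 := by
  have h : √2 * √2 = 2 := Real.mul_self_sqrt (by norm_num)
  apply Complex.ext
  · simp [zeta]; nlinarith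
  · simp [zeta]

theorem zeta_eight (k : ℕ) : zeta ^ (k + 7 * k) = 1 := by
  rw [show k + 7 * k = 2 * (4 * k) by ring, pow_mul, zeta_sq, pow_mul, I_pow_four, one_pow]

theorem I_four (a : ℕ) : I ^ (a + 3 * a) = 1 := by
  rw [show a + 3 * a = 4 * a by ring, pow_mul, I_pow_four, one_pow]

theorem isU_smul {g : M4} (h : IsU g) (k : ℕ) : IsU (zeta ^ k • g) := by
  unfold IsU at *
  rw [conjTranspose_smul, Matrix.smul_mul, Matrix.smul_mul, Matrix.mul_smul, smul_smul, h,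
    star_def, map_pow, ← mul_pow, zeta_un, one_pow, one_smul]

theorem cz_eq (l0 l1 l2 l3 t : ℤ) :
    conj (cz l0 l1 l2 l3 t) + conj ((l0 : ℂ) + l1 * I) * (l0 + l1 * I)
      + conj ((l2 : ℂ) + l3 * I) * (l2 + l3 * I) + cz l0 l1 l2 l3 t = 0 := by
  simp only [cz, map_div₀, map_add, map_neg, map_pow, map_mul, map_intCast, conj_I, map_ofNat]
  linear_combination (-(l1 : ℂ) ^ 2 - (l3 : ℂ) ^ 2) * I_sq

theorem pm_isU (k : ℕ) (sw : Bool) (a b : ℕ) (l0 l1 l2 l3 t : ℤ) :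
    IsU (pm k sw a b l0 l1 l2 l3 t) := by
  cases sw
  · rw [pmF]; exact isU_smul (gm_isU (unF a b) (cz_eq _ _ _ _ _)) k
  · rw [pmT]; exact isU_smul (gm_isU (unT a b) (cz_eq _ _ _ _ _)) k

/-- `u + v i` is the rotation of `x + y i` by `i ^ a`. -/
structure Rot (a : ℕ) (x y u v : ℤ) : Prop where
  e : I ^ a * ((x : ℂ) + y * I) = u + v * I
  n : u ^ 2 + v ^ 2 = x ^ 2 + y ^ 2
  p : (u + v) % 2 = (x + y) % 2

theorem rot (a : ℕ) (x y : ℤ) : ∃ u v, Rot a x y u v := by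
  induction a with
  | zero => exact ⟨x, y, by simp, rfl, rfl⟩
  | succ a ih =>
    obtain ⟨u, v, h1, h2, h3⟩ := ih
    refine ⟨-v, u, ?_, by linarith, by omega⟩
    push_cast
    linear_combination I * h1 + (v : ℂ) * I_sq

theorem Rot.inv {a : ℕ} {x y u v : ℤ} (h : Rot (3 * a) (-x) (-y) u v) : Rot a u v (-x) (-y) :=
  ⟨by rw [← h.e, ← mul_assoc, ← pow_add, I_four, one_mul], h.n.symm, h.p.symm⟩

theorem cz_mul {l0 l1 l2 l3 t x0 x1 x2 x3 t' m0 m1 m2 m3 : ℤ}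
    (h : m0 ^ 2 + m1 ^ 2 + (m2 ^ 2 + m3 ^ 2) = x0 ^ 2 + x1 ^ 2 + (x2 ^ 2 + x3 ^ 2)) :
    cz l0 l1 l2 l3 t + cz x0 x1 x2 x3 t' - (conj ((l0 : ℂ) + l1 * I) * (m0 + m1 * I)
      + conj ((l2 : ℂ) + l3 * I) * (m2 + m3 * I)) = cz (l0 + m0) (l1 + m1) (l2 + m2) (l3 + m3)
        (t + t' - 2 * (l0 * m1 - l1 * m0 + l2 * m3 - l3 * m2)) := by
  have h' := congrArg (Int.cast : ℤ → ℂ) h
  simp only [cz, map_add, map_mul, map_intCast, conj_I]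
  push_cast at h' ⊢
  linear_combination 1 / 2 * h' + ((l1 : ℂ) * m1 + l3 * m3) * I_sq

theorem mulF {a b : ℕ} {x0 x1 x2 x3 m0 m1 m2 m3 : ℤ} (h1 : Rot a x0 x1 m0 m1)
    (h2 : Rot b x2 x3 m2 m3) (k k' : ℕ) (sw : Bool) (a' b' : ℕ) (l0 l1 l2 l3 t t' : ℤ) :
    pm k false a b l0 l1 l2 l3 t * pm k' sw a' b' x0 x1 x2 x3 t' =
      pm (k + k') sw (a + a') (b + b') (l0 + m0) (l1 + m1) (l2 + m2) (l3 + m3)
        (t + t' - 2 * (l0 * m1 - l1 * m0 + l2 * m3 - l3 * m2)) := by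
  have hz := cz_mul (l0 := l0) (l1 := l1) (l2 := l2) (l3 := l3) (t := t) (t' := t')
    (congrArg₂ (· + ·) h1.n h2.n)
  cases sw <;> simp only [pmF, pmT] <;>
    rw [Matrix.smul_mul, Matrix.mul_smul, smul_smul, gm_mul (unF a b), ← pow_add] <;>
    simp only [zero_mul, mul_zero, add_zero, zero_add, h1.e, h2.e, hz, ← pow_add] <;>
    congr 2 <;> push_cast <;> ring

theorem mulT {a b : ℕ} {x0 x1 x2 x3 m0 m1 m2 m3 : ℤ} (h1 : Rot a x2 x3 m0 m1)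
    (h2 : Rot b x0 x1 m2 m3) (k k' : ℕ) (sw : Bool) (a' b' : ℕ) (l0 l1 l2 l3 t t' : ℤ) :
    pm k true a b l0 l1 l2 l3 t * pm k' sw a' b' x0 x1 x2 x3 t' =
      pm (k + k') (!sw) (a + b') (b + a') (l0 + m0) (l1 + m1) (l2 + m2) (l3 + m3)
        (t + t' - 2 * (l0 * m1 - l1 * m0 + l2 * m3 - l3 * m2)) := by
  have hz := cz_mul (l0 := l0) (l1 := l1) (l2 := l2) (l3 := l3) (t := t) (t' := t')
    ((congrArg₂ (· + ·) h1.n h2.n).trans (add_comm _ _))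
  cases sw <;> simp only [pmF, pmT, Bool.not_false, Bool.not_true] <;>
    rw [Matrix.smul_mul, Matrix.mul_smul, smul_smul, gm_mul (unT a b), ← pow_add] <;>
    simp only [zero_mul, mul_zero, add_zero, zero_add, h1.e, h2.e, hz, ← pow_add] <;>
    congr 2 <;> push_cast <;> ring

theorem par (x y : ℤ) : ∃ a, x ^ 2 + y ^ 2 = x + y + 2 * a := by
  obtain ⟨u, hu⟩ := Int.even_mul_pred_self x
  obtain ⟨v, hv⟩ := Int.even_mul_pred_self y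
  exact ⟨u + v, by linarith⟩

/-- The cocycle relation modulo four. -/
theorem coc (l0 l1 l2 l3 m0 m1 m2 m3 : ℤ) : ∃ w,
    ((l0 + m0) ^ 2 + (l1 + m1) ^ 2) - ((l2 + m2) ^ 2 + (l3 + m3) ^ 2)
      + 2 * ((l0 + m0) ^ 2 + (l1 + m1) ^ 2) * ((l2 + m2) ^ 2 + (l3 + m3) ^ 2)
      + 2 * (l0 * m1 - l1 * m0 + l2 * m3 - l3 * m2) =
    ((l0 ^ 2 + l1 ^ 2) - (l2 ^ 2 + l3 ^ 2) + 2 * (l0 ^ 2 + l1 ^ 2) * (l2 ^ 2 + l3 ^ 2))
      + ((m0 ^ 2 + m1 ^ 2) - (m2 ^ 2 + m3 ^ 2) + 2 * (m0 ^ 2 + m1 ^ 2) * (m2 ^ 2 + m3 ^ 2))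
      + 2 * ((l0 + l1 + l2 + l3) * (m0 + m1 + m2 + m3)) + 4 * w := by
  obtain ⟨a, ha⟩ := par l0 l1
  obtain ⟨b, hb⟩ := par l2 l3
  obtain ⟨c, hc⟩ := par m0 m1
  obtain ⟨d, hd⟩ := par m2 m3
  have e1 : (l0 + m0) ^ 2 + (l1 + m1) ^ 2
      = (l0 ^ 2 + l1 ^ 2) + (m0 ^ 2 + m1 ^ 2) + 2 * (l0 * m0 + l1 * m1) := by ring
  have e2 : (l2 + m2) ^ 2 + (l3 + m3) ^ 2
      = (l2 ^ 2 + l3 ^ 2) + (m2 ^ 2 + m3 ^ 2) + 2 * (l2 * m2 + l3 * m3) := by ring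
  rw [e1, e2, ha, hb, hc, hd]
  refine ⟨(l0 * m0 + l1 * m1) * (l2 + l3 + 2 * b + (m2 + m3 + 2 * d) + 2 * (l2 * m2 + l3 * m3))
    + (l0 + l1 + 2 * a + (m0 + m1 + 2 * c)) * (l2 * m2 + l3 * m3)
    + a * (m2 + m3 + 2 * d) + (l0 + l1) * d + c * (l2 + l3 + 2 * b) + (m0 + m1) * b
    - l1 * m0 - l2 * m2 - l3 * m3 - l3 * m2, by ring⟩

theorem validF {a b : ℕ} {x0 x1 x2 x3 m0 m1 m2 m3 l0 l1 l2 l3 t t' : ℤ} {sw : Bool}
    (h1 : Rot a x0 x1 m0 m1) (h2 : Rot b x2 x3 m2 m3) (v : PValid false l0 l1 l2 l3 t)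
    (v' : PValid sw x0 x1 x2 x3 t') : PValid sw (l0 + m0) (l1 + m1) (l2 + m2) (l3 + m3)
      (t + t' - 2 * (l0 * m1 - l1 * m0 + l2 * m3 - l3 * m2)) := by
  obtain ⟨w, hw⟩ := coc l0 l1 l2 l3 m0 m1 m2 m3
  obtain ⟨p, q⟩ := v
  obtain ⟨p', q'⟩ := v'
  have r1 := h1.p
  have r2 := h2.p
  rw [← h1.n, ← h2.n] at q'
  simp only [Bool.false_eq_true, if_false] at p
  obtain ⟨n, hn⟩ : ∃ n, l0 + l1 + l2 + l3 = 2 * n := ⟨(l0 + l1 + l2 + l3) / 2, by omega⟩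
  rw [hn, mul_assoc 2 n] at hw
  refine ⟨by rw [← p']; omega, ?_⟩
  omega

theorem validT {a b : ℕ} {x0 x1 x2 x3 m0 m1 m2 m3 l0 l1 l2 l3 t t' : ℤ} {sw : Bool}
    (h1 : Rot a x2 x3 m0 m1) (h2 : Rot b x0 x1 m2 m3) (v : PValid true l0 l1 l2 l3 t)
    (v' : PValid sw x0 x1 x2 x3 t') : PValid (!sw) (l0 + m0) (l1 + m1) (l2 + m2) (l3 + m3)
      (t + t' - 2 * (l0 * m1 - l1 * m0 + l2 * m3 - l3 * m2)) := by
  obtain ⟨w, hw⟩ := coc l0 l1 l2 l3 m0 m1 m2 m3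
  obtain ⟨p, q⟩ := v
  obtain ⟨p', q'⟩ := v'
  have r1 := h1.p
  have r2 := h2.p
  rw [← h1.n, ← h2.n, mul_assoc, mul_comm (m2 ^ 2 + m3 ^ 2)] at q'
  simp only [if_true] at p
  obtain ⟨n, hn⟩ : ∃ n, l0 + l1 + l2 + l3 = 2 * n + 1 := ⟨(l0 + l1 + l2 + l3) / 2, by omega⟩
  obtain ⟨c, hc⟩ := par m0 m1
  obtain ⟨d, hd⟩ := par m2 m3
  rw [hn, add_mul, mul_assoc 2 n, one_mul, mul_assoc 2 (m0 ^ 2 + m1 ^ 2)] at hw
  refine ⟨?_, by omega⟩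
  cases sw <;> simp only [Bool.false_eq_true, if_false, if_true, Bool.not_false, Bool.not_true]
    at p' ⊢ <;> omega

theorem pm_one (k a b : ℕ) : pm (k + 7 * k) false (a + 3 * a) (b + 3 * b) 0 0 0 0 0 = 1 := by
  rw [pmF, zeta_eight, I_four, I_four, one_smul]
  ext i j
  fin_cases i <;> fin_cases j <;> simp [gm, cz]

theorem inv_val {g : U31} {m : M4} (h : g.1 * m = 1) : (g⁻¹).1 = m := by
  rw [U31.val_inv, ← Matrix.mul_one (J * g.1ᴴ * J), ← h, ← Matrix.mul_assoc, g.2.left_inv,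
    Matrix.one_mul]

theorem inv_mem {g : U31} (hg : g ∈ P0set) : g⁻¹ ∈ P0set := by
  obtain ⟨k, sw, a, b, l0, l1, l2, l3, t, ⟨p, q⟩, e⟩ := hg
  obtain ⟨u0, u1, h1⟩ := rot (3 * a) (-l0) (-l1)
  obtain ⟨u2, u3, h2⟩ := rot (3 * b) (-l2) (-l3)
  have r1 := h1.p
  have r2 := h2.p
  have n1 : u0 ^ 2 + u1 ^ 2 = l0 ^ 2 + l1 ^ 2 := by rw [h1.n]; ring
  have n2 : u2 ^ 2 + u3 ^ 2 = l2 ^ 2 + l3 ^ 2 := by rw [h2.n]; ring
  have z : t + -t - 2 * (l0 * -l1 - l1 * -l0 + l2 * -l3 - l3 * -l2) = 0 := by ring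
  obtain ⟨c, hc⟩ := par l0 l1
  obtain ⟨d, hd⟩ := par l2 l3
  rw [mul_assoc] at q
  cases sw
  · refine ⟨7 * k, false, 3 * a, 3 * b, u0, u1, u2, u3, -t, ⟨by rw [← p]; omega, ?_⟩, inv_val ?_⟩
    · simp only [Bool.false_eq_true, if_false] at p
      rw [n1, n2, mul_assoc]
      omega
    · rw [e, mulF h1.inv h2.inv, z]
      simp only [add_neg_cancel]
      exact pm_one k a b
  · refine ⟨7 * k, true, 3 * b, 3 * a, u2, u3, u0, u1, -t, ⟨by rw [← p]; omega, ?_⟩, inv_val ?_⟩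
    · rw [n1, n2, mul_assoc, mul_comm (l2 ^ 2 + l3 ^ 2)]
      omega
    · rw [e, mulT h1.inv h2.inv, z]
      simp only [add_neg_cancel]
      exact pm_one k a b

theorem mul_mem {g h : U31} (hg : g ∈ P0set) (hh : h ∈ P0set) : g * h ∈ P0set := by
  obtain ⟨k, sw, a, b, l0, l1, l2, l3, t, v, e⟩ := hg
  obtain ⟨k', sw', a', b', x0, x1, x2, x3, t', v', e'⟩ := hh
  cases sw
  · obtain ⟨m0, m1, h1⟩ := rot a x0 x1
    obtain ⟨m2, m3, h2⟩ := rot b x2 x3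
    exact ⟨_, _, _, _, _, _, _, _, _, validF h1 h2 v v', by rw [U31.val_mul, e, e', mulF h1 h2]⟩
  · obtain ⟨m0, m1, h1⟩ := rot a x2 x3
    obtain ⟨m2, m3, h2⟩ := rot b x0 x1
    exact ⟨_, _, _, _, _, _, _, _, _, validT h1 h2 v v', by rw [U31.val_mul, e, e', mulT h1 h2]⟩

end Pgrp

theorem rowPgrp : SPgrp :=
  ⟨Pgrp.pm_isU, ⟨⟨⟨P0set, Pgrp.mul_mem⟩, ⟨_, false, _, _, 0, 0, 0, 0, 0, ⟨by simp, by simp⟩,
    (Pgrp.pm_one 0 0 0).symm⟩⟩, Pgrp.inv_mem⟩, rfl⟩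

end Pool.Agent.MP_d97ab6_al.H91
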