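import Pool.Agent.MP_d97ab6_al.H91.Sem

/-! Assembly of the finite facts about the adjacency sets. -/

namespace Pool.Agent.MP_d97ab6_al.H91

open Matrix Complex
open scoped ComplexConjugate

namespace Adj

theorem herm_smul (c d : ℂ) (v y : V4) : herm (c • v) (d • y) = conj c * d * herm v y := by
  simp only [herm, Pi.smul_apply, smul_eq_mul, map_mul]
  ring

theorem nh_smul (c d : ℂ) (v y : V4) :
    normSq (herm (c • v) (d • y)) = normSq c * normSq d * normSq (herm v y) := by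
  rw [herm_smul, map_mul, map_mul, normSq_conj]

theorem nh_comm (v y : V4) : normSq (herm v y) = normSq (herm y v) := by
  rw [← normSq_conj]
  congr 1
  simp only [herm, map_add, map_mul, conj_conj]
  ring

theorem in_smul {c d : ℂ} (hc : normSq c = 1) (hd : d ≠ 0) (k : ℝ) (v y : V4) :
    In k (c • v) (d • y) ↔ In k v y := by
  have e : nrm (d • y) = normSq d * nrm y := by
    rw [nrm, nrm, herm_smul, ← normSq_eq_conj_mul_self, re_ofReal_mul, mul_neg]
  rw [In, In, nh_smul, e, hc, one_mul, mul_left_comm, mul_lt_mul_iff_right₀ (normSq_pos.2 hd)]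

theorem nz (m : ℕ) : normSq (zeta ^ m) = 1 := by
  have : normSq zeta = 1 := by
    rw [zeta, normSq_mk]
    nlinarith [Real.mul_self_sqrt (zero_le_two (α := ℝ))]
  rw [map_pow, this, one_pow]

theorem pm_e (k : ℕ) (sw : Bool) (a b : ℕ) (l0 l1 l2 l3 t2 : ℤ) :
    pm k sw a b l0 l1 l2 l3 t2 *ᵥ vec false = zeta ^ k • vec false := by
  cases sw <;> rw [pm, smul_mulVec] <;> congr 1 <;> ext i <;> fin_cases i <;>
    simp [vec, mulVec, dotProduct, Fin.sum_univ_four]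

theorem pm_z (k : ℕ) : pm k false 0 0 0 0 0 0 0 = zeta ^ k • (1 : M4) := by
  rw [pm]
  congr 1
  ext i j
  fin_cases i <;> fin_cases j <;> simp

theorem in_pt (k x0 x1 x2 x3 t u : ℝ) : In k (vec false) (pt x0 x1 x2 x3 t u) ↔ 1 < k * u := by
  have e : nrm (pt x0 x1 x2 x3 t u) = u := by
    simp [nrm, herm, pt]
    ring
  rw [In, e]
  simp [herm, vec, pt]

theorem Bd_comm (i k : Bool) : Bd i k = Bd k i := by cases i <;> cases k <;> rfl

variable {D : Dat} {P : Bool → Subgroup U31} (hP : ∀ i g, g ∈ P i ↔ g ∈ PP D i)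
  {i j k : Bool} {p q r g : U31}
include hP

theorem bi (hp : p ∈ P i) (hg : g ∈ TT D i k) (hq : q ∈ P k) : p * g * q ∈ TT D i k := by
  obtain ⟨p', h1, r, h2, q', h3, rfl⟩ := hg
  exact ⟨p * p', (hP _ _).1 (mul_mem hp ((hP _ _).2 h1)), r, h2, q' * q,
    (hP _ _).1 (mul_mem ((hP _ _).2 h3) hq), by group⟩

theorem ofR (hr : r ∈ RR D i k) : r ∈ TT D i k :=
  ⟨1, (hP _ _).1 (one_mem _), r, hr, 1, (hP _ _).1 (one_mem _), by group⟩

theorem fix (hS : SFacts D) (hp : p ∈ P i) : ∃ m : ℕ, ap p (vec i) = zeta ^ m • vec i := by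
  cases i
  · obtain ⟨m, sw, a, b, l0, l1, l2, l3, t2, -, h⟩ := (hP _ _).1 hp
    exact ⟨m, by rw [ap, h, pm_e]⟩
  · exact hS.fix p ((hP _ _).1 hp)

theorem scal (hU : SPgrp) (m : ℕ) (k : Bool) : ∃ z ∈ P k, z.1 = zeta ^ m • (1 : M4) := by
  refine ⟨⟨_, pm_z m ▸ hU.1 m false 0 0 0 0 0 0 0⟩, (hP _ _).2 ?_, rfl⟩
  cases k
  · exact ⟨m, false, 0, 0, 0, 0, 0, 0, 0, ⟨rfl, rfl⟩, (pm_z m).symm⟩
  · obtain ⟨n, l, h⟩ := (hP true 1).1 (one_mem _)
    exact ⟨n, m + l, by rw [pow_add, mul_smul, ← h]; rfl⟩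

theorem cov (hS : SFacts D) (hp : p ∈ P i) {y w : V4} {c : ℂ} (hc : c ≠ 0) (e : ap p y = c • w)
    (hy : In (kap i) (vec i) y)
    (H : In (kap i) (vec i) w → ∃ j, ∃ s ∈ TT D i j, In (kap' j) (ap s (vec j)) w) :
    ∃ j, ∃ s ∈ TT D i j, In (kap' j) (ap s (vec j)) y := by
  obtain ⟨m, hm⟩ := fix hP hS hp
  rw [← In_ap p, hm, e, in_smul (nz m) hc] at hy
  obtain ⟨j, s, h1, h2⟩ := H hy
  refine ⟨j, _, bi hP (inv_mem hp) h1 (one_mem _), ?_⟩
  rwa [← In_ap p, ← ap_mul, mul_one, mul_inv_cancel_left, e, ← one_smul ℂ (ap s _),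
    in_smul normSq_one hc]

omit hP

theorem inv_val (hR : RFacts D) {n : ℕ} (h : r.1 = cm (D.gR i k n)) :
    (r⁻¹).1 = cm (D.gRi i k n) := by
  obtain ⟨r', h1, h2⟩ := hR i k n
  rwa [show r = r' from Subtype.ext (h.trans h1.symm)]

theorem g0 (h : D.n00 ≤ 255) {n : ℕ} (hn : n < D.nR false i) : D.gR false i n = (D.e0 i n).g := by
  cases i
  · have : Nat.beq n 255 = false :=
      Bool.eq_false_iff.2 fun e => (Nat.lt_of_lt_of_le hn h).ne (Nat.eq_of_beq_eq_true e)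
    simp only [Dat.gR, Dat.e0, this, cond_false]
  · rfl

theorem mm (a b : ℕ) : Nat.mod (a % b) b = Nat.mod a b := Nat.mod_mod a b

theorem red (hS : SFacts D) (h1 : 1 ≤ D.n00) (h : D.n00 ≤ 255) (h2 : 1 ≤ D.n01) (h3 : 1 ≤ D.n11)
    (hr : r ∈ RR D i k) :
    (r = 1 ∧ i = false ∧ k = false) ∨ ∃ n < D.nR i k, r.1 = cm (D.gR i k n) := by
  obtain ⟨n, hn⟩ := hr
  cases i <;> cases k
  · cases hb : Nat.beq n 255
    · refine Or.inr ⟨n % D.n00, Nat.mod_lt n h1, ?_⟩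
      rw [g0 (i := false) (n := n % D.n00) h (Nat.mod_lt n h1), hn]
      simp only [Dat.gR, Dat.e0, hb, cond_false, Dat.e00, mm]
    · simp only [Dat.gR, hb, cond_false, cond_true, hS.idc] at hn
      exact Or.inl ⟨Subtype.ext hn, rfl, rfl⟩
  · refine Or.inr ⟨n % D.n01, Nat.mod_lt n h2, ?_⟩
    simpa only [Dat.gR, cond_false, cond_true, Dat.e01, mm] using hn
  · refine Or.inr ⟨n % D.n01, Nat.mod_lt n h2, ?_⟩
    simpa only [Dat.gR, cond_false, cond_true, Dat.e01, mm] using hn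
  · refine Or.inr ⟨n % D.n11, Nat.mod_lt n h3, ?_⟩
    simpa only [Dat.gR, cond_false, cond_true, Dat.e11, mm] using hn

/-- The reduced form of transitivity. -/
def Cr (D : Dat) (Q : Subgroup U31) (i k : Bool) (r r' : U31) : Prop :=
  ∀ p ∈ Q, normSq (herm (ap r (vec i)) (ap (p * r') (vec k))) < Bd i k → r⁻¹ * (p * r') ∈ TT D i k

theorem Cr.swap {Q : Subgroup U31} {r' : U31} (hs : ∀ s ∈ TT D k i, s⁻¹ ∈ TT D i k)
    (h : Cr D Q k i r' r) : Cr D Q i k r r' := fun p hp hb => by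
  have := hs _ (h p⁻¹ (inv_mem hp) (by
    rwa [← herm_ap p, ← ap_mul, ← ap_mul, mul_inv_cancel_left, nh_comm, Bd_comm]))
  rwa [show (r'⁻¹ * (p⁻¹ * r))⁻¹ = r⁻¹ * (p * r') by group] at this

end Adj

open Adj in
theorem rowAdj : SAdj := by
  intro hU hA hB D hS hR hC hE hBl hK n0 n1 n2 n3 n4 e1 e2 hEnt hSym hEn hBa cA cB
  obtain ⟨P, hP⟩ : ∃ P : Bool → Subgroup U31, ∀ i g, g ∈ P i ↔ g ∈ PP D i := by
    obtain ⟨P0, h0⟩ := hU.2
    obtain ⟨P1, h1⟩ := hS.grp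
    exact ⟨fun i => cond i P1 P0, fun i g => by
      cases i
      exacts [Set.ext_iff.1 h0 g, Set.ext_iff.1 h1 g]⟩
  have red := fun i k r => red (i := i) (k := k) (r := r) hS n1 n2 n3 n4
  have one : ∀ i j, (1 : U31) ∈ TT D i j := fun i j => ofR hP (by
    cases i <;> cases j
    · exact ⟨255, hS.idc.symm⟩
    · exact ⟨0, e1.symm⟩
    · have := inv_val (r := 1) (i := false) (k := true) (n := 0) hR e1.symm
      rw [inv_one] at this
      exact ⟨0, this⟩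
    · exact ⟨0, e2.symm⟩)
  have symm : ∀ i j, ∀ s ∈ TT D i j, s⁻¹ ∈ TT D j i := by
    rintro i j _ ⟨p, hp, r, hr, q, hq, rfl⟩
    rw [_root_.mul_inv_rev, _root_.mul_inv_rev, ← mul_assoc]
    refine bi hP (inv_mem ((hP _ _).2 hq)) ?_ (inv_mem ((hP _ _).2 hp))
    obtain ⟨rfl, -⟩ | ⟨n, hn, h⟩ := red _ _ _ hr
    · rw [inv_one]
      exact one j i
    by_cases e : i = j
    · subst e
      obtain ⟨s, hs⟩ := hSym i
      obtain ⟨a, -, ha⟩ := (loop_ne_zero hs).2 n hn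
      have := hC i i (D.gRi i i n) id16 a r 1 ha (inv_val hR h)
        (hK.mono _ _ 16 (2 ^ 25) hK.id16 (by norm_num))
      rwa [mul_one] at this
    · refine ofR hP ⟨n, (inv_val hR h).trans ?_⟩
      cases i <;> cases j <;> first | exact absurd rfl e | exact congrArg cm rfl
  have c0 : ∀ i k r r', r ∈ RR D false i → r' ∈ RR D false k → Cr D (P false) i k r r' := by
    have a : ∀ k r', r' ∈ RR D false k → Cr D (P false) false k 1 r' := fun k r' h p hp _ => by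
      simpa using bi hP hp (ofR hP h) (one_mem _)
    have b : ∀ i k r r' n n', n < D.nR false i → n' < D.nR false k → r.1 = cm (D.gR false i n) →
        r'.1 = cm (D.gR false k n') → (i = true → k = true) → (i = k → n ≤ n') →
        Cr D (P false) i k r r' := fun i k r r' n n' hn hn' h h' o1 o2 p hp => by
      obtain ⟨s, hs⟩ := hEn i k o1 n hn n' hn' o2
      obtain ⟨t, ht⟩ := hEnt i n hn
      obtain ⟨t', ht'⟩ := hEnt k n' hn'
      obtain rfl : r = t := Subtype.ext (by rw [h, ht.1, g0 n2 hn])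
      obtain rfl : r' = t' := Subtype.ext (by rw [h', ht'.1, g0 n2 hn'])
      exact hE i k _ _ s _ _ hs ht ht' p ((hP _ _).1 hp)
    intro i k r r' h h'
    obtain ⟨rfl, -, rfl⟩ | ⟨n, hn, e⟩ := red _ _ _ h
    · exact a k r' h'
    obtain ⟨rfl, -, rfl⟩ | ⟨n', hn', e'⟩ := red _ _ _ h'
    · exact (a i r h).swap (symm _ _)
    by_cases o : (i = true → k = true) ∧ (i = k → n ≤ n')
    · exact b _ _ _ _ _ _ hn hn' e e' o.1 o.2
    · refine (b _ _ _ _ _ _ hn' hn e' e ?_ ?_).swap (symm _ _) <;>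
        cases i <;> cases k <;> simp at o ⊢ <;> omega
  have c1 : ∀ i k r r', r ∈ RR D true i → r' ∈ RR D true k → Cr D (P true) i k r r' := by
    have b : ∀ i k r r', r ∈ RR D true i → r' ∈ RR D true k → (i = true → k = true) →
        Cr D (P true) i k r r' := fun i k r r' h h' o p hp hb => by
      obtain ⟨-, c, -⟩ | ⟨n, hn, e⟩ := red _ _ _ h
      · cases c
      obtain ⟨-, c, -⟩ | ⟨n', hn', e'⟩ := red _ _ _ h'
      · cases c
      obtain ⟨a, m, hm⟩ := (hP _ _).1 hp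
      obtain ⟨lo, cnt, s, l1, l2, hs⟩ := hBa i k o n' hn' _ (Nat.mod_lt a n0)
      obtain ⟨z, hz, ez⟩ := scal hP hU m k
      obtain ⟨m', hm'⟩ := fix hP hS hz
      obtain ⟨σ, hσ⟩ : ∃ σ : U31, σ.1 = cm (D.gS a) := ⟨⟨_, hS.isU a⟩, rfl⟩
      have e3 : p * r' = σ * r' * z := Subtype.ext (by
        simp only [U31.val_mul, hm, ez, hσ, smul_mul_assoc, mul_smul_comm, mul_one])
      rw [e3, ap_mul, hm', ap_smul, ← one_smul ℂ (ap r _), nh_smul, nz, normSq_one, one_mul,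
        one_mul] at hb
      have := bi hP (one_mem _) (hBl i k n' lo cnt s hs (a % D.ns - lo) (by omega) n hn r
        σ r' (inv_val hR e) (by
          rw [Nat.add_sub_cancel' l1, hσ]
          simp only [Dat.gS, mm]) e' hb) hz
      rwa [one_mul, mul_assoc, ← e3] at this
    intro i k r r' h h'
    by_cases o : i = true → k = true
    · exact b _ _ _ _ h h' o
    · exact (b _ _ _ _ h' h fun e => (o fun _ => e).elim).swap (symm _ _)
  refine ⟨one, symm, ?_, fun i y hy => ?_⟩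
  · rintro j i k _ _ ⟨p, hp, r, hr, q, hq, rfl⟩ ⟨p', hp', r', hr', q', hq', rfl⟩ hb
    rw [← hP] at hp hq hp' hq'
    obtain ⟨m, hm⟩ := fix hP hS hq
    obtain ⟨m', hm'⟩ := fix hP hS hq'
    rw [ap_mul _ q, ap_mul _ q', hm, hm', ap_smul, ap_smul, nh_smul, nz, nz, one_mul, one_mul,
      ← herm_ap p⁻¹, ← ap_mul, ← ap_mul, inv_mul_cancel_left, ← mul_assoc] at hb
    have c : Cr D (P j) i k r r' := by
      cases j
      exacts [c0 _ _ _ _ hr hr', c1 _ _ _ _ hr hr']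
    have := bi hP (inv_mem hq) (c _ (mul_mem (inv_mem hp) hp') hb) hq'
    rwa [show q⁻¹ * (r⁻¹ * (p⁻¹ * p' * r')) * q' = (p * r * q)⁻¹ * (p' * r' * q') by group] at this
  · cases i
    · have y0 : 0 < nrm y := by
        have := (normSq_nonneg _).trans_lt hy
        rw [kap] at this
        linarith
      obtain ⟨p, hp, c, x0, x1, x2, x3, t, u, hc, e, a0, b0, a1, b1, a2, b2, a3, b3, ht, hu⟩ :=
        hA y y0
      refine cov hP hS ((hP false p).2 hp) hc e hy fun h => ?_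
      by_cases hu' : 125 / 392 < u
      · exact ⟨false, 1, one _ _, by rw [ap_one, in_pt, kap']; linarith⟩
      have h' := (in_pt _ _ _ _ _ _ _).1 h
      rw [kap] at h'
      have ht' := abs_le.1 ht
      refine cA _ _ _ _ _ _ ?_ ?_ ?_ ?_ ?_ ht hu h
      · simp only [InBx, rootA, abs_le, Nat.cast_ofNat]
        refine ⟨⟨?_, ?_⟩, ⟨?_, ?_⟩, ⟨?_, ?_⟩, ⟨?_, ?_⟩, ⟨?_, ?_⟩, ?_, ?_⟩ <;> linarith
      all_goals exact abs_le.2 ⟨by linarith, by linarith⟩
    · obtain ⟨a, b, c, x0, x1, x2, x3, t, u, hc, e, a0, b0, a1, b1, a2, b2, a3, b3, t0, t1, u0,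
        u1⟩ := hB y hy
      obtain ⟨p, hp, ep⟩ := hS.rot a b
      refine cov hP hS ((hP true p).2 hp) hc (by rw [ap, ep, e]) hy fun h => ?_
      refine cB _ _ _ _ _ _ ?_ ?_ ?_ ?_ ?_ ?_ (by linarith) h
      · simp only [InBx, rootB, abs_le, Nat.cast_ofNat]
        refine ⟨⟨?_, ?_⟩, ⟨?_, ?_⟩, ⟨?_, ?_⟩, ⟨?_, ?_⟩, ⟨?_, ?_⟩, ?_, ?_⟩ <;> linarith
      all_goals exact abs_le.2 ⟨by linarith, by linarith⟩

end Pool.Agent.MP_d97ab6_al.H91
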