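import Pool.Agent.MP_d97ab6_al.H91.Defs

/-! Internal definitions: the group U(3,1), the form, pieces, Siegel coordinates, the cusp group. -/

namespace Pool.Agent.MP_d97ab6_al.H91

open Matrix Complex
open scoped ComplexConjugate

abbrev M4 := Matrix (Fin 4) (Fin 4) ℂ
abbrev V4 := Fin 4 → ℂ

theorem J_conjT : Jᴴ = J := by
  ext i j
  fin_cases i <;> fin_cases j <;> simp [J]

def IsU (g : M4) : Prop := gᴴ * J * g = J

theorem IsU.left_inv {g : M4} (h : IsU g) : (J * gᴴ * J) * g = 1 := by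
  have : (J * gᴴ * J) * g = J * (gᴴ * J * g) := by simp only [Matrix.mul_assoc]
  rw [this, h, J_mul_J]

theorem IsU.right_inv {g : M4} (h : IsU g) : g * (J * gᴴ * J) = 1 :=
  mul_eq_one_comm.mp h.left_inv

theorem IsU.one : IsU 1 := by simp [IsU]

theorem IsU.mul {a b : M4} (ha : IsU a) (hb : IsU b) : IsU (a * b) := by
  unfold IsU at *
  rw [conjTranspose_mul]
  calc bᴴ * aᴴ * J * (a * b) = bᴴ * (aᴴ * J * a) * b := by simp only [Matrix.mul_assoc]
    _ = J := by rw [ha, hb]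

theorem IsU.inv {g : M4} (h : IsU g) : IsU (J * gᴴ * J) := by
  unfold IsU
  have h2 := h.right_inv
  simp only [conjTranspose_mul, J_conjT, conjTranspose_conjTranspose]
  calc J * (g * J) * J * (J * gᴴ * J) = J * (g * ((J * J) * (J * gᴴ * J))) := by
        simp only [Matrix.mul_assoc]
    _ = J := by rw [J_mul_J, Matrix.one_mul, h2, Matrix.mul_one]

/-- The group `U(3,1)`. -/
def U31 : Type := {g : M4 // IsU g}

noncomputable instance : Mul U31 := ⟨fun a b => ⟨a.1 * b.1, a.2.mul b.2⟩⟩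
instance : One U31 := ⟨⟨1, IsU.one⟩⟩
noncomputable instance : Inv U31 := ⟨fun a => ⟨J * (a.1)ᴴ * J, a.2.inv⟩⟩

@[simp] theorem U31.val_mul (a b : U31) : (a * b).1 = a.1 * b.1 := rfl
@[simp] theorem U31.val_one : (1 : U31).1 = 1 := rfl
theorem U31.val_inv (a : U31) : (a⁻¹).1 = J * (a.1)ᴴ * J := rfl

noncomputable instance : Group U31 :=
  Group.ofLeftAxioms (fun a b c => Subtype.ext (Matrix.mul_assoc a.1 b.1 c.1))
    (fun a => Subtype.ext (Matrix.one_mul a.1)) (fun a => Subtype.ext a.2.left_inv)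

/-- The action on vectors. -/
noncomputable def ap (g : U31) (v : V4) : V4 := g.1 *ᵥ v

theorem ap_mul (g h : U31) (v : V4) : ap (g * h) v = ap g (ap h v) := by
  simp [ap, Matrix.mulVec_mulVec]

@[simp] theorem ap_one (v : V4) : ap 1 v = v := by simp [ap]

theorem ap_smul (g : U31) (c : ℂ) (v : V4) : ap g (c • v) = c • ap g v := by
  simp [ap, Matrix.mulVec_smul]

/-- The Hermitian form. -/
noncomputable def herm (v y : V4) : ℂ :=
  conj (v 0) * y 3 + conj (v 1) * y 1 + conj (v 2) * y 2 + conj (v 3) * y 0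

theorem herm_eq (v y : V4) : herm v y = star v ⬝ᵥ (J *ᵥ y) := by
  simp [herm, J, dotProduct, Matrix.mulVec, Fin.sum_univ_four]

theorem herm_ap (g : U31) (v y : V4) : herm (ap g v) (ap g y) = herm v y := by
  rw [herm_eq, herm_eq, ap, ap, star_mulVec, Matrix.mulVec_mulVec, ← dotProduct_mulVec,
    Matrix.mulVec_mulVec, ← Matrix.mul_assoc, g.2]

/-- Minus the norm: positive on the vectors that represent points of complex hyperbolic space. -/
noncomputable def nrm (y : V4) : ℝ := -(herm y y).re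

theorem nrm_ap (g : U31) (y : V4) : nrm (ap g y) = nrm y := by rw [nrm, nrm, herm_ap]

/-- `y` lies in the piece (horoball or ball) of size `k` around `v`. -/
def In (k : ℝ) (v y : V4) : Prop := normSq (herm v y) < k * nrm y

theorem In_ap (g : U31) (k : ℝ) (v y : V4) : In k (ap g v) (ap g y) ↔ In k v y := by
  rw [In, In, herm_ap, nrm_ap]

/-- The vector of the point with Siegel coordinates `z1 = x0 + i x1`, `z2 = x2 + i x3`, `t`, `u`. -/
noncomputable def pt (x0 x1 x2 x3 t u : ℝ) : V4 :=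
  ![⟨-(x0 ^ 2 + x1 ^ 2 + x2 ^ 2 + x3 ^ 2 + u) / 2, t⟩, ⟨x0, x1⟩, ⟨x2, x3⟩, 1]

/-- A primitive eighth root of unity. -/
noncomputable def zeta : ℂ := ⟨√2 / 2, √2 / 2⟩

/-- Centres of the two kinds of pieces: the cusp at infinity and a point of the ball. -/
noncomputable def vec : Bool → V4
  | false => ![1, 0, 0, 0]
  | true => pt 0 0 0 0 (-1 + √2 / 4) (1 - √2 / 2)

/-- Sizes of the pieces. -/
noncomputable def kap : Bool → ℝ
  | false => 22 / 7
  | true => 121 / 250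

/-- Sizes of the shrunk pieces. -/
noncomputable def kap' : Bool → ℝ
  | false => 392 / 125
  | true => 483 / 1000

/-- If two pieces meet, the squared product of their centres is below this bound. -/
noncomputable def Bd : Bool → Bool → ℝ
  | false, false => 1936 / 49
  | false, true => 404 / 100
  | true, false => 404 / 100
  | true, true => 456 / 1000

/-- The matrices of the cusp group. -/
noncomputable def pm (k : ℕ) (sw : Bool) (a b : ℕ) (l0 l1 l2 l3 t2 : ℤ) : M4 :=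
  zeta ^ k • (match sw with
    | false => !![1, -((l0 : ℂ) - l1 * I) * I ^ a, -((l2 : ℂ) - l3 * I) * I ^ b,
          (-((l0 : ℂ) ^ 2 + l1 ^ 2 + l2 ^ 2 + l3 ^ 2) + t2 * I) / 2;
        0, I ^ a, 0, l0 + l1 * I; 0, 0, I ^ b, l2 + l3 * I; 0, 0, 0, 1]
    | true => !![1, -((l2 : ℂ) - l3 * I) * I ^ b, -((l0 : ℂ) - l1 * I) * I ^ a,
          (-((l0 : ℂ) ^ 2 + l1 ^ 2 + l2 ^ 2 + l3 ^ 2) + t2 * I) / 2;
        0, 0, I ^ a, l0 + l1 * I; 0, I ^ b, 0, l2 + l3 * I; 0, 0, 0, 1])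

/-- The congruence conditions on the parameters of the cusp group. -/
def PValid (sw : Bool) (l0 l1 l2 l3 t2 : ℤ) : Prop :=
  (l0 + l1 + l2 + l3) % 2 = (if sw then 1 else 0) ∧
    (t2 - ((l0 ^ 2 + l1 ^ 2) - (l2 ^ 2 + l3 ^ 2) + 2 * (l0 ^ 2 + l1 ^ 2) * (l2 ^ 2 + l3 ^ 2))) % 4 = 0

/-- The cusp group as a set. -/
def P0set : Set U31 :=
  {g | ∃ k sw a b l0 l1 l2 l3 t2, PValid sw l0 l1 l2 l3 t2 ∧ g.1 = pm k sw a b l0 l1 l2 l3 t2}

/-- The Siegel set. -/
def Sieg (y : V4) : Prop :=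
  ∃ (c : ℂ) (x0 x1 x2 x3 t u : ℝ), c ≠ 0 ∧ y = c • pt x0 x1 x2 x3 t u ∧ |x0| ≤ 1 ∧ |x1| ≤ 1 ∧
    |x2| ≤ 1 ∧ |x3| ≤ 1 ∧ |t| ≤ 2 ∧ 1 / 20 ≤ u

/-- The subgroup of `SU(3,1)` with the same projective image as a subgroup of `U(3,1)`. -/
def lift (G : Subgroup U31) : Subgroup SU31 where
  carrier := {γ | ∃ (c : ℂ) (g : U31), g ∈ G ∧ g.1 = c • γ.1.1}
  one_mem' := ⟨1, 1, G.one_mem, by simp⟩
  mul_mem' := by
    rintro a b ⟨c, g, hg, h⟩ ⟨d, g', hg', h'⟩
    refine ⟨c * d, g * g', G.mul_mem hg hg', ?_⟩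
    have : (a * b).1.1 = a.1.1 * b.1.1 := rfl
    rw [U31.val_mul, h, h', this, Matrix.smul_mul, Matrix.mul_smul, smul_smul]
  inv_mem' := by
    rintro a ⟨c, g, hg, h⟩
    have h1 : a.1.1 * (a⁻¹).1.1 = 1 := by
      have : (a * a⁻¹).1.1 = a.1.1 * (a⁻¹).1.1 := rfl
      rw [← this, mul_inv_cancel]; rfl
    have h2 : (g⁻¹).1 * g.1 = 1 := by rw [← U31.val_mul, inv_mul_cancel]; rfl
    have hc : c ≠ 0 := by
      rintro rfl
      rw [h] at h2
      simp at h2
    refine ⟨c⁻¹, g⁻¹, G.inv_mem hg, ?_⟩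
    calc (g⁻¹).1 = (g⁻¹).1 * (a.1.1 * (a⁻¹).1.1) := by rw [h1, Matrix.mul_one]
      _ = c⁻¹ • (((g⁻¹).1 * (c • a.1.1)) * (a⁻¹).1.1) := by
          rw [Matrix.mul_smul, Matrix.smul_mul, smul_smul, inv_mul_cancel₀ hc, one_smul,
            Matrix.mul_assoc]
      _ = c⁻¹ • (a⁻¹).1.1 := by rw [← h, h2, Matrix.one_mul]

/-- Vertical translation. -/
noncomputable def Tm : M4 := !![1, 0, 0, 2 * I; 0, 1, 0, 0; 0, 0, 1, 0; 0, 0, 0, 1]

/-- The opposite unipotent element. -/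
noncomputable def Lm : M4 := !![1, 0, 0, 0; 0, 1, 0, 0; 0, 0, 1, 0; ((8 + 4 * √2 : ℝ) : ℂ) * I, 0, 0, 1]

/-- Numbers in the field generated by `zeta`. -/
def InK (z : ℂ) : Prop := ∃ a b c d : ℚ, z = a + b * zeta + c * zeta ^ 2 + d * zeta ^ 3

end Pool.Agent.MP_d97ab6_al.H91
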