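import Pool.Agent.MP_d97ab6_al.H91.Spec

/-! Two pieces that meet have close centres; margin between a shrunk piece and the piece. -/

namespace Pool.Agent.MP_d97ab6_al.H91

open Matrix Complex
open scoped ComplexConjugate

namespace Bound

theorem herm_conj (v w : V4) : conj (herm v w) = herm w v := by
  simp only [herm, map_add, map_mul, conj_conj]; ring

theorem herm_self (v : V4) : herm v v = -(nrm v : ℂ) := by
  have := conj_eq_iff_re.1 (herm_conj v v)
  rw [nrm, ofReal_neg, neg_neg, this]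

theorem nrm_eq (v : V4) :
    nrm v = -(2 * (conj (v 0) * v 3).re + normSq (v 1) + normSq (v 2)) := by
  simp [nrm, herm, normSq_apply]; ring

theorem ne3 {v : V4} (h : 0 < nrm v) : 0 < normSq (v 3) := by
  refine normSq_pos.2 fun h0 => ?_
  rw [nrm_eq, h0] at h
  simp only [mul_zero, zero_re] at h
  linarith [normSq_nonneg (v 1), normSq_nonneg (v 2)]

/-- The reverse Cauchy-Schwarz inequality. -/
theorem rev {y : V4} (hy : 0 < nrm y) (v : V4) : nrm y * nrm v ≤ normSq (herm y v) := by
  rcases le_or_gt (nrm v) 0 with hv | hv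
  · exact (mul_nonpos_of_nonneg_of_nonpos hy.le hv).trans (normSq_nonneg _)
  have a := ne3 hv
  have b := ne3 hy
  have e : herm (v 3 • y - y 3 • v) (v 3 • y - y 3 • v) = conj (v 3) * v 3 * herm y y
      + conj (y 3) * y 3 * herm v v - (conj (v 3) * y 3 * herm y v
        + conj (conj (v 3) * y 3 * herm y v)) := by
    simp only [herm, Pi.sub_apply, Pi.smul_apply, smul_eq_mul, map_add, map_mul, map_sub, conj_conj]
    ring
  rw [herm_self, herm_self y, herm_self v, add_conj, ← normSq_eq_conj_mul_self,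
    ← normSq_eq_conj_mul_self] at e
  have e' : nrm (v 3 • y - y 3 • v) = normSq (v 3) * nrm y + normSq (y 3) * nrm v
      + 2 * (conj (v 3) * y 3 * herm y v).re := by
    have : ((nrm (v 3 • y - y 3 • v) : ℝ) : ℂ) = ((normSq (v 3) * nrm y + normSq (y 3) * nrm v
      + 2 * (conj (v 3) * y 3 * herm y v).re : ℝ) : ℂ) := by
      push_cast at e ⊢
      linear_combination -e
    exact_mod_cast this
  have h0 : nrm (v 3 • y - y 3 • v) ≤ 0 := by
    have : (v 3 • y - y 3 • v) 3 = 0 := by simp [mul_comm]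
    rw [nrm_eq, this]
    simp only [mul_zero, zero_re]
    linarith [normSq_nonneg ((v 3 • y - y 3 • v) 1), normSq_nonneg ((v 3 • y - y 3 • v) 2)]
  have h1 := re_sq_le_normSq (conj (v 3) * y 3 * herm y v)
  rw [normSq_mul, normSq_mul, normSq_conj] at h1
  refine le_of_mul_le_mul_left ?_ (mul_pos a b)
  have s0 := add_pos (mul_pos a hy) (mul_pos b hv)
  nlinarith [sq_nonneg (normSq (v 3) * nrm y - normSq (y 3) * nrm v)]

/-- The positive form attached to a negative vector. -/
noncomputable def core {y : V4} (hy : 0 < nrm y) : PreInnerProductSpace.Core ℂ V4 where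
  inner v w := nrm y * herm v w + conj (herm y v) * herm y w
  conj_inner_symm v w := by
    simp only [map_add, map_mul, conj_conj, conj_ofReal, herm_conj w v]
    ring
  re_inner_nonneg v := by
    have := rev hy v
    rw [herm_self v, ← normSq_eq_conj_mul_self]
    simp only [RCLike.re_to_complex, add_re, mul_re, neg_re, neg_im, ofReal_re, ofReal_im]
    linarith
  add_left u v w := by
    simp only [herm, Pi.add_apply, map_add, map_mul, conj_conj]
    ring
  smul_left v w c := by
    simp only [herm, Pi.smul_apply, smul_eq_mul, map_add, map_mul, conj_conj]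
    ring

theorem key {y : V4} (hy : 0 < nrm y) (v w : V4) : ∃ r : ℝ, 0 ≤ r ∧
    r ^ 2 ≤ (‖herm y v‖ ^ 2 - nrm y * nrm v) * (‖herm y w‖ ^ 2 - nrm y * nrm w) ∧
      nrm y * ‖herm v w‖ ≤ r + ‖herm y v‖ * ‖herm y w‖ := by
  refine ⟨‖nrm y * herm v w + conj (herm y v) * herm y w‖, norm_nonneg _, ?_, ?_⟩
  · have h := @InnerProductSpace.Core.inner_mul_inner_self_le ℂ V4 _ _ _ (core hy) v w
    rw [@InnerProductSpace.Core.norm_inner_symm ℂ V4 _ _ _ (core hy) w v] at h
    have k : ∀ x : V4, RCLike.re ((nrm y : ℂ) * herm x x + conj (herm y x) * herm y x)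
        = ‖herm y x‖ ^ 2 - nrm y * nrm x := fun x => by
      rw [herm_self x, ← normSq_eq_conj_mul_self, ← normSq_eq_norm_sq]
      simp only [RCLike.re_to_complex, add_re, mul_re, neg_re, neg_im, ofReal_re, ofReal_im]
      ring
    rw [← k, ← k, sq]
    exact h
  · have := norm_sub_le (nrm y * herm v w + conj (herm y v) * herm y w)
      (conj (herm y v) * herm y w)
    rwa [add_sub_cancel_right, norm_mul, norm_mul, norm_conj, norm_real,
      Real.norm_of_nonneg hy.le] at this

theorem nsq (v y : V4) : normSq (herm v y) = ‖herm y v‖ ^ 2 := by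
  rw [← herm_conj, normSq_conj, normSq_eq_norm_sq]

theorem bound {k k' A B : ℝ} {v w y : V4} (hk : 0 < k) (hv : In k v y) (hw : In k' w y)
    (hA : 0 ≤ A) (hB : 0 ≤ B) (h1 : k * k' ≤ A ^ 2) (h2 : (k - nrm v) * (k' - nrm w) ≤ B ^ 2) :
    normSq (herm v w) < (A + B) ^ 2 := by
  have hy : 0 < nrm y := (mul_pos_iff_of_pos_left hk).1 ((normSq_nonneg _).trans_lt hv)
  obtain ⟨r, r0, hr, h⟩ := key hy v w
  have a := rev hy v
  have b := rev hy w
  rw [In, nsq] at hv hw
  rw [normSq_eq_norm_sq] at a b ⊢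
  have p1 : ‖herm y v‖ * ‖herm y w‖ < A * nrm y := by
    refine lt_of_pow_lt_pow_left₀ 2 (by positivity) ?_
    have := mul_lt_mul'' hv hw (sq_nonneg _) (sq_nonneg _)
    nlinarith [mul_le_mul_of_nonneg_right h1 (sq_nonneg (nrm y))]
  have p2 : r ≤ B * nrm y := by
    refine le_of_sq_le_sq ?_ (by positivity)
    have := mul_le_mul (show ‖herm y v‖ ^ 2 - nrm y * nrm v ≤ nrm y * (k - nrm v) by linarith)
      (show ‖herm y w‖ ^ 2 - nrm y * nrm w ≤ nrm y * (k' - nrm w) by linarith) (by linarith)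
      (by linarith)
    nlinarith [mul_le_mul_of_nonneg_right h2 (sq_nonneg (nrm y))]
  exact pow_lt_pow_left₀ (lt_of_mul_lt_mul_left (a := nrm y) (by linarith) hy.le) (norm_nonneg _)
    two_ne_zero

theorem nrm_f (g : U31) : nrm (ap g (vec false)) = 0 := by
  rw [nrm_ap, nrm_eq]; simp [vec]

theorem nrm_t (g : U31) : nrm (ap g (vec true)) = 1 - √2 / 2 := by
  rw [nrm_ap, nrm_eq]; simp [vec, pt]; ring

theorem s2 : 14142 / 10000 ≤ √2 ∧ √2 ≤ 14143 / 10000 :=
  ⟨Real.le_sqrt_of_sq_le (by norm_num), Real.sqrt_le_iff.2 ⟨by norm_num, by norm_num⟩⟩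

end Bound

open H91.Bound

theorem rowBound : SBound := by
  intro i j g h y hv hw
  obtain ⟨s, s'⟩ := s2
  cases i <;> cases j
  · exact (bound (A := 22 / 7) (B := 22 / 7) (by norm_num [kap]) hv hw (by norm_num) (by norm_num)
      (by norm_num [kap]) (by norm_num [kap, nrm_f])).trans_le (by norm_num [Bd])
  · exact (bound (A := 12334 / 10000) (B := 7753 / 10000) (by norm_num [kap]) hv hw (by norm_num)
      (by norm_num) (by norm_num [kap]) (by rw [nrm_f, nrm_t, kap, kap]; linarith)).trans_le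
      (by norm_num [Bd])
  · exact (bound (A := 12334 / 10000) (B := 7753 / 10000) (by norm_num [kap]) hv hw (by norm_num)
      (by norm_num) (by norm_num [kap]) (by rw [nrm_f, nrm_t, kap, kap]; linarith)).trans_le
      (by norm_num [Bd])
  · exact (bound (A := 121 / 250) (B := 1912 / 10000) (by norm_num [kap]) hv hw (by norm_num)
      (by norm_num) (by norm_num [kap]) (by rw [nrm_t, nrm_t, kap]; nlinarith)).trans_le
      (by norm_num [Bd])

theorem rowLip : SLip := by
  refine ⟨1 / 10 ^ 7, by norm_num, fun j g y z hy hz h hw => ?_⟩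
  have w0 : 0 ≤ nrm (ap g (vec j)) := by
    cases j
    · rw [nrm_f]
    · rw [nrm_t]; linarith [s2.2]
  have hk : 0 < kap' j ∧ 1002 / 1000 * kap' j ≤ kap j := by cases j <;> norm_num [kap, kap']
  obtain ⟨r, r0, hr, h1⟩ := key hy (ap g (vec j)) z
  have b := rev hy z
  rw [In, nsq] at hw
  rw [normSq_eq_norm_sq] at b h
  rw [In, normSq_eq_norm_sq]
  have p1 := mul_lt_mul'' hw h (sq_nonneg _) (sq_nonneg _)
  have p2 := hr.trans (mul_le_mul (show _ ≤ kap' j * nrm y by nlinarith [mul_nonneg hy.le w0])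
    (show _ ≤ 1 / 10 ^ 7 * nrm y * nrm z by linarith) (by linarith) (mul_pos hk.1 hy).le)
  have p3 := pow_le_pow_left₀ (mul_nonneg hy.le (norm_nonneg _)) h1 2
  have m0 := mul_pos (mul_pos hy hy) hz
  refine lt_of_mul_lt_mul_left (a := nrm y * nrm y) ?_ (mul_pos hy hy).le
  nlinarith [sq_nonneg (1000 * r - ‖herm y (ap g (vec j))‖ * ‖herm y z‖),
    mul_le_mul_of_nonneg_right hk.2 m0.le, mul_pos hk.1 m0]

end Pool.Agent.MP_d97ab6_al.H91
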