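import Pool.Agent.MP_d97ab6_al.H91.Sem

/-! Soundness of one identity and of the enumeration of the finite group. -/

namespace Pool.Agent.MP_d97ab6_al.H91

open Matrix Complex

namespace Cert91

theorem z4 : zeta ^ 4 = -1 := by
  have h : √2 * √2 = 2 := Real.mul_self_sqrt (by norm_num)
  have h2 : zeta ^ 2 = I := by
    rw [sq]
    apply Complex.ext
    · simp [zeta]
    · simp [zeta]; nlinarith
  rw [show 4 = 2 * 2 from rfl, pow_mul, h2, I_sq]

theorem pm_smul (k : ℕ) (sw : Bool) (a b : ℕ) (l0 l1 l2 l3 t2 : ℤ) :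
    pm k sw a b l0 l1 l2 l3 t2 = zeta ^ k • pm 0 sw a b l0 l1 l2 l3 t2 := by
  simp [pm]

theorem grp {D : Dat} (hP : SPgrp) (hS : SFacts D) (i : Bool) :
    ∃ P : Subgroup U31, (P : Set U31) = PP D i := by
  cases i
  · exact hP.2
  · exact hS.grp

theorem gm {D : Dat} (ka : KA) (kb : KB) (hP : SPgrp) (hS : SFacts D) (i : Bool) (c : ℕ) :
    ∃ p ∈ PP D i, ∀ X g b, RepM X g b → RepM (gmul D i c X) (((4 : ℂ) • p.1) * g) (2048 * b) := by
  cases i
  · obtain ⟨sw, a, b', l0, l1, l2, l3, t2, hv, h⟩ := kb.pmulC c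
    exact ⟨⟨_, hP.1 0 sw a b' l0 l1 l2 l3 t2⟩, ⟨0, sw, a, b', l0, l1, l2, l3, t2, hv, rfl⟩,
      fun X g b hX => ka.mono _ _ _ _ (h X g b hX) (by omega)⟩
  · exact ⟨⟨_, hS.isU c⟩, ⟨c, 0, by simp⟩, fun X g b hX => ka.dmul _ X g b hX⟩

theorem gr {D : Dat} (ka : KA) (kb : KB) (i : Bool) (c : ℕ) :
    ∃ m : M4, RepM (grow D i c) ((4 : ℂ) • m) 1024 ∧
      ∀ (k : ℕ) (q : U31), q.1 = zeta ^ k • m → q ∈ PP D i := by
  cases i
  · obtain ⟨sw, a, b', l0, l1, l2, l3, t2, hv, h⟩ := kb.pmulC c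
    refine ⟨pm 0 sw a b' l0 l1 l2 l3 t2, ?_, fun k q hq =>
      ⟨k, sw, a, b', l0, l1, l2, l3, t2, hv, hq.trans (pm_smul ..).symm⟩⟩
    have := h idR 1 1 ka.idR
    rwa [Matrix.mul_one, mul_one] at this
  · exact ⟨_, ka.mono _ _ _ _ (ka.rows _) (by omega), fun k q hq => ⟨c, k, hq⟩⟩

theorem of_cond {b : Bool} {a : ℕ} (h : cond b a 0 ≠ 0) : b = true := by
  cases b
  · exact absurd rfl h
  · rfl

theorem col0_mul (g h : M4) : col0 (g * h) = g *ᵥ col0 h := by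
  funext i
  simp [col0, Matrix.mul_apply, Matrix.mulVec, dotProduct]

theorem herm_smul (v y : V4) (c : ℂ) : herm v (c • y) = c * herm v y := by
  simp [herm]; ring

theorem vc {D : Dat} (h0 : col0 (cm D.v0) = vec false) (h1 : col0 (cm D.v1) = vec true) (k : Bool) :
    col0 (cm (D.vc k)) = vec k := by
  cases k
  · exact h0
  · exact h1

theorem bd (i k : Bool) : 10000 * (1024 ^ 2 * Bd i k) ≤ bdB i k := by
  cases i <;> cases k <;> norm_num [Bd, bdB]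

end Cert91

open Cert91 in
theorem rowCert91 : SCert := by
  intro ka kb hP D hS hR i k u1 X1 s t1 g hc ht hX
  have h := of_cond hc
  generalize Nat.mod s 2305843009213693952 = c at h
  obtain ⟨p, hp, hp2⟩ := gm ka kb hP hS i (Nat.mod c 33554432)
  obtain ⟨m, hm, hm2⟩ := gr (D := D) ka kb k (fld c 25 33554432)
  obtain ⟨r, hr, hri⟩ := hR i k (fld c 50 256)
  have h1 := ka.dmul (D.gRi i k (fld c 50 256)) _ _ _ (hp2 _ _ _ (ka.dmul u1 _ _ _ hX))
  have h2 := ka.eqs _ _ _ _ _ _ 8 (fld c 58 8) h h1 hm (by norm_num)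
  rw [← hri, ← ht] at h2
  have h3 : (r⁻¹ * (p * (t1⁻¹ * g))).1 = zeta ^ fld c 58 8 • m := by
    have e : (1024 : ℂ) • (r⁻¹ * (p * (t1⁻¹ * g))).1 = (1024 : ℂ) • zeta ^ fld c 58 8 • m := by
      simp only [U31.val_mul]
      simp only [Matrix.smul_mul, Matrix.mul_smul, smul_smul] at h2 ⊢
      convert h2 using 2
      · norm_num
      · ring
    exact smul_right_injective M4 (by norm_num : (1024 : ℂ) ≠ 0) e
  obtain ⟨P, hPe⟩ := grp hP hS i
  refine ⟨p⁻¹, ?_, r, ⟨_, hr⟩, _, hm2 _ _ h3, by group⟩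
  rw [← hPe] at hp ⊢
  exact P.inv_mem hp

open Cert91 in
theorem rowBall91 : SBall := by
  intro ka kb D h0 h1 hC i k n2 lo cnt s hs j hj n1 hn1 t1 σ t2 ht1 hσ ht2 hlt
  obtain ⟨a, -, ha⟩ := (loop_ne_zero hs).2 j hj
  obtain ⟨a', -, hb⟩ := (loop_ne_zero ha).2 n1 hn1
  have hX := ka.dmul (D.gS (lo + j)) _ _ _ (ka.rows (D.gR true k n2))
  have hZ := ka.dmul (D.gS (lo + j)) _ _ _ (ka.dmul (D.gR true k n2) _ _ _ (ka.rows (D.vc k)))
  unfold ball2 at hb
  cases hf : far (hval i (D.gRi true i n1) (dmul (D.gS (Nat.add lo j))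
      (dmul (D.gR true k n2) (rows (D.vc k))))) (bdB i k) with
  | false =>
    rw [hf, cond_false] at hb
    refine hC i k _ _ _ t1 (σ * t2) hb ht1 (ka.mono _ _ _ _ ?_ (by norm_num : 2048 * 512 ≤ 2 ^ 25))
    have e : (16 : ℂ) • (σ * t2).1 = (4 : ℂ) • cm (D.gS (lo + j)) * (4 : ℂ) • cm (D.gR true k n2) := by
      rw [U31.val_mul, hσ, ht2, Matrix.smul_mul, Matrix.mul_smul, smul_smul]
      norm_num
    rw [e]
    exact hX
  | true =>
    exfalso
    obtain ⟨y, hy, hy0⟩ := kb.hval i (D.gRi true i n1) _ _ _ hZ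
    have h2 := kb.far _ _ _ _ hy (by norm_num) hf
    have h3 : y 0 = 1024 * herm (ap t1 (vec i)) (ap (σ * t2) (vec k)) := by
      rw [hy0, ← herm_ap t1⁻¹ (ap t1 (vec i)), ← ap_mul, inv_mul_cancel, ap_one, ← ht1, ← hσ, ← ht2,
        col0_mul, col0_mul, col0_mul]
      have : col0 ((4 : ℂ) • cm (D.vc k)) = (4 : ℂ) • vec k := by rw [← vc h0 h1 k]; rfl
      rw [this, ap_mul]
      simp only [ap, Matrix.smul_mulVec, Matrix.mulVec_smul, herm_smul]
      ring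
    rw [h3, map_mul] at h2
    have h4 := bd i k
    have h5 : normSq (1024 : ℂ) = 1024 ^ 2 := by norm_num [normSq_apply]
    rw [h5] at h2
    generalize normSq (herm (ap t1 (vec i)) (ap (σ * t2) (vec k))) = w at h2 hlt
    generalize (bdB i k : ℝ) = z at h2 h4
    generalize Bd i k = v at h4 hlt
    clear * - h2 h4 hlt
    linarith

end Pool.Agent.MP_d97ab6_al.H91
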