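import Mathlib.Data.Nat.Basic
import Mathlib.Data.Int.Basic

/-! The certificate checkers (plain natural number arithmetic, evaluated by the kernel). -/

namespace Pool.Agent.MP_d97ab6_al.H91

/-- Binary trees used as lookup tables. -/
inductive Tr (α : Type) : Type
  | leaf : α → Tr α
  | node : Tr α → Tr α → Tr α

noncomputable def Tr.get {α : Type} (t : Tr α) : Nat → α :=
  Tr.rec (motive := fun _ => Nat → α) (fun a _ => a)
    (fun _ _ fl fr i => cond (Nat.beq (Nat.mod i 2) 0) (fl (Nat.div i 2)) (fr (Nat.div i 2))) t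

/-- State passing loop; state `0` is failure. -/
noncomputable def loop (n : Nat) (f : Nat → Nat → Nat) (s : Nat) : Nat :=
  Nat.rec (motive := fun _ => Nat) s (fun i acc => cond (Nat.beq acc 0) 0 (f i acc)) n

/-- Absolute difference. -/
def ad (a b : Nat) : Nat := Nat.add (Nat.sub a b) (Nat.sub b a)

def fld (s sh m : Nat) : Nat := Nat.mod (Nat.shiftRight s sh) m

/-! ### Packed arithmetic: `zeta` is `2^256` modulo `2^1024+1`, columns are packed by `2^64` -/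

def Mo : Nat := Nat.add (Nat.pow 2 1024) 1
def u4 : Nat := Nat.add (Nat.add 1 (Nat.pow 2 256)) (Nat.add (Nat.pow 2 512) (Nat.pow 2 768))
def u16 : Nat :=
  Nat.mul u4 (Nat.add (Nat.add 1 (Nat.pow 2 64)) (Nat.add (Nat.pow 2 128) (Nat.pow 2 192)))
def m4 : Nat := Nat.mul 255 u4
def o4 : Nat := Nat.sub Mo (Nat.mul 128 u4)
def m16 : Nat := Nat.mul 255 u16
def o16 : Nat := Nat.sub Mo (Nat.mul 128 u16)
def h16 : Nat := Nat.mul (Nat.pow 2 63) u16

/-- Entry `(i,j)` of a code, `sh = 8 i + 64 j`. -/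
def ent (c sh : Nat) : Nat := Nat.add (Nat.land (Nat.shiftRight c sh) m4) o4
/-- Row `i` of a code, `sh = 8 i`. -/
def row (c sh : Nat) : Nat := Nat.add (Nat.land (Nat.shiftRight c sh) m16) o16

structure R4 where
  r0 : Nat
  r1 : Nat
  r2 : Nat
  r3 : Nat

def rows (c : Nat) : R4 := ⟨row c 0, row c 8, row c 16, row c 24⟩

def drow (c s0 s1 s2 s3 : Nat) (X : R4) : Nat :=
  Nat.mod (Nat.add (Nat.add (Nat.mul (ent c s0) X.r0) (Nat.mul (ent c s1) X.r1))
    (Nat.add (Nat.mul (ent c s2) X.r2) (Nat.mul (ent c s3) X.r3))) Mo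

/-- Left multiplication by four times the matrix of a code. -/
def dmul (c : Nat) (X : R4) : R4 :=
  ⟨drow c 0 64 128 192 X, drow c 8 72 136 200 X, drow c 16 80 144 208 X, drow c 24 88 152 216 X⟩

def cA : Nat := Nat.sub Mo (Nat.add 32 (Nat.mul 32 (Nat.pow 2 512)))
def cB : Nat := Nat.sub (Nat.add Mo 32) (Nat.mul 32 (Nat.pow 2 512))
def cW : Nat := Nat.sub Mo (Nat.mul 136 (Nat.pow 2 512))

/-- `4 (l0 + i l1)` with `l = L - 8`. -/
def lam (L0 L1 : Nat) : Nat :=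
  Nat.add (Nat.add (Nat.mul 4 L0) (Nat.shiftLeft L1 514)) cA
/-- `-4 (l0 - i l1)`. -/
def mlam (L0 L1 : Nat) : Nat :=
  Nat.add (Nat.add (Nat.shiftLeft L0 1026) (Nat.shiftLeft L1 514)) cB
def sq8 (L : Nat) : Nat := Nat.mul (ad L 8) (ad L 8)
/-- `-2 |l|^2 + 2 i t2` with `t2 = T - 68`. -/
def wq (L0 L1 L2 L3 T : Nat) : Nat :=
  Nat.add (Nat.add (Nat.shiftLeft (Nat.add (Nat.add (sq8 L0) (sq8 L1)) (Nat.add (sq8 L2) (sq8 L3))) 1025)
    (Nat.shiftLeft T 513)) cW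

def pmul2 (L0 L1 L2 L3 T X0 Y1 Y2 X3 : Nat) : R4 :=
  ⟨Nat.mod (Nat.add (Nat.add (Nat.mul 4 X0) (Nat.mul (mlam L0 L1) Y1))
      (Nat.add (Nat.mul (mlam L2 L3) Y2) (Nat.mul (wq L0 L1 L2 L3 T) X3))) Mo,
    Nat.mod (Nat.add (Nat.mul 4 Y1) (Nat.mul (lam L0 L1) X3)) Mo,
    Nat.mod (Nat.add (Nat.mul 4 Y2) (Nat.mul (lam L2 L3) X3)) Mo,
    Nat.mul 4 X3⟩

/-- Left multiplication by `4 * pm 0 sw a b (L0-8) (L1-8) (L2-8) (L3-8) (T-68)`. -/
def pmulP (sw : Bool) (a b L0 L1 L2 L3 T : Nat) (X : R4) : R4 :=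
  pmul2 L0 L1 L2 L3 T X.r0 (Nat.shiftLeft (cond sw X.r2 X.r1) (Nat.mul 512 a))
    (Nat.shiftLeft (cond sw X.r1 X.r2) (Nat.mul 512 b)) X.r3

def par2 (L0 L1 : Nat) : Nat := Nat.add (Nat.mod L0 2) (Nat.mod L1 2)
def f4 (n1 n2 : Nat) : Nat :=
  Nat.mod (Nat.add (Nat.add n1 (Nat.mul 3 n2)) (Nat.mul 2 (Nat.mul n1 n2))) 4
def swOf (n1 n2 : Nat) : Bool := Nat.beq (Nat.mod (Nat.add n1 n2) 2) 1

def pmulC2 (a b L0 L1 L2 L3 m : Nat) (X : R4) : R4 :=
  pmulP (swOf (par2 L0 L1) (par2 L2 L3)) a b L0 L1 L2 L3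
    (Nat.add (Nat.mul 4 m) (f4 (par2 L0 L1) (par2 L2 L3))) X

/-- Left multiplication by the element of the cusp group with a 25 bit code. -/
def pmulC (c : Nat) (X : R4) : R4 :=
  pmulC2 (Nat.mod c 4) (fld c 2 4) (fld c 4 16) (fld c 8 16) (fld c 12 16) (fld c 16 16) (fld c 20 32) X

def idR : R4 := ⟨1, Nat.pow 2 64, Nat.pow 2 128, Nat.pow 2 192⟩
def id16 : R4 := ⟨16, Nat.pow 2 68, Nat.pow 2 132, Nat.pow 2 196⟩

def eq1 (x y sh : Nat) : Bool := Nat.beq (Nat.mod x Mo) (Nat.mod (Nat.shiftLeft y sh) Mo)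
/-- `X = 2^e zeta^k Y` where `sh = e + 256 k`. -/
def eqs (X Y : R4) (sh : Nat) : Bool :=
  and (and (eq1 X.r0 Y.r0 sh) (eq1 X.r1 Y.r1 sh)) (and (eq1 X.r2 Y.r2 sh) (eq1 X.r3 Y.r3 sh))

/-- A representative: code, code of the inverse, approximate coordinates. -/
structure Ent where
  g : Nat
  gi : Nat
  a0 : Nat
  a1 : Nat
  a2 : Nat
  a3 : Nat
  t : Nat
  u : Nat
  sg : Nat

/-- The tables. -/
structure Dat where
  s : Tr Nat
  ns : Nat
  r00 : Tr Ent
  n00 : Nat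
  r01 : Tr Ent
  n01 : Nat
  r11 : Tr Ent
  n11 : Nat
  idc : Nat
  v0 : Nat
  v1 : Nat

noncomputable section

def Dat.gS (D : Dat) (i : Nat) : Nat := D.s.get (Nat.mod i D.ns)
def Dat.e00 (D : Dat) (i : Nat) : Ent := D.r00.get (Nat.mod i D.n00)
def Dat.e01 (D : Dat) (i : Nat) : Ent := D.r01.get (Nat.mod i D.n01)
def Dat.e11 (D : Dat) (i : Nat) : Ent := D.r11.get (Nat.mod i D.n11)

/-- Code of a representative. -/
def Dat.gR (D : Dat) (i k : Bool) (n : Nat) : Nat :=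
  cond i (cond k (D.e11 n).g (D.e01 n).gi) (cond k (D.e01 n).g (cond (Nat.beq n 255) D.idc (D.e00 n).g))
/-- Code of the inverse of a representative. -/
def Dat.gRi (D : Dat) (i k : Bool) (n : Nat) : Nat :=
  cond i (cond k (D.e11 n).gi (D.e01 n).g) (cond k (D.e01 n).gi (cond (Nat.beq n 255) D.idc (D.e00 n).gi))
def Dat.nR (D : Dat) (i k : Bool) : Nat := cond i (cond k D.n11 D.n01) (cond k D.n01 D.n00)
def Dat.vc (D : Dat) (i : Bool) : Nat := cond i D.v1 D.v0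

def gmul (D : Dat) (i : Bool) (c : Nat) (X : R4) : R4 := cond i (dmul (D.gS c) X) (pmulC c X)
def grow (D : Dat) (i : Bool) (c : Nat) : R4 := cond i (rows (D.gS c)) (pmulC c idR)

def cert2 (D : Dat) (i k : Bool) (u1 : Nat) (X1 : R4) (c : Nat) : Bool :=
  eqs (dmul (D.gRi i k (fld c 50 256)) (gmul D i (Nat.mod c 33554432) (dmul u1 X1)))
    (grow D k (fld c 25 33554432)) (Nat.add 8 (Nat.mul 256 (fld c 58 8)))

/-- One identity `t⁻¹ p' u1 X1 = zeta^k q`, read from the stream; `X1` has scale 16. -/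
def cert (D : Dat) (i k : Bool) (u1 : Nat) (X1 : R4) (s : Nat) : Nat :=
  cond (cert2 D i k u1 X1 (Nat.mod s 2305843009213693952)) (Nat.shiftRight s 61) 0

/-! ### Enumeration of the cusp group, fixed point scale `2^28`, bias `2^30` -/

def newt (R r : Nat) : Nat := Nat.add (Nat.div (Nat.add r (Nat.div R r)) 2) 1
def sqrtUp (R : Nat) : Nat :=
  newt R (newt R (newt R (Nat.pow 2 (Nat.add (Nat.div (Nat.log2 R) 2) 1))))

def lvl2 (lo d rem : Nat) (f : Nat → Nat → Nat → Nat) (j acc : Nat) : Nat :=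
  cond (Nat.ble rem (Nat.mul (Nat.sub (ad d (Nat.mul (Nat.add lo j) 268435456)) 2)
      (Nat.sub (ad d (Nat.mul (Nat.add lo j) 268435456)) 2))) acc
    (f (Nat.add lo j) (Nat.sub rem (Nat.mul (Nat.sub (ad d (Nat.mul (Nat.add lo j) 268435456)) 2)
      (Nat.sub (ad d (Nat.mul (Nat.add lo j) 268435456)) 2))) acc)

def lvl1 (r d rem : Nat) (f : Nat → Nat → Nat → Nat) (s : Nat) : Nat :=
  loop (Nat.sub (Nat.add (Nat.div (Nat.add d r) 268435456) 1)
      (Nat.div (Nat.add (Nat.sub d r) 268435455) 268435456))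
    (lvl2 (Nat.div (Nat.add (Nat.sub d r) 268435455) 268435456) d rem f) s

/-- All `L` with `|X - Y + 8 S - L S| ≤ r` that pass the test against `rem`. -/
def lvl (r X Y rem : Nat) (f : Nat → Nat → Nat → Nat) (s : Nat) : Nat :=
  lvl1 r (Nat.sub (Nat.add X 2147483648) Y) rem f s

def rotX (a X Y : Nat) : Nat :=
  cond (Nat.beq a 0) X (cond (Nat.beq a 1) (Nat.sub 2147483648 Y) (cond (Nat.beq a 2) (Nat.sub 2147483648 X) Y))
def rotY (a X Y : Nat) : Nat :=
  cond (Nat.beq a 0) Y (cond (Nat.beq a 1) X (cond (Nat.beq a 2) (Nat.sub 2147483648 Y) (Nat.sub 2147483648 X)))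

/-- Positive part of `S^2 (l0 (y1+x1) - l1 (y0+x0) + y0 x1 - y1 x0)`. -/
def posP (L0 L1 X0 X1 Y0 Y1 : Nat) : Nat :=
  Nat.add (Nat.mul (Nat.add (Nat.add (Nat.mul L0 (Nat.add Y1 X1)) (Nat.mul 8 (Nat.add Y0 X0)))
      (Nat.mul 2147483648 L1)) 268435456)
    (Nat.add (Nat.mul Y0 X1) (Nat.mul 1073741824 (Nat.add Y1 X0)))

def tl2 (rho A G lo : Nat) (f : Nat → Nat → Nat) (j acc : Nat) : Nat :=
  cond (Nat.ble (Nat.mul (Nat.mul rho rho) 288230376151711744)
      (Nat.add (Nat.mul A A) (Nat.mul 4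
        (Nat.mul (Nat.sub (ad G (Nat.mul (Nat.add lo j) 144115188075855872)) 107374182400)
          (Nat.sub (ad G (Nat.mul (Nat.add lo j) 144115188075855872)) 107374182400))))) acc
    (f (Nat.add lo j) acc)

def tl1 (rho A G w : Nat) (f : Nat → Nat → Nat) (s : Nat) : Nat :=
  loop (Nat.sub (Nat.add (Nat.div (Nat.add G w) 144115188075855872) 1)
      (Nat.div (Nat.add (Nat.sub G w) 144115188075855871) 144115188075855872))
    (tl2 rho A G (Nat.div (Nat.add (Nat.sub G w) 144115188075855871) 144115188075855872) f) s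

def tl0 (rho A P N w : Nat) (f : Nat → Nat → Nat) (s : Nat) : Nat :=
  cond (Nat.ble (Nat.add N w) P) (tl1 rho A (Nat.sub P N) w f s) 0

def fin2 (D : Dat) (i k : Bool) (e1 e2 : Ent) (sw : Bool) (a b L0 L1 L2 L3 F m acc : Nat) : Nat :=
  cond (and (Nat.ble (Nat.add (Nat.add L0 L1) (Nat.add L2 L3)) 64) (Nat.ble m 31))
    (cert D i k e1.gi (pmulP sw a b L0 L1 L2 L3 (Nat.add (Nat.mul 4 m) F) (rows e2.g)) acc) 0

def fin1 (D : Dat) (i k : Bool) (e1 e2 : Ent) (rho uu R2 : Nat) (sw : Bool)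
    (a b Y0 Y1 Y2 Y3 L0 L1 L2 L3 rem s : Nat) : Nat :=
  cond (Nat.beq (Nat.mod (Nat.add (par2 L0 L1) (par2 L2 L3)) 2) (cond sw 1 0))
    (cond (Nat.ble (Nat.add (Nat.add L0 L1) (Nat.add L2 L3)) 64)
      (tl0 rho (Nat.add (Nat.sub R2 rem) (Nat.mul uu 268435456))
        (Nat.add (Nat.mul (Nat.add e1.t 9126805504) 268435456)
          (Nat.add (posP L0 L1 e1.a0 e1.a1 Y0 Y1) (posP L2 L3 e1.a2 e1.a3 Y2 Y3)))
        (Nat.add (Nat.mul (Nat.add e2.t (Nat.mul (f4 (par2 L0 L1) (par2 L2 L3)) 134217728)) 268435456)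
          (Nat.add (posP L1 L0 e1.a1 e1.a0 Y1 Y0) (posP L3 L2 e1.a3 e1.a2 Y3 Y2)))
        (Nat.add (Nat.mul rho 268435456) 107374182400)
        (fin2 D i k e1 e2 sw a b L0 L1 L2 L3 (f4 (par2 L0 L1) (par2 L2 L3))) s) 0) s

def enumB (D : Dat) (i k : Bool) (e1 e2 : Ent) (rho uu R2 r : Nat) (sw : Bool)
    (a Y0 Y1 L0 L1 rem b Y2 Y3 s : Nat) : Nat :=
  lvl r e1.a2 Y2 rem (fun L2 rem2 => lvl r e1.a3 Y3 rem2 (fun L3 rem3 =>
    fin1 D i k e1 e2 rho uu R2 sw a b Y0 Y1 Y2 Y3 L0 L1 L2 L3 rem3)) s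

def enumA (D : Dat) (i k : Bool) (e1 e2 : Ent) (rho uu R2 r : Nat) (sw : Bool)
    (p2 p3 a Y0 Y1 s : Nat) : Nat :=
  lvl r e1.a0 Y0 R2 (fun L0 rem0 => lvl r e1.a1 Y1 rem0 (fun L1 rem1 =>
    loop 4 (fun b => enumB D i k e1 e2 rho uu R2 r sw a Y0 Y1 L0 L1 rem1 b (rotX b p2 p3) (rotY b p2 p3)))) s

def enumS (D : Dat) (i k : Bool) (e1 e2 : Ent) (rho uu R2 r : Nat) (sw : Bool)
    (p0 p1 p2 p3 s : Nat) : Nat :=
  loop 4 (fun a => enumA D i k e1 e2 rho uu R2 r sw p2 p3 a (rotX a p0 p1) (rotY a p0 p1)) s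

def enum2 (D : Dat) (i k : Bool) (e1 e2 : Ent) (rho uu R2 r s : Nat) : Nat :=
  cond (Nat.ble r 1073741824)
    (loop 2 (fun w => cond (Nat.beq w 0)
      (enumS D i k e1 e2 rho uu R2 r false e2.a0 e2.a1 e2.a2 e2.a3)
      (enumS D i k e1 e2 rho uu R2 r true e2.a2 e2.a3 e2.a0 e2.a1)) s) 0

def enum1 (D : Dat) (i k : Bool) (e1 e2 : Ent) (rho uu s : Nat) : Nat :=
  cond (Nat.ble (Nat.mul 2 rho) uu) s
    (enum2 D i k e1 e2 rho uu (Nat.mul (Nat.sub (Nat.mul 2 rho) uu) 268435456)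
      (Nat.add (sqrtUp (Nat.mul (Nat.sub (Nat.mul 2 rho) uu) 268435456)) 2) s)

/-- Upper bounds for `2^28 * sqrt (Bd i k)`. -/
def bdN (i k : Bool) : Nat := cond i (cond k 181268500 539548700) (cond k 539548700 1687308600)

/-- All elements of the cusp group for one pair of representatives. -/
def enumPair (D : Dat) (i k : Bool) (e1 e2 : Ent) (s : Nat) : Nat :=
  enum1 D i k e1 e2
    (Nat.add (Nat.shiftRight (Nat.mul (bdN i k) (Nat.mul e1.sg e2.sg)) 56) 1)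
    (Nat.sub (Nat.add e1.u e2.u) 2) s

def Dat.e0 (D : Dat) (i : Bool) (n : Nat) : Ent := cond i (D.e01 n) (D.e00 n)

/-- One first representative against `cnt` second representatives from `lo` on. -/
def checkInf (D : Dat) (i k : Bool) (n1 lo cnt s : Nat) : Nat :=
  loop cnt (fun j => enumPair D i k (D.e0 i n1) (D.e0 k (Nat.add lo j))) s

/-- Inverses of the representatives. -/
def checkSym (D : Dat) (i : Bool) (s : Nat) : Nat :=
  loop (D.nR i i) (fun n => cert D i i (D.gRi i i n) id16) s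

/-! ### The finite group -/

def dig (n sh : Nat) : Nat := Nat.mod (Nat.shiftRight n sh) 18446744073709551616
def hh : Nat := 9223372036854775808
def sqh (A : Nat) : Nat := Nat.mul (ad A hh) (ad A hh)

def far2 (A B C E bd : Nat) : Bool :=
  Nat.ble (Nat.add bd (Nat.mul 14143
      (Nat.sub (Nat.add (Nat.mul E A) (Nat.mul 18446744073709551616 (Nat.add B C)))
        (Nat.add (Nat.add (Nat.mul A B) (Nat.mul B C))
          (Nat.add (Nat.mul C E) 170141183460469231731687303715884105728)))))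
    (Nat.add (Nat.mul 10000 (Nat.add (Nat.add (sqh A) (sqh B)) (Nat.add (sqh C) (sqh E))))
      (Nat.mul 14142 (Nat.sub (Nat.add (Nat.add (Nat.mul A B) (Nat.mul B C))
          (Nat.add (Nat.mul C E) 170141183460469231731687303715884105728))
        (Nat.add (Nat.mul E A) (Nat.mul 18446744073709551616 (Nat.add B C))))))

def far1 (n bd : Nat) : Bool := far2 (dig n 0) (dig n 256) (dig n 512) (dig n 768) bd

/-- The squared modulus of the entry in column 0 of a packed row is at least `bd / 10000`. -/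
def far (x bd : Nat) : Bool := far1 (Nat.mod (Nat.add x h16) Mo) bd

/-- `4 * conj (vec true 0) = -2 + 4 zeta^2 - 2 zeta^3`. -/
def cV : Nat := Nat.sub (Nat.add Mo (Nat.pow 2 514)) (Nat.add 2 (Nat.pow 2 769))

/-- `1024 * herm (vec i) (u1 z)` for `Z` of scale 64. -/
def hval (i : Bool) (u1 : Nat) (Z : R4) : Nat :=
  cond i (Nat.add (Nat.mul cV (drow u1 24 88 152 216 Z)) (Nat.mul 4 (drow u1 0 64 128 192 Z)))
    (Nat.mul 4 (drow u1 24 88 152 216 Z))

/-- Upper bounds for `10000 * 1024^2 * Bd i k`. -/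
def bdB (i k : Bool) : Nat := cond i (cond k 4781506560 42362470400) (cond k 42362470400 414294517552)

def ball2 (D : Dat) (i k : Bool) (Z X1 : R4) (n1 acc : Nat) : Nat :=
  cond (far (hval i (D.gRi true i n1) Z) (bdB i k)) acc (cert D i k (D.gRi true i n1) X1 acc)

def ball1 (D : Dat) (i k : Bool) (g2 sc acc : Nat) : Nat :=
  loop (D.nR true i) (ball2 D i k (dmul sc (dmul g2 (rows (D.vc k)))) (dmul sc (rows g2))) acc

/-- One second representative, `cnt` elements of the finite group from `lo` on. -/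
def checkBall (D : Dat) (i k : Bool) (n2 lo cnt s : Nat) : Nat :=
  loop cnt (fun j => ball1 D i k (D.gR true k n2) (D.gS (Nat.add lo j))) s

/-- Generator number `e` (index `e+1` in the list) times element `n` is a listed element. -/
def grp1 (D : Dat) (e n acc : Nat) : Nat :=
  cond (eqs (dmul (D.gS (Nat.add e 1)) (rows (D.gS n))) (rows (D.gS (Nat.mod acc 512)))
    (Nat.add 2 (Nat.mul 256 (fld acc 9 8)))) (Nat.shiftRight acc 12) 0
def checkGrp (D : Dat) (e s : Nat) : Nat := loop D.ns (grp1 D e) s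

/-- Element `n+4` is a generator times an earlier element. -/
def wrd1 (D : Dat) (n acc : Nat) : Nat :=
  cond (and (Nat.ble (Nat.mod acc 512) (Nat.add n 3))
    (eqs (dmul (D.gS (Nat.add (Nat.mod (fld acc 12 4) 3) 1)) (rows (D.gS (Nat.mod acc 512))))
      (rows (D.gS (Nat.add n 4))) (Nat.add 2 (Nat.mul 256 (fld acc 9 8))))) (Nat.shiftRight acc 14) 0
def checkWrd (D : Dat) (s : Nat) : Nat := loop (Nat.sub D.ns 4) (wrd1 D) s

/-- The code `gi` is the adjoint of the code `g`, and the product is the identity. -/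
def adj1 (g gi a b : Nat) : Bool :=
  and (and (Nat.beq (fld gi a 256) (fld g b 256))
      (Nat.beq (Nat.add (fld gi (Nat.add a 256) 256) (fld g (Nat.add b 768) 256)) 256))
    (and (Nat.beq (Nat.add (fld gi (Nat.add a 512) 256) (fld g (Nat.add b 512) 256)) 256)
      (Nat.beq (Nat.add (fld gi (Nat.add a 768) 256) (fld g (Nat.add b 256) 256)) 256))
def sig (i : Nat) : Nat := cond (Nat.beq i 0) 3 (cond (Nat.beq i 3) 0 i)
def uOK (g gi : Nat) : Bool :=
  and (Nat.beq (loop 4 (fun i => loop 4 (fun j acc =>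
      cond (adj1 g gi (Nat.add (Nat.mul 8 i) (Nat.mul 64 j))
        (Nat.add (Nat.mul 8 (sig j)) (Nat.mul 64 (sig i)))) acc 0)) 1) 1)
    (eqs (dmul gi (rows g)) idR 4)

def ord4 (g : Nat) : Bool := eqs (dmul g (dmul g (dmul g (rows g)))) idR 8
def fixV (D : Dat) (g : Nat) : Bool := eqs (dmul g (rows D.v1)) (rows D.v1) 2

/-- Small facts about the first four elements of the list of the finite group. -/
def checkMisc (D : Dat) (g3i : Nat) : Bool :=
  and (and (and (eqs (rows D.idc) idR 2) (eqs (rows (D.gS 0)) idR 2))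
      (and (eqs (pmulP false 1 0 8 8 8 8 68 idR) (rows (D.gS 1)) 0)
        (eqs (pmulP false 0 1 8 8 8 8 68 idR) (rows (D.gS 2)) 0)))
    (and (and (uOK (D.gS 3) g3i) (and (ord4 (D.gS 3)) (fixV D (D.gS 3))))
      (and (and (Nat.ble 4 D.ns) (Nat.ble D.ns 512))
        (and (and (Nat.ble 1 D.n00) (Nat.ble D.n00 255)) (and (Nat.ble 1 D.n01) (Nat.ble 1 D.n11)))))

/-! ### Approximate coordinates -/

structure Z8 where
  a : Int
  b : Int
  c : Int
  d : Int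

def dec1 (n : Nat) : Z8 :=
  ⟨Int.subNatNat (dig n 0) hh, Int.subNatNat (dig n 256) hh, Int.subNatNat (dig n 512) hh,
    Int.subNatNat (dig n 768) hh⟩
def dec (x : Nat) : Z8 := dec1 (Nat.mod (Nat.add x h16) Mo)

/-- `x * conj y`. -/
def mulc (x y : Z8) : Z8 :=
  ⟨x.a * y.a + x.b * y.b + x.c * y.c + x.d * y.d, x.b * y.a - x.a * y.d + x.c * y.b + x.d * y.c,
    x.c * y.a - x.a * y.c - x.b * y.d + x.d * y.b, x.d * y.a - x.a * y.b - x.b * y.c - x.c * y.d⟩

/-- `0 ≤ p + q * sqrt 2`. -/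
def nn (p q : Int) : Bool :=
  cond (decide (0 ≤ p)) (or (decide (0 ≤ q)) (decide (2 * (q * q) ≤ p * p)))
    (and (decide (0 ≤ q)) (decide (p * p ≤ 2 * (q * q))))

/-- `|X n - 2^28 p| ≤ n` for `n = n1 + n2 sqrt 2`, `p = p1 + p2 sqrt 2`. -/
def cls (X p1 p2 n1 n2 : Int) : Bool :=
  and (nn ((X + 1) * n1 - 268435456 * p1) ((X + 1) * n2 - 268435456 * p2))
    (nn (268435456 * p1 - (X - 1) * n1) (268435456 * p2 - (X - 1) * n2))

def rng (X : Nat) : Bool := and (Nat.ble 536870912 X) (Nat.ble X 1610612736)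

def co2 (n q0 q1 q2 w1 w2 : Z8) (a0 a1 a2 a3 t u : Nat) : Bool :=
  and (and (and (cls (Int.subNatNat a0 1073741824) (2 * q1.a) (q1.b - q1.d) (2 * n.a) (n.b - n.d))
        (cls (Int.subNatNat a1 1073741824) (2 * q1.c) (q1.b + q1.d) (2 * n.a) (n.b - n.d)))
      (and (cls (Int.subNatNat a2 1073741824) (2 * q2.a) (q2.b - q2.d) (2 * n.a) (n.b - n.d))
        (cls (Int.subNatNat a3 1073741824) (2 * q2.c) (q2.b + q2.d) (2 * n.a) (n.b - n.d))))
    (and (and (cls (Int.subNatNat t 1073741824) (2 * q0.c) (q0.b + q0.d) (2 * n.a) (n.b - n.d))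
        (cls (Int.ofNat u) (-(4 * q0.a + 2 * w1.a + 2 * w2.a))
          (-(2 * (q0.b - q0.d) + (w1.b - w1.d) + (w2.b - w2.d))) (2 * n.a) (n.b - n.d)))
      (and (and (rng a0) (rng a1)) (and (rng a2) (rng a3))))

def co1 (v0 v1 v2 v3 : Z8) (a0 a1 a2 a3 t u : Nat) : Bool :=
  co2 (mulc v3 v3) (mulc v0 v3) (mulc v1 v3) (mulc v2 v3) (mulc v1 v1) (mulc v2 v2) a0 a1 a2 a3 t u

/-- The numbers approximate the Siegel coordinates of column 0 of `V`. -/
def coOK (V : R4) (a0 a1 a2 a3 t u : Nat) : Bool :=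
  co1 (dec V.r0) (dec V.r1) (dec V.r2) (dec V.r3) a0 a1 a2 a3 t u

/-- `q ≤ p * |entry|^2` for the entry in column 0 of a packed row. -/
def nge (x p q : Nat) : Bool :=
  nn (Int.ofNat p * (2 * (mulc (dec x) (dec x)).a) - 2 * Int.ofNat q)
    (Int.ofNat p * ((mulc (dec x) (dec x)).b - (mulc (dec x) (dec x)).d))
/-- `p * |entry|^2 ≤ q`. -/
def nle (x p q : Nat) : Bool :=
  nn (2 * Int.ofNat q - Int.ofNat p * (2 * (mulc (dec x) (dec x)).a))
    (-(Int.ofNat p * ((mulc (dec x) (dec x)).b - (mulc (dec x) (dec x)).d)))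

def entOK2 (k : Bool) (V : R4) (e : Ent) : Bool :=
  and (and (uOK e.g e.gi) (coOK V e.a0 e.a1 e.a2 e.a3 e.t e.u))
    (and (nge V.r3 (Nat.mul e.sg e.sg) 18446744073709551616) (or k (nge V.r3 1 256)))
/-- A representative seen from the cusp. -/
def entOK (D : Dat) (k : Bool) (n : Nat) : Bool :=
  entOK2 k (dmul (D.e0 k n).g (rows (D.vc k))) (D.e0 k n)
def checkEnt (D : Dat) (k : Bool) (lo cnt : Nat) : Nat :=
  loop cnt (fun j acc => cond (entOK D k (Nat.add lo j)) acc 0) 1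
def checkE11 (D : Dat) : Nat := loop D.n11 (fun n acc => cond (uOK (D.e11 n).g (D.e11 n).gi) acc 0) 1

/-! ### Covering -/

/-- A neighbouring chart: type, group code, representative, approximate data. -/
structure Ch where
  j : Bool
  pc : Nat
  ri : Nat
  a0 : Nat
  a1 : Nat
  a2 : Nat
  a3 : Nat
  t : Nat
  u : Nat
  kl : Nat

def chOK2 (V : R4) (c : Ch) : Bool :=
  and (and (coOK V c.a0 c.a1 c.a2 c.a3 c.t c.u) (nge V.r3 1000000 1))
    (nle V.r3 (Nat.mul c.kl (cond c.j 1000 125)) (Nat.mul (cond c.j 483 392) 1099511627776))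
def chOK (D : Dat) (i : Bool) (c : Ch) : Bool :=
  chOK2 (gmul D i c.pc (dmul (D.gR i c.j c.ri) (rows (D.vc c.j)))) c
def checkCh (D : Dat) (i : Bool) (tb : Tr Ch) (lo cnt : Nat) : Nat :=
  loop cnt (fun j acc => cond (chOK D i (tb.get (Nat.add lo j))) acc 0) 1

structure Bx where
  c0 : Nat
  c1 : Nat
  c2 : Nat
  c3 : Nat
  c4 : Nat
  c5 : Nat
  h0 : Nat
  h1 : Nat
  h2 : Nat
  h3 : Nat
  h4 : Nat
  h5 : Nat

def sqe (c a h : Nat) : Nat :=
  Nat.mul (Nat.add (Nat.add (ad c a) h) 1) (Nat.add (Nat.add (ad c a) h) 1)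

def in3 (A t4 K u : Nat) : Bool :=
  Nat.blt (Nat.add (Nat.mul (Nat.add A (Nat.mul u 268435456)) (Nat.add A (Nat.mul u 268435456))) t4)
    (Nat.mul K u)
def in2 (A tau K u1 u2 : Nat) : Bool :=
  and (in3 A (Nat.mul 4 (Nat.mul tau tau)) K u1) (in3 A (Nat.mul 4 (Nat.mul tau tau)) K u2)

/-- The box lies in the shrunk chart. -/
def inT (c : Ch) (b : Bx) : Bool :=
  in2 (Nat.add (Nat.add (Nat.add (sqe b.c0 c.a0 b.h0) (sqe b.c1 c.a1 b.h1))
        (Nat.add (sqe b.c2 c.a2 b.h2) (sqe b.c3 c.a3 b.h3))) (Nat.mul (Nat.add c.u 1) 268435456))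
    (Nat.add (Nat.add
      (ad (Nat.add (Nat.add (Nat.mul b.c4 268435456) (Nat.add (Nat.mul c.a0 b.c1) (Nat.mul c.a2 b.c3)))
            (Nat.mul 1073741824 (Nat.add (Nat.add c.a1 b.c0) (Nat.add c.a3 b.c2))))
          (Nat.add (Nat.add (Nat.mul c.t 268435456) (Nat.add (Nat.mul c.a1 b.c0) (Nat.mul c.a3 b.c2)))
            (Nat.mul 1073741824 (Nat.add (Nat.add c.a0 b.c1) (Nat.add c.a2 b.c3)))))
      (Nat.mul (Nat.add b.h4 5) 268435456))
      (Nat.add (Nat.add (Nat.mul (ad c.a0 1073741824) b.h1) (Nat.mul (ad c.a1 1073741824) b.h0))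
        (Nat.add (Nat.mul (ad c.a2 1073741824) b.h3) (Nat.mul (ad c.a3 1073741824) b.h2))))
    (Nat.mul c.kl 288230376151711744) (Nat.sub b.c5 b.h5) (Nat.add b.c5 b.h5)

def sql (c h : Nat) : Nat := Nat.mul (Nat.sub (ad c 1073741824) h) (Nat.sub (ad c 1073741824) h)
def out2 (A tau u : Nat) : Bool :=
  Nat.ble (Nat.mul (Nat.mul 129922761 288230376151711744) u)
    (Nat.add (Nat.mul A A) (Nat.mul 288230376151711744 (Nat.mul tau tau)))
/-- The box misses the ball. -/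
def outT (b : Bx) : Bool :=
  out2 (Nat.add (Nat.add (Nat.add (sql b.c0 b.h0) (sql b.c1 b.h1)) (Nat.add (sql b.c2 b.h2) (sql b.c3 b.h3)))
      (Nat.mul (Nat.add (Nat.sub b.c5 b.h5) 78622924) 268435456))
    (Nat.sub (ad b.c4 900212633) (Nat.add b.h4 1)) (Nat.add b.c5 b.h5)

def eqB (a b : Bx) : Bool :=
  and (and (and (and (Nat.beq a.c0 b.c0) (Nat.beq a.c1 b.c1)) (and (Nat.beq a.c2 b.c2) (Nat.beq a.c3 b.c3)))
      (and (Nat.beq a.c4 b.c4) (Nat.beq a.c5 b.c5)))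
    (and (and (and (Nat.beq a.h0 b.h0) (Nat.beq a.h1 b.h1)) (and (Nat.beq a.h2 b.h2) (Nat.beq a.h3 b.h3)))
      (and (Nat.beq a.h4 b.h4) (Nat.beq a.h5 b.h5)))

def hf (h : Nat) : Nat := Nat.div (Nat.add h 1) 2

def both (r : Bx → Nat → Nat) (b1 b2 : Bx) (s : Nat) : Nat :=
  cond (Nat.beq (r b1 s) 0) 0 (r b2 (r b1 s))

def split (r : Bx → Nat → Nat) (d : Nat) (b : Bx) (s : Nat) : Nat :=
  cond (Nat.ble d 2)
    (cond (Nat.beq d 0)
      (both r { b with c0 := Nat.sub b.c0 (hf b.h0), h0 := hf b.h0 }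
        { b with c0 := Nat.add b.c0 (hf b.h0), h0 := hf b.h0 } s)
      (cond (Nat.beq d 1)
        (both r { b with c1 := Nat.sub b.c1 (hf b.h1), h1 := hf b.h1 }
          { b with c1 := Nat.add b.c1 (hf b.h1), h1 := hf b.h1 } s)
        (both r { b with c2 := Nat.sub b.c2 (hf b.h2), h2 := hf b.h2 }
          { b with c2 := Nat.add b.c2 (hf b.h2), h2 := hf b.h2 } s)))
    (cond (Nat.beq d 3)
      (both r { b with c3 := Nat.sub b.c3 (hf b.h3), h3 := hf b.h3 }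
        { b with c3 := Nat.add b.c3 (hf b.h3), h3 := hf b.h3 } s)
      (cond (Nat.beq d 4)
        (both r { b with c4 := Nat.sub b.c4 (hf b.h4), h4 := hf b.h4 }
          { b with c4 := Nat.add b.c4 (hf b.h4), h4 := hf b.h4 } s)
        (both r { b with c5 := Nat.sub b.c5 (hf b.h5), h5 := hf b.h5 }
          { b with c5 := Nat.add b.c5 (hf b.h5), h5 := hf b.h5 } s)))

def leafT (i : Bool) (tb : Tr Ch) (nt : Nat) (kb : Tr Bx) (nk d : Nat) (b : Bx) : Bool :=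
  cond (Nat.ble 8 d)
    (cond (Nat.ble 300 d) (and (Nat.blt (Nat.sub d 300) nk) (eqB b (kb.get (Nat.sub d 300))))
      (and (Nat.blt (Nat.sub d 8) nt) (inT (tb.get (Nat.sub d 8)) b)))
    (cond (Nat.beq d 6) (Nat.ble (Nat.add b.h5 85598041) b.c5) (and i (outT b)))

def step (i : Bool) (tb : Tr Ch) (nt : Nat) (kb : Tr Bx) (nk : Nat) (r : Bx → Nat → Nat) (b : Bx)
    (s : Nat) : Nat :=
  cond (Nat.ble (Nat.mod s 512) 5) (split r (Nat.mod s 512) b (Nat.shiftRight s 9))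
    (cond (leafT i tb nt kb nk (Nat.mod s 512) b) (Nat.shiftRight s 9) 0)

/-- Subdivision of a box along the stream. -/
def run (i : Bool) (tb : Tr Ch) (nt : Nat) (kb : Tr Bx) (nk fuel : Nat) : Bx → Nat → Nat :=
  Nat.rec (motive := fun _ => Bx → Nat → Nat) (fun _ _ => 0) (fun _ r => step i tb nt kb nk r) fuel

end

end Pool.Agent.MP_d97ab6_al.H91
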