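import Pool.Agent.MP_d97ab6_al.H91.Spec

/-! From the monodromy lemma to the group generated along chains of pieces. -/

namespace Pool.Agent.MP_d97ab6_al.H91

open Matrix Complex Topology
open scoped ComplexConjugate

namespace Core

abbrev E3 := Fin 3 → ℂ

/-- The vector with last coordinate one. -/
def lf (x : E3) : V4 := ![x 0, x 1, x 2, 1]

theorem herm_lf (v : V4) (x : E3) :
    herm v (lf x) = conj (v 0) + conj (v 1) * x 1 + conj (v 2) * x 2 + conj (v 3) * x 0 := by
  simp [herm, lf]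

theorem nrm_eq (y : V4) :
    nrm y = -(2 * (conj (y 0) * y 3).re + normSq (y 1) + normSq (y 2)) := by
  simp only [nrm, herm, add_re, mul_re, conj_re, conj_im, normSq_apply]
  ring

theorem nrm_lf (x : E3) : nrm (lf x) = -(2 * (x 0).re + normSq (x 1) + normSq (x 2)) := by
  rw [nrm_eq]
  simp [lf]

theorem normSq_conv (p q : ℂ) (a b : ℝ) (ha : 0 ≤ a) (hb : 0 ≤ b) (hab : a + b = 1) :
    normSq (a * p + b * q) ≤ a * normSq p + b * normSq q := by
  have h1 : b = 1 - a := by linarith
  subst h1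
  simp only [normSq_apply, add_re, add_im, mul_re, mul_im, ofReal_re, ofReal_im]
  nlinarith [mul_nonneg (mul_nonneg ha hb) (sq_nonneg (p.re - q.re)),
    mul_nonneg (mul_nonneg ha hb) (sq_nonneg (p.im - q.im))]

/-- The piece in affine coordinates. -/
def Pc (k : ℝ) (v : V4) : Set E3 := {x | In k v (lf x)}

theorem conv_Pc (k : ℝ) (hk : 0 < k) (v : V4) : Convex ℝ (Pc k v) := by
  intro x hx y hy a b ha hb hab
  simp only [Pc, In, Set.mem_ofPred_eq] at hx hy ⊢
  have hc : (a : ℂ) + b = 1 := by exact_mod_cast hab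
  have e1 : herm v (lf (a • x + b • y)) = a * herm v (lf x) + b * herm v (lf y) := by
    simp only [herm_lf, Pi.add_apply, Pi.smul_apply, real_smul]
    linear_combination (-(conj (v 0))) * hc
  have e2 : a * nrm (lf x) + b * nrm (lf y) ≤ nrm (lf (a • x + b • y)) := by
    simp only [nrm_lf, Pi.add_apply, Pi.smul_apply, real_smul]
    have h1 := normSq_conv (x 1) (y 1) a b ha hb hab
    have h2 := normSq_conv (x 2) (y 2) a b ha hb hab
    simp only [add_re, mul_re, ofReal_re, ofReal_im]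
    nlinarith
  have e3 := normSq_conv (herm v (lf x)) (herm v (lf y)) a b ha hb hab
  rw [e1]
  have e4 : a * normSq (herm v (lf x)) + b * normSq (herm v (lf y)) <
      a * (k * nrm (lf x)) + b * (k * nrm (lf y)) := by
    rcases eq_or_lt_of_le ha with h0 | h0
    · subst h0
      have : b = 1 := by linarith
      subst this
      simpa using hy
    · have := mul_lt_mul_of_pos_left hx h0
      have := mul_le_mul_of_nonneg_left hy.le hb
      linarith
  have e5 := mul_le_mul_of_nonneg_left e2 hk.le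
  nlinarith

theorem cont_lf : Continuous lf := by
  refine continuous_pi fun i => ?_
  fin_cases i <;> simp [lf] <;> fun_prop

theorem cont_herm : Continuous fun p : V4 × V4 => herm p.1 p.2 := by
  unfold herm
  fun_prop

theorem cont_nrm : Continuous nrm := by
  unfold nrm
  exact (continuous_re.comp (cont_herm.comp (continuous_id.prodMk continuous_id))).neg

theorem open_Pc (k : ℝ) (v : V4) : IsOpen (Pc k v) := by
  refine isOpen_lt ?_ ?_
  · exact continuous_normSq.comp (cont_herm.comp (continuous_const.prodMk cont_lf))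
  · exact continuous_const.mul (cont_nrm.comp cont_lf)

theorem In_pos {k : ℝ} (hk : 0 < k) {v y : V4} (h : In k v y) : 0 < nrm y := by
  have h1 := normSq_nonneg (herm v y)
  have h2 : 0 < k * nrm y := lt_of_le_of_lt h1 h
  exact (mul_pos_iff_of_pos_left hk).mp h2

theorem kap_pos (i : Bool) : 0 < kap i := by
  cases i <;> norm_num [kap]

/-- The domain. -/
def Om : Set E3 := {x | 0 < nrm (lf x)}

theorem Om_eq : Om = Pc 1 0 := by
  ext x
  simp [Om, Pc, In, herm]

theorem herm_smul (v y : V4) (c : ℂ) : herm v (c • y) = c * herm v y := by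
  simp only [herm, Pi.smul_apply, smul_eq_mul]
  ring

theorem nrm_smul (y : V4) (c : ℂ) : nrm (c • y) = normSq c * nrm y := by
  simp only [nrm_eq, Pi.smul_apply, smul_eq_mul, map_mul, mul_re, mul_im, conj_re, conj_im,
    normSq_apply]
  ring

theorem In_smul (k : ℝ) (v y : V4) {c : ℂ} (hc : c ≠ 0) : In k v (c • y) ↔ In k v y := by
  have h : 0 < normSq c := normSq_pos.mpr hc
  rw [In, In, herm_smul, nrm_smul, map_mul, mul_left_comm]
  exact mul_lt_mul_iff_right₀ h

theorem last_ne {y : V4} (h : 0 < nrm y) : y 3 ≠ 0 := by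
  intro h0
  rw [nrm_eq, h0] at h
  have h1 := normSq_nonneg (y 1)
  have h2 := normSq_nonneg (y 2)
  simp at h
  linarith

theorem exists_lf {y : V4} (h : 0 < nrm y) : ∃ x : E3, ∀ k v, In k v (lf x) ↔ In k v y := by
  have h3 := last_ne h
  refine ⟨![y 0 / y 3, y 1 / y 3, y 2 / y 3], fun k v => ?_⟩
  rw [← In_smul k v _ h3]
  have : y 3 • lf ![y 0 / y 3, y 1 / y 3, y 2 / y 3] = y := by
    funext i
    fin_cases i <;> simp [lf] <;> field_simp
  rw [this]

/-- The charts. -/
def U (c : Bool × U31) : Set E3 := Pc (kap c.1) (ap c.2 (vec c.1))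

/-- Adjacency of charts. -/
def A (T : Bool → Bool → Set U31) (c c' : Bool × U31) : Prop := c.2⁻¹ * c'.2 ∈ T c.1 c'.1

theorem ov_iff (c c' : Bool × U31) : (U c ∩ U c').Nonempty ↔
    ∃ y, In (kap c.1) (ap c.2 (vec c.1)) y ∧ In (kap c'.1) (ap c'.2 (vec c'.1)) y := by
  constructor
  · rintro ⟨x, h1, h2⟩
    exact ⟨lf x, h1, h2⟩
  · rintro ⟨y, h1, h2⟩
    obtain ⟨x, hx⟩ := exists_lf (In_pos (kap_pos _) h1)
    exact ⟨x, (hx _ _).mpr h1, (hx _ _).mpr h2⟩

theorem chain_left (T : Bool → Bool → Set U31) (k : U31) {c c' : Bool × U31}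
    (h : Chained U (A T) c c') : Chained U (A T) (c.1, k * c.2) (c'.1, k * c'.2) := by
  induction h with
  | refl => exact Relation.ReflTransGen.refl
  | @tail b d _ hbd ih =>
    refine Relation.ReflTransGen.tail ih ⟨?_, ?_⟩
    · have := hbd.1
      unfold A at this ⊢
      simpa [mul_assoc] using this
    · obtain ⟨y, h1, h2⟩ := (ov_iff _ _).mp hbd.2
      refine (ov_iff _ _).mpr ⟨ap k y, ?_, ?_⟩
      · simp only [ap_mul]
        exact (In_ap _ _ _ _).mpr h1
      · simp only [ap_mul]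
        exact (In_ap _ _ _ _).mpr h2

theorem A_symm {T : Bool → Bool → Set U31} (hT : Adj T) (c c' : Bool × U31) (h : A T c c') :
    A T c' c := by
  have := hT.symm _ _ _ h
  unfold A
  simpa using this

theorem chain_symm {T : Bool → Bool → Set U31} (hT : Adj T) {c c' : Bool × U31}
    (h : Chained U (A T) c c') : Chained U (A T) c' c := by
  induction h with
  | refl => exact Relation.ReflTransGen.refl
  | @tail b d _ hbd ih =>
    refine Relation.ReflTransGen.head ⟨A_symm hT _ _ hbd.1, ?_⟩ ih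
    rw [Set.inter_comm]
    exact hbd.2

theorem In_inv (g : U31) (k : ℝ) (v y : V4) : In k (ap g v) y ↔ In k v (ap g⁻¹ y) := by
  rw [← In_ap g k v (ap g⁻¹ y), ← ap_mul, mul_inv_cancel, ap_one]

theorem normSq_self (y : V4) : normSq (herm y y) = nrm y * nrm y := by
  have h : (herm y y).im = 0 := by
    simp only [herm, add_im, mul_im, conj_re, conj_im]
    ring
  rw [normSq_apply, h, nrm]
  ring

theorem small_nbhd {η : ℝ} (hη : 0 < η) {x : E3} (hx : x ∈ Om) : ∃ N ∈ 𝓝 x, ∀ y ∈ N, ∀ z ∈ N,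
    0 < nrm (lf y) ∧ normSq (herm (lf y) (lf z)) < (1 + η) * nrm (lf y) * nrm (lf z) := by
  have hx' : 0 < nrm (lf x) := hx
  have c1 : Continuous fun p : E3 × E3 => lf p.1 := cont_lf.comp continuous_fst
  have c2 : Continuous fun p : E3 × E3 => lf p.2 := cont_lf.comp continuous_snd
  have c3 : Continuous fun p : E3 × E3 => herm (lf p.1) (lf p.2) := by
    unfold herm
    fun_prop
  have c4 : Continuous fun p : E3 × E3 => nrm (lf p.1) := cont_nrm.comp c1
  have c5 : Continuous fun p : E3 × E3 => nrm (lf p.2) := cont_nrm.comp c2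
  have hW : IsOpen {p : E3 × E3 |
      normSq (herm (lf p.1) (lf p.2)) < (1 + η) * nrm (lf p.1) * nrm (lf p.2)} :=
    isOpen_lt (continuous_normSq.comp c3) ((continuous_const.mul c4).mul c5)
  have hm : (x, x) ∈ {p : E3 × E3 |
      normSq (herm (lf p.1) (lf p.2)) < (1 + η) * nrm (lf p.1) * nrm (lf p.2)} := by
    simp only [Set.mem_ofPred_eq, normSq_self]
    nlinarith [mul_pos hη (mul_pos hx' hx')]
  obtain ⟨N1, h1, N2, h2, h12⟩ := mem_nhds_prod_iff.mp (hW.mem_nhds hm)
  have hO : Om ∈ 𝓝 x := by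
    refine IsOpen.mem_nhds ?_ hx
    rw [Om_eq]
    exact open_Pc _ _
  refine ⟨N1 ∩ N2 ∩ Om, Filter.inter_mem (Filter.inter_mem h1 h2) hO, fun y hy z hz => ⟨hy.2, ?_⟩⟩
  have h3 : (y, z) ∈ N1 ×ˢ N2 := ⟨hy.1.1, hz.1.2⟩
  have h4 := h12 h3
  simpa only [Set.mem_ofPred_eq] using h4

theorem common_pt : ∃ y, In (kap true) (vec true) y ∧ In (kap false) (vec false) y := by
  have h2 : √2 * √2 = 2 := Real.mul_self_sqrt (by norm_num)
  have h3 : 1 < √2 := Real.one_lt_sqrt_two
  have h4 : √2 < 3 / 2 := Real.sqrt_two_lt_three_halves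
  refine ⟨pt 0 0 0 0 (-1 + √2 / 4) (1 / 2), ?_, ?_⟩
  · simp [In, kap, vec, pt, herm, nrm, normSq_apply]
    nlinarith
  · simp [In, kap, vec, pt, herm, nrm, normSq_apply]
    norm_num

theorem mono (hM : SMono) (hB : SBound) (hL : SLip) {T : Bool → Bool → Set U31} (hT : Adj T) :
    (∀ x ∈ Om, ∃ c, Chained U (A T) (false, 1) c ∧ x ∈ U c) ∧
      (∀ c c', Chained U (A T) (false, 1) c → Chained U (A T) (false, 1) c' →
        (U c ∩ U c').Nonempty → A T c c') := by
  refine hM E3 Om (Bool × U31) U (A T) (false, 1) ?_ ?_ (fun c => open_Pc _ _)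
    (fun c x hx => In_pos (kap_pos _) hx) (fun c => (conv_Pc _ (kap_pos _) _).isPreconnected) ?_
    ?_ (A_symm hT) ?_ ?_
  · rw [Om_eq]
    exact conv_Pc _ one_pos _
  · rw [Om_eq]
    exact open_Pc _ _
  · obtain ⟨y, -, hy⟩ := common_pt
    obtain ⟨x, hx⟩ := exists_lf (In_pos (kap_pos _) hy)
    refine ⟨x, ?_⟩
    simp only [U, Pc, ap_one, Set.mem_ofPred_eq]
    exact (hx _ _).mpr hy
  · intro c
    unfold A
    rw [inv_mul_cancel]
    exact hT.one _ _
  · rintro ⟨i, g⟩ ⟨j, h⟩ ⟨k, l⟩ x h1 - h3 a12 a23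
    have a21 := A_symm hT _ _ a12
    have hb := hB i k g l (lf x) h1 h3
    have := hT.trans j i k (h⁻¹ * g) (h⁻¹ * l) a21 a23 (by rw [ap_mul, ap_mul, herm_ap]; exact hb)
    unfold A
    simpa [mul_assoc] using this
  · intro x hx
    obtain ⟨η, hη, hL⟩ := hL
    obtain ⟨N, hN, hs⟩ := small_nbhd hη hx
    refine ⟨N, hN, ?_⟩
    rintro ⟨i, g⟩ y hy hyU
    obtain ⟨j, s, hs1, hs2⟩ := hT.cover i _ ((In_inv g _ _ _).mp hyU)
    rw [← In_inv, ← ap_mul] at hs2
    refine ⟨(j, g * s), ?_, fun z hz => ?_⟩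
    · unfold A
      simpa using hs1
    · exact hL j (g * s) (lf y) (lf z) (hs y hy y hy).1 (hs z hz z hz).1 (hs y hy z hz).2 hs2

/-- The group of elements reached along chains. -/
def grp {T : Bool → Bool → Set U31} (hT : Adj T) : Subgroup U31 where
  carrier := {g | Chained U (A T) (false, 1) (false, g)}
  one_mem' := Relation.ReflTransGen.refl
  mul_mem' := by
    intro a b ha hb
    have h := chain_left T a hb
    simp only [mul_one] at h
    exact Relation.ReflTransGen.trans ha h
  inv_mem' := by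
    intro a ha
    have h := chain_left T a⁻¹ ha
    simp only [mul_one, inv_mul_cancel] at h
    exact chain_symm hT h

end Core

open _root_.Pool.Agent.MP_d97ab6_al.H91.Core in
theorem rowCore : SCore := by
  intro hM hB hL T hT
  obtain ⟨m1, m2⟩ := mono hM hB hL hT
  refine ⟨grp hT, ?_, ?_, ?_, ?_⟩
  · intro g hg y h1 h2
    have := m2 (false, 1) (false, g) Relation.ReflTransGen.refl hg
      ((ov_iff _ _).mpr ⟨y, by simpa using h1, h2⟩)
    unfold A at this
    simpa using this
  · intro y hy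
    obtain ⟨x, hx⟩ := exists_lf hy
    have hxO : x ∈ Om := by
      rw [Om_eq]
      refine (hx _ _).mpr ?_
      simpa [In, herm] using hy
    obtain ⟨⟨i, g⟩, hc, hU⟩ := m1 x hxO
    have hU' := (In_inv g _ _ _).mp ((hx _ _).mp hU)
    cases i with
    | false => exact ⟨g⁻¹, (grp hT).inv_mem hc, Or.inl hU'⟩
    | true =>
      refine ⟨g⁻¹, (grp hT).inv_mem ?_, Or.inr hU'⟩
      refine Relation.ReflTransGen.tail hc ⟨?_, ?_⟩
      · unfold A
        simpa using hT.one true false
      · obtain ⟨p, p1, p2⟩ := common_pt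
        exact (ov_iff _ _).mpr ⟨ap g p, (In_ap _ _ _ _).mpr p1, (In_ap _ _ _ _).mpr p2⟩
  · rintro g hg ⟨y, h1, h2⟩
    refine Relation.ReflTransGen.single ⟨?_, (ov_iff _ _).mpr ⟨y, by simpa using h1, h2⟩⟩
    unfold A
    simpa using hg
  · intro Q hQ g hg
    have key : ∀ c, Chained U (A T) (false, 1) c → c.2 ∈ Q := by
      intro c hc
      induction hc with
      | refl => exact Q.one_mem
      | @tail b d _ hbd ih =>
        have := Q.mul_mem ih (hQ _ _ hbd.1)
        simpa using this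
    exact key _ hg

end Pool.Agent.MP_d97ab6_al.H91
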