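import Mathlib

/-! Definitions used in the statement: SU(3,1), lattices, arithmeticity, adjoint trace field. -/

namespace Pool.Agent.MP_d97ab6_al.H91

open Matrix MeasureTheory

/-- The Hermitian form of signature (3,1): `conj x0 y3 + conj x1 y1 + conj x2 y2 + conj x3 y0`. -/
def J : Matrix (Fin 4) (Fin 4) ℂ := !![0, 0, 0, 1; 0, 1, 0, 0; 0, 0, 1, 0; 1, 0, 0, 0]

theorem J_mul_J : J * J = 1 := by
  ext i j
  fin_cases i <;> fin_cases j <;> simp [J, Matrix.mul_apply, Fin.sum_univ_four]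

/-- `SU(3,1)`: determinant one matrices preserving `J`. -/
def SU31 : Subgroup (Matrix.SpecialLinearGroup (Fin 4) ℂ) where
  carrier := {g | (g.1)ᴴ * J * g.1 = J}
  one_mem' := by simp
  mul_mem' := by
    intro a b ha hb
    simp only [Set.mem_ofPred_eq] at ha hb ⊢
    have : (a * b).1 = a.1 * b.1 := rfl
    rw [this, conjTranspose_mul]
    calc (b.1)ᴴ * (a.1)ᴴ * J * (a.1 * b.1) = (b.1)ᴴ * ((a.1)ᴴ * J * a.1) * b.1 := by
          simp only [Matrix.mul_assoc]
      _ = J := by rw [ha, hb]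
  inv_mem' := by
    intro a ha
    simp only [Set.mem_ofPred_eq] at ha ⊢
    have h1 : a.1 * (a⁻¹).1 = 1 := by
      have : (a * a⁻¹).1 = a.1 * (a⁻¹).1 := rfl
      rw [← this, mul_inv_cancel]; rfl
    calc ((a⁻¹).1)ᴴ * J * (a⁻¹).1 = ((a⁻¹).1)ᴴ * ((a.1)ᴴ * J * a.1) * (a⁻¹).1 := by rw [ha]
      _ = (a.1 * (a⁻¹).1)ᴴ * J * (a.1 * (a⁻¹).1) := by
          rw [conjTranspose_mul]; simp only [Matrix.mul_assoc]
      _ = J := by rw [h1]; simp

/-- A lattice: a discrete subgroup such that the quotient carries a nonzero finite invariant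
Borel measure. -/
def IsLattice (Γ : Subgroup SU31) : Prop :=
  DiscreteTopology Γ ∧
    ∃ ν : @Measure (SU31 ⧸ Γ) (borel (SU31 ⧸ Γ)),
      ν Set.univ ≠ 0 ∧ ν Set.univ ≠ ⊤ ∧
        ∀ (g : SU31) (A : Set (SU31 ⧸ Γ)), MeasurableSet[borel (SU31 ⧸ Γ)] A →
          ν ((fun x => g • x) ⁻¹' A) = ν A

/-- Arithmetic in a wide sense: commensurable with the image of the integer points of some closed
subgroup `H` of some `GL(N,ℝ)` under a continuous surjection `H → SU(3,1)` with compact kernel. -/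
def IsArith (Γ : Subgroup SU31) : Prop :=
  ∃ (N : ℕ) (H : Subgroup (GL (Fin N) ℝ)) (φ : H →* SU31),
    IsClosed (H : Set (GL (Fin N) ℝ)) ∧ Continuous φ ∧ Function.Surjective φ ∧
      IsCompact (φ.ker : Set H) ∧
        Subgroup.Commensurable
          (((Matrix.GeneralLinearGroup.map (n := Fin N) (Int.castRingHom ℝ)).range.subgroupOf H).map φ) Γ

/-- The adjoint trace field: generated by the numbers `tr Ad γ = |tr γ|^2 - 1`. -/
noncomputable def adField (Γ : Subgroup SU31) : Subfield ℝ :=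
  Subfield.closure {x | ∃ γ ∈ Γ, x = Complex.normSq (Matrix.trace γ.1.1) - 1}

end Pool.Agent.MP_d97ab6_al.H91
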