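import Pool.Agent.MP_d97ab6_al.H91.Sem

/-! Soundness of the subdivision of a box. -/

namespace Pool.Agent.MP_d97ab6_al.H91

open Matrix Complex

namespace Run

theorem ad_cast (a b : ℕ) : ((ad a b : ℕ) : ℝ) = |(a : ℝ) - b| := by
  have e : ad a b = (a - b) + (b - a) := rfl
  rw [e]
  rcases le_total a b with h | h
  · have h' : (a : ℝ) ≤ b := by exact_mod_cast h
    rw [Nat.sub_eq_zero_of_le h, zero_add, Nat.cast_sub h, abs_of_nonpos (by linarith)]
    ring
  · have h' : (b : ℝ) ≤ a := by exact_mod_cast h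
    rw [Nat.sub_eq_zero_of_le h, add_zero, Nat.cast_sub h, abs_of_nonneg (by linarith)]

theorem sub_le (a b : ℕ) (x : ℝ) (h0 : 0 ≤ x) (h : (a : ℝ) - b ≤ x) : ((a - b : ℕ) : ℝ) ≤ x := by
  rcases le_total a b with h1 | h1
  · rw [Nat.sub_eq_zero_of_le h1]; simpa using h0
  · rw [Nat.cast_sub h1]; exact h

theorem nrm_pt (x0 x1 x2 x3 t u : ℝ) : nrm (pt x0 x1 x2 x3 t u) = u := by
  simp [nrm, herm, pt]
  ring

theorem nsq_pt (d : ℂ) (a0 a1 a2 a3 t' u' x0 x1 x2 x3 t u : ℝ) :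
    normSq (herm (d • pt a0 a1 a2 a3 t' u') (pt x0 x1 x2 x3 t u)) = normSq d *
      ((((x0 - a0) ^ 2 + (x1 - a1) ^ 2 + (x2 - a2) ^ 2 + (x3 - a3) ^ 2 + u + u') / 2) ^ 2 +
        (t - t' + a0 * x1 - a1 * x0 + a2 * x3 - a3 * x2) ^ 2) := by
  have e : herm (d • pt a0 a1 a2 a3 t' u') (pt x0 x1 x2 x3 t u) = (starRingEnd ℂ) d *
      ⟨-(((x0 - a0) ^ 2 + (x1 - a1) ^ 2 + (x2 - a2) ^ 2 + (x3 - a3) ^ 2 + u + u') / 2),
        t - t' + a0 * x1 - a1 * x0 + a2 * x3 - a3 * x2⟩ := by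
    apply Complex.ext <;> simp [herm, pt] <;> ring
  rw [e, map_mul, normSq_conj]
  congr 1
  rw [normSq_mk, neg_mul_neg, ← sq, ← sq]

theorem half (X : ℝ) (c h : ℕ) (h0 : 0 ≤ X) (hX : |X - c| ≤ h) :
    |X - ((Nat.sub c (hf h) : ℕ) : ℝ)| ≤ (hf h : ℕ) ∨
      |X - ((Nat.add c (hf h) : ℕ) : ℝ)| ≤ (hf h : ℕ) := by
  have e : h ≤ 2 * hf h := by
    have : hf h = (h + 1) / 2 := rfl
    omega
  have e' : (h : ℝ) ≤ 2 * (hf h : ℕ) := by exact_mod_cast e
  rw [abs_le] at hX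
  rcases le_total X c with h1 | h1
  · left
    rw [Nat.sub_eq, abs_le]
    rcases le_total (hf h) c with h2 | h2
    · rw [Nat.cast_sub h2]
      constructor <;> linarith [hX.1]
    · have h3 : (c : ℝ) ≤ (hf h : ℕ) := by exact_mod_cast h2
      rw [Nat.sub_eq_zero_of_le h2]
      constructor <;> simp only [Nat.cast_zero] <;> linarith
  · right
    rw [Nat.add_eq, abs_le, Nat.cast_add]
    constructor <;> linarith [hX.2]

theorem both_ne {r : Bx → ℕ → ℕ} {b1 b2 : Bx} {s : ℕ} (h : both r b1 b2 s ≠ 0) :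
    r b1 s ≠ 0 ∧ r b2 (r b1 s) ≠ 0 := by
  unfold both at h
  cases hb : Nat.beq (r b1 s) 0 with
  | true => rw [hb] at h; exact absurd rfl h
  | false => rw [hb] at h; exact ⟨Nat.ne_of_beq_eq_false hb, h⟩

theorem split_ok {T : Bool → Bool → Set U31} {i : Bool} {r : Bx → ℕ → ℕ}
    (hr : ∀ b s, r b s ≠ 0 → Covered T i b) (d : ℕ) (b : Bx) (s : ℕ) (h : split r d b s ≠ 0) :
    Covered T i b := by
  intro x0 x1 x2 x3 t u hb k0 k1 k2 k3 k4 k5 hin
  obtain ⟨b0, b1, b2, b3, b4, b5⟩ := hb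
  have key : ∀ x : ℝ, |x| ≤ 1 → 0 ≤ x * 268435456 + 1073741824 := by
    intro x hx
    have := (abs_le.mp hx).1
    linarith
  have fin : ∀ p q : Bx, both r p q s ≠ 0 →
      (InBx p x0 x1 x2 x3 t u ∨ InBx q x0 x1 x2 x3 t u) →
      ∃ j, ∃ s ∈ T i j, In (kap' j) (ap s (vec j)) (pt x0 x1 x2 x3 t u) := by
    intro p q hpq hor
    obtain ⟨h1, h2⟩ := both_ne hpq
    rcases hor with h3 | h3
    · exact hr _ _ h1 x0 x1 x2 x3 t u h3 k0 k1 k2 k3 k4 k5 hin
    · exact hr _ _ h2 x0 x1 x2 x3 t u h3 k0 k1 k2 k3 k4 k5 hin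
  unfold split at h
  cases e2 : Nat.ble d 2 with
  | true =>
    rw [e2, cond_true] at h
    cases e0 : Nat.beq d 0 with
    | true =>
      rw [e0, cond_true] at h
      exact fin _ _ h ((half _ _ _ (key _ k0) b0).imp
        (fun w => ⟨w, b1, b2, b3, b4, b5⟩) fun w => ⟨w, b1, b2, b3, b4, b5⟩)
    | false =>
      rw [e0, cond_false] at h
      cases e1 : Nat.beq d 1 with
      | true =>
        rw [e1, cond_true] at h
        exact fin _ _ h ((half _ _ _ (key _ k1) b1).imp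
          (fun w => ⟨b0, w, b2, b3, b4, b5⟩) fun w => ⟨b0, w, b2, b3, b4, b5⟩)
      | false =>
        rw [e1, cond_false] at h
        exact fin _ _ h ((half _ _ _ (key _ k2) b2).imp
          (fun w => ⟨b0, b1, w, b3, b4, b5⟩) fun w => ⟨b0, b1, w, b3, b4, b5⟩)
  | false =>
    rw [e2, cond_false] at h
    cases e3 : Nat.beq d 3 with
    | true =>
      rw [e3, cond_true] at h
      exact fin _ _ h ((half _ _ _ (key _ k3) b3).imp
        (fun w => ⟨b0, b1, b2, w, b4, b5⟩) fun w => ⟨b0, b1, b2, w, b4, b5⟩)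
    | false =>
      rw [e3, cond_false] at h
      cases e4 : Nat.beq d 4 with
      | true =>
        rw [e4, cond_true] at h
        exact fin _ _ h ((half _ _ _ (key _ k4) b4).imp
          (fun w => ⟨b0, b1, b2, b3, w, b5⟩) fun w => ⟨b0, b1, b2, b3, w, b5⟩)
      | false =>
        rw [e4, cond_false] at h
        exact fin _ _ h ((half _ _ _ (by positivity) b5).imp
          (fun w => ⟨b0, b1, b2, b3, b4, w⟩) fun w => ⟨b0, b1, b2, b3, b4, w⟩)

theorem eqB_eq {a b : Bx} (h : eqB a b = true) : a = b := by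
  cases a
  cases b
  simp only [eqB, Bool.and_eq_true, Nat.beq_eq] at h
  obtain ⟨⟨⟨⟨h0, h1⟩, h2, h3⟩, h4, h5⟩, ⟨⟨k0, k1⟩, k2, k3⟩, k4, k5⟩ := h
  simp only [Bx.mk.injEq]
  exact ⟨h0, h1, h2, h3, h4, h5, k0, k1, k2, k3, k4, k5⟩

theorem sqe_ge (c a h : ℕ) (x p : ℝ) (hx : |x * 268435456 + 1073741824 - c| ≤ h)
    (hp : Close a p) : (x - p) ^ 2 * 268435456 ^ 2 ≤ (sqe c a h : ℕ) := by
  have e : sqe c a h = (ad c a + h + 1) * (ad c a + h + 1) := rfl
  rw [e]
  push_cast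
  rw [ad_cast, ← mul_pow, ← sq]
  apply sq_le_sq'
  all_goals
    have h1 := abs_le.mp hx
    have h2 := abs_le.mp hp
    have h3 := le_abs_self ((c : ℝ) - a)
    have h4 := neg_abs_le ((c : ℝ) - a)
    linarith [h1.1, h1.2, h2.1, h2.2]

theorem sql_le (c h : ℕ) (x : ℝ) (hx : |x * 268435456 + 1073741824 - c| ≤ h) :
    ((sql c h : ℕ) : ℝ) ≤ x ^ 2 * 268435456 ^ 2 := by
  have e : sql c h = (ad c 1073741824 - h) * (ad c 1073741824 - h) := rfl
  rw [e, Nat.cast_mul, ← sq, ← mul_pow, ← sq_abs (x * 268435456)]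
  refine pow_le_pow_left₀ (Nat.cast_nonneg _) (sub_le _ _ _ (abs_nonneg _) ?_) 2
  rw [ad_cast, sub_le_iff_le_add, abs_le]
  have h1 := abs_le.mp hx
  have h3 := le_abs_self (x * 268435456)
  have h4 := neg_abs_le (x * 268435456)
  constructor <;> push_cast <;> linarith [h1.1, h1.2]

theorem conv (A t4 K S u1 u2 U : ℝ) (h1 : (A + u1 * S) * (A + u1 * S) + t4 < K * u1)
    (h2 : (A + u2 * S) * (A + u2 * S) + t4 < K * u2) (l1 : u1 ≤ U) (l2 : U ≤ u2) :
    (A + U * S) ^ 2 + t4 < K * U := by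
  have h3 : 0 ≤ S ^ 2 * ((U - u1) * (u2 - U)) :=
    mul_nonneg (sq_nonneg _) (mul_nonneg (by linarith) (by linarith))
  rcases le_total 0 (2 * A * S - K + S ^ 2 * (u1 + u2)) with h | h
  · have := mul_nonneg h (sub_nonneg.mpr l2)
    linarith
  · have := mul_nonneg (neg_nonneg.mpr h) (sub_nonneg.mpr l1)
    linarith

theorem prod_err (a c h : ℕ) (p x : ℝ) (hp : Close a p)
    (hx : |x * 268435456 + 1073741824 - c| ≤ h) (k : |x| ≤ 1) :
    |p * x * 268435456 ^ 2 - ((a : ℝ) - 1073741824) * ((c : ℝ) - 1073741824)| ≤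
      |(a : ℝ) - 1073741824| * h + 268435456 := by
  have e : p * x * 268435456 ^ 2 - ((a : ℝ) - 1073741824) * ((c : ℝ) - 1073741824) =
      ((a : ℝ) - 1073741824) * (x * 268435456 + 1073741824 - c) -
        ((a : ℝ) - 1073741824 - p * 268435456) * x * 268435456 := by ring
  rw [e]
  refine (abs_sub _ _).trans (add_le_add ?_ ?_)
  · rw [abs_mul]
    exact mul_le_mul_of_nonneg_left hx (abs_nonneg _)
  · rw [abs_mul, abs_mul, abs_of_pos (by norm_num : (0 : ℝ) < 268435456)]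
    have h1 : |(a : ℝ) - 1073741824 - p * 268435456| * |x| ≤ 1 :=
      mul_le_one₀ hp (abs_nonneg _) k
    linarith

theorem inT_ok {T : Bool → Bool → Set U31} {i : Bool} {c : Ch} (hc : ChSem T i c) {b : Bx}
    (h : inT c b = true) : Covered T i b := by
  intro x0 x1 x2 x3 t u hb k0 k1 k2 k3 _ k5 _
  obtain ⟨b0, b1, b2, b3, b4, b5⟩ := hb
  obtain ⟨s, hs, d, p0, p1, p2, p3, t', u', hd, hap, ⟨c0, c1, c2, c3, c4, c5, -⟩, hu', hk⟩ := hc
  refine ⟨c.j, s, hs, ?_⟩
  rw [In, hap, nsq_pt, nrm_pt]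
  simp only [inT, in2, in3, Bool.and_eq_true, Nat.blt_eq, Nat.add_eq, Nat.mul_eq, Nat.sub_eq] at h
  obtain ⟨h1, h2⟩ := h
  generalize hA : sqe b.c0 c.a0 b.h0 + sqe b.c1 c.a1 b.h1 + (sqe b.c2 c.a2 b.h2 +
    sqe b.c3 c.a3 b.h3) + (c.u + 1) * 268435456 = A at h1 h2
  generalize hτ : ad _ _ + (b.h4 + 5) * 268435456 + _ = τ at h1 h2
  have g1 := (Nat.cast_lt (α := ℝ)).mpr h1
  have g2 := (Nat.cast_lt (α := ℝ)).mpr h2
  simp only [Nat.cast_add, Nat.cast_mul, Nat.cast_ofNat] at g1 g2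
  have m5 := abs_le.mp b5
  have hcv := conv _ _ _ _ _ _ (u * 268435456) g1 g2
    (sub_le _ _ _ (by positivity) (by linarith [m5.1])) (by linarith [m5.2])
  have hA' : ((x0 - p0) ^ 2 + (x1 - p1) ^ 2 + (x2 - p2) ^ 2 + (x3 - p3) ^ 2 + u') *
      268435456 ^ 2 ≤ (A : ℝ) := by
    rw [← hA]
    push_cast
    have q0 := sqe_ge _ _ _ _ _ b0 c0
    have q1 := sqe_ge _ _ _ _ _ b1 c1
    have q2 := sqe_ge _ _ _ _ _ b2 c2
    have q3 := sqe_ge _ _ _ _ _ b3 c3
    have q5 := (abs_le.mp c5).1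
    linarith
  have hτ' : |(t - t' + p0 * x1 - p1 * x0 + p2 * x3 - p3 * x2) * 268435456 ^ 2| ≤ (τ : ℝ) := by
    rw [← hτ]
    simp only [Nat.cast_add, Nat.cast_mul, Nat.cast_ofNat, ad_cast]
    have q0 := abs_le.mp (prod_err _ _ _ _ _ c0 b1 k1)
    have q1 := abs_le.mp (prod_err _ _ _ _ _ c1 b0 k0)
    have q2 := abs_le.mp (prod_err _ _ _ _ _ c2 b3 k3)
    have q3 := abs_le.mp (prod_err _ _ _ _ _ c3 b2 k2)
    have q4 := abs_le.mp b4
    have q5 := abs_le.mp c4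
    generalize hw : (b.c4 : ℝ) * 268435456 + _ + _ - _ = w
    have q6 := le_abs_self w
    have q7 := neg_abs_le w
    rw [abs_le]
    constructor <;> linarith [q0.1, q0.2, q1.1, q1.2, q2.1, q2.2, q3.1, q3.2, q4.1, q4.2, q5.1, q5.2]
  generalize (t - t' + p0 * x1 - p1 * x0 + p2 * x3 - p3 * x2) = w at hτ' ⊢
  have hq : 0 ≤ (x0 - p0) ^ 2 + (x1 - p1) ^ 2 + (x2 - p2) ^ 2 + (x3 - p3) ^ 2 := by positivity
  generalize (x0 - p0) ^ 2 + (x1 - p1) ^ 2 + (x2 - p2) ^ 2 + (x3 - p3) ^ 2 = q at hA' hq ⊢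
  have r1 : ((q + u + u') * 268435456 ^ 2) ^ 2 ≤ ((A : ℝ) + u * 268435456 * 268435456) ^ 2 :=
    pow_le_pow_left₀ (by positivity) (by linarith) 2
  have r2 : (w * 268435456 ^ 2) ^ 2 ≤ (τ : ℝ) ^ 2 := by
    rw [← sq_abs]
    exact pow_le_pow_left₀ (abs_nonneg _) hτ' 2
  have r3 : (((q + u + u') / 2) ^ 2 + w ^ 2) * 268435456 < c.kl * u := by linarith
  have r4 := mul_lt_mul_of_pos_left r3 (normSq_pos.mpr hd)
  have r5 := mul_le_mul_of_nonneg_right hk k5.le
  linarith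

theorem outT_ok {T : Bool → Bool → Set U31} {b : Bx} (h : outT b = true) : Covered T true b := by
  intro x0 x1 x2 x3 t u hb _ _ _ _ _ k5 hin
  exfalso
  obtain ⟨b0, b1, b2, b3, b4, b5⟩ := hb
  have e : vec true = (1 : ℂ) • pt 0 0 0 0 (-1 + √2 / 4) (1 - √2 / 2) := by
    rw [one_smul]; rfl
  rw [In, e, nsq_pt, nrm_pt, map_one, one_mul] at hin
  simp only [kap, sub_zero, zero_mul, add_zero] at hin
  simp only [outT, out2, Nat.ble_eq, Nat.add_eq, Nat.mul_eq, Nat.sub_eq] at h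
  generalize hA : sql b.c0 b.h0 + sql b.c1 b.h1 + (sql b.c2 b.h2 + sql b.c3 b.h3) +
    (b.c5 - b.h5 + 78622924) * 268435456 = A at h
  generalize hτ : ad b.c4 900212633 - (b.h4 + 1) = τ at h
  have g := (Nat.cast_le (α := ℝ)).mpr h
  simp only [Nat.cast_add, Nat.cast_mul, Nat.cast_ofNat] at g
  have s1 : (1.4142135623 : ℝ) < √2 := Real.lt_sqrt_of_sq_lt (by norm_num)
  have s2 : √2 < (1.4142135624 : ℝ) := (Real.sqrt_lt' (by norm_num)).mpr (by norm_num)
  have m5 := abs_le.mp b5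
  have hA' : (A : ℝ) ≤ (x0 ^ 2 + x1 ^ 2 + x2 ^ 2 + x3 ^ 2 + u + (1 - √2 / 2)) * 268435456 ^ 2 := by
    rw [← hA]
    simp only [Nat.cast_add, Nat.cast_mul, Nat.cast_ofNat]
    have q0 := sql_le _ _ _ b0
    have q1 := sql_le _ _ _ b1
    have q2 := sql_le _ _ _ b2
    have q3 := sql_le _ _ _ b3
    have q5 := sub_le b.c5 b.h5 (u * 268435456) (by positivity) (by linarith [m5.1])
    linarith
  have hτ' : (τ : ℝ) ≤ |(t - (-1 + √2 / 4)) * 268435456| := by
    rw [← hτ]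
    refine sub_le _ _ _ (abs_nonneg _) ?_
    rw [ad_cast, sub_le_iff_le_add, abs_le]
    have q4 := abs_le.mp b4
    have q6 := le_abs_self ((t - (-1 + √2 / 4)) * 268435456)
    have q7 := neg_abs_le ((t - (-1 + √2 / 4)) * 268435456)
    constructor <;> push_cast <;> linarith [q4.1, q4.2]
  generalize (t - (-1 + √2 / 4)) = w at hτ' hin
  generalize x0 ^ 2 + x1 ^ 2 + x2 ^ 2 + x3 ^ 2 + u + (1 - √2 / 2) = q at hA' hin
  have r1 := pow_le_pow_left₀ (Nat.cast_nonneg _) hA' 2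
  have r2 := pow_le_pow_left₀ (Nat.cast_nonneg _) hτ' 2
  rw [sq_abs] at r2
  linarith [m5.2]

theorem six_ok {T : Bool → Bool → Set U31} {i : Bool} (h1 : (1 : U31) ∈ T i false) {b : Bx}
    (h : b.h5 + 85598041 ≤ b.c5) : Covered T i b := by
  intro x0 x1 x2 x3 t u hb _ _ _ _ _ _ _
  refine ⟨false, 1, h1, ?_⟩
  have e : herm (vec false) (pt x0 x1 x2 x3 t u) = 1 := by simp [herm, vec, pt]
  rw [In, ap_one, e, nrm_pt, map_one]
  have g := (Nat.cast_le (α := ℝ)).mpr h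
  push_cast at g
  have m := (abs_le.mp hb.2.2.2.2.2).1
  simp only [kap']
  linarith

end Run

theorem rowRun : SRun := by
  intro T i tb nt kb nk h1 hch hkb fuel
  induction fuel with
  | zero => intro b s h; exact absurd rfl h
  | succ n ih =>
    intro b s h
    have e : run i tb nt kb nk (n + 1) b s =
        step i tb nt kb nk (run i tb nt kb nk n) b s := rfl
    rw [e] at h
    unfold step at h
    generalize Nat.mod s 512 = d at h
    cases e5 : Nat.ble d 5 with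
    | true =>
      rw [e5, cond_true] at h
      exact Run.split_ok ih _ _ _ h
    | false =>
      rw [e5, cond_false] at h
      cases el : leafT i tb nt kb nk d b with
      | false => rw [el] at h; exact absurd rfl h
      | true =>
        unfold leafT at el
        cases e8 : Nat.ble 8 d with
        | true =>
          rw [e8, cond_true] at el
          cases e3 : Nat.ble 300 d with
          | true =>
            rw [e3, cond_true, Bool.and_eq_true, Nat.blt_eq] at el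
            rw [Run.eqB_eq el.2]
            exact hkb _ el.1
          | false =>
            rw [e3, cond_false, Bool.and_eq_true, Nat.blt_eq] at el
            exact Run.inT_ok (hch _ el.1) el.2
        | false =>
          rw [e8, cond_false] at el
          cases e6 : Nat.beq d 6 with
          | true =>
            rw [e6, cond_true, Nat.ble_eq] at el
            exact Run.six_ok h1 el
          | false =>
            rw [e6, cond_false, Bool.and_eq_true] at el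
            obtain ⟨rfl, el⟩ := el
            exact Run.outT_ok el

end Pool.Agent.MP_d97ab6_al.H91
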