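import Pool.Agent.MP_d97ab6_al.H91.KB91
import Pool.Agent.MP_d97ab6_al.H91.Cert91
import Pool.Agent.MP_d97ab6_al.H91.Run
import Pool.Agent.MP_d97ab6_al.H91.Pred

/-! Lemmas on the enumeration of the cusp group. -/

namespace Pool.Agent.MP_d97ab6_al.H91

open Matrix Complex

namespace En91

theorem range {M M' d r L s : ℕ} {F : ℕ → ℕ → ℕ} (hM : M' + 1 = M) (h1 : L * M ≤ d + r)
    (h2 : d ≤ L * M + r)
    (h : loop (Nat.sub (Nat.add (Nat.div (Nat.add d r) M) 1) (Nat.div (Nat.add (Nat.sub d r) M') M)) F s ≠ 0) :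
    ∃ j a, Nat.add (Nat.div (Nat.add (Nat.sub d r) M') M) j = L ∧ F j a ≠ 0 := by
  have hp : 0 < M := by omega
  have a1 : L ≤ (d + r) / M := (Nat.le_div_iff_mul_le hp).2 h1
  have a2 : (d - r + M') / M < L + 1 := (Nat.div_lt_iff_lt_mul hp).2 (by rw [Nat.add_mul]; omega)
  change loop ((d + r) / M + 1 - (d - r + M') / M) F s ≠ 0 at h
  change ∃ j a, (d - r + M') / M + j = L ∧ F j a ≠ 0
  generalize (d - r + M') / M = lo at *
  obtain ⟨a, -, ha⟩ := (loop_ne_zero h).2 (L - lo) (by omega)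
  exact ⟨_, a, by omega, ha⟩

theorem toN {l : ℤ} {M d r : ℕ} (hM : 0 < M) (hr : r ≤ d) (h : |(d : ℝ) - l * M| ≤ r) :
    ∃ L : ℕ, (L : ℤ) = l ∧ L * M ≤ d + r ∧ d ≤ L * M + r := by
  obtain ⟨h1, h2⟩ := abs_le.1 h
  have hr' : (r : ℝ) ≤ d := Nat.cast_le.2 hr
  have hM' : (0 : ℝ) < M := Nat.cast_pos.2 hM
  have h0 : (0 : ℝ) ≤ l := le_of_mul_le_mul_right (by linarith) hM'
  obtain ⟨L, rfl⟩ := Int.eq_ofNat_of_zero_le (Int.cast_nonneg_iff.1 h0)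
  rw [Int.cast_natCast] at h1 h2
  refine ⟨L, rfl, (Nat.cast_le (α := ℝ)).1 ?_, (Nat.cast_le (α := ℝ)).1 ?_⟩ <;> push_cast <;> linarith

theorem sq_le {a b E : ℕ} {D : ℝ} (h : |(a : ℝ) - b| ≤ |D| + E) :
    (((ad a b - E) * (ad a b - E) : ℕ) : ℝ) ≤ D ^ 2 := by
  have : ((ad a b - E : ℕ) : ℝ) ≤ |D| :=
    Run.sub_le _ _ _ (abs_nonneg _) (by rw [Run.ad_cast]; linarith)
  rw [Nat.cast_mul, ← sq, ← sq_abs D]
  exact pow_le_pow_left₀ (Nat.cast_nonneg _) this 2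

theorem lvl_ok {r X Y rem s : ℕ} {f : ℕ → ℕ → ℕ → ℕ} {x y rest : ℝ} {l : ℤ}
    (h : lvl r X Y rem f s ≠ 0) (hr : r ≤ 1073741824) (cX : Close X x) (cY : Close Y y) (rX : Rng X)
    (rY : Rng Y) (hD : |(x - y - l) * 268435456| + 2 ≤ r) (h0 : 0 ≤ rest)
    (hrem : ((x - y - l) * 268435456) ^ 2 + rest < rem) :
    ∃ L rem' a : ℕ, (L : ℤ) - 8 = l ∧ f L rem' a ≠ 0 ∧ rest < rem' ∧ rem' ≤ rem ∧
      (rem : ℝ) - rem' ≤ ((x - y - l) * 268435456) ^ 2 := by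
  rw [lvl] at h
  obtain ⟨d, hd, hd1, hd2⟩ : ∃ d : ℕ, Nat.sub (Nat.add X 2147483648) Y = d ∧ r ≤ d ∧
      (d : ℝ) = X + 2147483648 - Y := by
    obtain ⟨a, b⟩ := rX
    obtain ⟨c, e⟩ := rY
    have : Y ≤ X + 2147483648 := by omega
    refine ⟨X + 2147483648 - Y, rfl, by omega, ?_⟩
    rw [Nat.cast_sub this, Nat.cast_add, Nat.cast_ofNat]
  rw [hd, lvl1] at h
  have key : |(d : ℝ) - ((l + 8 : ℤ) : ℝ) * (268435456 : ℕ)| ≤ |(x - y - l) * 268435456| + (2 : ℕ) := by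
    obtain ⟨a, b⟩ := abs_le.1 cX
    obtain ⟨c, e⟩ := abs_le.1 cY
    have k1 := le_abs_self ((x - y - l) * 268435456)
    have k2 := neg_abs_le ((x - y - l) * 268435456)
    rw [hd2, Int.cast_add, Int.cast_ofNat, Nat.cast_ofNat, Nat.cast_ofNat, abs_le]
    constructor <;> linarith
  obtain ⟨L, hL, h1, h2⟩ := toN (by norm_num) hd1 (key.trans (by rw [Nat.cast_ofNat]; exact hD))
  obtain ⟨j, a, hj, ha⟩ := range (by norm_num) h1 h2 h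
  rw [lvl2, hj, Nat.mul_eq, Nat.mul_eq, Nat.sub_eq, Nat.sub_eq] at ha
  rw [← hL, Int.cast_natCast, ← Nat.cast_mul] at key
  have he := sq_le key
  generalize (ad d (L * 268435456) - 2) * (ad d (L * 268435456) - 2) = e at ha he
  have hlt : e < rem := (Nat.cast_lt (α := ℝ)).1 (by linarith)
  have hb : Nat.ble rem e = false := by
    cases hc : Nat.ble rem e
    · rfl
    · exact absurd (Nat.le_of_ble_eq_true hc) (Nat.not_le.2 hlt)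
  rw [hb, cond_false] at ha
  refine ⟨L, rem - e, a, by omega, ha, ?_, Nat.sub_le _ _, ?_⟩ <;> rw [Nat.cast_sub hlt.le] <;> linarith

theorem tl_ok {rho A P N s : ℕ} {f : ℕ → ℕ → ℕ} {tau : ℝ} {m : ℤ}
    (h : tl0 rho A P N (Nat.add (Nat.mul rho 268435456) 107374182400) f s ≠ 0)
    (hG : |(P : ℝ) - N - m * 144115188075855872 - tau| ≤ 107374182400)
    (hQ : (A : ℝ) ^ 2 + 4 * tau ^ 2 < (rho : ℝ) ^ 2 * 288230376151711744) :
    ∃ M a : ℕ, (M : ℤ) = m ∧ f M a ≠ 0 := by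
  obtain ⟨w, hw, hw2⟩ : ∃ w : ℕ, Nat.add (Nat.mul rho 268435456) 107374182400 = w ∧
      (w : ℝ) = rho * 268435456 + 107374182400 := by
    refine ⟨rho * 268435456 + 107374182400, rfl, ?_⟩
    rw [Nat.cast_add, Nat.cast_mul, Nat.cast_ofNat, Nat.cast_ofNat]
  rw [hw, tl0] at h
  cases hb : Nat.ble (Nat.add N w) P
  · rw [hb] at h; exact absurd rfl h
  rw [hb, cond_true, tl1, show Nat.sub P N = P - N from rfl] at h
  have h1 : N + w ≤ P := Nat.le_of_ble_eq_true hb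
  have hc : ((P - N : ℕ) : ℝ) = P - N := Nat.cast_sub (by omega)
  have hw1 : w ≤ P - N := by omega
  generalize P - N = G at h hc hw1
  have key : |(G : ℝ) - (m : ℝ) * (144115188075855872 : ℕ)| ≤ |tau| + (107374182400 : ℕ) := by
    obtain ⟨a, b⟩ := abs_le.1 hG
    have k1 := le_abs_self tau
    have k2 := neg_abs_le tau
    rw [hc, Nat.cast_ofNat, Nat.cast_ofNat, abs_le]
    constructor <;> linarith
  have ht : |tau| ≤ rho * 268435456 := by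
    refine abs_le_of_sq_le_sq' ?_ (by positivity) |> abs_le.2
    have := sq_nonneg (A : ℝ)
    rw [mul_pow]
    linarith
  obtain ⟨L, hL, h1, h2⟩ := toN (by norm_num) hw1 (key.trans (by rw [Nat.cast_ofNat]; linarith))
  obtain ⟨j, a, hj, ha⟩ := range (by norm_num) h1 h2 h
  rw [tl2, hj, show Nat.mul L 144115188075855872 = L * 144115188075855872 from rfl, Nat.sub_eq,
    Nat.mul_eq (x := _ - _)] at ha
  rw [← hL, Int.cast_natCast, ← Nat.cast_mul] at key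
  have he := sq_le key
  generalize (ad G (L * 144115188075855872) - 107374182400) *
    (ad G (L * 144115188075855872) - 107374182400) = e at ha he
  have hlt : A * A + 4 * e < rho * rho * 288230376151711744 := (Nat.cast_lt (α := ℝ)).1 (by
    rw [Nat.cast_add, Nat.cast_mul, Nat.cast_mul, Nat.cast_mul, Nat.cast_mul, Nat.cast_ofNat,
      Nat.cast_ofNat, ← sq, ← sq]
    linarith)
  cases hc : Nat.ble (Nat.mul (Nat.mul rho rho) 288230376151711744) (Nat.add (Nat.mul A A) (Nat.mul 4 e))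
  · rw [hc, cond_false] at ha
    exact ⟨L, a, hL, ha⟩
  · exact absurd (Nat.le_of_ble_eq_true hc) (Nat.not_le.2 hlt)

theorem flip {X : ℕ} {x : ℝ} (c : Close X x) (r : Rng X) :
    Close (Nat.sub 2147483648 X) (-x) ∧ Rng (Nat.sub 2147483648 X) := by
  obtain ⟨a, b⟩ := r
  have h : X ≤ 2147483648 := by omega
  rw [Nat.sub_eq]
  refine ⟨?_, by omega, by omega⟩
  obtain ⟨c1, c2⟩ := abs_le.1 c
  rw [Close, Nat.cast_sub h, Nat.cast_ofNat, abs_le]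
  constructor <;> linarith

theorem rotc {a X Y : ℕ} {x y : ℝ} (ha : a < 4) (cX : Close X x) (cY : Close Y y) (rX : Rng X)
    (rY : Rng Y) : ∃ x' y' : ℝ, I ^ a * ⟨x, y⟩ = ⟨x', y'⟩ ∧ x' ^ 2 + y' ^ 2 = x ^ 2 + y ^ 2 ∧
      Close (rotX a X Y) x' ∧ Close (rotY a X Y) y' ∧ Rng (rotX a X Y) ∧ Rng (rotY a X Y) := by
  obtain ⟨fX, gX⟩ := flip cX rX
  obtain ⟨fY, gY⟩ := flip cY rY
  obtain rfl | rfl | rfl | rfl : a = 0 ∨ a = 1 ∨ a = 2 ∨ a = 3 := by omega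
  · exact ⟨x, y, by simp, rfl, cX, cY, rX, rY⟩
  · exact ⟨-y, x, by apply Complex.ext <;> simp, by ring, fY, cX, gY, rX⟩
  · exact ⟨-x, -y, by apply Complex.ext <;> simp, by ring, fX, fY, gX, gY⟩
  · exact ⟨y, -x, by apply Complex.ext <;> simp [pow_succ], by ring, cY, fX, rY, gX⟩

theorem act (sw : Bool) {a b : ℕ} (l0 l1 l2 l3 t2 : ℤ) {x0 x1 x2 x3 y0 y1 y2 y3 : ℝ} (t u : ℝ)
    (h1 : I ^ a * ⟨cond sw x2 x0, cond sw x3 x1⟩ = ⟨y0, y1⟩)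
    (h2 : I ^ b * ⟨cond sw x0 x2, cond sw x1 x3⟩ = ⟨y2, y3⟩)
    (h3 : y0 ^ 2 + y1 ^ 2 = cond sw x2 x0 ^ 2 + cond sw x3 x1 ^ 2)
    (h4 : y2 ^ 2 + y3 ^ 2 = cond sw x0 x2 ^ 2 + cond sw x1 x3 ^ 2) :
    pm 0 sw a b l0 l1 l2 l3 t2 *ᵥ pt x0 x1 x2 x3 t u = pt (y0 + l0) (y1 + l1) (y2 + l2) (y3 + l3)
      (t + t2 / 2 - (l0 * y1 - l1 * y0) - (l2 * y3 - l3 * y2)) u := by
  have e : pm 0 sw a b l0 l1 l2 l3 t2 = pm 0 false 0 0 l0 l1 l2 l3 t2 * pm 0 sw a b 0 0 0 0 0 := by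
    ext i j
    cases sw <;> fin_cases i <;> fin_cases j <;> simp [pm, Matrix.mul_apply, Fin.sum_univ_four]
  have e2 : pm 0 sw a b 0 0 0 0 0 *ᵥ pt x0 x1 x2 x3 t u = pt y0 y1 y2 y3 t u := by
    funext i
    cases sw <;> simp only [cond_true, cond_false] at h1 h2 h3 h4 <;> fin_cases i
    · apply Complex.ext <;> simp [pm, pt, Matrix.mulVec, dotProduct, Fin.sum_univ_four]
      linarith
    · simpa [pm, pt, Matrix.mulVec, dotProduct, Fin.sum_univ_four] using h1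
    · simpa [pm, pt, Matrix.mulVec, dotProduct, Fin.sum_univ_four] using h2
    · simp [pm, pt, Matrix.mulVec, dotProduct, Fin.sum_univ_four]
    · apply Complex.ext <;> simp [pm, pt, Matrix.mulVec, dotProduct, Fin.sum_univ_four]
      linarith
    · simpa [pm, pt, Matrix.mulVec, dotProduct, Fin.sum_univ_four] using h1
    · simpa [pm, pt, Matrix.mulVec, dotProduct, Fin.sum_univ_four] using h2
    · simp [pm, pt, Matrix.mulVec, dotProduct, Fin.sum_univ_four]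
  rw [e, ← Matrix.mulVec_mulVec, e2, Pred.tr0]

theorem newt_ge (R r : ℕ) (hr : 0 < r) : R ≤ newt R r * newt R r := by
  have e : newt R r = (r + R / r) / 2 + 1 := rfl
  have h1 : R < (R / r + 1) * r := by
    have := Nat.div_add_mod R r
    have := Nat.mod_lt R hr
    nlinarith
  generalize R / r = q at e h1
  have h2 : r + q + 1 ≤ 2 * newt R r := by omega
  generalize newt R r = n at h2
  have h3 : (r + q + 1) * (r + q + 1) ≤ (2 * n) * (2 * n) := Nat.mul_le_mul h2 h2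
  zify at *
  nlinarith [sq_nonneg ((r : ℤ) - (q + 1))]

theorem sqrt_ge (R : ℕ) : R ≤ sqrtUp R * sqrtUp R := newt_ge _ _ (Nat.succ_pos _)

theorem rho_bd {S n1 n2 s1 s2 B bd rho Q : ℝ} (hS : 0 < S) (h1 : S ^ 2 ≤ s1 ^ 2 * n1)
    (h2 : S ^ 2 ≤ s2 ^ 2 * n2) (hB : S ^ 2 * B ≤ bd ^ 2) (h0 : 0 ≤ bd * (s1 * s2))
    (hr : bd * (s1 * s2) ≤ rho * S ^ 2) (hQ : n1 * (n2 * Q) < B) (hQ0 : 0 ≤ Q) : Q * S ^ 2 < rho ^ 2 := by
  have p : 0 < S ^ 2 := by positivity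
  have p1 : 0 < s1 ^ 2 := by
    rcases (sq_nonneg s1).eq_or_lt with h | h
    · rw [← h] at h1; linarith
    · exact h
  have p2 : 0 < s2 ^ 2 := by
    rcases (sq_nonneg s2).eq_or_lt with h | h
    · rw [← h] at h2; linarith
    · exact h
  have a1 : S ^ 2 * S ^ 2 ≤ (s1 ^ 2 * n1) * (s2 ^ 2 * n2) := mul_le_mul h1 h2 p.le (p.le.trans h1)
  have a2 : S ^ 2 * S ^ 2 * Q ≤ (s1 ^ 2 * n1) * (s2 ^ 2 * n2) * Q := mul_le_mul_of_nonneg_right a1 hQ0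
  have a3 : s1 ^ 2 * s2 ^ 2 * (n1 * (n2 * Q)) < s1 ^ 2 * s2 ^ 2 * B :=
    mul_lt_mul_of_pos_left hQ (mul_pos p1 p2)
  have a4 : s1 ^ 2 * s2 ^ 2 * (S ^ 2 * B) ≤ s1 ^ 2 * s2 ^ 2 * bd ^ 2 :=
    mul_le_mul_of_nonneg_left hB (mul_pos p1 p2).le
  have a5 : (bd * (s1 * s2)) ^ 2 ≤ (rho * S ^ 2) ^ 2 := pow_le_pow_left₀ h0 hr 2
  have a6 : S ^ 2 * (S ^ 2 * S ^ 2 * Q) < S ^ 2 * (s1 ^ 2 * s2 ^ 2 * B) :=
    mul_lt_mul_of_pos_left (by linarith) p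
  refine lt_of_mul_lt_mul_left (a := S ^ 2 * S ^ 2) ?_ (mul_pos p p).le
  linarith

theorem pr {S X Y x y : ℝ} (hS : 1 ≤ S) (a : |X - x * S| ≤ 1) (b : |Y - y * S| ≤ 1) (c : |X| ≤ 2 * S)
    (d : |Y| ≤ 2 * S) : |X * Y - x * y * S ^ 2| ≤ 5 * S := by
  have e : X * Y - x * y * S ^ 2 = X * (Y - y * S) + Y * (X - x * S) - (X - x * S) * (Y - y * S) := by
    ring
  have h1 : |X * (Y - y * S)| ≤ 2 * S * 1 := by
    rw [abs_mul]; exact mul_le_mul c b (abs_nonneg _) (by linarith)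
  have h2 : |Y * (X - x * S)| ≤ 2 * S * 1 := by
    rw [abs_mul]; exact mul_le_mul d a (abs_nonneg _) (by linarith)
  have h3 : |(X - x * S) * (Y - y * S)| ≤ 1 * 1 := by
    rw [abs_mul]; exact mul_le_mul a b (abs_nonneg _) (by linarith)
  rw [e, abs_le]
  rw [abs_le] at h1 h2 h3
  constructor <;> linarith [h1.1, h1.2, h2.1, h2.2, h3.1, h3.2]

theorem ln {S X Y x y : ℝ} (L : ℕ) (a : |X - x * S| ≤ 1) (b : |Y - y * S| ≤ 1) :
    |((L : ℝ) - 8) * (X + Y) - (L - 8) * (x + y) * S| ≤ 2 * L + 16 := by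
  have e : ((L : ℝ) - 8) * (X + Y) - (L - 8) * (x + y) * S = (L - 8) * ((X - x * S) + (Y - y * S)) := by
    ring
  have h0 : (0 : ℝ) ≤ L := Nat.cast_nonneg L
  have h1 : |(L : ℝ) - 8| ≤ L + 8 := abs_le.2 ⟨by linarith, by linarith⟩
  have h2 : |(X - x * S) + (Y - y * S)| ≤ 2 := (abs_add_le _ _).trans (by linarith)
  rw [e, abs_mul]
  exact (mul_le_mul h1 h2 (abs_nonneg _) (by linarith)).trans (by linarith)

theorem rng_abs {X : ℕ} (r : Rng X) : |(X : ℝ) - 1073741824| ≤ 2 * 268435456 := by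
  have a : ((536870912 : ℕ) : ℝ) ≤ X := Nat.cast_le.2 r.1
  have b : (X : ℝ) ≤ (1610612736 : ℕ) := Nat.cast_le.2 r.2
  rw [Nat.cast_ofNat] at a b
  rw [abs_le]
  constructor <;> linarith

theorem posP_cast (L0 L1 X0 X1 Y0 Y1 : ℕ) : ((posP L0 L1 X0 X1 Y0 Y1 : ℕ) : ℝ) =
    (L0 * (Y1 + X1) + 8 * (Y0 + X0) + 2147483648 * L1) * 268435456 +
      (Y0 * X1 + 1073741824 * (Y1 + X0)) := by
  simp only [posP, Nat.add_eq, Nat.mul_eq, Nat.cast_add, Nat.cast_mul, Nat.cast_ofNat]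

theorem pos_err (L0 L1 : ℕ) {X0 X1 Y0 Y1 : ℕ} {x0 x1 y0 y1 : ℝ} (a0 : Close X0 x0) (a1 : Close X1 x1)
    (b0 : Close Y0 y0) (b1 : Close Y1 y1) (c0 : Rng X0) (c1 : Rng X1) (d0 : Rng Y0) (d1 : Rng Y1) :
    |((posP L0 L1 X0 X1 Y0 Y1 : ℕ) : ℝ) - (posP L1 L0 X1 X0 Y1 Y0 : ℕ) -
      (((L0 : ℝ) - 8) * (y1 + x1) - ((L1 : ℝ) - 8) * (y0 + x0) + y0 * x1 - y1 * x0) * 268435456 ^ 2| ≤
        (2 * (L0 : ℝ) + 2 * L1 + 42) * 268435456 := by
  have p1 := abs_le.1 (pr (by norm_num) b0 a1 (rng_abs d0) (rng_abs c1))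
  have p2 := abs_le.1 (pr (by norm_num) b1 a0 (rng_abs d1) (rng_abs c0))
  have p3 := abs_le.1 (ln L0 b1 a1)
  have p4 := abs_le.1 (ln L1 b0 a0)
  rw [posP_cast, posP_cast, abs_le]
  constructor <;> linarith [p1.1, p1.2, p2.1, p2.2, p3.1, p3.2, p4.1, p4.2]

theorem Q_parts {S R0 u1 u2 tau rho uu : ℝ} (hS : 0 < S)
    (hr : 0 ≤ rho) (huu : uu ≤ (u1 + u2) * S)
    (hQ : (((R0 + u1 + u2) / 2) ^ 2 + tau ^ 2) * S ^ 2 < rho ^ 2) :
    R0 * S ^ 2 < (2 * rho - uu) * S ∧ ∀ A : ℝ, 0 ≤ A → A ≤ R0 * S ^ 2 + uu * S →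
      A ^ 2 + 4 * (tau * S ^ 2) ^ 2 < rho ^ 2 * (4 * S ^ 2) := by
  have p : 0 < S ^ 2 := by positivity
  constructor
  · have h1 : ((R0 + u1 + u2) / 2 * S) ^ 2 < rho ^ 2 := by
      have := mul_nonneg (sq_nonneg tau) p.le
      rw [mul_pow]; linarith
    have h2 := lt_of_pow_lt_pow_left₀ 2 hr h1
    have h3 : R0 * S < 2 * rho - uu := by linarith
    have := mul_lt_mul_of_pos_right h3 hS
    linarith
  · intro A hA hA2
    have h1 : A ≤ (R0 + u1 + u2) * S ^ 2 := by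
      have := mul_le_mul_of_nonneg_right huu hS.le
      linarith
    have h2 := pow_le_pow_left₀ hA h1 2
    have h3 := mul_lt_mul_of_pos_right hQ (by positivity : 0 < 4 * S ^ 2)
    linarith

theorem bdN_ge (i k : Bool) : (268435456 : ℝ) ^ 2 * Bd i k ≤ ((bdN i k : ℕ) : ℝ) ^ 2 := by
  cases i <;> cases k <;> norm_num [Bd, bdN]

theorem shr_ge (n : ℕ) : (n : ℝ) ≤ ((Nat.add (Nat.shiftRight n 56) 1 : ℕ) : ℝ) * 268435456 ^ 2 := by
  have e : Nat.add (Nat.shiftRight n 56) 1 = n / 72057594037927936 + 1 := by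
    rw [Nat.add_eq, Nat.shiftRight_eq, Nat.shiftRight_eq_div_pow]
  have h : n ≤ (n / 72057594037927936 + 1) * 72057594037927936 :=
    (Nat.div_add_mod' n _).symm.le.trans (by
      rw [Nat.add_mul, one_mul]; exact Nat.add_le_add_left (Nat.mod_lt _ (by norm_num)).le _)
  rw [e]
  generalize n / 72057594037927936 + 1 = q at h
  have : (n : ℝ) ≤ ((q * 72057594037927936 : ℕ) : ℝ) := Nat.cast_le.2 h
  rw [Nat.cast_mul, Nat.cast_ofNat] at this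
  linarith

theorem scal {D : Dat} {i k : Bool} {g g' : U31} (n : ℕ) (h : g ∈ TT D i k) (e : g'.1 = zeta ^ n • g.1) :
    g' ∈ TT D i k := by
  obtain ⟨p, hp, r, hr, q, hq, rfl⟩ := h
  have e2 : ((p * r)⁻¹ * g').1 = zeta ^ n • q.1 := by
    rw [U31.val_mul, e, Matrix.mul_smul, ← U31.val_mul, inv_mul_cancel_left]
  refine ⟨p, hp, r, hr, (p * r)⁻¹ * g', ?_, (mul_inv_cancel_left _ _).symm⟩
  cases k
  · obtain ⟨m, sw, a, b, l0, l1, l2, l3, t2, hv, hq⟩ := hq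
    refine ⟨n + m, sw, a, b, l0, l1, l2, l3, t2, hv, ?_⟩
    rw [e2, hq, Cert91.pm_smul m, Cert91.pm_smul (n + m), smul_smul, pow_add]
  · obtain ⟨m, j, hq⟩ := hq
    exact ⟨m, n + j, by rw [e2, hq, smul_smul, pow_add]⟩

theorem pm_mod (sw : Bool) (a b : ℕ) (l0 l1 l2 l3 t2 : ℤ) :
    pm 0 sw a b l0 l1 l2 l3 t2 = pm 0 sw (a % 4) (b % 4) l0 l1 l2 l3 t2 := by
  unfold pm
  rw [← Complex.I_pow_eq_pow_mod, ← Complex.I_pow_eq_pow_mod]

theorem dle {D R0 : ℝ} {R : ℕ} (h : D ^ 2 ≤ R0) (h2 : R0 < R) :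
    |D| + 2 ≤ ((Nat.add (sqrtUp R) 2 : ℕ) : ℝ) := by
  have h3 : (R : ℝ) ≤ ((sqrtUp R * sqrtUp R : ℕ) : ℝ) := Nat.cast_le.2 (sqrt_ge R)
  rw [Nat.cast_mul, ← sq] at h3
  have : |D| ≤ (sqrtUp R : ℕ) := abs_le.2 (abs_le_of_sq_le_sq' (by linarith) (Nat.cast_nonneg _))
  rw [Nat.add_eq, Nat.cast_add, Nat.cast_ofNat]
  linarith

theorem fin1_ok {D : Dat} {i k : Bool} {e1 e2 : Ent} {rho uu R2 : ℕ} {sw : Bool}
    {a b Y0 Y1 Y2 Y3 L0 L1 L2 L3 rem s : ℕ} {t2 : ℤ} {x0 x1 x2 x3 y0 y1 y2 y3 t t' : ℝ}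
    (h : fin1 D i k e1 e2 rho uu R2 sw a b Y0 Y1 Y2 Y3 L0 L1 L2 L3 rem s ≠ 0)
    (hv : PValid sw ((L0 : ℤ) - 8) ((L1 : ℤ) - 8) ((L2 : ℤ) - 8) ((L3 : ℤ) - 8) t2)
    (a0 : Close e1.a0 x0) (a1 : Close e1.a1 x1) (a2 : Close e1.a2 x2) (a3 : Close e1.a3 x3)
    (b0 : Close Y0 y0) (b1 : Close Y1 y1) (b2 : Close Y2 y2) (b3 : Close Y3 y3)
    (c0 : Rng e1.a0) (c1 : Rng e1.a1) (c2 : Rng e1.a2) (c3 : Rng e1.a3)
    (d0 : Rng Y0) (d1 : Rng Y1) (d2 : Rng Y2) (d3 : Rng Y3) (ct : Close e1.t t) (ct' : Close e2.t t')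
    (hQ : ((Nat.add (Nat.sub R2 rem) (Nat.mul uu 268435456) : ℕ) : ℝ) ^ 2 +
      4 * ((t - t' - t2 / 2 + (((L0 : ℝ) - 8) * (y1 + x1) - ((L1 : ℝ) - 8) * (y0 + x0) + y0 * x1 - y1 * x0) +
        (((L2 : ℝ) - 8) * (y3 + x3) - ((L3 : ℝ) - 8) * (y2 + x2) + y2 * x3 - y3 * x2)) * 268435456 ^ 2) ^ 2 <
          (rho : ℝ) ^ 2 * 288230376151711744) :
    ∃ T acc : ℕ, (T : ℤ) - 68 = t2 ∧ T ≤ 127 ∧ L0 + L1 + (L2 + L3) ≤ 64 ∧
      cert D i k e1.gi (pmulP sw a b L0 L1 L2 L3 T (rows e2.g)) acc ≠ 0 := by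
  have hpar : Nat.beq (Nat.mod (Nat.add (par2 L0 L1) (par2 L2 L3)) 2) (cond sw 1 0) = true := by
    have e : Nat.mod (Nat.add (par2 L0 L1) (par2 L2 L3)) 2 = (L0 % 2 + L1 % 2 + (L2 % 2 + L3 % 2)) % 2 := rfl
    have h1 := hv.1
    rw [e, Nat.beq_eq]
    cases sw
    · simp only [Bool.false_eq_true, if_false] at h1
      rw [cond_false]; omega
    · simp only [if_true] at h1
      rw [cond_true]; omega
  rw [fin1, hpar, cond_true] at h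
  cases hb : Nat.ble (Nat.add (Nat.add L0 L1) (Nat.add L2 L3)) 64
  · rw [hb] at h; exact absurd rfl h
  rw [hb, cond_true] at h
  have hs : L0 + L1 + (L2 + L3) ≤ 64 := Nat.le_of_ble_eq_true hb
  have hF : f4 (par2 L0 L1) (par2 L2 L3) < 4 := Nat.mod_lt _ (by norm_num)
  obtain ⟨m, hm⟩ : ∃ m : ℤ, t2 = 4 * m + (f4 (par2 L0 L1) (par2 L2 L3) : ℕ) - 68 := by
    have h1 := (KB91.valid L0 L1 L2 L3 0).2
    have h2 := hv.2
    generalize ((L0 : ℤ) - 8) ^ 2 + ((L1 : ℤ) - 8) ^ 2 - (((L2 : ℤ) - 8) ^ 2 + ((L3 : ℤ) - 8) ^ 2) +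
      2 * (((L0 : ℤ) - 8) ^ 2 + ((L1 : ℤ) - 8) ^ 2) * (((L2 : ℤ) - 8) ^ 2 + ((L3 : ℤ) - 8) ^ 2) = w at h1 h2
    exact ⟨(t2 + 68 - (f4 (par2 L0 L1) (par2 L2 L3) : ℕ)) / 4, by omega⟩
  generalize f4 (par2 L0 L1) (par2 L2 L3) = F at h hF hm
  have p1 := abs_le.1 (pos_err L0 L1 a0 a1 b0 b1 c0 c1 d0 d1)
  have p2 := abs_le.1 (pos_err L2 L3 a2 a3 b2 b3 c2 c3 d2 d3)
  have hs' : (L0 : ℝ) + L1 + (L2 + L3) ≤ 64 := by
    have : ((L0 + L1 + (L2 + L3) : ℕ) : ℝ) ≤ (64 : ℕ) := Nat.cast_le.2 hs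
    rwa [Nat.cast_add, Nat.cast_add, Nat.cast_add, Nat.cast_ofNat] at this
  have hm' : (t2 : ℝ) = 4 * m + F - 68 := by rw [hm]; push_cast; ring
  obtain ⟨M, acc, hM, hacc⟩ := tl_ok (m := m) h (by
    obtain ⟨q1, q2⟩ := abs_le.1 ct
    obtain ⟨q3, q4⟩ := abs_le.1 ct'
    simp only [Nat.add_eq, Nat.mul_eq, Nat.cast_add, Nat.cast_mul, Nat.cast_ofNat]
    rw [hm', abs_le]
    constructor <;> linarith [p1.1, p1.2, p2.1, p2.2]) hQ
  rw [fin2, hb, Bool.true_and] at hacc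
  cases hc : Nat.ble M 31
  · rw [hc] at hacc; exact absurd rfl hacc
  rw [hc, cond_true] at hacc
  have hM2 : M ≤ 31 := Nat.le_of_ble_eq_true hc
  refine ⟨4 * M + F, acc, ?_, by omega, hs, hacc⟩
  rw [hm, ← hM]; push_cast; ring

end En91

open En91 in
theorem rowEnum91 : SEnum := by
  intro ka kb hP D hS hC i k e1 e2 s t1 t2 h ⟨_, h1i, c1, x0, x1, x2, x3, t, u, h1,
    ⟨a0, a1, a2, a3, a4, a5, r0, r1, r2, r3⟩, hu, hs1, _⟩ ⟨h2g, _, c2, z0, z1, z2, z3, t', u', h2,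
    ⟨b0, b1, b2, b3, b4, b5, s0, s1, s2, s3⟩, hu', hs2, _⟩ p ⟨n, sw, a, b, l0, l1, l2, l3, tt, hv, hp⟩ hlt
  rw [Cert91.pm_smul, pm_mod] at hp
  have ha : a % 4 < 4 := Nat.mod_lt _ (by norm_num)
  have hb : b % 4 < 4 := Nat.mod_lt _ (by norm_num)
  generalize a % 4 = a at hp ha
  generalize b % 4 = b at hp hb
  obtain ⟨y0, y1, e01, n01, f0, f1, g0, g1⟩ := rotc (X := cond sw e2.a2 e2.a0) (Y := cond sw e2.a3 e2.a1)
    (x := cond sw z2 z0) (y := cond sw z3 z1) ha (by cases sw <;> assumption)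
    (by cases sw <;> assumption) (by cases sw <;> assumption) (by cases sw <;> assumption)
  obtain ⟨y2, y3, e23, n23, f2, f3, g2, g3⟩ := rotc (X := cond sw e2.a0 e2.a2) (Y := cond sw e2.a1 e2.a3)
    (x := cond sw z0 z2) (y := cond sw z1 z3) hb (by cases sw <;> assumption)
    (by cases sw <;> assumption) (by cases sw <;> assumption) (by cases sw <;> assumption)
  have hz : normSq (zeta ^ n) = 1 := by
    have : normSq zeta = 1 := by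
      have := KC.s2
      simp only [zeta, normSq_mk]; linarith
    rw [map_pow, this, one_pow]
  rw [ap_mul, h1, h2, ap_smul, ap, hp, Matrix.smul_mulVec, act sw l0 l1 l2 l3 tt t' u' e01 e23 n01 n23,
    Cert91.herm_smul, Cert91.herm_smul, map_mul, map_mul, hz, one_mul, Run.nsq_pt] at hlt
  have hQ := rho_bd (by norm_num) hs2 hs1 (bdN_ge i k) (by positivity)
    ((le_of_eq (by rw [Nat.mul_eq, Nat.mul_eq, Nat.cast_mul, Nat.cast_mul]; ring)).trans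
      (shr_ge (Nat.mul (bdN i k) (Nat.mul e1.sg e2.sg)))) hlt (by positivity)
  rw [enumPair] at h
  generalize Nat.add (Nat.shiftRight (Nat.mul (bdN i k) (Nat.mul e1.sg e2.sg)) 56) 1 = rho at h hQ
  have huu : ((Nat.sub (Nat.add e1.u e2.u) 2 : ℕ) : ℝ) ≤ (u' + u) * 268435456 := by
    refine Run.sub_le _ _ _ (by positivity) ?_
    rw [Nat.add_eq, Nat.cast_add, Nat.cast_ofNat]
    linarith [(abs_le.1 a5).2, (abs_le.1 b5).2]
  generalize Nat.sub (Nat.add e1.u e2.u) 2 = uu at h huu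
  obtain ⟨hR, hA⟩ := Q_parts (by norm_num) (Nat.cast_nonneg rho) huu hQ
  have hlt2 : uu < 2 * rho := (Nat.cast_lt (α := ℝ)).1 (by
    have : (0 : ℝ) ≤ ((y0 + l0 - x0) ^ 2 + (y1 + l1 - x1) ^ 2 + (y2 + l2 - x2) ^ 2 + (y3 + l3 - x3) ^ 2) *
      268435456 ^ 2 := by positivity
    rw [Nat.cast_mul, Nat.cast_ofNat]
    linarith)
  have hb1 : Nat.ble (Nat.mul 2 rho) uu = false := by
    cases hc : Nat.ble (Nat.mul 2 rho) uu
    · rfl
    · exact absurd (Nat.le_of_ble_eq_true hc) (Nat.not_le.2 hlt2)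
  rw [enum1, hb1, cond_false] at h
  have hR2 : ((Nat.mul (Nat.sub (Nat.mul 2 rho) uu) 268435456 : ℕ) : ℝ) = (2 * rho - uu) * 268435456 := by
    rw [Nat.mul_eq, Nat.mul_eq, Nat.sub_eq, Nat.cast_mul, Nat.cast_sub hlt2.le, Nat.cast_mul,
      Nat.cast_ofNat, Nat.cast_ofNat]
  rw [← hR2] at hR
  clear hR2
  generalize Nat.mul (Nat.sub (Nat.mul 2 rho) uu) 268435456 = R2 at h hR
  have q0 := sq_nonneg ((x0 - y0 - l0) * 268435456)
  have q1 := sq_nonneg ((x1 - y1 - l1) * 268435456)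
  have q2 := sq_nonneg ((x2 - y2 - l2) * 268435456)
  have q3 := sq_nonneg ((x3 - y3 - l3) * 268435456)
  have hsum : ((y0 + l0 - x0) ^ 2 + (y1 + l1 - x1) ^ 2 + (y2 + l2 - x2) ^ 2 + (y3 + l3 - x3) ^ 2) *
      268435456 ^ 2 = ((x0 - y0 - l0) * 268435456) ^ 2 + ((x1 - y1 - l1) * 268435456) ^ 2 +
        ((x2 - y2 - l2) * 268435456) ^ 2 + ((x3 - y3 - l3) * 268435456) ^ 2 := by ring
  rw [hsum] at hR hA
  have d0 := dle (D := (x0 - y0 - l0) * 268435456) (by linarith) hR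
  have d1 := dle (D := (x1 - y1 - l1) * 268435456) (by linarith) hR
  have d2 := dle (D := (x2 - y2 - l2) * 268435456) (by linarith) hR
  have d3 := dle (D := (x3 - y3 - l3) * 268435456) (by linarith) hR
  generalize Nat.add (sqrtUp R2) 2 = r at h d0 d1 d2 d3
  rw [enum2] at h
  cases hc : Nat.ble r 1073741824
  · rw [hc] at h; exact absurd rfl h
  rw [hc, cond_true] at h
  have hr : r ≤ 1073741824 := Nat.le_of_ble_eq_true hc
  obtain ⟨s, h⟩ : ∃ s, enumS D i k e1 e2 rho uu R2 r sw (cond sw e2.a2 e2.a0) (cond sw e2.a3 e2.a1)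
      (cond sw e2.a0 e2.a2) (cond sw e2.a1 e2.a3) s ≠ 0 := by
    cases sw
    · obtain ⟨s, -, h⟩ := (loop_ne_zero h).2 0 (by norm_num)
      rw [show Nat.beq 0 0 = true from rfl, cond_true] at h
      exact ⟨s, h⟩
    · obtain ⟨s, -, h⟩ := (loop_ne_zero h).2 1 (by norm_num)
      rw [show Nat.beq 1 0 = false from rfl, cond_false] at h
      exact ⟨s, h⟩
  rw [enumS] at h
  obtain ⟨s, -, h⟩ := (loop_ne_zero h).2 a ha
  rw [enumA] at h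
  obtain ⟨L0, m0, s, k0, h, u0, v0, w0⟩ := lvl_ok h hr a0 f0 r0 g0 d0 (rest :=
    ((x1 - y1 - l1) * 268435456) ^ 2 + (((x2 - y2 - l2) * 268435456) ^ 2 +
      ((x3 - y3 - l3) * 268435456) ^ 2)) (by positivity) (by linarith)
  obtain ⟨L1, m1, s, k1, h, u1, v1, w1⟩ := lvl_ok h hr a1 f1 r1 g1 d1 (by positivity) u0
  obtain ⟨s, -, h⟩ := (loop_ne_zero h).2 b hb
  rw [enumB] at h
  obtain ⟨L2, m2, s, k2, h, u2, v2, w2⟩ := lvl_ok h hr a2 f2 r2 g2 d2 q3 u1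
  obtain ⟨L3, m3, s, k3, h, -, v3, w3⟩ := lvl_ok h hr a3 f3 r3 g3 d3 le_rfl (by rwa [add_zero])
  subst k0 k1 k2 k3
  have hA2 := hA ((Nat.add (Nat.sub R2 m3) (Nat.mul uu 268435456) : ℕ) : ℝ) (Nat.cast_nonneg _) (by
    rw [Nat.add_eq, Nat.mul_eq, Nat.sub_eq, Nat.cast_add, Nat.cast_mul, Nat.cast_sub (by omega),
      Nat.cast_ofNat]
    linarith)
  obtain ⟨T, acc, hT, hT2, hL, hcert⟩ := fin1_ok h hv a0 a1 a2 a3 f0 f1 f2 f3 r0 r1 r2 r3 g0 g1 g2 g3 a4 b4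
    (by
      generalize ((Nat.add (Nat.sub R2 m3) (Nat.mul uu 268435456) : ℕ) : ℝ) = A at hA2 ⊢
      simp only [Int.cast_sub, Int.cast_natCast, Int.cast_ofNat] at hA2
      convert hA2 using 1
      · ring
      · norm_num)
  subst hT
  have hX := kb.pmulP sw a b L0 L1 L2 L3 T 56 _ _ _ (by omega) (by omega) (by omega) (by omega)
    (by norm_num) hT2 (ka.rows e2.g)
  let p0 : U31 := ⟨_, hP.1 0 sw a b ((L0 : ℤ) - 8) ((L1 : ℤ) - 8) ((L2 : ℤ) - 8) ((L3 : ℤ) - 8) ((T : ℤ) - 68)⟩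
  have e : (16 : ℂ) • (p0 * t2).1 = (4 : ℂ) • p0.1 * (4 : ℂ) • cm e2.g := by
    rw [U31.val_mul, h2g, Matrix.smul_mul, Matrix.mul_smul, smul_smul]
    norm_num
  refine scal n (hC i k _ _ _ t1 (p0 * t2) hcert h1i (e ▸ ka.mono _ _ _ _ hX (by norm_num))) ?_
  simp only [U31.val_mul]
  rw [hp, Matrix.smul_mul, Matrix.mul_smul]

end Pool.Agent.MP_d97ab6_al.H91
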