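import Pool.Agent.MP_d97ab6_al.H91.Sem

/-! Meaning of the representatives and of the neighbouring charts. -/

namespace Pool.Agent.MP_d97ab6_al.H91

open Matrix Complex

namespace Ent

theorem nrm_pt (c : ℂ) (x0 x1 x2 x3 t u : ℝ) : nrm (c • pt x0 x1 x2 x3 t u) = normSq c * u := by
  simp [nrm, herm, pt, normSq_apply]
  ring

theorem nrm_vec (k : Bool) : 0 ≤ nrm (vec k) := by
  cases k
  · simp [nrm, herm, vec]
  · have := nrm_pt 1 0 0 0 0 (-1 + √2 / 4) (1 - √2 / 2)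
    rw [one_smul] at this
    rw [vec, this, normSq_one]
    linarith [Real.sqrt_two_lt_three_halves]

theorem cl0 (c : ℂ) (a b : M4) : col0 ((c • a) * b) = c • (a *ᵥ col0 b) := by
  rw [Matrix.smul_mul]
  rfl

theorem colv {D : Dat} (h0 : col0 (cm D.v0) = vec false) (h1 : col0 (cm D.v1) = vec true)
    (k : Bool) : col0 ((4 : ℂ) • cm (D.vc k)) = (4 : ℂ) • vec k := by
  cases k
  exacts [congrArg ((4 : ℂ) • ·) h0, congrArg ((4 : ℂ) • ·) h1]

theorem core (hC : KC) {V : R4} {g : M4} {b a0 a1 a2 a3 t u : ℕ} (h : coOK V a0 a1 a2 a3 t u = true)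
    (hV : RepM V g b) (hb : b < 2 ^ 63) (h3 : g 3 0 ≠ 0) {N : ℝ} (hN : N ≠ 0) {s : U31} {k : Bool}
    (e : col0 g = (N : ℂ) • ap s (vec k)) : ∃ (c : ℂ) (x0 x1 x2 x3 t' u' : ℝ), c ≠ 0 ∧
      ap s (vec k) = c • pt x0 x1 x2 x3 t' u' ∧ Co a0 a1 a2 a3 t u x0 x1 x2 x3 t' u' ∧ 0 ≤ u' ∧
        normSq (g 3 0) = N ^ 2 * normSq c := by
  obtain ⟨x0, x1, x2, x3, t', u', h1, h2⟩ := hC.coOK V g b _ _ _ _ _ _ h hV hb h3
  have N0 : (N : ℂ) ≠ 0 := ofReal_ne_zero.2 hN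
  have c0 := mul_ne_zero (inv_ne_zero N0) h3
  have a : ap s (vec k) = ((N : ℂ)⁻¹ * g 3 0) • pt x0 x1 x2 x3 t' u' := by
    rw [mul_smul, ← h1, e, inv_smul_smul₀ N0]
  refine ⟨_, x0, x1, x2, x3, t', u', c0, a, h2, ?_, ?_⟩
  · have := nrm_vec k
    rw [← nrm_ap s, a, nrm_pt] at this
    exact nonneg_of_mul_nonneg_right this (normSq_pos.2 c0)
  · rw [map_mul, map_inv₀, normSq_ofReal]
    field_simp

theorem uni (hC : KC) {g gi : ℕ} (h : uOK g gi = true) :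
    ∃ r : U31, r.1 = cm g ∧ (r⁻¹).1 = cm gi :=
  ⟨⟨_, (hC.uOK g gi h).1⟩, rfl, (hC.uOK g gi h).2.symm⟩

end Ent

open Ent

theorem rowEnt : SEnt := by
  intro hA hC D h0 h1
  refine ⟨fun k n h => ?_, fun hi n0 n1 n2 a0 a1 a2 i k n => ?_⟩
  · simp only [entOK, entOK2, Bool.and_eq_true, Bool.or_eq_true] at h
    obtain ⟨⟨u1, u2⟩, u3, u4⟩ := h
    obtain ⟨r, r1, r2⟩ := uni hC u1
    have hV := hA.dmul (D.e0 k n).g _ _ _ (hA.rows (D.vc k))
    have b := hC.nge _ _ _ _ _ hV.2.2.2 (by norm_num) u3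
    obtain ⟨c, x0, x1, x2, x3, t', u', -, c1, c2, c3, c4⟩ := core hC u2 hV (by norm_num)
      (fun c => by
        rw [c] at b
        norm_num at b) (N := 16) (by norm_num) (s := r) (k := k) (by
        rw [cl0, colv h0 h1, mulVec_smul, smul_smul, ap, r1]
        norm_num)
    refine ⟨r, r1, r2, c, x0, x1, x2, x3, t', u', c1, c2, c3, ?_, fun e => ?_⟩
    · rw [c4, Nat.mul_eq] at b
      push_cast at b
      linarith
    · have := hC.nge _ _ _ _ _ hV.2.2.2 (by norm_num) (u4.resolve_left (by simp [e]))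
      rw [c4] at this
      push_cast at this
      linarith
  · have e : ∀ {k n}, entOK D k n = true → uOK (D.e0 k n).g (D.e0 k n).gi = true := fun h => by
      simp only [entOK, entOK2, Bool.and_eq_true] at h
      exact h.1.1
    have m : ∀ m : ℕ, Nat.mod (n % m) m = Nat.mod n m := Nat.mod_mod n
    have b1 : ∃ r : U31, r.1 = cm (D.e01 n).g ∧ (r⁻¹).1 = cm (D.e01 n).gi := by
      have := uni hC (e (a1 _ (Nat.mod_lt n n1)))
      rwa [Dat.e0, cond_true, Dat.e01, m] at this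
    cases i <;> cases k
    · simp only [Dat.gR, Dat.gRi, cond_false]
      cases Nat.beq n 255
      · have := uni hC (e (a0 _ (Nat.mod_lt n n0)))
        rwa [Dat.e0, cond_false, Dat.e00, m] at this
      · exact ⟨1, hi.symm, by rw [inv_one]; exact hi.symm⟩
    · exact b1
    · obtain ⟨r, r1, r2⟩ := b1
      exact ⟨r⁻¹, r2, by rw [inv_inv]; exact r1⟩
    · obtain ⟨a, -, ha⟩ := (loop_ne_zero a2).2 _ (Nat.mod_lt n n2)
      refine uni hC (g := (D.e11 n).g) (gi := (D.e11 n).gi) ?_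
      rw [Dat.e11, m, ← Dat.e11] at ha
      by_contra c
      rw [Bool.eq_false_iff.2 c] at ha
      exact ha rfl

theorem rowCh : SCh := by
  intro hA hB hC hP D h0 h1 hS hR i c h
  simp only [chOK, chOK2, Bool.and_eq_true] at h
  obtain ⟨⟨u1, u2⟩, u3⟩ := h
  obtain ⟨r, r1, -⟩ := hR i c.j c.ri
  have hV := hA.dmul (D.gR i c.j c.ri) _ _ _ (hA.rows (D.vc c.j))
  have one : ∀ k, (1 : U31) ∈ PP D k := fun k => by
    cases k
    · obtain ⟨P, hP⟩ := hP.2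
      exact hP.subset P.one_mem
    · obtain ⟨P, hP⟩ := hS.grp
      exact hP.subset P.one_mem
  obtain ⟨p, hp, hW⟩ : ∃ p ∈ PP D i, RepM (gmul D i c.pc (dmul (D.gR i c.j c.ri) (rows (D.vc c.j))))
      (((4 : ℂ) • p.1) * (((4 : ℂ) • cm (D.gR i c.j c.ri)) * ((4 : ℂ) • cm (D.vc c.j))))
      (2048 * (2048 * 512)) := by
    cases i
    · obtain ⟨sw, a, b, l0, l1, l2, l3, t2, v, hv⟩ := hB.pmulC c.pc
      exact ⟨⟨_, hP.1 0 sw a b l0 l1 l2 l3 t2⟩, ⟨0, sw, a, b, l0, l1, l2, l3, t2, v, rfl⟩,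
        hA.mono _ _ _ _ (hv _ _ _ hV) (by norm_num)⟩
    · exact ⟨⟨_, hS.isU c.pc⟩, ⟨c.pc, 0, by simp⟩, hA.dmul _ _ _ _ hV⟩
  have b := hC.nge _ _ _ _ _ hW.2.2.2 (by norm_num) u2
  have b' := hC.nle _ _ _ _ _ hW.2.2.2 (by norm_num) u3
  obtain ⟨d, x0, x1, x2, x3, t', u', c0, c1, c2, c3, c4⟩ := core hC u1 hW (by norm_num)
    (fun c => by
      rw [c] at b
      norm_num at b) (N := 64) (by norm_num) (s := p * r * 1) (k := c.j) (by
      rw [cl0, cl0, colv h0 h1, mulVec_smul, mulVec_smul, mulVec_smul, smul_smul, smul_smul, mul_one,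
        ap_mul, ap, ap, r1]
      norm_num)
  refine ⟨_, ⟨p, hp, r, ⟨_, r1⟩, 1, one _, rfl⟩, d, x0, x1, x2, x3, t', u', c0, c1, c2, c3, ?_⟩
  rw [c4, Nat.mul_eq, Nat.mul_eq] at b'
  generalize c.j = j at b'
  cases j <;> simp only [cond_true, cond_false, kap'] at b' ⊢ <;> push_cast at b' <;> linarith

end Pool.Agent.MP_d97ab6_al.H91
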