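import Pool.Agent.MP_d97ab6_al.H91.EnumB

/-! Soundness of the enumeration of the cusp group. -/

namespace Pool.Agent.MP_d97ab6_al.H91

open Matrix Complex
open scoped ComplexConjugate

namespace Enum

theorem herm_smul (c d : ℂ) (v w : V4) : herm (c • v) (d • w) = conj c * d * herm v w := by
  simp only [herm, Pi.smul_apply, smul_eq_mul, map_mul]
  ring

theorem herm_pt (x0 x1 x2 x3 t u w0 w1 w2 w3 t' u' : ℝ) :
    normSq (herm (pt x0 x1 x2 x3 t u) (pt w0 w1 w2 w3 t' u')) =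
      (((x0 - w0) ^ 2 + (x1 - w1) ^ 2 + (x2 - w2) ^ 2 + (x3 - w3) ^ 2 + (u + u')) / 2) ^ 2 +
        (t' - t + x0 * w1 - x1 * w0 + x2 * w3 - x3 * w2) ^ 2 := by
  rw [normSq_apply]
  simp [herm, pt]
  ring

theorem I_norm (a : ℕ) : (I ^ a).re ^ 2 + (I ^ a).im ^ 2 = 1 := by
  have : normSq (I ^ a) = 1 := by rw [map_pow, normSq_I, one_pow]
  rw [normSq_apply] at this
  linarith

theorem pm_false (a b : ℕ) (l0 l1 l2 l3 τ : ℤ) (q0 q1 q2 q3 t u y0 y1 y2 y3 : ℝ)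
    (e0 : y0 = (I ^ a * ⟨q0, q1⟩).re) (e1 : y1 = (I ^ a * ⟨q0, q1⟩).im)
    (e2 : y2 = (I ^ b * ⟨q2, q3⟩).re) (e3 : y3 = (I ^ b * ⟨q2, q3⟩).im) :
    pm 0 false a b l0 l1 l2 l3 τ *ᵥ pt q0 q1 q2 q3 t u = pt (y0 + l0) (y1 + l1) (y2 + l2) (y3 + l3)
      (t + τ / 2 - (l0 * y1 - l1 * y0 + l2 * y3 - l3 * y2)) u := by
  have ha := I_norm a
  have hb := I_norm b
  unfold pm
  generalize I ^ a = α at *
  generalize I ^ b = β at *
  subst e0 e1 e2 e3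
  funext j
  fin_cases j <;> apply Complex.ext <;>
    simp [Matrix.mulVec, dotProduct, Fin.sum_univ_four, pt, pow_two]
  · linear_combination (q0 ^ 2 + q1 ^ 2) / 2 * ha + (q2 ^ 2 + q3 ^ 2) / 2 * hb
  · ring

theorem pm_true (a b : ℕ) (l0 l1 l2 l3 τ : ℤ) (q0 q1 q2 q3 t u y0 y1 y2 y3 : ℝ)
    (e0 : y0 = (I ^ a * ⟨q0, q1⟩).re) (e1 : y1 = (I ^ a * ⟨q0, q1⟩).im)
    (e2 : y2 = (I ^ b * ⟨q2, q3⟩).re) (e3 : y3 = (I ^ b * ⟨q2, q3⟩).im) :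
    pm 0 true a b l0 l1 l2 l3 τ *ᵥ pt q2 q3 q0 q1 t u = pt (y0 + l0) (y1 + l1) (y2 + l2) (y3 + l3)
      (t + τ / 2 - (l0 * y1 - l1 * y0 + l2 * y3 - l3 * y2)) u := by
  have ha := I_norm a
  have hb := I_norm b
  unfold pm
  generalize I ^ a = α at *
  generalize I ^ b = β at *
  subst e0 e1 e2 e3
  funext j
  fin_cases j <;> apply Complex.ext <;>
    simp [Matrix.mulVec, dotProduct, Fin.sum_univ_four, pt, pow_two]
  · linear_combination (q0 ^ 2 + q1 ^ 2) / 2 * ha + (q2 ^ 2 + q3 ^ 2) / 2 * hb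
  · ring

theorem pm_red (k : ℕ) (sw : Bool) (a b : ℕ) (l0 l1 l2 l3 τ : ℤ) :
    pm k sw a b l0 l1 l2 l3 τ = zeta ^ k • pm 0 sw (a % 4) (b % 4) l0 l1 l2 l3 τ := by
  unfold pm
  rw [← I_pow_eq_pow_mod a, ← I_pow_eq_pow_mod b, pow_zero, one_smul]

theorem pm_one : pm 0 false 0 0 0 0 0 0 0 = 1 := by
  ext i j
  fin_cases i <;> fin_cases j <;> simp [pm]

theorem zeta_norm (k : ℕ) : normSq (zeta ^ k) = 1 := by
  have h : (√2 : ℝ) * √2 = 2 := Real.mul_self_sqrt (by norm_num)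
  have : normSq zeta = 1 := by
    rw [normSq_apply, zeta]
    linarith
  rw [map_pow, this, one_pow]

theorem bd_le (i k : Bool) : Bd i k * 268435456 ^ 2 ≤ (bdN i k : ℝ) ^ 2 := by
  cases i <;> cases k <;> simp only [Bd, bdN, cond_true, cond_false] <;> norm_num

theorem rho_ok (i k : Bool) (g1 g2 : ℕ) (n1 n2 W : ℝ) (hW : 0 ≤ W)
    (h1 : (268435456 : ℝ) ^ 2 ≤ (g1 : ℝ) ^ 2 * n1) (h2 : (268435456 : ℝ) ^ 2 ≤ (g2 : ℝ) ^ 2 * n2)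
    (h : n1 * n2 * W < Bd i k) (rho : ℕ) (hr : rho = (bdN i k * (g1 * g2)) >>> 56 + 1) :
    W * 268435456 ^ 2 < (rho : ℝ) ^ 2 := by
  have hb := bd_le i k
  generalize bdN i k = B at hb hr
  have a1 : B * (g1 * g2) < 2 ^ 56 * rho := by
    rw [hr, Nat.shiftRight_eq_div_pow]
    exact Nat.lt_mul_div_succ _ (by norm_num)
  have a2 : (B : ℝ) * (g1 * g2) < 268435456 ^ 2 * rho := by
    have := (Nat.cast_lt (α := ℝ)).mpr a1
    push_cast at this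
    linarith only [this]
  have a3 : ((B : ℝ) * (g1 * g2)) ^ 2 < (268435456 ^ 2 * rho) ^ 2 :=
    pow_lt_pow_left₀ a2 (by positivity) two_ne_zero
  have hQ : (0 : ℝ) < 268435456 ^ 2 := by positivity
  generalize (268435456 : ℝ) ^ 2 = Q at h1 h2 hb a3 hQ ⊢
  have b1 : Q * Q ≤ (g1 : ℝ) ^ 2 * n1 * ((g2 : ℝ) ^ 2 * n2) :=
    mul_le_mul h1 h2 hQ.le (hQ.le.trans h1)
  refine lt_of_mul_lt_mul_left (a := Q * Q) ?_ (by positivity)
  calc Q * Q * (W * Q) ≤ (g1 : ℝ) ^ 2 * n1 * ((g2 : ℝ) ^ 2 * n2) * (W * Q) :=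
        mul_le_mul_of_nonneg_right b1 (by positivity)
    _ = ((g1 : ℝ) * g2) ^ 2 * (n1 * n2 * W * Q) := by ring
    _ ≤ ((g1 : ℝ) * g2) ^ 2 * (B : ℝ) ^ 2 :=
        mul_le_mul_of_nonneg_left ((mul_le_mul_of_nonneg_right h.le hQ.le).trans hb) (sq_nonneg _)
    _ = ((B : ℝ) * (g1 * g2)) ^ 2 := by ring
    _ < (Q * rho) ^ 2 := a3
    _ = _ := by ring

theorem main (hA : KA) (hB : KB) {D : Dat} (hC : CertOK D) {i k : Bool} {e1 e2 : Ent} {s : ℕ}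
    {t1 t2 p : U31} (h : enumPair D i k e1 e2 s ≠ 0) (E1 : EntSem i e1 t1) (E2 : EntSem k e2 t2)
    {sw : Bool} {a b : ℕ} {l0 l1 l2 l3 τ : ℤ} (ha : a < 4) (hb : b < 4)
    (hv : PValid sw l0 l1 l2 l3 τ) (hp : p.1 = pm 0 sw a b l0 l1 l2 l3 τ)
    (hlt : normSq (herm (ap t1 (vec i)) (ap (p * t2) (vec k))) < Bd i k) :
    t1⁻¹ * (p * t2) ∈ TT D i k := by
  obtain ⟨-, i1, c1, x0, x1, x2, x3, s1, u1, v1, C1, p1, g1, -⟩ := E1
  obtain ⟨i2, -, c2, z0, z1, z2, z3, s2, u2, v2, C2, p2, g2, -⟩ := E2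
  obtain ⟨cz0, cz1, cz2, cz3, ct, cu2, rz0, rz1, rz2, rz3⟩ := C2
  have cu1 := C1.2.2.2.2.2.1
  unfold enumPair at h
  simp only [Nat.add_eq, Nat.mul_eq, Nat.sub_eq, Nat.shiftRight_eq] at h
  generalize hrho : (bdN i k * (e1.sg * e2.sg)) >>> 56 + 1 = rho at h
  have hU : ((e1.u + e2.u - 2 : ℕ) : ℝ) ≤ (u1 + u2) * 268435456 := by
    by_cases h2 : 2 ≤ e1.u + e2.u
    · rw [Nat.cast_sub h2, Nat.cast_add, Nat.cast_ofNat]
      linarith only [(abs_le.mp cu1).2, (abs_le.mp cu2).2]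
    · rw [Nat.sub_eq_zero_of_le (not_le.mp h2).le, Nat.cast_zero]
      positivity
  generalize e1.u + e2.u - 2 = uu at h hU
  have key : ∀ y0 y1 y2 y3 : ℝ, pm 0 sw a b l0 l1 l2 l3 τ *ᵥ pt z0 z1 z2 z3 s2 u2 =
      pt (y0 + l0) (y1 + l1) (y2 + l2) (y3 + l3)
        (s2 + τ / 2 - (l0 * y1 - l1 * y0 + l2 * y3 - l3 * y2)) u2 →
      (((x0 - y0 - l0) ^ 2 + (x1 - y1 - l1) ^ 2 + (x2 - y2 - l2) ^ 2 + (x3 - y3 - l3) ^ 2 +
        (u1 + u2)) * 268435456) ^ 2 +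
      4 * ((s1 - s2 - τ / 2 + (l0 * (y1 + x1) - l1 * (y0 + x0) + y0 * x1 - y1 * x0) +
      (l2 * (y3 + x3) - l3 * (y2 + x2) + y2 * x3 - y3 * x2)) * 268435456) ^ 2 <
        4 * (rho : ℝ) ^ 2 ∧ uu < 2 * rho := by
    intro y0 y1 y2 y3 hy
    rw [ap_mul, v1, v2, ap_smul, ap, hp, hy, herm_smul, map_mul, map_mul, normSq_conj,
      herm_pt] at hlt
    have H := rho_ok i k _ _ _ _ _ (by positivity) g1 g2 hlt rho hrho.symm
    have H' : (((x0 - y0 - l0) ^ 2 + (x1 - y1 - l1) ^ 2 + (x2 - y2 - l2) ^ 2 +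
        (x3 - y3 - l3) ^ 2 + (u1 + u2)) * 268435456) ^ 2 +
        4 * ((s1 - s2 - τ / 2 + (l0 * (y1 + x1) - l1 * (y0 + x0) + y0 * x1 - y1 * x0) +
        (l2 * (y3 + x3) - l3 * (y2 + x2) + y2 * x3 - y3 * x2)) * 268435456) ^ 2 <
          4 * (rho : ℝ) ^ 2 :=
      lt_of_eq_of_lt (by ring) (mul_lt_mul_of_pos_left H (by norm_num : (0 : ℝ) < 4))
    refine ⟨H', (Nat.cast_lt (α := ℝ)).mp ?_⟩
    have hl : ((x0 - y0 - l0) ^ 2 + (x1 - y1 - l1) ^ 2 + (x2 - y2 - l2) ^ 2 +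
        (x3 - y3 - l3) ^ 2 + (u1 + u2)) * 268435456 < 2 * rho := by
      refine lt_of_pow_lt_pow_left₀ 2 (by positivity) (lt_of_le_of_lt ?_ (H'.trans_eq (by ring)))
      exact le_add_of_nonneg_right (by positivity)
    rw [Nat.cast_mul, Nat.cast_ofNat]
    linarith only [hl, hU, sq_nonneg (x0 - y0 - l0), sq_nonneg (x1 - y1 - l1),
      sq_nonneg (x2 - y2 - l2), sq_nonneg (x3 - y3 - l3)]
  have fin : ∃ L0 L1 L2 L3 T acc : ℕ, (L0 : ℤ) = l0 + 8 ∧ (L1 : ℤ) = l1 + 8 ∧ (L2 : ℤ) = l2 + 8 ∧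
      (L3 : ℤ) = l3 + 8 ∧ (T : ℤ) = τ + 68 ∧ T ≤ 127 ∧ L0 + L1 + (L2 + L3) ≤ 64 ∧
      cert D i k e1.gi (pmulP sw a b L0 L1 L2 L3 T (rows e2.g)) acc ≠ 0 := by
    cases sw with
    | false =>
      obtain ⟨H, hu⟩ := key _ _ _ _ (pm_false a b l0 l1 l2 l3 τ z0 z1 z2 z3 s2 u2 _ _ _ _
        rfl rfl rfl rfl)
      obtain ⟨R2, q, hq, hr, hR, ⟨s', h'⟩, -⟩ := enum1_ok h hu
      exact enumS_ok h' hq hr ha hb hv C1 cz0 cz1 cz2 cz3 rz0 rz1 rz2 rz3 ct rfl rfl rfl rfl hU hR H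
    | true =>
      obtain ⟨H, hu⟩ := key _ _ _ _ (pm_true a b l0 l1 l2 l3 τ z2 z3 z0 z1 s2 u2 _ _ _ _
        rfl rfl rfl rfl)
      obtain ⟨R2, q, hq, hr, hR, -, s', h'⟩ := enum1_ok h hu
      exact enumS_ok h' hq hr ha hb hv C1 cz2 cz3 cz0 cz1 rz2 rz3 rz0 rz1 ct rfl rfl rfl rfl hU hR H
  obtain ⟨L0, L1, L2, L3, T, acc, h0, h1, h2, h3, hT, hT', hs, hc⟩ := fin
  have hP := hB.pmulP sw a b L0 L1 L2 L3 T 56 _ _ _ (by omega) (by omega) (by omega) (by omega)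
    (by norm_num) hT' (hA.rows e2.g)
  rw [h0, h1, h2, h3, hT, add_sub_cancel_right, add_sub_cancel_right, add_sub_cancel_right,
    add_sub_cancel_right, add_sub_cancel_right, Matrix.smul_mul, Matrix.mul_smul, smul_smul, ← hp,
    ← i2, ← U31.val_mul, show (4 : ℂ) * 4 = 16 by norm_num] at hP
  exact hC i k _ _ acc t1 (p * t2) hc i1 (hA.mono _ _ _ _ hP (by norm_num))

end Enum

theorem rowEnum : SEnum := by
  intro hA hB hP D hS hC i k e1 e2 s t1 t2 h E1 E2 p hp hlt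
  obtain ⟨κ, sw, a, b, l0, l1, l2, l3, τ, hv, hp⟩ := hp
  obtain ⟨hU, P, hP⟩ := hP
  let p0 : U31 := ⟨pm 0 sw (a % 4) (b % 4) l0 l1 l2 l3 τ, hU _ _ _ _ _ _ _ _ _⟩
  let z : U31 := ⟨pm κ false 0 0 0 0 0 0 0, hU _ _ _ _ _ _ _ _ _⟩
  have hz : z.1 = zeta ^ κ • (1 : M4) := by
    change pm κ false 0 0 0 0 0 0 0 = _
    rw [Enum.pm_red, Nat.zero_mod, Enum.pm_one]
  have e : p * t2 = p0 * t2 * z := by
    apply Subtype.ext
    rw [U31.val_mul, U31.val_mul, U31.val_mul, hz, hp, Enum.pm_red, Matrix.mul_smul,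
      Matrix.mul_one, Matrix.smul_mul]
  have hlt' : normSq (herm (ap t1 (vec i)) (ap (p0 * t2) (vec k))) < Bd i k := by
    have e2 : ap z (vec k) = zeta ^ κ • vec k := by
      rw [ap, hz, Matrix.smul_mulVec, Matrix.one_mulVec]
    rw [e, ap_mul, e2, ap_smul, ← one_smul ℂ (ap t1 (vec i)), Enum.herm_smul, map_mul, map_mul,
      Enum.zeta_norm, map_one, map_one, one_mul, one_mul] at hlt
    exact hlt
  obtain ⟨q1, hq1, r, hr, q2, hq2, hg⟩ := Enum.main hA hB hC h E1 E2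
    (Nat.mod_lt a (by norm_num)) (Nat.mod_lt b (by norm_num)) hv (p := p0) rfl hlt'
  refine ⟨q1, hq1, r, hr, q2 * z, ?_, by rw [e, ← mul_assoc t1⁻¹, hg, mul_assoc]⟩
  cases k with
  | false =>
    have hz0 : z ∈ P0set := ⟨κ, false, 0, 0, 0, 0, 0, 0, 0, by simp [PValid], rfl⟩
    change q2 * z ∈ P0set
    change q2 ∈ P0set at hq2
    rw [← hP] at hq2 hz0 ⊢
    exact P.mul_mem hq2 hz0
  | true =>
    obtain ⟨n, κ', hn⟩ := hq2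
    refine ⟨n, κ + κ', ?_⟩
    rw [U31.val_mul, hz, Matrix.mul_smul, Matrix.mul_one, hn, smul_smul, pow_add]

end Pool.Agent.MP_d97ab6_al.H91
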