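import Pool.Agent.MP_d97ab6_al.H91.Sem

/-! Soundness of the enumeration of the cusp group: the arithmetic part. -/

namespace Pool.Agent.MP_d97ab6_al.H91

namespace Enum

theorem div_eq (a b : ℕ) : Nat.div a b = a / b := rfl
theorem mod_eq (a b : ℕ) : Nat.mod a b = a % b := rfl

theorem cond_lt {a b : ℕ} (h : b < a) (x y : ℕ) : cond (Nat.ble a b) x y = y := by
  cases hb : Nat.ble a b with
  | false => rfl
  | true => exact absurd (Nat.le_of_ble_eq_true hb) (not_le.mpr h)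

theorem cond_ne {c : Bool} {x : ℕ} (h : cond c x 0 ≠ 0) : c = true ∧ x ≠ 0 := by
  cases c with
  | false => exact absurd rfl h
  | true => exact ⟨rfl, h⟩

theorem sub_ad_le (a b c : ℕ) (δ : ℝ) (h : |(a : ℝ) - b - δ| ≤ c) :
    ((ad a b - c : ℕ) : ℝ) ≤ |δ| := by
  obtain ⟨h1, h2⟩ := abs_le.mp h
  have e : ad a b = (a - b) + (b - a) := rfl
  have p1 := le_abs_self δ
  have p2 := neg_abs_le δ
  have p3 := abs_nonneg δ
  by_cases hc : ad a b ≤ c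
  · rw [Nat.sub_eq_zero_of_le hc, Nat.cast_zero]; exact p3
  · rw [Nat.cast_sub (not_le.mp hc).le, e]
    rcases le_total a b with hab | hab
    · rw [Nat.sub_eq_zero_of_le hab, zero_add, Nat.cast_sub hab]; linarith
    · rw [Nat.sub_eq_zero_of_le hab, add_zero, Nat.cast_sub hab]; linarith

theorem sq_le_of_le_abs {e : ℕ} {δ : ℝ} (h : (e : ℝ) ≤ |δ|) : ((e * e : ℕ) : ℝ) ≤ δ ^ 2 := by
  rw [Nat.cast_mul, ← sq_abs, pow_two]
  exact mul_le_mul h h (Nat.cast_nonneg _) (abs_nonneg _)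

theorem newt_sq (R r : ℕ) (hr : 0 < r) : R ≤ newt R r * newt R r := by
  have e : newt R r = (r + R / r) / 2 + 1 := rfl
  have h1 : R < r * (R / r + 1) := Nat.lt_mul_div_succ R hr
  have h2 : r + (R / r + 1) ≤ 2 * newt R r := by rw [e]; omega
  generalize newt R r = m at h2
  generalize R / r + 1 = q at h1 h2
  have h3 : (r + q) * (r + q) ≤ 2 * m * (2 * m) := Nat.mul_le_mul h2 h2
  have h4 : 4 * (r * q) ≤ (r + q) * (r + q) := by nlinarith [sq_nonneg ((r : ℤ) - q)]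
  nlinarith

theorem sqrtUp_sq (R : ℕ) : R ≤ sqrtUp R * sqrtUp R :=
  newt_sq R _ (Nat.succ_pos _)

theorem lvl_ok {r X Y rem : ℕ} {f : ℕ → ℕ → ℕ → ℕ} {s : ℕ} (h : lvl r X Y rem f s ≠ 0)
    (hr : r ≤ 1073741824) {x y : ℝ} (hX : Close X x) (hY : Close Y y) (rX : Rng X) (rY : Rng Y)
    (l : ℤ) (h1 : |(x - y - l) * 268435456| + 2 ≤ r) (h2 : ((x - y - l) * 268435456) ^ 2 < rem) :
    ∃ L rem' acc : ℕ, (L : ℤ) = l + 8 ∧ (rem : ℝ) - ((x - y - l) * 268435456) ^ 2 ≤ rem' ∧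
      rem' ≤ rem ∧ f L rem' acc ≠ 0 := by
  generalize hδ : (x - y - l) * 268435456 = δ at h1 h2 ⊢
  obtain ⟨rX1, rX2⟩ := rX
  obtain ⟨rY1, rY2⟩ := rY
  unfold lvl lvl1 at h
  simp only [Nat.add_eq, Nat.sub_eq, div_eq] at h
  generalize hd : X + 2147483648 - Y = d at h
  have hdr : (d : ℝ) = X + 2147483648 - Y := by
    rw [← hd, Nat.cast_sub (by omega)]; push_cast; ring
  obtain ⟨x1, x2⟩ := abs_le.mp hX
  obtain ⟨y1, y2⟩ := abs_le.mp hY
  have p1 := le_abs_self δ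
  have p2 := neg_abs_le δ
  have k1 : (d : ℤ) - r ≤ (l + 8) * 268435456 := (Int.cast_le (R := ℝ)).mp (by
    push_cast; linarith only [hdr, x1, x2, y1, y2, p1, p2, h1, hδ])
  have k2 : (l + 8) * 268435456 ≤ (d : ℤ) + r := (Int.cast_le (R := ℝ)).mp (by
    push_cast; linarith only [hdr, x1, x2, y1, y2, p1, p2, h1, hδ])
  obtain ⟨L, hL⟩ : ∃ L : ℕ, (L : ℤ) = l + 8 := ⟨(l + 8).toNat, Int.toNat_of_nonneg (by omega)⟩
  have hLr : (L : ℝ) = l + 8 := by exact_mod_cast hL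
  generalize hlo : (d - r + 268435455) / 268435456 = lo at h
  obtain ⟨acc, -, ha⟩ := (loop_ne_zero h).2 (L - lo) (by omega)
  have eL : lo + (L - lo) = L := by omega
  have he := sq_le_of_le_abs (sub_ad_le d (L * 268435456) 2 δ (by
    rw [abs_le]; push_cast; constructor <;> linarith only [hdr, x1, x2, y1, y2, hδ, hLr]))
  unfold lvl2 at ha
  simp only [Nat.add_eq, Nat.mul_eq, Nat.sub_eq, eL] at ha
  generalize ad d (L * 268435456) - 2 = e at he ha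
  have hlt : e * e < rem := (Nat.cast_lt (α := ℝ)).mp (he.trans_lt h2)
  rw [cond_lt hlt] at ha
  refine ⟨L, rem - e * e, acc, hL, ?_, Nat.sub_le _ _, ha⟩
  rw [Nat.cast_sub hlt.le]
  linarith only [he]

theorem tl_ok {rho A P N : ℕ} {f : ℕ → ℕ → ℕ} {s : ℕ}
    (h : tl0 rho A P N (rho * 268435456 + 107374182400) f s ≠ 0) (m : ℤ) {a τ : ℝ}
    (hA : (A : ℝ) ≤ a * 268435456)
    (hG : |(P : ℝ) - N - m * 144115188075855872 - τ * 268435456| ≤ 107374182400)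
    (H : a ^ 2 + 4 * τ ^ 2 < 4 * (rho : ℝ) ^ 2) :
    ∃ M acc : ℕ, (M : ℤ) = m ∧ f M acc ≠ 0 := by
  generalize hw : rho * 268435456 + 107374182400 = w at h
  unfold tl0 at h
  obtain ⟨c1, h⟩ := cond_ne h
  have c1 : N + w ≤ P := Nat.le_of_ble_eq_true c1
  unfold tl1 at h
  simp only [Nat.add_eq, Nat.sub_eq, div_eq] at h
  generalize hGd : P - N = G at h
  have hGr : (G : ℝ) = P - N := by rw [← hGd, Nat.cast_sub (by omega)]
  have hwr : (w : ℝ) = rho * 268435456 + 107374182400 := by rw [← hw]; push_cast; ring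
  obtain ⟨t1, t2⟩ : -(rho : ℝ) ≤ τ ∧ τ ≤ rho :=
    abs_le_of_sq_le_sq' (by linarith only [H, sq_nonneg a]) (Nat.cast_nonneg _)
  obtain ⟨g1, g2⟩ := abs_le.mp hG
  have k1 : (G : ℤ) - w ≤ m * 144115188075855872 := (Int.cast_le (R := ℝ)).mp (by
    push_cast; linarith only [hGr, hwr, t1, t2, g1, g2])
  have k2 : m * 144115188075855872 ≤ (G : ℤ) + w := (Int.cast_le (R := ℝ)).mp (by
    push_cast; linarith only [hGr, hwr, t1, t2, g1, g2])
  obtain ⟨M, hM⟩ : ∃ M : ℕ, (M : ℤ) = m := ⟨m.toNat, Int.toNat_of_nonneg (by omega)⟩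
  have hMr : (M : ℝ) = m := by exact_mod_cast hM
  generalize hlo : (G - w + 144115188075855871) / 144115188075855872 = lo at h
  obtain ⟨acc, -, ha⟩ := (loop_ne_zero h).2 (M - lo) (by omega)
  have eL : lo + (M - lo) = M := by omega
  have he := sq_le_of_le_abs (sub_ad_le G (M * 144115188075855872) 107374182400 (τ * 268435456) (by
    rw [abs_le]; push_cast; constructor <;> linarith only [hGr, hMr, g1, g2]))
  unfold tl2 at ha
  simp only [Nat.add_eq, Nat.mul_eq, Nat.sub_eq, eL] at ha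
  generalize ad G (M * 144115188075855872) - 107374182400 = e at he ha
  have hlt : A * A + 4 * (e * e) < rho * rho * 288230376151711744 := by
    have hA2 : (A : ℝ) * A ≤ a * 268435456 * (a * 268435456) :=
      mul_le_mul hA hA (Nat.cast_nonneg _) ((Nat.cast_nonneg _).trans hA)
    refine (Nat.cast_lt (α := ℝ)).mp ?_
    push_cast at he ⊢
    linarith only [hA2, he, H]
  rw [cond_lt hlt] at ha
  exact ⟨M, acc, hM, ha⟩

theorem prod_err {X Y : ℕ} {x y : ℝ} (hX : Close X x) (hY : Close Y y) (rX : Rng X) (rY : Rng Y) :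
    |((Y : ℝ) - 1073741824) * (X - 1073741824) - y * x * 268435456 ^ 2| ≤ 5 * 268435456 := by
  have a1 : (536870912 : ℝ) ≤ X := by exact_mod_cast rX.1
  have a2 : (X : ℝ) ≤ 1610612736 := by exact_mod_cast rX.2
  have b1 : (536870912 : ℝ) ≤ Y := by exact_mod_cast rY.1
  have b2 : (Y : ℝ) ≤ 1610612736 := by exact_mod_cast rY.2
  obtain ⟨y1, y2⟩ := abs_le.mp hY
  have e : ((Y : ℝ) - 1073741824) * (X - 1073741824) - y * x * 268435456 ^ 2 =
      (Y - 1073741824 - y * 268435456) * (X - 1073741824) +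
        y * 268435456 * (X - 1073741824 - x * 268435456) := by ring
  have c1 : |(X : ℝ) - 1073741824| ≤ 536870912 := abs_le.mpr ⟨by linarith, by linarith⟩
  have c2 : |y * 268435456| ≤ 536870913 := abs_le.mpr ⟨by linarith, by linarith⟩
  rw [e]
  refine (abs_add_le _ _).trans ?_
  rw [abs_mul, abs_mul (y * 268435456)]
  have d1 := mul_le_mul hY c1 (abs_nonneg _) zero_le_one
  have d2 := mul_le_mul c2 hX (abs_nonneg _) (by norm_num)
  linarith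

theorem lin_err {X Y L : ℕ} {x y : ℝ} {l : ℤ} (hX : Close X x) (hY : Close Y y)
    (hL : (L : ℤ) = l + 8) :
    |(l : ℝ) * ((Y : ℝ) + X - 2147483648 - (y + x) * 268435456)| ≤ 2 * (L + 8) := by
  have hLr : (L : ℝ) = l + 8 := by exact_mod_cast hL
  obtain ⟨x1, x2⟩ := abs_le.mp hX
  obtain ⟨y1, y2⟩ := abs_le.mp hY
  have L0 : (0 : ℝ) ≤ L := Nat.cast_nonneg _
  have c1 : |(l : ℝ)| ≤ L + 8 := abs_le.mpr ⟨by linarith, by linarith⟩
  have c2 : |(Y : ℝ) + X - 2147483648 - (y + x) * 268435456| ≤ 2 :=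
    abs_le.mpr ⟨by linarith, by linarith⟩
  rw [abs_mul, mul_comm (2 : ℝ)]
  exact mul_le_mul c1 c2 (abs_nonneg _) (by linarith)

theorem pos_err {L0 L1 X0 X1 Y0 Y1 : ℕ} {x0 x1 y0 y1 : ℝ} {l0 l1 : ℤ} (h0 : (L0 : ℤ) = l0 + 8)
    (h1 : (L1 : ℤ) = l1 + 8) (cX0 : Close X0 x0) (cX1 : Close X1 x1) (cY0 : Close Y0 y0)
    (cY1 : Close Y1 y1) (rX0 : Rng X0) (rX1 : Rng X1) (rY0 : Rng Y0) (rY1 : Rng Y1) :
    |(posP L0 L1 X0 X1 Y0 Y1 : ℝ) - posP L1 L0 X1 X0 Y1 Y0 -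
      (l0 * (y1 + x1) - l1 * (y0 + x0) + y0 * x1 - y1 * x0) * 268435456 ^ 2| ≤
      (2 * ((L0 : ℝ) + L1) + 42) * 268435456 := by
  obtain ⟨a1, a2⟩ := abs_le.mp (prod_err cX1 cY0 rX1 rY0)
  obtain ⟨b1, b2⟩ := abs_le.mp (prod_err cX0 cY1 rX0 rY1)
  obtain ⟨c1, c2⟩ := abs_le.mp (lin_err cX1 cY1 h0)
  obtain ⟨d1, d2⟩ := abs_le.mp (lin_err cX0 cY0 h1)
  have e0 : (L0 : ℝ) = l0 + 8 := by exact_mod_cast h0
  have e1 : (L1 : ℝ) = l1 + 8 := by exact_mod_cast h1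
  have e : (posP L0 L1 X0 X1 Y0 Y1 : ℝ) - posP L1 L0 X1 X0 Y1 Y0 -
      (l0 * (y1 + x1) - l1 * (y0 + x0) + y0 * x1 - y1 * x0) * 268435456 ^ 2 =
      (l0 * ((Y1 : ℝ) + X1 - 2147483648 - (y1 + x1) * 268435456) -
        l1 * ((Y0 : ℝ) + X0 - 2147483648 - (y0 + x0) * 268435456)) * 268435456 +
      (((Y0 : ℝ) - 1073741824) * (X1 - 1073741824) - y0 * x1 * 268435456 ^ 2) -
      (((Y1 : ℝ) - 1073741824) * (X0 - 1073741824) - y1 * x0 * 268435456 ^ 2) := by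
    unfold posP
    simp only [Nat.add_eq, Nat.mul_eq]
    push_cast
    rw [e0, e1]
    ring
  rw [e, abs_le]
  constructor <;> linarith

theorem sq_mod {L : ℕ} {l : ℤ} (h : (L : ℤ) = l + 8) : l ^ 2 ≡ ((L % 2 : ℕ) : ℤ) [ZMOD 4] := by
  rw [Int.modEq_iff_dvd]
  rcases Int.even_or_odd' l with ⟨k, hk | hk⟩
  · have : L % 2 = 0 := by omega
    rw [this, hk]
    exact ⟨-k ^ 2, by push_cast; ring⟩
  · have : L % 2 = 1 := by omega
    rw [this, hk]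
    exact ⟨-(k ^ 2 + k), by push_cast; ring⟩

theorem f4_ok {L0 L1 L2 L3 : ℕ} {l0 l1 l2 l3 τ : ℤ} {sw : Bool} (h0 : (L0 : ℤ) = l0 + 8)
    (h1 : (L1 : ℤ) = l1 + 8) (h2 : (L2 : ℤ) = l2 + 8) (h3 : (L3 : ℤ) = l3 + 8)
    (hv : PValid sw l0 l1 l2 l3 τ) :
    Nat.beq (Nat.mod (Nat.add (par2 L0 L1) (par2 L2 L3)) 2) (cond sw 1 0) = true ∧
      f4 (par2 L0 L1) (par2 L2 L3) ≤ 3 ∧
      ∃ m : ℤ, τ + 68 = 4 * m + f4 (par2 L0 L1) (par2 L2 L3) := by
  obtain ⟨v1, v2⟩ := hv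
  have p1 : par2 L0 L1 = L0 % 2 + L1 % 2 := rfl
  have p2 : par2 L2 L3 = L2 % 2 + L3 % 2 := rfl
  have n1 : l0 ^ 2 + l1 ^ 2 ≡ (par2 L0 L1 : ℤ) [ZMOD 4] := by
    rw [p1, Nat.cast_add]; exact (sq_mod h0).add (sq_mod h1)
  have n2 : l2 ^ 2 + l3 ^ 2 ≡ (par2 L2 L3 : ℤ) [ZMOD 4] := by
    rw [p2, Nat.cast_add]; exact (sq_mod h2).add (sq_mod h3)
  have n3 := (n1.sub n2).add ((n1.mul_left 2).mul n2)
  have ef : f4 (par2 L0 L1) (par2 L2 L3) =
      (par2 L0 L1 + 3 * par2 L2 L3 + 2 * (par2 L0 L1 * par2 L2 L3)) % 4 := rfl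
  refine ⟨?_, by rw [ef]; omega, ?_⟩
  · rw [Nat.beq_eq, mod_eq, Nat.add_eq, p1, p2]
    cases sw
    · simp only [Bool.false_eq_true, if_false] at v1
      rw [cond_false]; omega
    · simp only [if_true] at v1
      rw [cond_true]; omega
  · obtain ⟨c, hc⟩ := Int.modEq_iff_dvd.mp n3
    obtain ⟨d, hd⟩ := Int.dvd_of_emod_eq_zero v2
    have e2 : (2 : ℤ) * (par2 L0 L1 : ℤ) * (par2 L2 L3 : ℤ) =
        2 * ((par2 L0 L1 * par2 L2 L3 : ℕ) : ℤ) := by push_cast; ring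
    rw [e2] at hc
    rw [ef]
    generalize par2 L0 L1 * par2 L2 L3 = q at hc ⊢
    generalize par2 L0 L1 = a at hc ⊢
    generalize par2 L2 L3 = b at hc ⊢
    generalize l0 ^ 2 + l1 ^ 2 - (l2 ^ 2 + l3 ^ 2) + 2 * (l0 ^ 2 + l1 ^ 2) * (l2 ^ 2 + l3 ^ 2) = n
      at hc hd
    exact ⟨(τ + 68) / 4, by omega⟩

end Enum

end Pool.Agent.MP_d97ab6_al.H91
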