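import Pool.Agent.MP_d97ab6_al.H91.EnumA

/-! Soundness of the enumeration of the cusp group: the nested loops. -/

namespace Pool.Agent.MP_d97ab6_al.H91

namespace Enum

theorem castZ {L : ℕ} {l : ℤ} {c : ℤ} (h : (L : ℤ) = l + c) : (L : ℝ) = l + c := by
  rw [← Int.cast_natCast (R := ℝ) L, h, Int.cast_add]

theorem fin1_ok {D : Dat} {i k : Bool} {e1 e2 : Ent} {rho uu R2 : ℕ} {sw : Bool}
    {a b Y0 Y1 Y2 Y3 L0 L1 L2 L3 rem s : ℕ}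
    (h : fin1 D i k e1 e2 rho uu R2 sw a b Y0 Y1 Y2 Y3 L0 L1 L2 L3 rem s ≠ 0)
    {x0 x1 x2 x3 t1 u1 y0 y1 y2 y3 t2 A : ℝ} {l0 l1 l2 l3 τ : ℤ} (h0 : (L0 : ℤ) = l0 + 8)
    (h1 : (L1 : ℤ) = l1 + 8) (h2 : (L2 : ℤ) = l2 + 8) (h3 : (L3 : ℤ) = l3 + 8)
    (hv : PValid sw l0 l1 l2 l3 τ) (c1 : Co e1.a0 e1.a1 e1.a2 e1.a3 e1.t e1.u x0 x1 x2 x3 t1 u1)
    (cY0 : Close Y0 y0) (cY1 : Close Y1 y1) (cY2 : Close Y2 y2) (cY3 : Close Y3 y3)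
    (rY0 : Rng Y0) (rY1 : Rng Y1) (rY2 : Rng Y2) (rY3 : Rng Y3) (ct : Close e2.t t2)
    (hrem : rem ≤ R2) (hA : (R2 : ℝ) - rem + uu * 268435456 ≤ A * 268435456)
    (H : A ^ 2 + 4 * ((t1 - t2 - τ / 2 + (l0 * (y1 + x1) - l1 * (y0 + x0) + y0 * x1 - y1 * x0) +
      (l2 * (y3 + x3) - l3 * (y2 + x2) + y2 * x3 - y3 * x2)) * 268435456) ^ 2 <
        4 * (rho : ℝ) ^ 2) :
    ∃ T acc : ℕ, (T : ℤ) = τ + 68 ∧ T ≤ 127 ∧ L0 + L1 + (L2 + L3) ≤ 64 ∧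
      cert D i k e1.gi (pmulP sw a b L0 L1 L2 L3 T (rows e2.g)) acc ≠ 0 := by
  obtain ⟨p1, p2, m, hm⟩ := f4_ok h0 h1 h2 h3 hv
  obtain ⟨cX0, cX1, cX2, cX3, cT, -, rX0, rX1, rX2, rX3⟩ := c1
  unfold fin1 at h
  rw [p1, cond_true] at h
  obtain ⟨hs, h⟩ := cond_ne h
  have hs : L0 + L1 + (L2 + L3) ≤ 64 := Nat.le_of_ble_eq_true hs
  have hsr : (L0 : ℝ) + L1 + (L2 + L3) ≤ 64 := by
    have := (Nat.cast_le (α := ℝ)).mpr hs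
    push_cast at this
    exact this
  obtain ⟨a1, a2⟩ := abs_le.mp (pos_err h0 h1 cX0 cX1 cY0 cY1 rX0 rX1 rY0 rY1)
  obtain ⟨b1, b2⟩ := abs_le.mp (pos_err h2 h3 cX2 cX3 cY2 cY3 rX2 rX3 rY2 rY3)
  obtain ⟨d1, d2⟩ := abs_le.mp cT
  obtain ⟨f1, f2⟩ := abs_le.mp ct
  generalize f4 (par2 L0 L1) (par2 L2 L3) = F at h p2 hm
  have hmr : (τ : ℝ) + 68 = 4 * m + F := by
    have := congrArg (Int.cast : ℤ → ℝ) hm
    push_cast at this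
    exact this
  simp only [Nat.add_eq, Nat.mul_eq, Nat.sub_eq] at h
  obtain ⟨M, acc, hM, h⟩ := tl_ok h m (a := A) (by
    rw [Nat.cast_add, Nat.cast_sub hrem, Nat.cast_mul, Nat.cast_ofNat]; exact hA) (by
    push_cast
    rw [abs_le]
    constructor <;> linarith only [a1, a2, b1, b2, d1, d2, f1, f2, hmr, hsr]) H
  unfold fin2 at h
  obtain ⟨hs2, h⟩ := cond_ne h
  have hM31 : M ≤ 31 := Nat.le_of_ble_eq_true (Bool.and_eq_true_iff.mp hs2).2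
  refine ⟨4 * M + F, acc, ?_, by omega, hs, h⟩
  rw [hm, ← hM]
  push_cast
  rfl

theorem neg_ok {X : ℕ} {x : ℝ} (c : Close X x) (r : Rng X) :
    Close (Nat.sub 2147483648 X) (-x) ∧ Rng (Nat.sub 2147483648 X) := by
  obtain ⟨r1, r2⟩ := r
  rw [Nat.sub_eq]
  refine ⟨?_, by omega, by omega⟩
  obtain ⟨c1, c2⟩ := abs_le.mp c
  rw [Close, Nat.cast_sub (by omega), Nat.cast_ofNat, abs_le]
  constructor <;> linarith only [c1, c2]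

theorem rot_ok {X Y : ℕ} {x y : ℝ} (cX : Close X x) (cY : Close Y y) (rX : Rng X) (rY : Rng Y)
    (a : ℕ) (ha : a < 4) :
    (Close (rotX a X Y) (Complex.I ^ a * ⟨x, y⟩).re ∧ Rng (rotX a X Y)) ∧
      Close (rotY a X Y) (Complex.I ^ a * ⟨x, y⟩).im ∧ Rng (rotY a X Y) := by
  have nX := neg_ok cX rX
  have nY := neg_ok cY rY
  have i3 : Complex.I ^ 3 = -Complex.I := Complex.I_pow_three
  interval_cases a
  · simpa [rotX, rotY] using ⟨⟨cX, rX⟩, cY, rY⟩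
  · simpa [rotX, rotY] using ⟨nY, cX, rX⟩
  · simpa [rotX, rotY] using ⟨nX, nY⟩
  · simpa [rotX, rotY, i3] using ⟨⟨cY, rY⟩, nX⟩

theorem abs_le_r {δ : ℝ} {R2 q : ℕ} (h : δ ^ 2 < R2) (hq : R2 ≤ q * q) :
    |δ| + 2 ≤ ((q + 2 : ℕ) : ℝ) := by
  have h1 : (R2 : ℝ) ≤ (q : ℝ) ^ 2 := by
    rw [pow_two, ← Nat.cast_mul]; exact Nat.cast_le.mpr hq
  have := abs_le_of_sq_le_sq (h.le.trans h1) (Nat.cast_nonneg q)
  rw [Nat.cast_add, Nat.cast_ofNat]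
  linarith

theorem enumS_ok {D : Dat} {i k : Bool} {e1 e2 : Ent} {rho uu R2 q : ℕ} {sw : Bool}
    {p0 p1 p2 p3 s : ℕ} (h : enumS D i k e1 e2 rho uu R2 (q + 2) sw p0 p1 p2 p3 s ≠ 0)
    (hq : R2 ≤ q * q) (hr : q + 2 ≤ 1073741824)
    {x0 x1 x2 x3 t1 u1 q0 q1 q2 q3 t2 U : ℝ} {l0 l1 l2 l3 τ : ℤ} {a b : ℕ} (ha : a < 4)
    (hb : b < 4) (hv : PValid sw l0 l1 l2 l3 τ)
    (c1 : Co e1.a0 e1.a1 e1.a2 e1.a3 e1.t e1.u x0 x1 x2 x3 t1 u1)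
    (c0' : Close p0 q0) (c1' : Close p1 q1) (c2' : Close p2 q2) (c3' : Close p3 q3)
    (r0 : Rng p0) (r1 : Rng p1) (r2 : Rng p2) (r3 : Rng p3) (ct : Close e2.t t2)
    {y0 y1 y2 y3 : ℝ} (e0 : y0 = (Complex.I ^ a * ⟨q0, q1⟩).re)
    (e1' : y1 = (Complex.I ^ a * ⟨q0, q1⟩).im) (e2' : y2 = (Complex.I ^ b * ⟨q2, q3⟩).re)
    (e3 : y3 = (Complex.I ^ b * ⟨q2, q3⟩).im) (hU : (uu : ℝ) ≤ U * 268435456)
    (hR : (R2 : ℝ) = (2 * rho - uu) * 268435456)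
    (H : (((x0 - y0 - l0) ^ 2 + (x1 - y1 - l1) ^ 2 + (x2 - y2 - l2) ^ 2 + (x3 - y3 - l3) ^ 2 + U) *
        268435456) ^ 2 +
      4 * ((t1 - t2 - τ / 2 + (l0 * (y1 + x1) - l1 * (y0 + x0) + y0 * x1 - y1 * x0) +
      (l2 * (y3 + x3) - l3 * (y2 + x2) + y2 * x3 - y3 * x2)) * 268435456) ^ 2 <
        4 * (rho : ℝ) ^ 2) :
    ∃ L0 L1 L2 L3 T acc : ℕ, (L0 : ℤ) = l0 + 8 ∧ (L1 : ℤ) = l1 + 8 ∧ (L2 : ℤ) = l2 + 8 ∧
      (L3 : ℤ) = l3 + 8 ∧ (T : ℤ) = τ + 68 ∧ T ≤ 127 ∧ L0 + L1 + (L2 + L3) ≤ 64 ∧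
      cert D i k e1.gi (pmulP sw a b L0 L1 L2 L3 T (rows e2.g)) acc ≠ 0 := by
  obtain ⟨⟨cY0, rY0⟩, cY1, rY1⟩ := rot_ok c0' c1' r0 r1 a ha
  obtain ⟨⟨cY2, rY2⟩, cY3, rY3⟩ := rot_ok c2' c3' r2 r3 b hb
  rw [← e0] at cY0
  rw [← e1'] at cY1
  rw [← e2'] at cY2
  rw [← e3] at cY3
  obtain ⟨cX0, cX1, cX2, cX3, -, -, rX0, rX1, rX2, rX3⟩ := id c1
  have hlt : ((x0 - y0 - l0) ^ 2 + (x1 - y1 - l1) ^ 2 + (x2 - y2 - l2) ^ 2 + (x3 - y3 - l3) ^ 2 +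
      U) * 268435456 < 2 * rho := by
    refine lt_of_pow_lt_pow_left₀ 2 (by positivity) (lt_of_le_of_lt ?_ (H.trans_eq (by ring)))
    exact le_add_of_nonneg_right (by positivity)
  have s0 := sq_nonneg (x0 - y0 - l0)
  have s1 := sq_nonneg (x1 - y1 - l1)
  have s2 := sq_nonneg (x2 - y2 - l2)
  have s3 := sq_nonneg (x3 - y3 - l3)
  have mp : ∀ d : ℝ, (d * 268435456) ^ 2 = d ^ 2 * 72057594037927936 := fun d => by ring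
  have g0 : ((x0 - y0 - l0) * 268435456) ^ 2 < R2 := by
    rw [mp]; linarith only [hlt, hU, hR, s0, s1, s2, s3]
  have g1 : ((x1 - y1 - l1) * 268435456) ^ 2 < R2 := by
    rw [mp]; linarith only [hlt, hU, hR, s0, s1, s2, s3]
  have g2 : ((x2 - y2 - l2) * 268435456) ^ 2 < R2 := by
    rw [mp]; linarith only [hlt, hU, hR, s0, s1, s2, s3]
  have g3 : ((x3 - y3 - l3) * 268435456) ^ 2 < R2 := by
    rw [mp]; linarith only [hlt, hU, hR, s0, s1, s2, s3]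
  unfold enumS at h
  obtain ⟨s, -, h⟩ := (loop_ne_zero h).2 a ha
  unfold enumA at h
  obtain ⟨L0, m0, s, h0, k0, j0, h⟩ := lvl_ok h hr cX0 cY0 rX0 rY0 l0 (abs_le_r g0 hq) g0
  rw [mp] at k0
  obtain ⟨L1, m1, s, h1, k1, j1, h⟩ := lvl_ok h hr cX1 cY1 rX1 rY1 l1 (abs_le_r g1 hq) (by
    rw [mp]; linarith only [hlt, hU, hR, s2, s3, k0])
  rw [mp] at k1
  obtain ⟨s, -, h⟩ := (loop_ne_zero h).2 b hb
  unfold enumB at h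
  obtain ⟨L2, m2, s, h2, k2, j2, h⟩ := lvl_ok h hr cX2 cY2 rX2 rY2 l2 (abs_le_r g2 hq) (by
    rw [mp]; linarith only [hlt, hU, hR, s3, k0, k1])
  rw [mp] at k2
  obtain ⟨L3, m3, s, h3, k3, j3, h⟩ := lvl_ok h hr cX3 cY3 rX3 rY3 l3 (abs_le_r g3 hq) (by
    rw [mp]; linarith only [hlt, hU, hR, k0, k1, k2])
  rw [mp] at k3
  obtain ⟨T, acc, hT⟩ := fin1_ok h h0 h1 h2 h3 hv c1 cY0 cY1 cY2 cY3 rY0 rY1 rY2 rY3 ct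
    (j3.trans (j2.trans (j1.trans j0))) (by linarith only [hU, k0, k1, k2, k3]) H
  exact ⟨L0, L1, L2, L3, T, acc, h0, h1, h2, h3, hT⟩

theorem enum1_ok {D : Dat} {i k : Bool} {e1 e2 : Ent} {rho uu s : ℕ}
    (h : enum1 D i k e1 e2 rho uu s ≠ 0) (hlt : uu < 2 * rho) :
    ∃ R2 q : ℕ, R2 ≤ q * q ∧ q + 2 ≤ 1073741824 ∧ (R2 : ℝ) = (2 * rho - uu) * 268435456 ∧
      (∃ s, enumS D i k e1 e2 rho uu R2 (q + 2) false e2.a0 e2.a1 e2.a2 e2.a3 s ≠ 0) ∧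
      ∃ s, enumS D i k e1 e2 rho uu R2 (q + 2) true e2.a2 e2.a3 e2.a0 e2.a1 s ≠ 0 := by
  unfold enum1 at h
  simp only [Nat.add_eq, Nat.mul_eq, Nat.sub_eq] at h
  rw [cond_lt hlt] at h
  generalize hR : (2 * rho - uu) * 268435456 = R2 at h
  have hq := sqrtUp_sq R2
  generalize sqrtUp R2 = q at h hq
  unfold enum2 at h
  obtain ⟨hr, h⟩ := cond_ne h
  obtain ⟨s0, -, h0⟩ := (loop_ne_zero h).2 0 (by norm_num)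
  obtain ⟨s1, -, h1⟩ := (loop_ne_zero h).2 1 (by norm_num)
  rw [show Nat.beq 0 0 = true from rfl, cond_true] at h0
  rw [show Nat.beq 1 0 = false from rfl, cond_false] at h1
  refine ⟨R2, q, hq, Nat.le_of_ble_eq_true hr, ?_, ⟨s0, h0⟩, s1, h1⟩
  rw [← hR, Nat.cast_mul, Nat.cast_sub hlt.le, Nat.cast_mul, Nat.cast_ofNat, Nat.cast_ofNat]

end Enum

end Pool.Agent.MP_d97ab6_al.H91
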