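import Pool.Agent.MP_d97ab6_al.H91.Cert91

/-! The finite group. -/

namespace Pool.Agent.MP_d97ab6_al.H91

open Matrix Complex

namespace Grp91

theorem z8 : zeta ^ 8 = 1 := by
  rw [show 8 = 4 * 2 from rfl, pow_mul, Cert91.z4]; norm_num

theorem canc {a : ℂ} (ha : a ≠ 0) {g h : M4} (e : a • g = a • h) : g = h :=
  smul_right_injective M4 ha e

theorem one_of (ka : KA) {c : ℕ} (h : eqs (rows c) idR 2 = true) : cm c = 1 := by
  have := ka.eqs _ _ _ _ _ _ 2 0 h (ka.rows c) ka.idR (by norm_num)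
  refine canc (by norm_num : (4 : ℂ) ≠ 0) ?_
  rw [this]; norm_num

theorem rot_of (ka : KA) (kb : KB) {c a b : ℕ}
    (h : eqs (pmulP false a b 8 8 8 8 68 idR) (rows c) 0 = true) : cm c = pm 0 false a b 0 0 0 0 0 := by
  have h1 := kb.pmulP false a b 8 8 8 8 68 8 idR 1 1 (by norm_num) (by norm_num) (by norm_num)
    (by norm_num) le_rfl (by norm_num) ka.idR
  have := ka.eqs _ _ _ _ _ _ 0 0 h h1 (ka.rows c) (by norm_num)
  refine canc (by norm_num : (4 : ℂ) ≠ 0) ?_
  simpa using this.symm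

theorem prod_of (ka : KA) {a b c k : ℕ} (h : eqs (dmul a (rows b)) (rows c) (2 + 256 * k) = true) :
    cm a * cm b = zeta ^ k • cm c := by
  have := ka.eqs _ _ _ _ _ _ 2 k h (ka.dmul a _ _ _ (ka.rows b)) (ka.rows c) (by norm_num)
  refine canc (by norm_num : (16 : ℂ) ≠ 0) ?_
  simp only [Matrix.smul_mul, Matrix.mul_smul, smul_smul] at this ⊢
  convert this using 2
  · norm_num
  · ring

theorem ord_of (ka : KA) {g : ℕ} (h : ord4 g = true) : cm g * (cm g * (cm g * cm g)) = 1 := by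
  have := ka.eqs _ _ _ _ _ _ 8 0 h
    (ka.dmul g _ _ _ (ka.dmul g _ _ _ (ka.dmul g _ _ _ (ka.rows g)))) ka.idR (by norm_num)
  refine canc (by norm_num : (256 : ℂ) ≠ 0) ?_
  simp only [Matrix.smul_mul, Matrix.mul_smul, smul_smul] at this ⊢
  convert this using 2 <;> norm_num

theorem rot_mul (a b a' b' : ℕ) :
    pm 0 false a b 0 0 0 0 0 * pm 0 false a' b' 0 0 0 0 0 = pm 0 false (a + a') (b + b') 0 0 0 0 0 := by
  ext i j
  fin_cases i <;> fin_cases j <;> simp [pm, Matrix.mul_apply, Fin.sum_univ_four, pow_add]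

theorem rot_one : pm 0 false 0 0 0 0 0 0 0 = 1 := by
  ext i j
  fin_cases i <;> fin_cases j <;> simp [pm]

theorem rot_per (a b : ℕ) : pm 0 false (4 * a) (4 * b) 0 0 0 0 0 = 1 := by
  ext i j
  fin_cases i <;> fin_cases j <;> simp [pm, pow_mul]

theorem rot_fix (a b : ℕ) : pm 0 false a b 0 0 0 0 0 *ᵥ vec true = vec true := by
  have h : (⟨0, 0⟩ : ℂ) = 0 := rfl
  funext i
  fin_cases i <;> simp [pm, vec, pt, Matrix.mulVec, dotProduct, Fin.sum_univ_four, h]

theorem sc_val : pm 1 false 0 0 0 0 0 0 0 = zeta • (1 : M4) := by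
  rw [Cert91.pm_smul, rot_one, pow_one]

theorem val_pow (x : U31) (n : ℕ) : (x ^ n).1 = x.1 ^ n := by
  induction n with
  | zero => rfl
  | succ n ih => rw [pow_succ, pow_succ, U31.val_mul, ih]

theorem ind {s : Set U31} (h8 : ∀ x ∈ s, x ^ 8 = 1) (Q : U31 → Prop) (h1 : Q 1)
    (hm : ∀ x y, Q x → Q y → Q (x * y)) (hs : ∀ x ∈ s, Q x) :
    ∀ p ∈ Subgroup.closure s, Q p := by
  have hp : ∀ x, Q x → ∀ n : ℕ, Q (x ^ n) := fun x hx n => by
    induction n with
    | zero => rwa [pow_zero]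
    | succ n ih => rw [pow_succ]; exact hm _ _ ih hx
  intro p hp'
  refine Subgroup.closure_induction'' (p := fun x _ => Q x) hs (fun x hx => ?_) h1
    (fun x y _ _ => hm x y) hp'
  have : x⁻¹ = x ^ 7 := inv_eq_of_mul_eq_one_right (by rw [← pow_succ', h8 x hx])
  rw [this]
  exact hp x (hs x hx) 7

end Grp91

open Grp91 in
theorem rowGrp91 : SGrp := by
  intro ka kb kc hP D g3i hm hv hg ⟨s, hw⟩
  simp only [checkMisc, Bool.and_eq_true] at hm
  obtain ⟨⟨⟨m1, m2⟩, m3, m4⟩, ⟨m5, m6, m7⟩, ⟨m8, -⟩, -⟩ := hm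
  have hn : 4 ≤ D.ns := Nat.le_of_ble_eq_true m8
  have e0 := one_of ka m2
  have e1 := rot_of ka kb m3
  have e2 := rot_of ka kb m4
  have u : ∀ e < 3, IsU (cm (D.gS (e + 1))) := by
    intro e he
    obtain rfl | rfl | rfl : e = 0 ∨ e = 1 ∨ e = 2 := by omega
    · rw [show D.gS (0 + 1) = D.gS 1 from rfl, e1]; exact hP.1 ..
    · rw [show D.gS (1 + 1) = D.gS 2 from rfl, e2]; exact hP.1 ..
    · exact (kc.uOK _ _ m5).1
  let Z : U31 := ⟨_, hP.1 1 false 0 0 0 0 0 0 0⟩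
  have hZ : ∀ (k : ℕ) (g : U31), (Z ^ k * g).1 = zeta ^ k • g.1 := fun k g => by
    rw [U31.val_mul, val_pow, show Z.1 = _ from sc_val, smul_pow, one_pow, Matrix.smul_mul,
      Matrix.one_mul]
  let S : Set U31 := {x | x = Z ∨ ∃ e < 3, x.1 = cm (D.gS (e + 1))}
  have h8 : ∀ x ∈ S, x ^ 8 = 1 := by
    rintro x (rfl | ⟨e, he, hx⟩)
    · apply Subtype.ext
      have := hZ 8 1
      rw [mul_one, z8, one_smul] at this
      exact this
    · have : x * (x * (x * x)) = 1 := by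
        apply Subtype.ext
        simp only [U31.val_mul, U31.val_one, hx]
        obtain rfl | rfl | rfl : e = 0 ∨ e = 1 ∨ e = 2 := by omega
        · rw [show D.gS (0 + 1) = D.gS 1 from rfl, e1, rot_mul, rot_mul, rot_mul]; exact rot_per 1 0
        · rw [show D.gS (1 + 1) = D.gS 2 from rfl, e2, rot_mul, rot_mul, rot_mul]; exact rot_per 0 1
        · exact ord_of ka m6
      calc x ^ 8 = (x * (x * (x * x))) * (x * (x * (x * x))) := by
            simp only [pow_succ, pow_zero, one_mul, mul_assoc]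
        _ = 1 := by rw [this, mul_one]
  have hZP : Z ∈ Subgroup.closure S := Subgroup.subset_closure (Or.inl rfl)
  have hgen : ∀ e < 3, ∃ p ∈ Subgroup.closure S, p.1 = cm (D.gS (e + 1)) := fun e he =>
    ⟨⟨_, u e he⟩, Subgroup.subset_closure (Or.inr ⟨e, he, rfl⟩), rfl⟩
  have hmod : ∀ n, D.gS n = D.gS (n % D.ns) := fun n => by
    show D.s.get (n % D.ns) = D.s.get (n % D.ns % D.ns)
    rw [Nat.mod_mod]
  have A : ∀ n < D.ns, ∃ p ∈ Subgroup.closure S, p.1 = cm (D.gS n) := by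
    intro n
    induction n using Nat.strong_induction_on with
    | _ n ih =>
      intro hlt
      rcases Nat.lt_or_ge n 4 with h4 | h4
      · rcases n with _ | n
        · exact ⟨1, Subgroup.one_mem _, e0.symm⟩
        · exact hgen n (by omega)
      · obtain ⟨n, rfl⟩ : ∃ m, n = m + 4 := ⟨n - 4, by omega⟩
        obtain ⟨a, -, ha⟩ := (loop_ne_zero hw).2 n (by show n < D.ns - 4; omega)
        have hb := Cert91.of_cond ha
        rw [Bool.and_eq_true] at hb
        have h1 : Nat.mod a 512 ≤ n + 3 := Nat.le_of_ble_eq_true hb.1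
        have h2 := prod_of ka hb.2
        obtain ⟨p, hp, hp1⟩ := ih (Nat.mod a 512) (by omega) (by omega)
        obtain ⟨q, hq, hq1⟩ := hgen (Nat.mod (fld a 12 4) 3) (Nat.mod_lt _ (by norm_num))
        refine ⟨Z ^ (7 * fld a 9 8) * (q * p),
          Subgroup.mul_mem _ (Subgroup.pow_mem _ hZP _) (Subgroup.mul_mem _ hq hp), ?_⟩
        rw [hZ, U31.val_mul, hq1, hp1]
        erw [h2]
        rw [smul_smul, ← pow_add, show 7 * fld a 9 8 + fld a 9 8 = 8 * fld a 9 8 by ring, pow_mul, z8,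
          one_pow, one_smul]
  have A' : ∀ n, ∃ p ∈ Subgroup.closure S, p.1 = cm (D.gS n) := fun n => by
    rw [hmod]; exact A _ (Nat.mod_lt _ (by omega))
  have B1 : Sset D ⊆ Subgroup.closure S := by
    rintro g ⟨n, k, hg⟩
    obtain ⟨p, hp, hp1⟩ := A' n
    have : g = Z ^ k * p := Subtype.ext (by rw [hZ, hp1, hg])
    rw [this]
    exact Subgroup.mul_mem _ (Subgroup.pow_mem _ hZP _) hp
  have B2 : ∀ p ∈ Subgroup.closure S, ∀ g ∈ Sset D, p * g ∈ Sset D := by
    refine ind h8 _ (fun g hg => by rwa [one_mul])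
      (fun x y hx hy g hg => by rw [mul_assoc]; exact hx _ (hy g hg)) ?_
    rintro x (rfl | ⟨e, he, hx⟩) g ⟨n, k, hg1⟩
    · refine ⟨n, 1 + k, ?_⟩
      have := hZ 1 g
      rw [pow_one] at this
      rw [this, hg1, smul_smul, pow_add]
    · obtain ⟨s, hs⟩ := hg e he
      obtain ⟨a, -, ha⟩ := (loop_ne_zero hs).2 (n % D.ns) (Nat.mod_lt _ (by omega))
      have h2 := prod_of ka (Cert91.of_cond ha)
      refine ⟨Nat.mod a 512, k + fld a 9 8, ?_⟩
      rw [U31.val_mul, hx, hg1, hmod n, Matrix.mul_smul]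
      erw [h2]
      rw [smul_smul, pow_add]
  have o : (1 : U31) ∈ Sset D := ⟨0, 0, by simp [e0]⟩
  have E : (Subgroup.closure S : Set U31) = Sset D :=
    Set.Subset.antisymm (fun p hp => by simpa using B2 p hp 1 o) B1
  refine ⟨⟨_, E⟩, fun n => ?_, fun p hp => ?_, fun a b => ?_, one_of ka m1⟩
  · obtain ⟨p, -, hp⟩ := A' n
    exact hp ▸ p.2
  · refine ind h8 (fun p => ∃ k : ℕ, ap p (vec true) = zeta ^ k • vec true) ⟨0, by simp⟩ ?_ ?_ p (B1 hp)
    · rintro x y ⟨k, hk⟩ ⟨l, hl⟩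
      exact ⟨l + k, by rw [ap_mul, hl, ap_smul, hk, smul_smul, pow_add]⟩
    · rintro x (rfl | ⟨e, he, hx⟩)
      · exact ⟨1, by rw [ap, show Z.1 = _ from sc_val]; simp [Matrix.smul_mulVec]⟩
      · refine ⟨0, ?_⟩
        rw [ap, hx, pow_zero, one_smul]
        obtain rfl | rfl | rfl : e = 0 ∨ e = 1 ∨ e = 2 := by omega
        · rw [show D.gS (0 + 1) = D.gS 1 from rfl, e1, rot_fix]
        · rw [show D.gS (1 + 1) = D.gS 2 from rfl, e2, rot_fix]
        · have := prod_of ka (k := 0) m7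
          rw [← hv, ← Cert91.col0_mul]
          erw [this]
          rw [pow_zero, one_smul]
  · obtain ⟨p, hp, hp1⟩ := A' 1
    obtain ⟨q, hq, hq1⟩ := A' 2
    refine ⟨p ^ a * q ^ b, E ▸ Subgroup.mul_mem _ (Subgroup.pow_mem _ hp _) (Subgroup.pow_mem _ hq _), ?_⟩
    have h1 : ∀ a : ℕ, (p ^ a).1 = pm 0 false a 0 0 0 0 0 0 := fun a => by
      induction a with
      | zero => exact rot_one.symm
      | succ a ih => rw [pow_succ, U31.val_mul, ih, hp1, e1, rot_mul]
    have h2 : ∀ b : ℕ, (q ^ b).1 = pm 0 false 0 b 0 0 0 0 0 := fun b => by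
      induction b with
      | zero => exact rot_one.symm
      | succ b ih => rw [pow_succ, U31.val_mul, ih, hq1, e2, rot_mul]
    rw [U31.val_mul, h1, h2, rot_mul, add_zero, zero_add]

end Pool.Agent.MP_d97ab6_al.H91
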