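import Pool.Agent.MP_d97ab6_al.H91.J00
import Pool.Agent.MP_d97ab6_al.H91.J01
import Pool.Agent.MP_d97ab6_al.H91.J02
import Pool.Agent.MP_d97ab6_al.H91.J03
import Pool.Agent.MP_d97ab6_al.H91.J04
import Pool.Agent.MP_d97ab6_al.H91.J05
import Pool.Agent.MP_d97ab6_al.H91.J06
import Pool.Agent.MP_d97ab6_al.H91.J07
import Pool.Agent.MP_d97ab6_al.H91.J08
import Pool.Agent.MP_d97ab6_al.H91.J09
import Pool.Agent.MP_d97ab6_al.H91.J10
import Pool.Agent.MP_d97ab6_al.H91.J11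
import Pool.Agent.MP_d97ab6_al.H91.J12
import Pool.Agent.MP_d97ab6_al.H91.J13
import Pool.Agent.MP_d97ab6_al.H91.J14
import Pool.Agent.MP_d97ab6_al.H91.J15
import Mathlib.Data.List.Basic

/-! The computational facts collected. -/

namespace Pool.Agent.MP_d97ab6_al.H91

set_option maxRecDepth 100000

def lJInf00 : List (Nat × Nat × Nat) := [(0, 0, 1), (0, 1, 1), (0, 2, 1), (0, 3, 1), (0, 4, 1), (0, 5, 1), (0, 6, 1), (0, 7, 1), (0, 8, 1), (0, 9, 1), (0, 10, 1), (0, 11, 1), (0, 12, 1), (0, 13, 1), (0, 14, 1), (0, 15, 1), (0, 16, 1), (0, 17, 2), (0, 19, 2), (0, 21, 1), (0, 22, 1), (0, 23, 1), (0, 24, 2), (0, 26, 2), (0, 28, 2), (0, 30, 2), (0, 32, 2), (0, 34, 2), (0, 36, 2), (0, 38, 2), (0, 40, 2), (0, 42, 2), (0, 44, 2), (0, 46, 2), (0, 48, 2), (0, 50, 2), (0, 52, 2), (0, 54, 2), (0, 56, 2), (0, 58, 3), (0, 61, 2), (0, 63, 3), (0, 66, 3), (0, 69, 3), (0, 72, 2), (0, 74, 2), (0, 76, 2),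 (0, 78, 2), (0, 80, 2), (0, 82, 2), (1, 1, 1), (1, 2, 1), (1, 3, 1), (1, 4, 2), (1, 6, 2), (1, 8, 1), (1, 9, 2), (1, 11, 2), (1, 13, 2), (1, 15, 3), (1, 18, 2), (1, 20, 3), (1, 23, 3), (1, 26, 3), (1, 29, 3), (1, 32, 3), (1, 35, 3), (1, 38, 3), (1, 41, 4), (1, 45, 3), (1, 48, 3), (1, 51, 4), (1, 55, 4), (1, 59, 4), (1, 63, 4), (1, 67, 4), (1, 71, 4), (1, 75, 4), (1, 79, 4), (1, 83, 1), (2, 2, 1), (2, 3, 1), (2, 4, 2), (2, 6, 2), (2, 8, 1), (2, 9, 2), (2, 11, 2), (2, 13, 2), (2, 15, 3), (2, 18, 2), (2, 20, 3), (2, 23, 3), (2, 26, 3), (2, 29, 3), (2, 32, 3), (2, 35, 3), (2, 38, 4), (2, 42, 3), (2, 45, 3), (2, 48, 3), (2, 51, 4), (2, 55, 4), (2, 59, 4), (2, 63, 4), (2, 67, 4), (2, 71, 3), (2, 74, 5), (2, 79, 4), (2, 83, 1), (3, 3, 1), (3, 4, 2), (3, 6, 1), (3, 7, 1), (3, 8, 1), (3, 9, 2), (3, 11, 2), (3, 13, 2), (3, 15, 3), (3, 18, 1), (3, 19, 7), (3, 26, 3), (3, 29, 3), (3, 32, 4), (3,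 36, 5), (3, 41, 5), (3, 46, 4), (3, 50, 5), (3, 55, 5), (3, 60, 5), (3, 65, 4), (3, 69, 4), (3, 73, 6), (3, 79, 3), (3, 82, 2), (4, 4, 3), (4, 7, 3), (4, 10, 3), (4, 13, 4), (4, 17, 5), (4, 22, 5), (4, 27, 5), (4, 32, 5), (4, 37, 6), (4, 43, 6), (4, 49, 6), (4, 55, 7), (4, 62, 7), (4, 69, 7), (4, 76, 7), (4, 83, 1), (5, 5, 3), (5, 8, 3), (5, 11, 4), (5, 15, 5), (5, 20, 5), (5, 25, 5), (5, 30, 5), (5, 35, 6), (5, 41, 6), (5, 47, 6), (5, 53, 7), (5, 60, 7), (5, 67, 7), (5, 74, 7), (5, 81, 3), (6, 6, 2), (6, 8, 2), (6, 10, 2), (6, 12, 4), (6, 16, 6), (6, 22, 6), (6, 28, 6), (6, 34, 6), (6, 40, 5), (6, 45, 7), (6, 52, 7), (6, 59, 7), (6, 66, 8), (6, 74, 6), (6, 80, 4), (7, 7, 2), (7, 9, 2), (7, 11, 4), (7, 15, 6), (7, 21, 5), (7, 26, 5), (7, 31, 5), (7, 36, 6), (7, 42, 7), (7, 49, 5), (7, 54, 7), (7, 61, 5), (7, 66, 8), (7, 74, 7), (7, 81, 3), (8, 8, 3), (8, 11, 3), (8, 14, 4), (8, 18,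 5), (8, 23, 5), (8, 28, 5), (8, 33, 6), (8, 39, 5), (8, 44, 6), (8, 50, 5), (8, 55, 6), (8, 61, 8), (8, 69, 7), (8, 76, 8), (9, 9, 4), (9, 13, 5), (9, 18, 6), (9, 24, 5), (9, 29, 5), (9, 34, 7), (9, 41, 6), (9, 47, 6), (9, 53, 8), (9, 61, 8), (9, 69, 7), (9, 76, 7), (9, 83, 1), (10, 10, 4), (10, 14, 5), (10, 19, 7), (10, 26, 5), (10, 31, 6), (10, 37, 7), (10, 44, 6), (10, 50, 7), (10, 57, 7), (10, 64, 8), (10, 72, 7), (10, 79, 5), (11, 11, 5), (11, 16, 6), (11, 22, 7), (11, 29, 8), (11, 37, 9), (11, 46, 8), (11, 54, 9), (11, 63, 10), (11, 73, 11), (12, 12, 6), (12, 18, 7), (12, 25, 7), (12, 32, 8), (12, 40, 9), (12, 49, 9), (12, 58, 10), (12, 68, 11), (12, 79, 5), (13, 13, 6), (13, 19, 7), (13, 26, 7), (13, 33, 9), (13, 42, 9), (13, 51, 9), (13, 60, 10), (13, 70, 11), (13, 81, 3), (14, 14, 6), (14, 20, 6), (14, 26, 8), (14, 34, 8), (14, 42, 8), (14, 50, 8), (14, 58, 10), (14, 68, 10),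 (14, 78, 6), (15, 15, 5), (15, 20, 10), (15, 30, 9), (15, 39, 10), (15, 49, 9), (15, 58, 12), (15, 70, 12), (15, 82, 2), (16, 16, 5), (16, 21, 9), (16, 30, 10), (16, 40, 9), (16, 49, 10), (16, 59, 13), (16, 72, 11), (16, 83, 1), (17, 17, 9), (17, 26, 8), (17, 34, 9), (17, 43, 10), (17, 53, 13), (17, 66, 12), (17, 78, 6), (18, 18, 10), (18, 28, 8), (18, 36, 10), (18, 46, 11), (18, 57, 13), (18, 70, 14), (19, 19, 11), (19, 30, 8), (19, 38, 11), (19, 49, 11), (19, 60, 11), (19, 71, 13), (20, 20, 11), (20, 31, 9), (20, 40, 10), (20, 50, 12), (20, 62, 12), (20, 74, 10), (21, 21, 11), (21, 32, 11), (21, 43, 10), (21, 53, 13), (21, 66, 13), (21, 79, 5), (22, 22, 10), (22, 32, 11), (22, 43, 11), (22, 54, 13), (22, 67, 13), (22, 80, 4), (23, 23, 8), (23, 31, 10), (23, 41, 9), (23, 50, 13), (23, 63, 12), (23, 75, 9), (24, 24, 10), (24, 34, 11), (24, 45, 11), (24, 56, 14), (24, 70, 13), (24, 83,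 1), (25, 25, 10), (25, 35, 11), (25, 46, 11), (25, 57, 14), (25, 71, 13), (26, 26, 9), (26, 35, 13), (26, 48, 14), (26, 62, 12), (26, 74, 10), (27, 27, 10), (27, 37, 11), (27, 48, 12), (27, 60, 11), (27, 71, 13), (28, 28, 10), (28, 38, 11), (28, 49, 12), (28, 61, 12), (28, 73, 11), (29, 29, 10), (29, 39, 10), (29, 49, 12), (29, 61, 13), (29, 74, 10), (30, 30, 9), (30, 39, 10), (30, 49, 12), (30, 61, 13), (30, 74, 10), (31, 31, 9), (31, 40, 11), (31, 51, 12), (31, 63, 13), (31, 76, 8), (32, 32, 11), (32, 43, 11), (32, 54, 14), (32, 68, 13), (32, 81, 3), (33, 33, 11), (33, 44, 11), (33, 55, 13), (33, 68, 13), (33, 81, 3), (34, 34, 11), (34, 45, 12), (34, 57, 16), (34, 73, 11), (35, 35, 11), (35, 46, 12), (35, 58, 15), (35, 73, 11), (36, 36, 12), (36, 48, 14), (36, 62, 15), (36, 77, 7), (37, 37, 12), (37, 49, 14), (37, 63, 14), (37, 77, 7), (38, 38, 13), (38, 51, 13), (38, 64, 15), (38,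 79, 5), (39, 39, 13), (39, 52, 14), (39, 66, 15), (39, 81, 3), (40, 40, 14), (40, 54, 16), (40, 70, 14), (41, 41, 14), (41, 55, 13), (41, 68, 16), (42, 42, 14), (42, 56, 16), (42, 72, 12), (43, 43, 12), (43, 55, 16), (43, 71, 13), (44, 44, 13), (44, 57, 16), (44, 73, 11), (45, 45, 14), (45, 59, 15), (45, 74, 10), (46, 46, 14), (46, 60, 16), (46, 76, 8), (47, 47, 15), (47, 62, 17), (47, 79, 5), (48, 48, 15), (48, 63, 16), (48, 79, 5), (49, 49, 14), (49, 63, 15), (49, 78, 6), (50, 50, 14), (50, 64, 16), (50, 80, 4), (51, 51, 15), (51, 66, 14), (51, 80, 4), (52, 52, 16), (52, 68, 16), (53, 53, 14), (53, 67, 17), (54, 54, 13), (54, 67, 16), (54, 83, 1), (55, 55, 15), (55, 70, 14), (56, 56, 18), (56, 74, 10), (57, 57, 16), (57, 73, 11), (58, 58, 16), (58, 74, 10), (59, 59, 17), (59, 76, 8), (60, 60, 18), (60, 78, 6), (61, 61, 18), (61, 79, 5), (62, 62, 17), (62, 79, 5), (63, 63, 19), (63,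 82, 2), (64, 64, 19), (64, 83, 1), (65, 65, 19), (66, 66, 18), (67, 67, 17), (68, 68, 16), (69, 69, 15), (70, 70, 14), (71, 71, 13), (72, 72, 12), (73, 73, 11), (74, 74, 10), (75, 75, 9), (76, 76, 8), (77, 77, 7), (78, 78, 6), (79, 79, 5), (80, 80, 4), (81, 81, 3), (82, 82, 2), (83, 83, 1)]

theorem aJInf00 : ∀ t ∈ lJInf00, JInf false false t :=
  List.forall_iff_forall_mem.mp (show List.Forall (JInf false false) lJInf00 from
    ⟨jinf00_0_0, jinf00_0_1, jinf00_0_2, jinf00_0_3, jinf00_0_4, jinf00_0_5, jinf00_0_6, jinf00_0_7, jinf00_0_8, jinf00_0_9, jinf00_0_10, jinf00_0_11, jinf00_0_12, jinf00_0_13, jinf00_0_14, jinf00_0_15, jinf00_0_16, jinf00_0_17, jinf00_0_19, jinf00_0_21, jinf00_0_22, jinf00_0_23, jinf00_0_24, jinf00_0_26, jinf00_0_28, jinf00_0_30, jinf00_0_32, jinf00_0_34, jinf00_0_36, jinf00_0_38, jinf00_0_40, jinf00_0_42, jinf00_0_44, jinf00_0_46, jinf00_0_48, jinf00_0_50, jinf00_0_52,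 jinf00_0_54, jinf00_0_56, jinf00_0_58, jinf00_0_61, jinf00_0_63, jinf00_0_66, jinf00_0_69, jinf00_0_72, jinf00_0_74, jinf00_0_76, jinf00_0_78, jinf00_0_80, jinf00_0_82, jinf00_1_1, jinf00_1_2, jinf00_1_3, jinf00_1_4, jinf00_1_6, jinf00_1_8, jinf00_1_9, jinf00_1_11, jinf00_1_13, jinf00_1_15, jinf00_1_18, jinf00_1_20, jinf00_1_23, jinf00_1_26, jinf00_1_29, jinf00_1_32, jinf00_1_35, jinf00_1_38, jinf00_1_41, jinf00_1_45, jinf00_1_48, jinf00_1_51, jinf00_1_55, jinf00_1_59, jinf00_1_63, jinf00_1_67, jinf00_1_71, jinf00_1_75, jinf00_1_79, jinf00_1_83, jinf00_2_2, jinf00_2_3, jinf00_2_4, jinf00_2_6, jinf00_2_8, jinf00_2_9, jinf00_2_11, jinf00_2_13, jinf00_2_15, jinf00_2_18, jinf00_2_20, jinf00_2_23, jinf00_2_26, jinf00_2_29, jinf00_2_32, jinf00_2_35, jinf00_2_38, jinf00_2_42, jinf00_2_45, jinf00_2_48, jinf00_2_51, jinf00_2_55, jinf00_2_59, jinf00_2_63, jinf00_2_67, jinf00_2_71, jinf00_2_74,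 jinf00_2_79, jinf00_2_83, jinf00_3_3, jinf00_3_4, jinf00_3_6, jinf00_3_7, jinf00_3_8, jinf00_3_9, jinf00_3_11, jinf00_3_13, jinf00_3_15, jinf00_3_18, jinf00_3_19, jinf00_3_26, jinf00_3_29, jinf00_3_32, jinf00_3_36, jinf00_3_41, jinf00_3_46, jinf00_3_50, jinf00_3_55, jinf00_3_60, jinf00_3_65, jinf00_3_69, jinf00_3_73, jinf00_3_79, jinf00_3_82, jinf00_4_4, jinf00_4_7, jinf00_4_10, jinf00_4_13, jinf00_4_17, jinf00_4_22, jinf00_4_27, jinf00_4_32, jinf00_4_37, jinf00_4_43, jinf00_4_49, jinf00_4_55, jinf00_4_62, jinf00_4_69, jinf00_4_76, jinf00_4_83, jinf00_5_5, jinf00_5_8, jinf00_5_11, jinf00_5_15, jinf00_5_20, jinf00_5_25, jinf00_5_30, jinf00_5_35, jinf00_5_41, jinf00_5_47, jinf00_5_53, jinf00_5_60, jinf00_5_67, jinf00_5_74, jinf00_5_81, jinf00_6_6, jinf00_6_8, jinf00_6_10, jinf00_6_12, jinf00_6_16, jinf00_6_22, jinf00_6_28, jinf00_6_34, jinf00_6_40, jinf00_6_45, jinf00_6_52, jinf00_6_59,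 jinf00_6_66, jinf00_6_74, jinf00_6_80, jinf00_7_7, jinf00_7_9, jinf00_7_11, jinf00_7_15, jinf00_7_21, jinf00_7_26, jinf00_7_31, jinf00_7_36, jinf00_7_42, jinf00_7_49, jinf00_7_54, jinf00_7_61, jinf00_7_66, jinf00_7_74, jinf00_7_81, jinf00_8_8, jinf00_8_11, jinf00_8_14, jinf00_8_18, jinf00_8_23, jinf00_8_28, jinf00_8_33, jinf00_8_39, jinf00_8_44, jinf00_8_50, jinf00_8_55, jinf00_8_61, jinf00_8_69, jinf00_8_76, jinf00_9_9, jinf00_9_13, jinf00_9_18, jinf00_9_24, jinf00_9_29, jinf00_9_34, jinf00_9_41, jinf00_9_47, jinf00_9_53, jinf00_9_61, jinf00_9_69, jinf00_9_76, jinf00_9_83, jinf00_10_10, jinf00_10_14, jinf00_10_19, jinf00_10_26, jinf00_10_31, jinf00_10_37, jinf00_10_44, jinf00_10_50, jinf00_10_57, jinf00_10_64, jinf00_10_72, jinf00_10_79, jinf00_11_11, jinf00_11_16, jinf00_11_22, jinf00_11_29, jinf00_11_37, jinf00_11_46, jinf00_11_54, jinf00_11_63, jinf00_11_73, jinf00_12_12, jinf00_12_18,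 jinf00_12_25, jinf00_12_32, jinf00_12_40, jinf00_12_49, jinf00_12_58, jinf00_12_68, jinf00_12_79, jinf00_13_13, jinf00_13_19, jinf00_13_26, jinf00_13_33, jinf00_13_42, jinf00_13_51, jinf00_13_60, jinf00_13_70, jinf00_13_81, jinf00_14_14, jinf00_14_20, jinf00_14_26, jinf00_14_34, jinf00_14_42, jinf00_14_50, jinf00_14_58, jinf00_14_68, jinf00_14_78, jinf00_15_15, jinf00_15_20, jinf00_15_30, jinf00_15_39, jinf00_15_49, jinf00_15_58, jinf00_15_70, jinf00_15_82, jinf00_16_16, jinf00_16_21, jinf00_16_30, jinf00_16_40, jinf00_16_49, jinf00_16_59, jinf00_16_72, jinf00_16_83, jinf00_17_17, jinf00_17_26, jinf00_17_34, jinf00_17_43, jinf00_17_53, jinf00_17_66, jinf00_17_78, jinf00_18_18, jinf00_18_28, jinf00_18_36, jinf00_18_46, jinf00_18_57, jinf00_18_70, jinf00_19_19, jinf00_19_30, jinf00_19_38, jinf00_19_49, jinf00_19_60, jinf00_19_71, jinf00_20_20, jinf00_20_31, jinf00_20_40, jinf00_20_50,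 jinf00_20_62, jinf00_20_74, jinf00_21_21, jinf00_21_32, jinf00_21_43, jinf00_21_53, jinf00_21_66, jinf00_21_79, jinf00_22_22, jinf00_22_32, jinf00_22_43, jinf00_22_54, jinf00_22_67, jinf00_22_80, jinf00_23_23, jinf00_23_31, jinf00_23_41, jinf00_23_50, jinf00_23_63, jinf00_23_75, jinf00_24_24, jinf00_24_34, jinf00_24_45, jinf00_24_56, jinf00_24_70, jinf00_24_83, jinf00_25_25, jinf00_25_35, jinf00_25_46, jinf00_25_57, jinf00_25_71, jinf00_26_26, jinf00_26_35, jinf00_26_48, jinf00_26_62, jinf00_26_74, jinf00_27_27, jinf00_27_37, jinf00_27_48, jinf00_27_60, jinf00_27_71, jinf00_28_28, jinf00_28_38, jinf00_28_49, jinf00_28_61, jinf00_28_73, jinf00_29_29, jinf00_29_39, jinf00_29_49, jinf00_29_61, jinf00_29_74, jinf00_30_30, jinf00_30_39, jinf00_30_49, jinf00_30_61, jinf00_30_74, jinf00_31_31, jinf00_31_40, jinf00_31_51, jinf00_31_63, jinf00_31_76, jinf00_32_32, jinf00_32_43, jinf00_32_54,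 jinf00_32_68, jinf00_32_81, jinf00_33_33, jinf00_33_44, jinf00_33_55, jinf00_33_68, jinf00_33_81, jinf00_34_34, jinf00_34_45, jinf00_34_57, jinf00_34_73, jinf00_35_35, jinf00_35_46, jinf00_35_58, jinf00_35_73, jinf00_36_36, jinf00_36_48, jinf00_36_62, jinf00_36_77, jinf00_37_37, jinf00_37_49, jinf00_37_63, jinf00_37_77, jinf00_38_38, jinf00_38_51, jinf00_38_64, jinf00_38_79, jinf00_39_39, jinf00_39_52, jinf00_39_66, jinf00_39_81, jinf00_40_40, jinf00_40_54, jinf00_40_70, jinf00_41_41, jinf00_41_55, jinf00_41_68, jinf00_42_42, jinf00_42_56, jinf00_42_72, jinf00_43_43, jinf00_43_55, jinf00_43_71, jinf00_44_44, jinf00_44_57, jinf00_44_73, jinf00_45_45, jinf00_45_59, jinf00_45_74, jinf00_46_46, jinf00_46_60, jinf00_46_76, jinf00_47_47, jinf00_47_62, jinf00_47_79, jinf00_48_48, jinf00_48_63, jinf00_48_79, jinf00_49_49, jinf00_49_63, jinf00_49_78, jinf00_50_50, jinf00_50_64, jinf00_50_80,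 jinf00_51_51, jinf00_51_66, jinf00_51_80, jinf00_52_52, jinf00_52_68, jinf00_53_53, jinf00_53_67, jinf00_54_54, jinf00_54_67, jinf00_54_83, jinf00_55_55, jinf00_55_70, jinf00_56_56, jinf00_56_74, jinf00_57_57, jinf00_57_73, jinf00_58_58, jinf00_58_74, jinf00_59_59, jinf00_59_76, jinf00_60_60, jinf00_60_78, jinf00_61_61, jinf00_61_79, jinf00_62_62, jinf00_62_79, jinf00_63_63, jinf00_63_82, jinf00_64_64, jinf00_64_83, jinf00_65_65, jinf00_66_66, jinf00_67_67, jinf00_68_68, jinf00_69_69, jinf00_70_70, jinf00_71_71, jinf00_72_72, jinf00_73_73, jinf00_74_74, jinf00_75_75, jinf00_76_76, jinf00_77_77, jinf00_78_78, jinf00_79_79, jinf00_80_80, jinf00_81_81, jinf00_82_82, jinf00_83_83⟩)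

def lJInf01 : List (Nat × Nat × Nat) := [(0, 0, 1), (0, 1, 1), (0, 2, 2), (0, 4, 1), (0, 5, 2), (0, 7, 1), (1, 0, 1), (1, 1, 3), (1, 4, 4), (2, 0, 2), (2, 2, 4), (2, 6, 2), (3, 0, 2), (3, 2, 6), (4, 0, 5), (4, 5, 3), (5, 0, 5), (5, 5, 3), (6, 0, 6), (6, 6, 2), (7, 0, 6), (7, 6, 2), (8, 0, 5), (8, 5, 3), (9, 0, 6), (9, 6, 2), (10, 0, 7), (10, 7, 1), (11, 0, 8), (12, 0, 8), (13, 0, 8), (14, 0, 8), (15, 0, 8), (16, 0, 8), (17, 0, 8), (18, 0, 8), (19, 0, 8), (20, 0, 8), (21, 0, 8), (22, 0, 8), (23, 0, 8), (24, 0, 8), (25, 0, 8), (26, 0, 8), (27, 0, 8), (28, 0, 8), (29, 0, 8), (30, 0, 8), (31, 0, 8), (32, 0, 8), (33, 0, 8), (34, 0, 8), (35, 0, 8), (36, 0, 8), (37, 0, 8), (38, 0, 8), (39, 0, 8), (40, 0, 8), (41, 0, 8), (42, 0, 8), (43, 0, 8), (44, 0, 8), (45, 0, 8), (46, 0, 8), (47, 0, 8), (48, 0, 8), (49, 0, 8), (50, 0, 8), (51, 0, 8), (52, 0, 8), (53, 0, 8), (54, 0, 8), (55, 0, 8), (56,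 0, 8), (57, 0, 8), (58, 0, 8), (59, 0, 8), (60, 0, 8), (61, 0, 8), (62, 0, 8), (63, 0, 8), (64, 0, 8), (65, 0, 8), (66, 0, 8), (67, 0, 8), (68, 0, 8), (69, 0, 8), (70, 0, 8), (71, 0, 8), (72, 0, 8), (73, 0, 8), (74, 0, 8), (75, 0, 8), (76, 0, 8), (77, 0, 8), (78, 0, 8), (79, 0, 8), (80, 0, 8), (81, 0, 8), (82, 0, 8), (83, 0, 8)]

theorem aJInf01 : ∀ t ∈ lJInf01, JInf false true t :=
  List.forall_iff_forall_mem.mp (show List.Forall (JInf false true) lJInf01 from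
    ⟨jinf01_0_0, jinf01_0_1, jinf01_0_2, jinf01_0_4, jinf01_0_5, jinf01_0_7, jinf01_1_0, jinf01_1_1, jinf01_1_4, jinf01_2_0, jinf01_2_2, jinf01_2_6, jinf01_3_0, jinf01_3_2, jinf01_4_0, jinf01_4_5, jinf01_5_0, jinf01_5_5, jinf01_6_0, jinf01_6_6, jinf01_7_0, jinf01_7_6, jinf01_8_0, jinf01_8_5, jinf01_9_0, jinf01_9_6, jinf01_10_0, jinf01_10_7, jinf01_11_0, jinf01_12_0, jinf01_13_0, jinf01_14_0, jinf01_15_0, jinf01_16_0, jinf01_17_0, jinf01_18_0, jinf01_19_0, jinf01_20_0, jinf01_21_0, jinf01_22_0, jinf01_23_0, jinf01_24_0, jinf01_25_0, jinf01_26_0, jinf01_27_0, jinf01_28_0, jinf01_29_0, jinf01_30_0, jinf01_31_0, jinf01_32_0, jinf01_33_0, jinf01_34_0, jinf01_35_0, jinf01_36_0, jinf01_37_0, jinf01_38_0, jinf01_39_0, jinf01_40_0, jinf01_41_0, jinf01_42_0, jinf01_43_0, jinf01_44_0, jinf01_45_0, jinf01_46_0, jinf01_47_0, jinf01_48_0, jinf01_49_0, jinf01_50_0, jinf01_51_0, jinf01_52_0, jinf01_53_0,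 jinf01_54_0, jinf01_55_0, jinf01_56_0, jinf01_57_0, jinf01_58_0, jinf01_59_0, jinf01_60_0, jinf01_61_0, jinf01_62_0, jinf01_63_0, jinf01_64_0, jinf01_65_0, jinf01_66_0, jinf01_67_0, jinf01_68_0, jinf01_69_0, jinf01_70_0, jinf01_71_0, jinf01_72_0, jinf01_73_0, jinf01_74_0, jinf01_75_0, jinf01_76_0, jinf01_77_0, jinf01_78_0, jinf01_79_0, jinf01_80_0, jinf01_81_0, jinf01_82_0, jinf01_83_0⟩)

def lJInf11 : List (Nat × Nat × Nat) := [(0, 0, 8), (1, 1, 7), (2, 2, 6), (3, 3, 5), (4, 4, 4), (5, 5, 3), (6, 6, 2), (7, 7, 1)]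

theorem aJInf11 : ∀ t ∈ lJInf11, JInf true true t :=
  List.forall_iff_forall_mem.mp (show List.Forall (JInf true true) lJInf11 from
    ⟨jinf11_0_0, jinf11_1_1, jinf11_2_2, jinf11_3_3, jinf11_4_4, jinf11_5_5, jinf11_6_6, jinf11_7_7⟩)

def lJBall00 : List (Nat × Nat × Nat) := [(0, 0, 21), (0, 21, 21), (0, 42, 22), (0, 64, 24), (0, 88, 24), (0, 112, 27), (0, 139, 26), (0, 165, 30), (0, 195, 29), (0, 224, 33), (0, 257, 34), (0, 291, 36), (0, 327, 38), (0, 365, 19), (1, 0, 27), (1, 27, 30), (1, 57, 31), (1, 88, 34), (1, 122, 32), (1, 154, 37), (1, 191, 36), (1, 227, 36), (1, 263, 42), (1, 305, 42), (1, 347, 37), (2, 0, 40), (2, 40, 46), (2, 86, 51), (2, 137, 54), (2, 191, 56), (2, 247, 54), (2, 301, 54), (2, 355, 29), (3, 0, 30), (3, 30, 33), (3, 63, 35), (3, 98, 40), (3, 138, 42), (3, 180, 43), (3, 223, 47), (3, 270, 50), (3, 320, 55), (3, 375, 9), (4, 0, 32), (4, 32, 40), (4, 72, 45),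 (4, 117, 49), (4, 166, 53), (4, 219, 56), (4, 275, 61), (4, 336, 48), (5, 0, 31), (5, 31, 35), (5, 66, 37), (5, 103, 42), (5, 145, 45), (5, 190, 46), (5, 236, 47), (5, 283, 50), (5, 333, 51), (6, 0, 30), (6, 30, 35), (6, 65, 37), (6, 102, 43), (6, 145, 48), (6, 193, 49), (6, 242, 52), (6, 294, 58), (6, 352, 32), (7, 0, 36), (7, 36, 39), (7, 75, 43), (7, 118, 48), (7, 166, 51), (7, 217, 54), (7, 271, 59), (7, 330, 54)]

theorem aJBall00 : ∀ t ∈ lJBall00, JBall false false t :=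
  List.forall_iff_forall_mem.mp (show List.Forall (JBall false false) lJBall00 from
    ⟨jball00_0_0, jball00_0_21, jball00_0_42, jball00_0_64, jball00_0_88, jball00_0_112, jball00_0_139, jball00_0_165, jball00_0_195, jball00_0_224, jball00_0_257, jball00_0_291, jball00_0_327, jball00_0_365, jball00_1_0, jball00_1_27, jball00_1_57, jball00_1_88, jball00_1_122, jball00_1_154, jball00_1_191, jball00_1_227, jball00_1_263, jball00_1_305, jball00_1_347, jball00_2_0, jball00_2_40, jball00_2_86, jball00_2_137, jball00_2_191, jball00_2_247, jball00_2_301, jball00_2_355, jball00_3_0, jball00_3_30, jball00_3_63, jball00_3_98, jball00_3_138, jball00_3_180, jball00_3_223, jball00_3_270, jball00_3_320, jball00_3_375, jball00_4_0, jball00_4_32, jball00_4_72, jball00_4_117, jball00_4_166, jball00_4_219, jball00_4_275, jball00_4_336, jball00_5_0, jball00_5_31, jball00_5_66, jball00_5_103, jball00_5_145,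 jball00_5_190, jball00_5_236, jball00_5_283, jball00_5_333, jball00_6_0, jball00_6_30, jball00_6_65, jball00_6_102, jball00_6_145, jball00_6_193, jball00_6_242, jball00_6_294, jball00_6_352, jball00_7_0, jball00_7_36, jball00_7_75, jball00_7_118, jball00_7_166, jball00_7_217, jball00_7_271, jball00_7_330⟩)

def lJBall01 : List (Nat × Nat × Nat) := [(0, 0, 20), (0, 20, 20), (0, 40, 20), (0, 60, 20), (0, 80, 20), (0, 100, 20), (0, 120, 20), (0, 140, 20), (0, 160, 20), (0, 180, 20), (0, 200, 20), (0, 220, 20), (0, 240, 20), (0, 260, 20), (0, 280, 20), (0, 300, 20), (0, 320, 20), (0, 340, 20), (0, 360, 20), (0, 380, 4), (1, 0, 40), (1, 40, 37), (1, 77, 39), (1, 116, 35), (1, 151, 37), (1, 188, 37), (1, 225, 34), (1, 259, 37), (1, 296, 35), (1, 331, 39), (1, 370, 14), (2, 0, 42), (2, 42, 42), (2, 84, 38), (2, 122, 40), (2, 162, 40), (2, 202, 37), (2, 239, 34), (2, 273, 35), (2, 308, 34),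 (2, 342, 32), (2, 374, 10), (3, 0, 45), (3, 45, 44), (3, 89, 43), (3, 132, 43), (3, 175, 41), (3, 216, 39), (3, 255, 43), (3, 298, 40), (3, 338, 41), (3, 379, 5)]

theorem aJBall01 : ∀ t ∈ lJBall01, JBall false true t :=
  List.forall_iff_forall_mem.mp (show List.Forall (JBall false true) lJBall01 from
    ⟨jball01_0_0, jball01_0_20, jball01_0_40, jball01_0_60, jball01_0_80, jball01_0_100, jball01_0_120, jball01_0_140, jball01_0_160, jball01_0_180, jball01_0_200, jball01_0_220, jball01_0_240, jball01_0_260, jball01_0_280, jball01_0_300, jball01_0_320, jball01_0_340, jball01_0_360, jball01_0_380, jball01_1_0, jball01_1_40, jball01_1_77, jball01_1_116, jball01_1_151, jball01_1_188, jball01_1_225, jball01_1_259, jball01_1_296, jball01_1_331, jball01_1_370, jball01_2_0, jball01_2_42, jball01_2_84, jball01_2_122, jball01_2_162, jball01_2_202, jball01_2_239, jball01_2_273, jball01_2_308,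 jball01_2_342, jball01_2_374, jball01_3_0, jball01_3_45, jball01_3_89, jball01_3_132, jball01_3_175, jball01_3_216, jball01_3_255, jball01_3_298, jball01_3_338, jball01_3_379⟩)

def lJBall11 : List (Nat × Nat × Nat) := [(0, 0, 35), (0, 35, 35), (0, 70, 35), (0, 105, 35), (0, 140, 35), (0, 175, 35), (0, 210, 35), (0, 245, 35), (0, 280, 35), (0, 315, 35), (0, 350, 34), (1, 0, 45), (1, 45, 45), (1, 90, 48), (1, 138, 49), (1, 187, 49), (1, 236, 51), (1, 287, 53), (1, 340, 44), (2, 0, 43), (2, 43, 44), (2, 87, 45), (2, 132, 47), (2, 179, 48), (2, 227, 51), (2, 278, 54), (2, 332, 52), (3, 0, 45), (3, 45, 46), (3, 91, 49), (3, 140, 51), (3, 191, 52), (3, 243, 55), (3, 298, 59), (3, 357, 27)]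

theorem aJBall11 : ∀ t ∈ lJBall11, JBall true true t :=
  List.forall_iff_forall_mem.mp (show List.Forall (JBall true true) lJBall11 from
    ⟨jball11_0_0, jball11_0_35, jball11_0_70, jball11_0_105, jball11_0_140, jball11_0_175, jball11_0_210, jball11_0_245, jball11_0_280, jball11_0_315, jball11_0_350, jball11_1_0, jball11_1_45, jball11_1_90, jball11_1_138, jball11_1_187, jball11_1_236, jball11_1_287, jball11_1_340, jball11_2_0, jball11_2_43, jball11_2_87, jball11_2_132, jball11_2_179, jball11_2_227, jball11_2_278, jball11_2_332, jball11_3_0, jball11_3_45, jball11_3_91, jball11_3_140, jball11_3_191, jball11_3_243, jball11_3_298, jball11_3_357⟩)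

def lJCov0 : List (Nat) := [0, 1, 2, 3, 4, 5, 6, 7, 8, 9, 10, 11, 12, 13, 14, 15, 16]

theorem aJCov0 : ∀ t ∈ lJCov0, JCov0 t :=
  List.forall_iff_forall_mem.mp (show List.Forall (JCov0) lJCov0 from
    ⟨jcov0_0, jcov0_1, jcov0_2, jcov0_3, jcov0_4, jcov0_5, jcov0_6, jcov0_7, jcov0_8, jcov0_9, jcov0_10, jcov0_11, jcov0_12, jcov0_13, jcov0_14, jcov0_15, jcov0_16⟩)

def lJCov1 : List (Nat) := [0, 1, 2, 3, 4, 5, 6, 7, 8, 9, 10, 11, 12, 13, 14, 15, 16, 17, 18, 19, 20, 21, 22, 23, 24, 25, 26, 27, 28, 29, 30, 31, 32, 33, 34, 35, 36, 37, 38, 39, 40, 41, 42, 43, 44, 45, 46, 47, 48, 49, 50, 51, 52, 53, 54, 55, 56, 57, 58, 59, 60, 61, 62, 63, 64, 65, 66, 67, 68, 69, 70, 71, 72, 73, 74, 75, 76, 77, 78, 79, 80, 81, 82, 83, 84, 85, 86, 87, 88]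

theorem aJCov1 : ∀ t ∈ lJCov1, JCov1 t :=
  List.forall_iff_forall_mem.mp (show List.Forall (JCov1) lJCov1 from
    ⟨jcov1_0, jcov1_1, jcov1_2, jcov1_3, jcov1_4, jcov1_5, jcov1_6, jcov1_7, jcov1_8, jcov1_9, jcov1_10, jcov1_11, jcov1_12, jcov1_13, jcov1_14, jcov1_15, jcov1_16, jcov1_17, jcov1_18, jcov1_19, jcov1_20, jcov1_21, jcov1_22, jcov1_23, jcov1_24, jcov1_25, jcov1_26, jcov1_27, jcov1_28, jcov1_29, jcov1_30, jcov1_31, jcov1_32, jcov1_33, jcov1_34, jcov1_35, jcov1_36, jcov1_37, jcov1_38, jcov1_39, jcov1_40, jcov1_41, jcov1_42, jcov1_43, jcov1_44, jcov1_45, jcov1_46, jcov1_47, jcov1_48, jcov1_49, jcov1_50, jcov1_51, jcov1_52, jcov1_53, jcov1_54, jcov1_55, jcov1_56, jcov1_57, jcov1_58, jcov1_59, jcov1_60, jcov1_61, jcov1_62, jcov1_63, jcov1_64, jcov1_65, jcov1_66, jcov1_67, jcov1_68, jcov1_69, jcov1_70, jcov1_71, jcov1_72, jcov1_73, jcov1_74, jcov1_75, jcov1_76, jcov1_77, jcov1_78,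 jcov1_79, jcov1_80, jcov1_81, jcov1_82, jcov1_83, jcov1_84, jcov1_85, jcov1_86, jcov1_87, jcov1_88⟩)

end Pool.Agent.MP_d97ab6_al.H91
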