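import Pool.Agent.MP_d97ab6_al.H91.DatC

/-! Shape of the computational facts. -/

namespace Pool.Agent.MP_d97ab6_al.H91

theorem nz {x : Nat} (h : Nat.beq x 1 = true) : x ≠ 0 := by
  intro h0
  rw [h0] at h
  exact absurd h (by decide)

def JInf (i k : Bool) (t : Nat × Nat × Nat) : Prop := ∃ s, checkInf dat i k t.1 t.2.1 t.2.2 s ≠ 0
def JBall (i k : Bool) (t : Nat × Nat × Nat) : Prop := ∃ s, checkBall dat i k t.1 t.2.1 t.2.2 s ≠ 0
def JCov0 (n : Nat) : Prop := ∃ s, run false tb0 134 kb0 0 60 (kb0.get n) s ≠ 0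
def JCov1 (n : Nat) : Prop := ∃ s, run true tb1 125 kb1 0 60 (kb1.get n) s ≠ 0

end Pool.Agent.MP_d97ab6_al.H91
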