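import Pool.Agent.MP_d97ab6_al.H91.KA0

/-! Soundness of the packed arithmetic, first part. -/

namespace Pool.Agent.MP_d97ab6_al.H91

open Matrix Complex Finset

namespace KA

theorem mod_eq (a b : ℕ) : Nat.mod a b = a % b := rfl

theorem land_step (x a b n : ℕ) (ha : a < 2 ^ n) :
    x &&& (2 ^ n * b + a) = 2 ^ n * ((x >>> n) &&& b) + (x &&& a) := by
  apply Nat.eq_of_testBit_eq
  intro j
  have h2 : x &&& a < 2 ^ n := lt_of_le_of_lt Nat.and_le_right ha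
  rw [Nat.testBit_and, Nat.testBit_two_pow_mul_add _ ha, Nat.testBit_two_pow_mul_add _ h2]
  split_ifs with h
  · rw [Nat.testBit_and]
  · rw [Nat.testBit_and, Nat.testBit_shiftRight, Nat.add_sub_cancel' (not_lt.mp h)]

/-- Byte masks. -/
def msk (n : ℕ) : ℕ → ℕ
  | 0 => 0
  | N + 1 => 2 ^ n * msk n N + 255

theorem land_msk (n : ℕ) (hn : 8 ≤ n) (N : ℕ) : ∀ c s : ℕ,
    (c >>> s) &&& msk n N = ∑ m ∈ range N, fld c (s + n * m) 256 * (2 ^ n) ^ m := by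
  induction N with
  | zero => intro c s; simp [msk]
  | succ N ih =>
    intro c s
    have h255 : 255 < 2 ^ n :=
      lt_of_lt_of_le (by norm_num : 255 < 2 ^ 8) (Nat.pow_le_pow_right (by norm_num) hn)
    rw [msk, land_step _ _ _ _ h255, ← Nat.shiftRight_add, ih, Finset.sum_range_succ',
      Finset.mul_sum]
    congr 1
    · refine Finset.sum_congr rfl fun m _ => ?_
      rw [show s + n * (m + 1) = s + n + n * m by ring]
      ring
    · rw [mul_zero, add_zero, pow_zero, mul_one]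
      exact Nat.and_two_pow_sub_one_eq_mod (c >>> s) 8

theorem m4_eq : m4 = msk 256 4 := by decide +kernel
theorem m16_eq : m16 = msk 64 16 := by decide +kernel
theorem o4_eq : (o4 : ℤ) = Mo - 128 * ∑ m ∈ range 4, ((2 : ℤ) ^ 256) ^ m := by decide +kernel
theorem o16_eq : (o16 : ℤ) = Mo - 128 * ∑ m ∈ range 16, ((2 : ℤ) ^ 64) ^ m := by decide +kernel
theorem h16_eq : (h16 : ℤ) = 2 ^ 63 * ∑ m ∈ range 16, ((2 : ℤ) ^ 64) ^ m := by decide +kernel
theorem Mo_gt : (2 ^ 64) ^ 16 < Mo := by decide +kernel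
theorem q128 : (2 : ℤ) ^ 128 = (2 ^ 64) ^ 2 := by decide +kernel
theorem q192 : (2 : ℤ) ^ 192 = (2 ^ 64) ^ 3 := by decide +kernel
theorem q256 : (2 : ℤ) ^ 256 = (2 ^ 64) ^ 4 := by decide +kernel
theorem q512 : (2 : ℤ) ^ 512 = (2 ^ 64) ^ 8 := by decide +kernel
theorem q768 : (2 : ℤ) ^ 768 = (2 ^ 64) ^ 12 := by decide +kernel

theorem byt_le (c s : ℕ) : (byt c s).natAbs ≤ 128 := by
  have : fld c s 256 < 256 := Nat.mod_lt _ (by norm_num)
  unfold byt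
  omega

theorem cz_l1 (c i j : ℕ) : (cz c i j).l1 ≤ 512 := by
  have h1 := byt_le c (8 * i + 64 * j)
  have h2 := byt_le c (8 * i + 64 * j + 256)
  have h3 := byt_le c (8 * i + 64 * j + 512)
  have h4 := byt_le c (8 * i + 64 * j + 768)
  simp only [Z8.l1, cz]
  omega

theorem modEq_of_eq {a b : ℤ} (h : a = b + Mo) : a ≡ b [ZMOD (Mo : ℤ)] := by
  rw [h]; exact Int.add_modEq_right

theorem ent_rep (c i j : ℕ) : Rep (ent c (8 * i + 64 * j)) (toC (cz c i j)) 512 := by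
  refine ⟨cz c i j, modEq_of_eq ?_, rfl, cz_l1 c i j⟩
  have e : ent c (8 * i + 64 * j) = ((c >>> (8 * i + 64 * j)) &&& m4) + o4 := rfl
  rw [e, m4_eq, land_msk 256 (by norm_num), Nat.cast_add, o4_eq, Nat.cast_sum]
  simp only [Nat.cast_mul, Nat.cast_pow, Nat.cast_ofNat]
  unfold Z8.ev cz byt
  rw [p512, p768]
  generalize (2 : ℤ) ^ 256 = B
  generalize (Mo : ℤ) = M
  simp only [Finset.sum_range_succ, Finset.sum_range_zero, Nat.reduceMul, add_zero]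
  ring

theorem four_cm (c : ℕ) (i j : Fin 4) : ((4 : ℂ) • cm c) i j = toC (cz c i j) := by
  rw [Matrix.smul_apply, smul_eq_mul, cm]
  ring

theorem row_rep (c : ℕ) (i : Fin 4) : RepV (row c (8 * i)) (((4 : ℂ) • cm c) i) 512 := by
  refine ⟨fun j => cz c i j, modEq_of_eq ?_, fun j => ⟨four_cm c i j, cz_l1 c i j⟩⟩
  have e : row c (8 * i) = ((c >>> (8 * (i : ℕ))) &&& m16) + o16 := rfl
  rw [e, m16_eq, land_msk 64 (by norm_num), Nat.cast_add, o16_eq, Nat.cast_sum]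
  simp only [Nat.cast_mul, Nat.cast_pow, Nat.cast_ofNat]
  unfold Z8.ev cz byt
  rw [q128, q192, q256, q512, q768]
  generalize (2 : ℤ) ^ 64 = C
  generalize (Mo : ℤ) = M
  have v0 : ((0 : Fin 4) : ℕ) = 0 := rfl
  have v1 : ((1 : Fin 4) : ℕ) = 1 := rfl
  have v2 : ((2 : Fin 4) : ℕ) = 2 := rfl
  have v3 : ((3 : Fin 4) : ℕ) = 3 := rfl
  simp only [Finset.sum_range_succ, Finset.sum_range_zero, Nat.reduceMul, add_zero, v0, v1, v2, v3,
    Nat.add_assoc, Nat.reduceAdd]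
  ring

theorem rows_rep (c : ℕ) : RepM (H91.rows c) ((4 : ℂ) • cm c) 512 := by
  have h0 := row_rep c 0
  have h1 := row_rep c 1
  have h2 := row_rep c 2
  have h3 := row_rep c 3
  rw [show 8 * ((0 : Fin 4) : ℕ) = 0 from rfl] at h0
  rw [show 8 * ((1 : Fin 4) : ℕ) = 8 from rfl] at h1
  rw [show 8 * ((2 : Fin 4) : ℕ) = 16 from rfl] at h2
  rw [show 8 * ((3 : Fin 4) : ℕ) = 24 from rfl] at h3
  unfold RepM H91.rows
  dsimp only
  exact ⟨h0, h1, h2, h3⟩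

theorem drow_rep (c : ℕ) (X : R4) (g : M4) (b : ℕ) (i : Fin 4) (h : RepM X g b) :
    RepV (H91.drow c (8 * i) (8 * i + 64) (8 * i + 128) (8 * i + 192) X)
      ((((4 : ℂ) • cm c) * g) i) (2048 * b) := by
  obtain ⟨h0, h1, h2, h3⟩ := h
  have k := ((((ent_rep c i 0).mul_RepV h0).add ((ent_rep c i 1).mul_RepV h1)).add
    (((ent_rep c i 2).mul_RepV h2).add ((ent_rep c i 3).mul_RepV h3))).mod
  have e1 : toC (cz c i 0) • g 0 + toC (cz c i 1) • g 1 +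
      (toC (cz c i 2) • g 2 + toC (cz c i 3) • g 3) = (((4 : ℂ) • cm c) * g) i := by
    funext j
    rw [Matrix.mul_apply, Fin.sum_univ_four, four_cm, four_cm, four_cm, four_cm]
    simp only [Pi.add_apply, Pi.smul_apply, smul_eq_mul]
    exact (add_assoc _ _ _).symm
  rw [e1] at k
  exact k.mono (le_of_eq (by ring))

theorem unit_rep (i : Fin 4) : RepV (2 ^ (64 * (i : ℕ))) ((1 : M4) i) 1 := by
  refine ⟨fun j => if i = j then ⟨1, 0, 0, 0⟩ else ⟨0, 0, 0, 0⟩, ?_, fun j => ?_⟩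
  · revert i
    decide +kernel
  · rw [Matrix.one_apply]
    by_cases h : i = j
    · simp [h, toC, Z8.l1]
    · simp [h, toC, Z8.l1]

theorem digs (C : ℕ) (f : ℕ → ℕ) (hf : ∀ m, f m < C) (N : ℕ) :
    ∑ m ∈ range N, f m * C ^ m < C ^ N ∧
      ∀ k < N, (∑ m ∈ range N, f m * C ^ m) / C ^ k % C = f k := by
  have hC : 0 < C := lt_of_le_of_lt (Nat.zero_le _) (hf 0)
  induction N with
  | zero => simp
  | succ N ih =>
    obtain ⟨h1, h2⟩ := ih
    rw [Finset.sum_range_succ]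
    refine ⟨?_, fun k hk => ?_⟩
    · have : (f N + 1) * C ^ N ≤ C * C ^ N := Nat.mul_le_mul_right _ (hf N)
      rw [pow_succ']
      linarith
    · rcases Nat.lt_succ_iff_lt_or_eq.mp hk with h | h
      · obtain ⟨d, rfl⟩ := Nat.exists_eq_add_of_lt h
        have e : f (k + d + 1) * C ^ (k + d + 1) = (f (k + d + 1) * C ^ d * C) * C ^ k := by ring
        rw [e, Nat.add_mul_div_right _ _ (pow_pos hC k), Nat.add_mul_mod_self_right, h2 k h]
      · subst h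
        rw [Nat.add_mul_div_right _ _ (pow_pos hC k), Nat.div_eq_of_lt h1, zero_add,
          Nat.mod_eq_of_lt (hf k)]

/-- The sixteen coefficients of a row. -/
def cf (x : Fin 4 → Z8) (m : ℕ) : ℤ :=
  if m / 4 = 0 then (x ⟨m % 4, Nat.mod_lt _ (by norm_num)⟩).a
  else if m / 4 = 1 then (x ⟨m % 4, Nat.mod_lt _ (by norm_num)⟩).b
  else if m / 4 = 2 then (x ⟨m % 4, Nat.mod_lt _ (by norm_num)⟩).c
  else (x ⟨m % 4, Nat.mod_lt _ (by norm_num)⟩).d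

theorem cf_le (x : Fin 4 → Z8) (b : ℕ) (h : ∀ j, (x j).l1 ≤ b) (m : ℕ) : (cf x m).natAbs ≤ b := by
  have := h ⟨m % 4, Nat.mod_lt _ (by norm_num)⟩
  unfold Z8.l1 at this
  unfold cf
  split_ifs <;> omega

theorem cf_sum (x : Fin 4 → Z8) :
    (x 0).ev + (x 1).ev * 2 ^ 64 + (x 2).ev * 2 ^ 128 + (x 3).ev * 2 ^ 192 =
      ∑ m ∈ range 16, cf x m * ((2 : ℤ) ^ 64) ^ m := by
  unfold Z8.ev
  rw [q128, q192, q256, q512, q768]
  generalize (2 : ℤ) ^ 64 = C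
  simp only [Finset.sum_range_succ, Finset.sum_range_zero]
  change _ = 0 + (x 0).a * C ^ 0 + (x 1).a * C ^ 1 + (x 2).a * C ^ 2 + (x 3).a * C ^ 3 +
    (x 0).b * C ^ 4 + (x 1).b * C ^ 5 + (x 2).b * C ^ 6 + (x 3).b * C ^ 7 +
    (x 0).c * C ^ 8 + (x 1).c * C ^ 9 + (x 2).c * C ^ 10 + (x 3).c * C ^ 11 +
    (x 0).d * C ^ 12 + (x 1).d * C ^ 13 + (x 2).d * C ^ 14 + (x 3).d * C ^ 15
  ring

theorem dig_cf (n b : ℕ) (x : Fin 4 → Z8) (hb : b < 2 ^ 63) (h : ∀ j, (x j).l1 ≤ b)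
    (hn : (n : ℤ) ≡ (x 0).ev + (x 1).ev * 2 ^ 64 + (x 2).ev * 2 ^ 128 + (x 3).ev * 2 ^ 192
      [ZMOD (Mo : ℤ)]) (k : ℕ) (hk : k < 16) :
    (dig ((n + h16) % Mo) (64 * k) : ℤ) = cf x k + 2 ^ 63 := by
  have hf : ∀ m, (((cf x m + 2 ^ 63).toNat : ℕ) : ℤ) = cf x m + 2 ^ 63 := fun m =>
    Int.toNat_of_nonneg (by have := cf_le x b h m; omega)
  have hf' : ∀ m, (cf x m + 2 ^ 63).toNat < 2 ^ 64 := fun m => by
    have := cf_le x b h m
    omega
  obtain ⟨d1, d2⟩ := digs (2 ^ 64) _ hf' 16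
  set N := ∑ m ∈ range 16, (cf x m + 2 ^ 63).toNat * (2 ^ 64) ^ m with hN
  have e : (N : ℤ) = (∑ m ∈ range 16, cf x m * ((2 : ℤ) ^ 64) ^ m) + h16 := by
    rw [hN, h16_eq, Finset.mul_sum, ← Finset.sum_add_distrib, Nat.cast_sum]
    refine Finset.sum_congr rfl fun m _ => ?_
    rw [Nat.cast_mul, hf, Nat.cast_pow, Nat.cast_pow, Nat.cast_ofNat, add_mul]
  have e2 : (n + h16) % Mo = N := by
    rw [← Nat.mod_eq_of_lt (d1.trans Mo_gt)]
    refine Int.natCast_modEq_iff.mp ?_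
    rw [e, Nat.cast_add, ← cf_sum]
    exact hn.add_right _
  have e3 : dig N (64 * k) = N / (2 ^ 64) ^ k % 2 ^ 64 := by
    rw [← pow_mul, ← Nat.shiftRight_eq_div_pow]
    rfl
  rw [e2, e3, d2 k hk, hf]

theorem dec_rep (n : ℕ) (y : V4) (b : ℕ) (h : RepV n y b) (hb : b < 2 ^ 63) :
    y 0 = toC (H91.dec n) := by
  obtain ⟨x, h1, h2⟩ := h
  have k := dig_cf n b x hb (fun j => (h2 j).2) h1
  have k0 : (dig ((n + h16) % Mo) 0 : ℤ) = (x 0).a + 2 ^ 63 := k 0 (by norm_num)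
  have k1 : (dig ((n + h16) % Mo) 256 : ℤ) = (x 0).b + 2 ^ 63 := k 4 (by norm_num)
  have k2 : (dig ((n + h16) % Mo) 512 : ℤ) = (x 0).c + 2 ^ 63 := k 8 (by norm_num)
  have k3 : (dig ((n + h16) % Mo) 768 : ℤ) = (x 0).d + 2 ^ 63 := k 12 (by norm_num)
  have e : H91.dec n = dec1 ((n + h16) % Mo) := by
    unfold H91.dec
    rw [mod_eq, Nat.add_eq]
  have eh : (hh : ℤ) = 2 ^ 63 := by decide +kernel
  rw [(h2 0).1, e, dec1]
  simp only [Int.subNatNat_eq_coe]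
  rw [k0, k1, k2, k3, eh]
  simp only [add_sub_cancel_right]

theorem uniq (n n' : ℕ) (y y' : V4) (b b' : ℕ) (h : RepV n y b) (h' : RepV n' y' b')
    (hn : n % Mo = n' % Mo) (hb : b + b' < 2 ^ 63) : y = y' := by
  obtain ⟨x, h1, h2⟩ := h
  obtain ⟨x', k1, k2⟩ := h'
  have hb1 : b < 2 ^ 63 := by omega
  have hb2 : b' < 2 ^ 63 := by omega
  have hnn : (n : ℤ) ≡ n' [ZMOD (Mo : ℤ)] := Int.natCast_modEq_iff.mpr hn
  have e : ∀ k < 16, cf x k = cf x' k := by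
    intro k hk
    have a1 := dig_cf n b x hb1 (fun j => (h2 j).2) h1 k hk
    have a2 := dig_cf n b' x' hb2 (fun j => (k2 j).2) (hnn.trans k1) k hk
    exact add_right_cancel (a1.symm.trans a2)
  have z : ∀ u v : Z8, u.a = v.a → u.b = v.b → u.c = v.c → u.d = v.d → toC u = toC v := by
    intro u v a1 a2 a3 a4
    rw [toC, toC, a1, a2, a3, a4]
  funext j
  rw [(h2 j).1, (k2 j).1]
  fin_cases j
  · exact z _ _ (e 0 (by norm_num)) (e 4 (by norm_num)) (e 8 (by norm_num)) (e 12 (by norm_num))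
  · exact z _ _ (e 1 (by norm_num)) (e 5 (by norm_num)) (e 9 (by norm_num)) (e 13 (by norm_num))
  · exact z _ _ (e 2 (by norm_num)) (e 6 (by norm_num)) (e 10 (by norm_num)) (e 14 (by norm_num))
  · exact z _ _ (e 3 (by norm_num)) (e 7 (by norm_num)) (e 11 (by norm_num)) (e 15 (by norm_num))

theorem eq1_rep (x y : ℕ) (u v : V4) (b b' e k : ℕ) (h : eq1 x y (e + 256 * k) = true)
    (hx : RepV x u b) (hy : RepV y v b') (hb : b + 2 ^ e * b' < 2 ^ 63) :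
    u = ((2 : ℂ) ^ e * zeta ^ k) • v := by
  unfold eq1 at h
  rw [mod_eq, mod_eq, Nat.shiftLeft_eq'] at h
  exact uniq _ _ _ _ _ _ hx (hy.shift e k) (Nat.eq_of_beq_eq_true h) hb

end KA

theorem rowKA : KA where
  rows := KA.rows_rep
  drow := KA.drow_rep
  dmul := fun c X g b h =>
    ⟨KA.drow_rep c X g b 0 h, KA.drow_rep c X g b 1 h, KA.drow_rep c X g b 2 h,
      KA.drow_rep c X g b 3 h⟩
  idR := ⟨KA.unit_rep 0, KA.unit_rep 1, KA.unit_rep 2, KA.unit_rep 3⟩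
  id16 := by
    have h : ∀ i : Fin 4, RepV (16 * 2 ^ (64 * (i : ℕ))) (((16 : ℂ) • (1 : M4)) i) 16 := fun i => by
      have := (Rep.nat 16).mul_RepV (KA.unit_rep i)
      rw [Nat.cast_ofNat] at this
      exact this
    have e : id16 = ⟨16 * 2 ^ (64 * ((0 : Fin 4) : ℕ)), 16 * 2 ^ (64 * ((1 : Fin 4) : ℕ)),
        16 * 2 ^ (64 * ((2 : Fin 4) : ℕ)), 16 * 2 ^ (64 * ((3 : Fin 4) : ℕ))⟩ := by
      unfold id16
      congr 1
    rw [e]
    exact ⟨h 0, h 1, h 2, h 3⟩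
  mono := fun _ _ _ _ h hb => ⟨h.1.mono hb, h.2.1.mono hb, h.2.2.1.mono hb, h.2.2.2.mono hb⟩
  eqs := by
    intro X Y g h b b' e k he hX hY hb
    simp only [H91.eqs, Bool.and_eq_true] at he
    obtain ⟨⟨a0, a1⟩, a2, a3⟩ := he
    funext i
    fin_cases i
    · exact KA.eq1_rep _ _ _ _ _ _ _ _ a0 hX.1 hY.1 hb
    · exact KA.eq1_rep _ _ _ _ _ _ _ _ a1 hX.2.1 hY.2.1 hb
    · exact KA.eq1_rep _ _ _ _ _ _ _ _ a2 hX.2.2.1 hY.2.2.1 hb
    · exact KA.eq1_rep _ _ _ _ _ _ _ _ a3 hX.2.2.2 hY.2.2.2 hb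
  dec := KA.dec_rep

end Pool.Agent.MP_d97ab6_al.H91
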