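import Pool.Agent.MP_d97ab6_al.H91.Sem

/-! Scalar lemmas of the packed arithmetic. -/

namespace Pool.Agent.MP_d97ab6_al.H91

open Matrix Complex

namespace KA

theorem zeta_sq : zeta ^ 2 = I := by
  have h : (√2 : ℝ) * √2 = 2 := Real.mul_self_sqrt (by norm_num)
  apply Complex.ext
  · simp [zeta, pow_two]
  · simp only [zeta, pow_two, mul_im, Complex.I_im]
    linarith

theorem zeta_four : zeta ^ 4 = -1 := by
  have : zeta ^ 4 = (zeta ^ 2) ^ 2 := by ring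
  rw [this, zeta_sq, I_sq]

def zmul (x y : Z8) : Z8 :=
  ⟨x.a * y.a - x.b * y.d - x.c * y.c - x.d * y.b, x.a * y.b + x.b * y.a - x.c * y.d - x.d * y.c,
    x.a * y.c + x.b * y.b + x.c * y.a - x.d * y.d, x.a * y.d + x.b * y.c + x.c * y.b + x.d * y.a⟩

def zadd (x y : Z8) : Z8 := ⟨x.a + y.a, x.b + y.b, x.c + y.c, x.d + y.d⟩

theorem p512 : (2 : ℤ) ^ 512 = (2 ^ 256) ^ 2 := by decide +kernel
theorem p768 : (2 : ℤ) ^ 768 = (2 ^ 256) ^ 3 := by decide +kernel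
theorem Mo_eq : (Mo : ℤ) = (2 ^ 256) ^ 4 + 1 := by decide +kernel

theorem ev_mul (x y : Z8) : x.ev * y.ev ≡ (zmul x y).ev [ZMOD (Mo : ℤ)] := by
  rw [Int.modEq_iff_dvd, Mo_eq]
  unfold Z8.ev zmul
  rw [p512, p768]
  generalize (2 : ℤ) ^ 256 = B
  exact ⟨-((x.b * y.d + x.c * y.c + x.d * y.b) + (x.c * y.d + x.d * y.c) * B + x.d * y.d * B ^ 2),
    by ring⟩

theorem ev_add (x y : Z8) : (zadd x y).ev = x.ev + y.ev := by
  unfold Z8.ev zadd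
  generalize (2 : ℤ) ^ 256 = B
  generalize (2 : ℤ) ^ 512 = B2
  generalize (2 : ℤ) ^ 768 = B3
  ring

theorem toC_mul (x y : Z8) : toC (zmul x y) = toC x * toC y := by
  unfold toC zmul
  push_cast
  linear_combination (-((x.b * y.d + x.c * y.c + x.d * y.b) + (x.c * y.d + x.d * y.c) * zeta +
    x.d * y.d * zeta ^ 2) : ℂ) * zeta_four

theorem toC_add (x y : Z8) : toC (zadd x y) = toC x + toC y := by
  unfold toC zadd
  push_cast
  ring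

theorem l1_mul (x y : Z8) : (zmul x y).l1 ≤ x.l1 * y.l1 := by
  have h1 : ∀ p q r s : ℤ, (p - q - r - s).natAbs ≤ p.natAbs + q.natAbs + r.natAbs + s.natAbs := by
    intro p q r s; omega
  have h2 : ∀ p q r s : ℤ, (p + q - r - s).natAbs ≤ p.natAbs + q.natAbs + r.natAbs + s.natAbs := by
    intro p q r s; omega
  have h3 : ∀ p q r s : ℤ, (p + q + r - s).natAbs ≤ p.natAbs + q.natAbs + r.natAbs + s.natAbs := by
    intro p q r s; omega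
  have h4 : ∀ p q r s : ℤ, (p + q + r + s).natAbs ≤ p.natAbs + q.natAbs + r.natAbs + s.natAbs := by
    intro p q r s; omega
  refine (add_le_add (add_le_add (add_le_add (h1 _ _ _ _) (h2 _ _ _ _)) (h3 _ _ _ _))
    (h4 _ _ _ _)).trans (le_of_eq ?_)
  simp only [Int.natAbs_mul, Z8.l1]
  ring

theorem l1_add (x y : Z8) : (zadd x y).l1 ≤ x.l1 + y.l1 := by
  simp only [Z8.l1, zadd]
  omega

end KA

/-- `n` packs the number `z`, whose coefficient sum is at most `b`. -/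
def Rep (n : ℕ) (z : ℂ) (b : ℕ) : Prop :=
  ∃ x : Z8, (n : ℤ) ≡ x.ev [ZMOD (Mo : ℤ)] ∧ z = toC x ∧ x.l1 ≤ b

theorem Rep.mono {n : ℕ} {z : ℂ} {b b' : ℕ} (h : Rep n z b) (hb : b ≤ b') : Rep n z b' := by
  obtain ⟨x, h1, h2, h3⟩ := h
  exact ⟨x, h1, h2, h3.trans hb⟩

theorem Rep.congr {n n' : ℕ} {z : ℂ} {b : ℕ} (h : Rep n z b)
    (hn : (n' : ℤ) ≡ n [ZMOD (Mo : ℤ)]) : Rep n' z b := by
  obtain ⟨x, h1, h2, h3⟩ := h
  exact ⟨x, hn.trans h1, h2, h3⟩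

theorem Rep.nat (n : ℕ) : Rep n n n := by
  refine ⟨⟨n, 0, 0, 0⟩, ?_, ?_, ?_⟩
  · simp only [Z8.ev, zero_mul, add_zero, Int.ModEq.refl]
  · simp [toC]
  · simp [Z8.l1]

theorem Rep.zeta : Rep (2 ^ 256) zeta 1 := by
  refine ⟨⟨0, 1, 0, 0⟩, ?_, ?_, ?_⟩
  · simp only [Z8.ev, zero_mul, add_zero, zero_add, one_mul, Nat.cast_pow, Nat.cast_ofNat,
      Int.ModEq.refl]
  · simp [toC]
  · simp [Z8.l1]

theorem Rep.mul {m n : ℕ} {z w : ℂ} {a b : ℕ} (h : Rep m z a) (h' : Rep n w b) :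
    Rep (m * n) (z * w) (a * b) := by
  obtain ⟨x, h1, h2, h3⟩ := h
  obtain ⟨y, k1, k2, k3⟩ := h'
  refine ⟨KA.zmul x y, ?_, by rw [KA.toC_mul, h2, k2], (KA.l1_mul x y).trans (Nat.mul_le_mul h3 k3)⟩
  rw [Nat.cast_mul]
  exact (h1.mul k1).trans (KA.ev_mul x y)

theorem Rep.add {m n : ℕ} {z w : ℂ} {a b : ℕ} (h : Rep m z a) (h' : Rep n w b) :
    Rep (m + n) (z + w) (a + b) := by
  obtain ⟨x, h1, h2, h3⟩ := h
  obtain ⟨y, k1, k2, k3⟩ := h'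
  refine ⟨KA.zadd x y, ?_, by rw [KA.toC_add, h2, k2], (KA.l1_add x y).trans (add_le_add h3 k3)⟩
  rw [Nat.cast_add, KA.ev_add]
  exact h1.add k1

theorem Rep.pow {m : ℕ} {z : ℂ} {a : ℕ} (h : Rep m z a) (k : ℕ) : Rep (m ^ k) (z ^ k) (a ^ k) := by
  induction k with
  | zero => simpa using Rep.nat 1
  | succ k ih => rw [pow_succ, pow_succ, pow_succ]; exact ih.mul h

theorem Rep.two_pow (e k : ℕ) : Rep (2 ^ (e + 256 * k)) (2 ^ e * H91.zeta ^ k) (2 ^ e) := by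
  have h := (Rep.nat (2 ^ e)).mul (Rep.zeta.pow k)
  rw [one_pow, mul_one, ← pow_mul, ← pow_add, Nat.cast_pow, Nat.cast_ofNat] at h
  exact h

theorem RepV.mono {n : ℕ} {y : V4} {b b' : ℕ} (h : RepV n y b) (hb : b ≤ b') : RepV n y b' := by
  obtain ⟨x, h1, h2⟩ := h
  exact ⟨x, h1, fun j => ⟨(h2 j).1, (h2 j).2.trans hb⟩⟩

theorem RepV.congr {n n' : ℕ} {y : V4} {b : ℕ} (h : RepV n y b)
    (hn : (n' : ℤ) ≡ n [ZMOD (Mo : ℤ)]) : RepV n' y b := by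
  obtain ⟨x, h1, h2⟩ := h
  exact ⟨x, hn.trans h1, h2⟩

theorem RepV.mod {n : ℕ} {y : V4} {b : ℕ} (h : RepV n y b) : RepV (n % Mo) y b :=
  h.congr (by rw [Int.natCast_mod]; exact Int.mod_modEq _ _)

theorem Rep.mul_RepV {m n : ℕ} {z : ℂ} {y : V4} {a b : ℕ} (h : Rep m z a) (h' : RepV n y b) :
    RepV (m * n) (z • y) (a * b) := by
  obtain ⟨x, h1, h2, h3⟩ := h
  obtain ⟨v, k1, k2⟩ := h'
  refine ⟨fun j => KA.zmul x (v j), ?_, fun j => ⟨?_, ?_⟩⟩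
  · rw [Nat.cast_mul]
    refine (h1.mul k1).trans ?_
    have e : ∀ p q0 q1 q2 q3 c1 c2 c3 : ℤ, p * (q0 + q1 * c1 + q2 * c2 + q3 * c3) =
        p * q0 + p * q1 * c1 + p * q2 * c2 + p * q3 * c3 := by intros; ring
    rw [e]
    exact (((KA.ev_mul _ _).add ((KA.ev_mul _ _).mul_right _)).add
      ((KA.ev_mul _ _).mul_right _)).add ((KA.ev_mul _ _).mul_right _)
  · rw [KA.toC_mul, ← h2, ← (k2 j).1, Pi.smul_apply, smul_eq_mul]
  · exact (KA.l1_mul _ _).trans (Nat.mul_le_mul h3 (k2 j).2)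

theorem RepV.add {m n : ℕ} {y w : V4} {a b : ℕ} (h : RepV m y a) (h' : RepV n w b) :
    RepV (m + n) (y + w) (a + b) := by
  obtain ⟨x, h1, h2⟩ := h
  obtain ⟨v, k1, k2⟩ := h'
  refine ⟨fun j => KA.zadd (x j) (v j), ?_, fun j => ⟨?_, ?_⟩⟩
  · rw [Nat.cast_add]
    refine (h1.add k1).trans ?_
    have e : ∀ p0 p1 p2 p3 q0 q1 q2 q3 c1 c2 c3 : ℤ,
        p0 + p1 * c1 + p2 * c2 + p3 * c3 + (q0 + q1 * c1 + q2 * c2 + q3 * c3) =
        p0 + q0 + (p1 + q1) * c1 + (p2 + q2) * c2 + (p3 + q3) * c3 := by intros; ring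
    rw [e, KA.ev_add, KA.ev_add, KA.ev_add, KA.ev_add]
  · rw [KA.toC_add, ← (h2 j).1, ← (k2 j).1, Pi.add_apply]
  · exact (KA.l1_add _ _).trans (add_le_add (h2 j).2 (k2 j).2)

theorem RepV.shift {n : ℕ} {y : V4} {b : ℕ} (h : RepV n y b) (e k : ℕ) :
    RepV (n <<< (e + 256 * k)) (((2 : ℂ) ^ e * zeta ^ k) • y) (2 ^ e * b) := by
  rw [Nat.shiftLeft_eq, mul_comm n]
  exact (Rep.two_pow e k).mul_RepV h

theorem Rep.shift {n : ℕ} {z : ℂ} {b : ℕ} (h : Rep n z b) (e k : ℕ) :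
    Rep (n <<< (e + 256 * k)) (2 ^ e * H91.zeta ^ k * z) (2 ^ e * b) := by
  rw [Nat.shiftLeft_eq, mul_comm n]
  exact (Rep.two_pow e k).mul h

end Pool.Agent.MP_d97ab6_al.H91
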