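import Pool.Agent.MP_d97ab6_al.H91.KC

/-! Packed arithmetic, second part. -/

namespace Pool.Agent.MP_d97ab6_al.H91

open Matrix Complex
open scoped ComplexConjugate

namespace KB91

theorem cA_eq : (cA : ℤ) = Mo - 32 - 32 * 2 ^ 512 := by decide +kernel
theorem cB_eq : (cB : ℤ) = Mo + 32 - 32 * 2 ^ 512 := by decide +kernel
theorem cW_eq : (cW : ℤ) = Mo - 136 * 2 ^ 512 := by decide +kernel
theorem cV_eq : (cV : ℤ) = Mo - 2 + 4 * 2 ^ 512 - 2 * 2 ^ 768 := by decide +kernel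
theorem p513 : ((2 ^ 513 : ℕ) : ℤ) = 2 * 2 ^ 512 := by decide +kernel
theorem p514 : ((2 ^ 514 : ℕ) : ℤ) = 4 * 2 ^ 512 := by decide +kernel
theorem p1025 : ((2 ^ 1025 : ℕ) : ℤ) = 2 * Mo - 2 := by decide +kernel
theorem p1026 : ((2 ^ 1026 : ℕ) : ℤ) = 4 * Mo - 4 := by decide +kernel

theorem me {a b k : ℤ} (h : a = b + k * Mo) : a ≡ b [ZMOD (Mo : ℤ)] := by
  rw [h]; exact Int.modEq_iff_dvd.2 ⟨-k, by ring⟩

theorem ad_cast (a b : ℕ) : ((ad a b : ℕ) : ℤ) * (ad a b : ℕ) = ((a : ℤ) - b) ^ 2 := by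
  have : ad a b = (a - b) + (b - a) := rfl
  rcases le_total a b with h | h
  · rw [this, Nat.sub_eq_zero_of_le h, zero_add, Nat.cast_sub h]; ring
  · rw [this, Nat.sub_eq_zero_of_le h, add_zero, Nat.cast_sub h]; ring

theorem lam_rep {L0 L1 q : ℕ} (h0 : L0 ≤ q + 8) (h1 : L1 ≤ q + 8) (hq : 8 ≤ q) :
    Rep (lam L0 L1) (4 * ((((L0 : ℤ) - 8 : ℤ) : ℂ) + (((L1 : ℤ) - 8 : ℤ) : ℂ) * I)) (8 * q) := by
  refine ⟨⟨4 * (L0 - 8), 0, 4 * (L1 - 8), 0⟩, me (k := 1) ?_, ?_, ?_⟩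
  · have : lam L0 L1 = 4 * L0 + L1 <<< 514 + cA := rfl
    rw [this, Nat.shiftLeft_eq, Nat.cast_add, Nat.cast_add, Nat.cast_mul, Nat.cast_mul, p514, cA_eq, Z8.ev]
    generalize (2 : ℤ) ^ 256 = a, (2 : ℤ) ^ 512 = b, (2 : ℤ) ^ 768 = c, (Mo : ℤ) = m
    push_cast; ring
  · rw [toC, KA.zeta_sq]; push_cast; ring
  · simp only [Z8.l1]; omega

theorem mlam_rep {L0 L1 q : ℕ} (h0 : L0 ≤ q + 8) (h1 : L1 ≤ q + 8) (hq : 8 ≤ q) :
    Rep (mlam L0 L1) (-4 * ((((L0 : ℤ) - 8 : ℤ) : ℂ) - (((L1 : ℤ) - 8 : ℤ) : ℂ) * I)) (8 * q) := by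
  refine ⟨⟨-4 * (L0 - 8), 0, 4 * (L1 - 8), 0⟩, me (k := 4 * L0 + 1) ?_, ?_, ?_⟩
  · have : mlam L0 L1 = L0 <<< 1026 + L1 <<< 514 + cB := rfl
    rw [this, Nat.shiftLeft_eq, Nat.shiftLeft_eq, Nat.cast_add, Nat.cast_add, Nat.cast_mul, Nat.cast_mul,
      p514, p1026, cB_eq, Z8.ev]
    generalize (2 : ℤ) ^ 256 = a, (2 : ℤ) ^ 512 = b, (2 : ℤ) ^ 768 = c, (Mo : ℤ) = m
    ring
  · rw [toC, KA.zeta_sq]; push_cast; ring
  · simp only [Z8.l1]; omega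

theorem sq8_le {L q : ℕ} (h : L ≤ q + 8) (hq : 8 ≤ q) : sq8 L ≤ q ^ 2 := by
  have h1 : ad L 8 ≤ q := by
    have : ad L 8 = (L - 8) + (8 - L) := rfl
    omega
  rw [sq]
  exact Nat.mul_le_mul h1 h1

theorem sq8_cast (L : ℕ) : ((sq8 L : ℕ) : ℤ) = ((L : ℤ) - 8) ^ 2 := by
  have : sq8 L = ad L 8 * ad L 8 := rfl
  rw [this, Nat.cast_mul, ad_cast]; rfl

theorem wq_rep {L0 L1 L2 L3 T q : ℕ} (h0 : L0 ≤ q + 8) (h1 : L1 ≤ q + 8) (h2 : L2 ≤ q + 8)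
    (h3 : L3 ≤ q + 8) (hq : 8 ≤ q) (hT : T ≤ 127) :
    Rep (wq L0 L1 L2 L3 T) (2 * (-((((L0 : ℤ) - 8 : ℤ) : ℂ) ^ 2 + (((L1 : ℤ) - 8 : ℤ) : ℂ) ^ 2 +
      (((L2 : ℤ) - 8 : ℤ) : ℂ) ^ 2 + (((L3 : ℤ) - 8 : ℤ) : ℂ) ^ 2) + (((T : ℤ) - 68 : ℤ) : ℂ) * I))
      (8 * q ^ 2 + 136) := by
  refine ⟨⟨-2 * ((sq8 L0 + sq8 L1 + (sq8 L2 + sq8 L3) : ℕ) : ℤ), 0, 2 * (T - 68), 0⟩,
    me (k := 2 * ((sq8 L0 + sq8 L1 + (sq8 L2 + sq8 L3) : ℕ) : ℤ) + 1) ?_, ?_, ?_⟩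
  · have : wq L0 L1 L2 L3 T = (sq8 L0 + sq8 L1 + (sq8 L2 + sq8 L3)) <<< 1025 + T <<< 513 + cW := rfl
    rw [this]
    generalize sq8 L0 + sq8 L1 + (sq8 L2 + sq8 L3) = s
    rw [Nat.shiftLeft_eq, Nat.shiftLeft_eq, Nat.cast_add, Nat.cast_add, Nat.cast_mul, Nat.cast_mul,
      p513, p1025, cW_eq, Z8.ev]
    generalize (2 : ℤ) ^ 256 = a, (2 : ℤ) ^ 512 = b, (2 : ℤ) ^ 768 = c, (Mo : ℤ) = m
    ring
  · rw [toC, KA.zeta_sq, Nat.cast_add, Nat.cast_add, Nat.cast_add, sq8_cast, sq8_cast, sq8_cast, sq8_cast]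
    push_cast; ring
  · have a0 := sq8_le h0 hq
    have a1 := sq8_le h1 hq
    have a2 := sq8_le h2 hq
    have a3 := sq8_le h3 hq
    simp only [Z8.l1]
    omega

theorem cV_rep : Rep cV (4 * conj (vec true 0)) 8 := by
  refine ⟨⟨-2, 0, 4, -2⟩, me (k := 1) ?_, ?_, by decide⟩
  · rw [cV_eq, Z8.ev]
    generalize (2 : ℤ) ^ 256 = a, (2 : ℤ) ^ 512 = b, (2 : ℤ) ^ 768 = c, (Mo : ℤ) = m
    ring
  · apply Complex.ext
    · rw [KC.re_toC]; simp [vec, pt]; ring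
    · rw [KC.im_toC]; simp [vec, pt]; ring

theorem rv {n : ℕ} {y y' : V4} {b b' : ℕ} (h : RepV n y b) (e : y' = y) (hb : b ≤ b') : RepV n y' b' :=
  e ▸ h.mono hb

theorem shI {n : ℕ} {y : V4} {b : ℕ} (h : RepV n y b) (a : ℕ) :
    RepV (Nat.shiftLeft n (Nat.mul 512 a)) (I ^ a • y) b := by
  have := h.shift 0 (2 * a)
  rw [pow_zero, one_mul, pow_mul, KA.zeta_sq, pow_zero, one_mul, zero_add, ← mul_assoc] at this
  exact this

theorem pmulP_rep (sw : Bool) (a b' L0 L1 L2 L3 T q : ℕ) (X : R4) (g : M4) (b : ℕ) (h0 : L0 ≤ q + 8)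
    (h1 : L1 ≤ q + 8) (h2 : L2 ≤ q + 8) (h3 : L3 ≤ q + 8) (hq : 8 ≤ q) (hT : T ≤ 127)
    (hX : RepM X g b) : RepM (pmulP sw a b' L0 L1 L2 L3 T X)
      (((4 : ℂ) • pm 0 sw a b' ((L0 : ℤ) - 8) ((L1 : ℤ) - 8) ((L2 : ℤ) - 8) ((L3 : ℤ) - 8) ((T : ℤ) - 68)) * g)
      ((8 * q ^ 2 + 16 * q + 200) * b) := by
  obtain ⟨x0, x1, x2, x3⟩ := hX
  have y1 : RepV (cond sw X.r2 X.r1) (cond sw (g 2) (g 1)) b := by cases sw <;> assumption
  have y2 : RepV (cond sw X.r1 X.r2) (cond sw (g 1) (g 2)) b := by cases sw <;> assumption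
  have y1 := shI y1 a
  have y2 := shI y2 b'
  have f := Rep.nat 4
  have r0 := (((f.mul_RepV x0).add ((mlam_rep h0 h1 hq).mul_RepV y1)).add
    (((mlam_rep h2 h3 hq).mul_RepV y2).add ((wq_rep h0 h1 h2 h3 hq hT).mul_RepV x3))).mod
  have r1 := ((f.mul_RepV y1).add ((lam_rep h0 h1 hq).mul_RepV x3)).mod
  have r2 := ((f.mul_RepV y2).add ((lam_rep h2 h3 hq).mul_RepV x3)).mod
  have r3 := f.mul_RepV x3
  generalize (L0 : ℤ) - 8 = l0, (L1 : ℤ) - 8 = l1, (L2 : ℤ) - 8 = l2, (L3 : ℤ) - 8 = l3,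
    (T : ℤ) - 68 = t at r0 r1 r2 ⊢
  refine ⟨rv r0 ?_ (by nlinarith), rv r1 ?_ (by nlinarith), rv r2 ?_ (by nlinarith),
    rv r3 ?_ (by nlinarith)⟩ <;> funext j <;> cases sw <;>
    simp [pm, Matrix.mul_apply, Fin.sum_univ_four] <;> ring

theorem sq4 (L : ℕ) : ∃ k : ℤ, ((L : ℤ) - 8) ^ 2 = (L % 2 : ℕ) + 4 * k := by
  obtain ⟨m, rfl | rfl⟩ := Nat.even_or_odd' L
  · exact ⟨(m - 4) ^ 2, by rw [Nat.mul_mod_right]; push_cast; ring⟩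
  · exact ⟨(m - 4) ^ 2 + (m - 4), by rw [Nat.mul_add_mod]; push_cast; ring⟩

theorem valid (L0 L1 L2 L3 m : ℕ) : PValid (swOf (par2 L0 L1) (par2 L2 L3)) ((L0 : ℤ) - 8) ((L1 : ℤ) - 8)
    ((L2 : ℤ) - 8) ((L3 : ℤ) - 8) (((4 * m + f4 (par2 L0 L1) (par2 L2 L3) : ℕ) : ℤ) - 68) := by
  have e1 : par2 L0 L1 = L0 % 2 + L1 % 2 := rfl
  have e2 : par2 L2 L3 = L2 % 2 + L3 % 2 := rfl
  constructor
  · have : swOf (par2 L0 L1) (par2 L2 L3) = Nat.beq ((par2 L0 L1 + par2 L2 L3) % 2) 1 := rfl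
    rw [this]
    cases h : Nat.beq ((par2 L0 L1 + par2 L2 L3) % 2) 1
    · have := Nat.ne_of_beq_eq_false h
      simp only [Bool.false_eq_true, if_false]; omega
    · have := Nat.eq_of_beq_eq_true h
      simp only [if_true]; omega
  · obtain ⟨k0, a0⟩ := sq4 L0
    obtain ⟨k1, a1⟩ := sq4 L1
    obtain ⟨k2, a2⟩ := sq4 L2
    obtain ⟨k3, a3⟩ := sq4 L3
    have b1 : ((L0 : ℤ) - 8) ^ 2 + ((L1 : ℤ) - 8) ^ 2 = (par2 L0 L1 : ℕ) + 4 * (k0 + k1) := by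
      rw [a0, a1, e1, Nat.cast_add]; ring
    have b2 : ((L2 : ℤ) - 8) ^ 2 + ((L3 : ℤ) - 8) ^ 2 = (par2 L2 L3 : ℕ) + 4 * (k2 + k3) := by
      rw [a2, a3, e2, Nat.cast_add]; ring
    rw [b1, b2]
    generalize par2 L0 L1 = n1, par2 L2 L3 = n2, k0 + k1 = u, k2 + k3 = v
    have c : f4 n1 n2 + 4 * ((n1 + 3 * n2 + 2 * (n1 * n2)) / 4) = n1 + 3 * n2 + 2 * (n1 * n2) :=
      Nat.mod_add_div _ 4
    generalize (n1 + 3 * n2 + 2 * (n1 * n2)) / 4 = w at c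
    have c' : ((f4 n1 n2 : ℕ) : ℤ) = n1 + 3 * n2 + 2 * (n1 * n2) - 4 * w := by
      have := congrArg (Nat.cast : ℕ → ℤ) c
      push_cast at this
      linarith
    refine Int.emod_eq_zero_of_dvd ⟨m - w - 17 + n2 - u + v - 2 * n1 * v - 2 * u * n2 - 8 * u * v, ?_⟩
    rw [Nat.cast_add, c']
    push_cast; ring

theorem sqh_cast (A : ℕ) : ((sqh A : ℕ) : ℝ) = ((A : ℝ) - 9223372036854775808) ^ 2 := by
  have h : ((sqh A : ℕ) : ℤ) = ((A : ℤ) - (hh : ℕ)) ^ 2 := by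
    rw [← ad_cast, ← Nat.cast_mul]; rfl
  have := congrArg (Int.cast : ℤ → ℝ) h
  simpa [hh] using this

theorem far3 {bd s P N : ℕ} (h : bd + 14143 * (N - P) ≤ 10000 * s + 14142 * (P - N)) :
    (bd : ℝ) ≤ 10000 * (s + √2 * ((P : ℝ) - N)) := by
  have s1 : (14142 : ℝ) ≤ 10000 * √2 := by nlinarith [KC.s2, Real.sqrt_nonneg 2]
  have s2 : 10000 * √2 ≤ (14143 : ℝ) := by nlinarith [KC.s2, Real.sqrt_nonneg 2]
  rcases le_total P N with hPN | hPN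
  · rw [Nat.sub_eq_zero_of_le hPN] at h
    have h' : (bd : ℝ) + 14143 * ((N : ℝ) - P) ≤ 10000 * s := by
      have : ((bd + 14143 * (N - P) : ℕ) : ℝ) ≤ ((10000 * s + 14142 * 0 : ℕ) : ℝ) := Nat.cast_le.2 h
      push_cast [Nat.cast_sub hPN] at this
      linarith
    have : (0 : ℝ) ≤ (N : ℝ) - P := sub_nonneg.2 (Nat.cast_le.2 hPN)
    nlinarith
  · rw [Nat.sub_eq_zero_of_le hPN] at h
    have h' : (bd : ℝ) ≤ 10000 * s + 14142 * ((P : ℝ) - N) := by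
      have : ((bd + 14143 * 0 : ℕ) : ℝ) ≤ ((10000 * s + 14142 * (P - N) : ℕ) : ℝ) := Nat.cast_le.2 h
      push_cast [Nat.cast_sub hPN] at this
      linarith
    have : (0 : ℝ) ≤ (P : ℝ) - N := sub_nonneg.2 (Nat.cast_le.2 hPN)
    nlinarith

theorem far2_sound {A B C E bd : ℕ} (h : far2 A B C E bd = true) :
    (bd : ℝ) ≤ 10000 * normSq (toC ⟨Int.subNatNat A hh, Int.subNatNat B hh, Int.subNatNat C hh,
      Int.subNatNat E hh⟩) := by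
  have h := Nat.le_of_ble_eq_true h
  simp only [Nat.add_eq, Nat.mul_eq, Nat.sub_eq] at h
  have e : normSq (toC ⟨Int.subNatNat A hh, Int.subNatNat B hh, Int.subNatNat C hh, Int.subNatNat E hh⟩) =
      ((sqh A + sqh B + (sqh C + sqh E) : ℕ) : ℝ) +
        √2 * (((A * B + B * C + (C * E + 170141183460469231731687303715884105728) : ℕ) : ℝ) -
          ((E * A + 18446744073709551616 * (B + C) : ℕ) : ℝ)) := by
    rw [normSq_apply, KC.re_toC, KC.im_toC]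
    simp only [Int.subNatNat_eq_coe, hh]
    push_cast
    simp only [sqh_cast]
    linear_combination (((B : ℝ) - 9223372036854775808) ^ 2 + ((E : ℝ) - 9223372036854775808) ^ 2) / 2 * KC.s2
  rw [e]
  exact far3 h

end KB91

open KB91 in
theorem rowKB91 : KA → KB := fun ka =>
  { pmulP := pmulP_rep
    pmulC := fun c => by
      refine ⟨_, Nat.mod c 4, fld c 2 4, _, _, _, _, _,
        valid (fld c 4 16) (fld c 8 16) (fld c 12 16) (fld c 16 16) (fld c 20 32), fun X g b hX => ?_⟩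
      have l : ∀ s, fld c s 16 ≤ 8 + 8 := fun s => (Nat.mod_lt _ (by norm_num)).le
      have l2 : fld c 20 32 < 32 := Nat.mod_lt _ (by norm_num)
      have l3 : f4 (par2 (fld c 4 16) (fld c 8 16)) (par2 (fld c 12 16) (fld c 16 16)) < 4 :=
        Nat.mod_lt _ (by norm_num)
      rw [pmulC, pmulC2, Nat.add_eq, Nat.mul_eq]
      exact ka.mono _ _ _ _ (pmulP_rep _ _ _ _ _ _ _ _ 8 X g b (l 4) (l 8) (l 12) (l 16) le_rfl
        (by omega) hX) (by omega)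
    far := fun x y b bd h hb hf => by
      rw [ka.dec x y b h hb, dec, dec1]
      rw [far, far1] at hf
      exact far2_sound hf
    hval := fun i u1 Z g b hZ => by
      have d0 : RepV (drow u1 0 64 128 192 Z) _ _ := ka.drow u1 Z g b 0 hZ
      have d3 : RepV (drow u1 24 88 152 216 Z) _ _ := ka.drow u1 Z g b 3 hZ
      rw [hval]
      generalize drow u1 0 64 128 192 Z = w0 at d0 ⊢
      generalize drow u1 24 88 152 216 Z = w3 at d3 ⊢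
      cases i
      · rw [cond_false, Nat.mul_eq]
        refine ⟨_, ((Rep.nat 4).mul_RepV d3).mono (by omega), ?_⟩
        simp [herm, vec, col0]; ring
      · rw [cond_true, Nat.add_eq, Nat.mul_eq, Nat.mul_eq]
        refine ⟨_, ((cV_rep.mul_RepV d3).add ((Rep.nat 4).mul_RepV d0)).mono (by omega), ?_⟩
        have h : (⟨0, 0⟩ : ℂ) = 0 := rfl
        have v1 : vec true 1 = 0 := h
        have v2 : vec true 2 = 0 := h
        have v3 : vec true 3 = 1 := rfl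
        simp [herm, col0, v1, v2, v3]; ring }

end Pool.Agent.MP_d97ab6_al.H91
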