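import Pool.Agent.MP_d97ab6_al.H91.KA0

/-! Soundness of the unitarity test and of the approximate coordinates. -/

namespace Pool.Agent.MP_d97ab6_al.H91

open Matrix Complex
open scoped ComplexConjugate

namespace KC

theorem s2 : (√2 : ℝ) * √2 = 2 := Real.mul_self_sqrt (by norm_num)

theorem nn_sound {p q : ℤ} (h : nn p q = true) : (0 : ℝ) ≤ p + q * √2 := by
  have h0 : (0 : ℝ) ≤ √2 := Real.sqrt_nonneg 2
  unfold nn at h
  by_cases hp : 0 ≤ p
  · simp only [hp, decide_true, cond_true, Bool.or_eq_true, decide_eq_true_eq] at h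
    have hp' : (0 : ℝ) ≤ p := by exact_mod_cast hp
    rcases h with h | h
    · have : (0 : ℝ) ≤ q := by exact_mod_cast h
      positivity
    · have h' : (2 : ℝ) * (q * q) ≤ p * p := by exact_mod_cast h
      have := abs_le_of_sq_le_sq' (a := (q : ℝ) * √2) (b := p) (by nlinarith [s2]) hp'
      linarith [this.1]
  · simp only [hp, decide_false, cond_false, Bool.and_eq_true, decide_eq_true_eq] at h
    have hq : (0 : ℝ) ≤ q := by exact_mod_cast h.1
    have h' : (p : ℝ) * p ≤ 2 * (q * q) := by exact_mod_cast h.2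
    have := abs_le_of_sq_le_sq' (a := (p : ℝ)) (b := q * √2) (by nlinarith [s2]) (by positivity)
    linarith [this.1]

theorem zeta_cube : zeta ^ 3 = ⟨-(√2 / 2), √2 / 2⟩ := by
  rw [pow_succ, KA.zeta_sq]
  apply Complex.ext <;> simp [zeta]

theorem re_toC (x : Z8) : (toC x).re = x.a + (x.b - x.d) * √2 / 2 := by
  rw [toC, KA.zeta_sq, zeta_cube]
  simp [zeta]
  ring

theorem im_toC (x : Z8) : (toC x).im = x.c + (x.b + x.d) * √2 / 2 := by
  rw [toC, KA.zeta_sq, zeta_cube]
  simp [zeta]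
  ring

theorem toC_mulc (x y : Z8) : toC (mulc x y) = toC x * conj (toC y) := by
  apply Complex.ext
  · simp only [mul_re, conj_re, conj_im, re_toC, im_toC, mulc]
    push_cast
    linear_combination (-((x.b : ℝ) * y.b + x.d * y.d) / 2) * s2
  · simp only [mul_im, conj_re, conj_im, re_toC, im_toC, mulc]
    push_cast
    linear_combination (-((x.d : ℝ) * y.b - x.b * y.d) / 2) * s2

theorem nsq (x : Z8) : (2 * (mulc x x).a : ℝ) + ((mulc x x).b - (mulc x x).d) * √2 =
    2 * normSq (toC x) := by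
  have := congrArg Complex.re (toC_mulc x x)
  rw [mul_conj, ofReal_re, re_toC] at this
  linarith

theorem cls_sound {X p1 p2 n1 n2 : ℤ} {n x : ℝ} (h : cls X p1 p2 n1 n2 = true) (hn : 0 < n)
    (e1 : (n1 : ℝ) + n2 * √2 = n) (e2 : (p1 : ℝ) + p2 * √2 = x * n) :
    |(X : ℝ) - x * 268435456| ≤ 1 := by
  rw [cls, Bool.and_eq_true] at h
  have h1 := nn_sound h.1
  have h2 := nn_sound h.2
  push_cast at h1 h2
  have k1 : 0 ≤ ((X : ℝ) + 1 - x * 268435456) * n := by
    linear_combination h1 + ((X : ℝ) + 1) * e1 - 268435456 * e2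
  have k2 : 0 ≤ (x * 268435456 - (X : ℝ) + 1) * n := by
    linear_combination h2 - ((X : ℝ) - 1) * e1 + 268435456 * e2
  have := nonneg_of_mul_nonneg_left k1 hn
  have := nonneg_of_mul_nonneg_left k2 hn
  rw [abs_le]
  constructor <;> linarith

theorem close_of {a : ℕ} {p1 p2 n1 n2 : ℤ} {n x : ℝ}
    (h : cls (Int.subNatNat a 1073741824) p1 p2 n1 n2 = true) (hn : 0 < n)
    (e1 : (n1 : ℝ) + n2 * √2 = n) (e2 : (p1 : ℝ) + p2 * √2 = x * n) : Close a x := by
  have := cls_sound h hn e1 e2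
  rwa [Int.subNatNat_eq_coe, Int.cast_sub, Int.cast_natCast, Int.cast_natCast,
    Nat.cast_ofNat] at this

theorem rng_sound {a : ℕ} (h : rng a = true) : Rng a := by
  simpa [rng, Rng] using h

theorem re_div (v w : Z8) (h : toC w ≠ 0) :
    ((2 * (mulc v w).a : ℤ) : ℝ) + (((mulc v w).b - (mulc v w).d : ℤ) : ℝ) * √2 =
      (toC v / toC w).re * (2 * normSq (toC w)) := by
  have h1 := congrArg Complex.re (toC_mulc v w)
  have h2 : normSq (toC w) ≠ 0 := by simpa using h
  rw [re_toC, mul_re, conj_re, conj_im] at h1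
  rw [div_re]
  push_cast
  field_simp
  linarith

theorem im_div (v w : Z8) (h : toC w ≠ 0) :
    ((2 * (mulc v w).c : ℤ) : ℝ) + (((mulc v w).b + (mulc v w).d : ℤ) : ℝ) * √2 =
      (toC v / toC w).im * (2 * normSq (toC w)) := by
  have h1 := congrArg Complex.im (toC_mulc v w)
  have h2 : normSq (toC w) ≠ 0 := by simpa using h
  rw [im_toC, mul_im, conj_re, conj_im] at h1
  rw [div_im]
  push_cast
  field_simp
  linarith

theorem co1_sound {v0 v1 v2 v3 : Z8} {a0 a1 a2 a3 t u : ℕ}
    (h : co1 v0 v1 v2 v3 a0 a1 a2 a3 t u = true) (h3 : toC v3 ≠ 0) :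
    Co a0 a1 a2 a3 t u (toC v1 / toC v3).re (toC v1 / toC v3).im (toC v2 / toC v3).re
      (toC v2 / toC v3).im (toC v0 / toC v3).im
      (-2 * (toC v0 / toC v3).re - normSq (toC v1 / toC v3) - normSq (toC v2 / toC v3)) := by
  simp only [co1, co2, Bool.and_eq_true] at h
  obtain ⟨⟨⟨c0, c1⟩, c2, c3⟩, ⟨c4, c5⟩, ⟨r0, r1⟩, r2, r3⟩ := h
  have h2 : 0 < normSq (toC v3) := normSq_pos.2 h3
  have hn : 0 < 2 * normSq (toC v3) := by positivity
  have e1 : ((2 * (mulc v3 v3).a : ℤ) : ℝ) + (((mulc v3 v3).b - (mulc v3 v3).d : ℤ) : ℝ) * √2 =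
      2 * normSq (toC v3) := by
    push_cast
    exact nsq v3
  refine ⟨close_of c0 hn e1 (re_div _ _ h3), close_of c1 hn e1 (im_div _ _ h3),
    close_of c2 hn e1 (re_div _ _ h3), close_of c3 hn e1 (im_div _ _ h3),
    close_of c4 hn e1 (im_div _ _ h3), ?_, rng_sound r0, rng_sound r1, rng_sound r2, rng_sound r3⟩
  refine (cls_sound c5 hn e1 ?_ :)
  have k0 := re_div v0 v3 h3
  have k1 := nsq v1
  have k2 := nsq v2
  have d1 : normSq (toC v1 / toC v3) * normSq (toC v3) = normSq (toC v1) := by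
    rw [map_div₀, div_mul_cancel₀ _ h2.ne']
  have d2 : normSq (toC v2 / toC v3) * normSq (toC v3) = normSq (toC v2) := by
    rw [map_div₀, div_mul_cancel₀ _ h2.ne']
  push_cast at k0 ⊢
  linear_combination -2 * k0 - k1 - k2 + 2 * d1 + 2 * d2

theorem adj_sound {g gi i j i' j' : ℕ} (h : adj1 g gi (8 * i + 64 * j) (8 * i' + 64 * j') = true) :
    toC (cz gi i j) = conj (toC (cz g i' j')) := by
  simp only [adj1, Bool.and_eq_true, Nat.beq_eq, Nat.add_eq] at h
  obtain ⟨⟨h0, h1⟩, h2, h3⟩ := h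
  have k : ∀ {x y : ℕ}, x + y = 256 → ((x : ℤ) - 128 : ℤ) = -((y : ℤ) - 128) := fun e => by omega
  apply Complex.ext
  · rw [conj_re, re_toC, re_toC]
    simp only [cz, byt, h0, k h1, k h3]
    push_cast
    ring
  · rw [conj_im, im_toC, im_toC]
    simp only [cz, byt, k h1, k h2, k h3]
    push_cast
    ring

/-- The permutation given by the form. -/
def sg : Fin 4 → Fin 4 := ![3, 1, 2, 0]

theorem J_entry (A : M4) (i j : Fin 4) : (J * Aᴴ * J) i j = conj (A (sg j) (sg i)) := by
  fin_cases i <;> fin_cases j <;>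
    simp [J, sg, Matrix.mul_apply, Fin.sum_univ_four, vecMul, dotProduct]

theorem sg_val (i : Fin 4) : (sg i : ℕ) = sig i := by
  fin_cases i <;> rfl

theorem adj_all {g gi : ℕ} (h : loop 4 (fun i => loop 4 (fun j acc =>
    cond (adj1 g gi (Nat.add (Nat.mul 8 i) (Nat.mul 64 j))
      (Nat.add (Nat.mul 8 (sig j)) (Nat.mul 64 (sig i)))) acc 0)) 1 ≠ 0) :
    cm gi = J * (cm g)ᴴ * J := by
  ext i j
  obtain ⟨a, -, h1⟩ := (loop_ne_zero h).2 i i.2
  obtain ⟨b, -, h2⟩ := (loop_ne_zero h1).2 j j.2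
  have h3 : adj1 g gi (8 * i + 64 * j) (8 * sig j + 64 * sig i) = true := by
    by_contra hn
    rw [Bool.not_eq_true] at hn
    exact h2 ((congrArg (cond · b 0) hn).trans rfl)
  rw [J_entry, cm, cm, adj_sound h3, sg_val, sg_val, map_div₀, map_ofNat]

end KC

theorem rowKC : KA → KC := fun A =>
  { uOK := fun g gi h => by
      rw [uOK, Bool.and_eq_true] at h
      have e := KC.adj_all (g := g) (gi := gi) (by rw [Nat.eq_of_beq_eq_true h.1]; exact one_ne_zero)
      have e2 := A.eqs _ _ _ _ _ _ 4 0 h.2 (A.dmul gi _ _ _ (A.rows g)) A.idR (by norm_num)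
      have e3 : cm gi * cm g = 1 := by
        rw [Matrix.smul_mul, Matrix.mul_smul, smul_smul] at e2
        exact smul_right_injective _ (show (4 * 4 : ℂ) ≠ 0 by norm_num)
          (e2.trans (by norm_num))
      refine ⟨?_, e⟩
      rw [e] at e3
      calc (cm g)ᴴ * J * cm g = J * (J * (cm g)ᴴ * J * cm g) := by
            simp only [← Matrix.mul_assoc, J_mul_J, Matrix.one_mul]
        _ = J := by rw [e3, Matrix.mul_one]
    coOK := fun V g b a0 a1 a2 a3 t u h hV hb h3 => by
      have d0 := A.dec _ _ _ hV.1 hb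
      have d1 := A.dec _ _ _ hV.2.1 hb
      have d2 := A.dec _ _ _ hV.2.2.1 hb
      have d3 := A.dec _ _ _ hV.2.2.2 hb
      have := KC.co1_sound h (d3 ▸ h3)
      rw [← d0, ← d1, ← d2, ← d3] at this
      refine ⟨_, _, _, _, _, _, ?_, this⟩
      have k : ∀ z : ℂ, z = g 3 0 * (z / g 3 0) := fun z => (mul_div_cancel₀ z h3).symm
      funext i
      fin_cases i
      · refine (k _).trans (congrArg (g 3 0 * ·) (Complex.ext ?_ rfl))
        simp only [pt, normSq_apply, col0, Fin.zero_eta, Matrix.cons_val_zero]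
        ring
      · exact k _
      · exact k _
      · exact (mul_one _).symm
    nge := fun x y b p q hx hb h => by
      have := KC.nn_sound h
      rw [A.dec _ _ _ hx hb]
      simp only [Int.ofNat_eq_natCast] at this
      push_cast at this
      linear_combination this / 2 + p / 2 * KC.nsq (dec x)
    nle := fun x y b p q hx hb h => by
      have := KC.nn_sound h
      rw [A.dec _ _ _ hx hb]
      simp only [Int.ofNat_eq_natCast] at this
      push_cast at this
      linear_combination this / 2 - p / 2 * KC.nsq (dec x) }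

end Pool.Agent.MP_d97ab6_al.H91
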