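import Pool.Agent.MP_d97ab6_al.H91.Spec

/-! The monodromy lemma for a system of charts on a convex open set. -/

namespace Pool.Agent.MP_d97ab6_al.H91

open Set Filter Topology

namespace Mono

variable {E C : Type} {U : C → Set E} {A : C → C → Prop} {c0 : C} {f : ℝ → E}

/-- Continuation of the chart `c0` along the path `f`. -/
inductive Reach (U : C → Set E) (A : C → C → Prop) (c0 : C) (f : ℝ → E) : ℝ → C → Prop
  | base : Reach U A c0 f 0 c0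
  | step {t t' : ℝ} {c c' : C} : Reach U A c0 f t c → t ≤ t' → A c c' →
      (∀ τ ∈ Icc t t', f τ ∈ U c') → Reach U A c0 f t' c'

theorem Reach.mem (h0 : f 0 ∈ U c0) {t : ℝ} {c : C} (h : Reach U A c0 f t c) :
    f t ∈ U c ∧ 0 ≤ t := by
  induction h with
  | base => exact ⟨h0, le_rfl⟩
  | step _ h1 _ h2 ih => exact ⟨h2 _ ⟨h1, le_rfl⟩, ih.2.trans h1⟩

theorem Reach.chained (h0 : f 0 ∈ U c0) {t : ℝ} {c : C} (h : Reach U A c0 f t c) :
    Chained U A c0 c := by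
  induction h with
  | base => exact Relation.ReflTransGen.refl
  | step h h1 h2 h3 ih =>
    exact Relation.ReflTransGen.tail ih ⟨h2, _, (h.mem h0).1, h3 _ ⟨le_rfl, h1⟩⟩

/-- The continuation up to time `t` exists and is unique. -/
def Ok (U : C → Set E) (A : C → C → Prop) (c0 : C) (f : ℝ → E) (t : ℝ) : Prop :=
  (∃ c, Reach U A c0 f t c) ∧ ∀ c c', Reach U A c0 f t c → Reach U A c0 f t c' → A c c'

section

variable (hr : ∀ c, A c c) (hs : ∀ c c', A c c' → A c' c)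
  (ht : ∀ c c' c'' x, x ∈ U c → x ∈ U c' → x ∈ U c'' → A c c' → A c' c'' → A c c'')
  (h0 : f 0 ∈ U c0)

include hr hs ht h0 in
theorem ok_zero : Ok U A c0 f 0 := by
  have key : ∀ t c, Reach U A c0 f t c → t = 0 → A c c0 := fun t c h => by
    induction h with
    | base => exact fun _ => hr _
    | step h h1 h2 h3 ih =>
      rintro rfl
      obtain rfl := le_antisymm h1 (h.mem h0).2
      exact ht _ _ _ _ (h3 _ ⟨le_rfl, le_rfl⟩) (h.mem h0).1 h0 (hs _ _ h2) (ih rfl)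
  exact ⟨⟨c0, Reach.base⟩, fun c c' h h' =>
    ht _ _ _ _ (h.mem h0).1 h0 (h'.mem h0).1 (key _ _ h rfl) (hs _ _ (key _ _ h' rfl))⟩

include hs ht h0 in
theorem Ok.ext {N : Set E} (hN : ∀ c, ∀ y ∈ N, y ∈ U c → ∃ c', A c c' ∧ N ⊆ U c') {a b : ℝ}
    (hab : a ≤ b) (hf : ∀ τ ∈ Icc a b, f τ ∈ N) (h : Ok U A c0 f a) : Ok U A c0 f b := by
  obtain ⟨⟨d, hd⟩, hQ⟩ := h
  have ha := hf a ⟨le_rfl, hab⟩
  obtain ⟨e, h1, h2⟩ := hN d _ ha (hd.mem h0).1
  have h3 : ∀ c, Reach U A c0 f a c → A c e := fun c h =>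
    ht _ _ _ _ (h.mem h0).1 (hd.mem h0).1 (h2 ha) (hQ _ _ h hd) h1
  have key : ∀ t c, Reach U A c0 f t c → t ∈ Icc a b → A c e := fun t c h => by
    induction h with
    | base =>
      intro h
      obtain rfl := le_antisymm h.1 (hd.mem h0).2
      exact h3 _ Reach.base
    | @step t t' c c' h h4 h5 h6 ih =>
      intro h7
      rcases le_total a t with h8 | h8
      · have h9 : t ∈ Icc a b := ⟨h8, h4.trans h7.2⟩
        exact ht _ _ _ _ (h6 _ ⟨le_rfl, h4⟩) (h.mem h0).1 (h2 (hf _ h9)) (hs _ _ h5) (ih h9)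
      · exact h3 _ (h.step h8 h5 fun τ hτ => h6 τ ⟨hτ.1, hτ.2.trans h7.1⟩)
  have hb : b ∈ Icc a b := ⟨hab, le_rfl⟩
  exact ⟨⟨e, hd.step hab h1 fun τ hτ => h2 (hf τ hτ)⟩, fun c c' h h' =>
    ht _ _ _ _ (h.mem h0).1 (h2 (hf b hb)) (h'.mem h0).1 (key _ _ h hb) (hs _ _ (key _ _ h' hb))⟩

include hr hs ht h0 in
theorem ok_one [TopologicalSpace E] (hf : Continuous f)
    (hN : ∀ t ∈ Icc (0 : ℝ) 1, ∃ N ∈ 𝓝 (f t), ∀ c, ∀ y ∈ N, y ∈ U c → ∃ c', A c c' ∧ N ⊆ U c') :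
    Ok U A c0 f 1 := by
  have key := isPreconnected_Icc.induction₂' (s := Icc (0 : ℝ) 1)
    (fun a b => (∀ τ ∈ Icc 0 a, Ok U A c0 f τ) → ∀ τ ∈ Icc 0 b, Ok U A c0 f τ)
    (fun m hm => by
      obtain ⟨N, h1, h2⟩ := hN m hm
      obtain ⟨δ, h3, h4⟩ := Metric.mem_nhds_iff.1 (hf.continuousAt.preimage_mem_nhds h1)
      have h5 : ∀ a ∈ Metric.ball m δ, ∀ b ∈ Metric.ball m δ, 0 ≤ a →
          (∀ τ ∈ Icc 0 a, Ok U A c0 f τ) → ∀ τ ∈ Icc 0 b, Ok U A c0 f τ := by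
        intro a ha b hb h6 h7 τ hτ
        rcases le_total τ a with h8 | h8
        · exact h7 τ ⟨hτ.1, h8⟩
        · exact (h7 a ⟨h6, le_rfl⟩).ext hs ht h0 h2 h8 fun σ hσ =>
            h4 ((convex_ball m δ).ordConnected.out ha hb ⟨hσ.1, hσ.2.trans hτ.2⟩)
      filter_upwards [mem_nhdsWithin_of_mem_nhds (Metric.ball_mem_nhds m h3),
        self_mem_nhdsWithin] with y hy hy'
      exact ⟨h5 m (Metric.mem_ball_self h3) y hy hm.1, h5 y hy m (Metric.mem_ball_self h3) hy'.1⟩)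
    (fun _ _ _ _ _ _ h h' h'' => h' (h h'')) (x := 0) (y := 1) ⟨le_rfl, zero_le_one⟩
    ⟨zero_le_one, le_rfl⟩
  exact key (fun τ hτ => le_antisymm hτ.1 hτ.2 ▸ ok_zero hr hs ht h0) 1 ⟨zero_le_one, le_rfl⟩

end

theorem Reach.near [TopologicalSpace E] (hU : ∀ c, IsOpen (U c)) {F : E → ℝ → E}
    (hF : Continuous fun z : E × ℝ => F z.1 z.2) {x : E} {t : ℝ} {c : C}
    (h : Reach U A c0 (F x) t c) : ∀ᶠ y in 𝓝 x, Reach U A c0 (F y) t c := by
  induction h with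
  | base => exact Eventually.of_forall fun _ => Reach.base
  | step _ h1 h2 h3 ih =>
    filter_upwards [ih, isCompact_Icc.eventually_forall_of_forall_eventually
      (P := fun y τ => F y τ ∈ U _) fun τ hτ =>
        hF.continuousAt.preimage_mem_nhds ((hU _).mem_nhds (h3 τ hτ))] with y h4 h5
    exact h4.step h1 h2 h5

end Mono

open Mono in
theorem rowMono : SMono := by
  intro E _ _ Ω C U A c0 hc _ hU hs hp ⟨x₀, hx₀⟩ hr hsy ht hN
  let F : E → ℝ → E := fun y τ => x₀ + τ • (y - x₀)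
  have F0 : ∀ y, F y 0 ∈ U c0 := fun y => by simpa [F] using hx₀
  have F1 : ∀ y, F y 1 = y := fun y => by simp [F]
  have hF : Continuous fun z : E × ℝ => F z.1 z.2 := by fun_prop
  have ok : ∀ x ∈ Ω, Ok U A c0 (F x) 1 := fun x hx =>
    ok_one hr hsy ht (F0 x) (by fun_prop) fun t h => hN _ (hc.add_smul_sub_mem (hs _ hx₀) hx h)
  have mem : ∀ {x c}, Reach U A c0 (F x) 1 c → x ∈ U c := fun {x c} h => F1 x ▸ (h.mem (F0 x)).1
  have iff : ∀ {x c d}, x ∈ U c → Reach U A c0 (F x) 1 d →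
      ((∃ d', Reach U A c0 (F x) 1 d' ∧ A d' c) ↔ A d c) := fun {x c d} hx h =>
    ⟨fun ⟨d', h1, h2⟩ => ht _ _ _ x (mem h) (mem h1) hx ((ok x (hs _ hx)).2 _ _ h h1) h2,
      fun h1 => ⟨d, h, h1⟩⟩
  have all : ∀ c, ∀ x ∈ U c, ∀ y ∈ U c, (∃ d, Reach U A c0 (F x) 1 d ∧ A d c) →
      ∃ d, Reach U A c0 (F y) 1 d ∧ A d c := fun c x hx y hy =>
    (hp c).induction₂' (fun x y => (∃ d, Reach U A c0 (F x) 1 d ∧ A d c) →
      ∃ d, Reach U A c0 (F y) 1 d ∧ A d c) (fun x hx => by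
        obtain ⟨d, hd⟩ := (ok x (hs _ hx)).1
        filter_upwards [mem_nhdsWithin_of_mem_nhds (hd.near hU hF), self_mem_nhdsWithin]
          with y h1 h2
        rw [iff hx hd, iff h2 h1]
        exact ⟨id, id⟩) (fun _ _ _ _ _ _ h h' h'' => h' (h h'')) hx hy
  have ch : ∀ c, Chained U A c0 c → ∀ x ∈ U c, ∃ d, Reach U A c0 (F x) 1 d ∧ A d c := by
    intro c h
    induction h with
    | refl =>
      exact fun x hx => all _ x₀ hx₀ x hx
        ⟨c0, Reach.base.step zero_le_one (hr _) fun τ _ => by simpa [F] using hx₀, hr _⟩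
    | tail _ h ih =>
      obtain ⟨h1, y, h2, h3⟩ := h
      obtain ⟨d, h4, h5⟩ := ih y h2
      exact fun x hx => all _ y h3 x hx ⟨d, h4, ht _ _ _ y (mem h4) h2 h3 h5 h1⟩
  refine ⟨fun x hx => ?_, fun c c' h h' ⟨x, h1, h2⟩ => ?_⟩
  · obtain ⟨d, hd⟩ := (ok x hx).1
    exact ⟨d, hd.chained (F0 x), mem hd⟩
  · obtain ⟨d, h3, h4⟩ := ch c h x h1
    exact ht _ _ _ x h1 (mem h3) h2 (hsy _ _ h4) ((iff h2 h3).1 (ch c' h' x h2))

end Pool.Agent.MP_d97ab6_al.H91
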