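import Pool.Agent.MP_d97ab6_al.H91.Spec

/-! The adjoint trace field. -/

namespace Pool.Agent.MP_d97ab6_al.H91

open Matrix Complex
open scoped ComplexConjugate

namespace Tr

/-- The shape of the powers of the hyperbolic element. -/
noncomputable def io (a b c d : ℂ) : M4 :=
  !![a, 0, 0, -b * I; 0, 1, 0, 0; 0, 0, 1, 0; c * I, 0, 0, d]

theorem io_mul (a b c d a' b' c' d' : ℂ) : io a b c d * io a' b' c' d' =
    io (a * a' + b * c') (a * b' + b * d') (c * a' + d * c') (c * b' + d * d') := by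
  ext i j
  fin_cases i <;> fin_cases j <;> simp [io, Matrix.mul_apply, Fin.sum_univ_four]
  · linear_combination (-b * c') * I_mul_I
  · ring
  · ring
  · linear_combination (-c * b') * I_mul_I

theorem tr_io (a b c d : ℂ) : Matrix.trace (io a b c d) = a + d + 2 := by
  simp [io, Matrix.trace, Fin.sum_univ_four]; ring

/-- The square root of two as a complex number. -/
noncomputable def r : ℂ := ((√2 : ℝ) : ℂ)

theorem r_sq : r * r = 2 := by
  rw [r, ← ofReal_mul, Real.mul_self_sqrt (by norm_num)]; norm_num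

theorem pow_io (k : ℕ) : ∃ a0 a1 b0 b1 c0 c1 d0 d1 : ℕ, 0 < a1 ∧
    io (17 + 8 * r) 2 (8 + 4 * r) 1 ^ (k + 1) =
      io (a0 + a1 * r) (b0 + b1 * r) (c0 + c1 * r) (d0 + d1 * r) := by
  induction k with
  | zero => exact ⟨17, 8, 2, 0, 8, 4, 1, 0, by norm_num, by simp⟩
  | succ k ih =>
    obtain ⟨a0, a1, b0, b1, c0, c1, d0, d1, h, e⟩ := ih
    refine ⟨17 * a0 + 16 * a1 + 8 * b0 + 8 * b1, 8 * a0 + 17 * a1 + 4 * b0 + 8 * b1, 2 * a0 + b0,
      2 * a1 + b1, 17 * c0 + 16 * c1 + 8 * d0 + 8 * d1, 8 * c0 + 17 * c1 + 4 * d0 + 8 * d1,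
      2 * c0 + d0, 2 * c1 + d1, by omega, ?_⟩
    rw [pow_succ, e, io_mul]
    push_cast
    congr 1
    · linear_combination (8 * (a1 : ℂ) + 4 * b1) * r_sq
    · ring
    · linear_combination (8 * (c1 : ℂ) + 4 * d1) * r_sq
    · ring

theorem ti_mul : io 1 2 0 1 * Tm = 1 := by
  ext i j
  fin_cases i <;> fin_cases j <;> simp [io, Tm, Matrix.mul_apply, Fin.sum_univ_four]

theorem Lm_eq : Lm = io 1 0 (8 + 4 * r) 1 := by
  ext i j
  fin_cases i <;> fin_cases j <;> simp [io, Lm, r]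

theorem val_mul (a b : SU31) : (a * b).1.1 = a.1.1 * b.1.1 := rfl

theorem val_pow (a : SU31) (k : ℕ) : (a ^ k).1.1 = a.1.1 ^ k := by
  induction k with
  | zero => rw [pow_zero, pow_zero]; rfl
  | succ k ih => rw [pow_succ, pow_succ, val_mul, ih]

theorem val_inv (a : SU31) : a.1.1 * (a⁻¹).1.1 = 1 := by
  rw [← val_mul, mul_inv_cancel]; rfl

theorem val_inv' (a : SU31) : (a⁻¹).1.1 * a.1.1 = 1 := by
  rw [← val_mul, inv_mul_cancel]; rfl

theorem z4 : zeta ^ 4 = -1 := by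
  have h : √2 * √2 = 2 := Real.mul_self_sqrt (by norm_num)
  have h2 : zeta ^ 2 = I := by
    rw [sq]
    refine Complex.ext ?_ ?_
    · simp [zeta]
    · simp only [zeta, mul_im, I_im]; linarith
  calc zeta ^ 4 = (zeta ^ 2) ^ 2 := by ring
    _ = -1 := by rw [h2, I_sq]

theorem z2 : zeta ^ 2 = I := by
  have h : √2 * √2 = 2 := Real.mul_self_sqrt (by norm_num)
  rw [sq]
  refine Complex.ext ?_ ?_
  · simp [zeta]
  · simp only [zeta, mul_im, I_im]; linarith

theorem z3 : zeta ^ 3 = ⟨-(√2 / 2), √2 / 2⟩ := by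
  rw [pow_succ, z2]
  refine Complex.ext ?_ ?_ <;> simp [zeta]

theorem zc : conj zeta = -zeta ^ 3 := by
  rw [z3]
  refine Complex.ext ?_ ?_ <;> simp [zeta]

theorem K_zero : InK 0 := ⟨0, 0, 0, 0, by simp⟩

theorem K_one : InK 1 := ⟨1, 0, 0, 0, by simp⟩

theorem K_add {z w : ℂ} (hz : InK z) (hw : InK w) : InK (z + w) := by
  obtain ⟨a, b, c, d, rfl⟩ := hz
  obtain ⟨a', b', c', d', rfl⟩ := hw
  exact ⟨a + a', b + b', c + c', d + d', by push_cast; ring⟩

theorem K_mul {z w : ℂ} (hz : InK z) (hw : InK w) : InK (z * w) := by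
  obtain ⟨a, b, c, d, rfl⟩ := hz
  obtain ⟨a', b', c', d', rfl⟩ := hw
  refine ⟨a * a' - b * d' - c * c' - d * b', a * b' + b * a' - c * d' - d * c',
    a * c' + b * b' + c * a' - d * d', a * d' + b * c' + c * b' + d * a', ?_⟩
  push_cast
  linear_combination ((b * d' + c * c' + d * b') + (c * d' + d * c') * zeta
    + (d * d') * zeta ^ 2 : ℂ) * z4

theorem K_conj {z : ℂ} (hz : InK z) : InK (conj z) := by
  obtain ⟨a, b, c, d, rfl⟩ := hz
  refine ⟨a, -d, -c, -b, ?_⟩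
  simp only [map_add, map_mul, map_pow, map_ratCast, zc]
  push_cast
  linear_combination (c * zeta ^ 2 + d * (zeta - zeta ^ 5) : ℂ) * z4

theorem K_sum (f : Fin 4 → ℂ) (h : ∀ i, InK (f i)) : InK (∑ i, f i) := by
  rw [Fin.sum_univ_four]
  exact K_add (K_add (K_add (h 0) (h 1)) (h 2)) (h 3)

theorem K_mm {A B : M4} (hA : ∀ i j, InK (A i j)) (hB : ∀ i j, InK (B i j)) (i j : Fin 4) :
    InK ((A * B) i j) := by
  rw [Matrix.mul_apply]
  exact K_sum _ fun k => K_mul (hA i k) (hB k j)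

theorem K_J (i j : Fin 4) : InK (J i j) := by
  fin_cases i <;> fin_cases j <;> simp [J, K_zero, K_one]

theorem K_nsq {z : ℂ} (hz : InK z) : ∃ p q : ℚ, normSq z = p + q * √2 := by
  obtain ⟨a, b, c, d, rfl⟩ := hz
  have h : √2 * √2 = 2 := Real.mul_self_sqrt (by norm_num)
  refine ⟨a ^ 2 + b ^ 2 + c ^ 2 + d ^ 2, a * (b - d) + c * (b + d), ?_⟩
  rw [z3, z2, normSq_apply]
  simp only [zeta, add_re, add_im, mul_re, mul_im, ratCast_re, ratCast_im, I_re, I_im]
  push_cast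
  linear_combination (((b : ℝ) ^ 2 + d ^ 2) / 2) * h

end Tr

open Tr

theorem rowTr : STr := by
  rintro Γ ⟨t, ht, et⟩ ⟨l, hl, el⟩ g Δ hc
  have e1 : (t⁻¹).1.1 = io 1 2 0 1 := by
    calc (t⁻¹).1.1 = (io 1 2 0 1 * Tm) * (t⁻¹).1.1 := by rw [ti_mul, Matrix.one_mul]
      _ = io 1 2 0 1 := by rw [Matrix.mul_assoc, ← et, val_inv, Matrix.mul_one]
  have e2 : (t⁻¹ * l).1.1 = io (17 + 8 * r) 2 (8 + 4 * r) 1 := by
    rw [val_mul, e1, el, Lm_eq, io_mul]
    congr 1 <;> ring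
  have hm : g * (t⁻¹ * l) * g⁻¹ ∈ Γ.map (MulAut.conj g).toMonoidHom :=
    ⟨_, Γ.mul_mem (Γ.inv_mem ht) hl, rfl⟩
  obtain ⟨n, n0, -, hn⟩ := Subgroup.exists_pow_mem_of_relIndex_ne_zero hc.2 hm
  obtain ⟨k, rfl⟩ : ∃ k, n = k + 1 := ⟨n - 1, by omega⟩
  obtain ⟨a0, a1, b0, b1, c0, c1, d0, d1, h, e⟩ := pow_io k
  have tr : Matrix.trace ((g * (t⁻¹ * l) * g⁻¹) ^ (k + 1)).1.1 =
      ((((a0 + d0 + 2 : ℕ) : ℝ) + ((a1 + d1 : ℕ) : ℝ) * √2 : ℝ) : ℂ) := by
    rw [conj_pow, val_mul, Matrix.trace_mul_comm, val_mul, ← Matrix.mul_assoc, val_inv',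
      Matrix.one_mul, val_pow, e2, e, tr_io, r]
    push_cast
    ring
  have hx : normSq (Matrix.trace ((g * (t⁻¹ * l) * g⁻¹) ^ (k + 1)).1.1) - 1 ∈ adField Δ :=
    Subfield.subset_closure ⟨_, hn.1, rfl⟩
  rw [tr, normSq_ofReal] at hx
  generalize hA : a0 + d0 + 2 = A at hx
  generalize hB : a1 + d1 = B at hx
  have pA : (0 : ℝ) < A := by exact_mod_cast (by omega : 0 < A)
  have pB : (0 : ℝ) < B := by exact_mod_cast (by omega : 0 < B)
  have h2 : √2 * √2 = 2 := Real.mul_self_sqrt (by norm_num)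
  have : √2 = ((((A : ℝ) + B * √2) * (A + B * √2) - 1) + 1 - ((A * A + 2 * B * B : ℕ) : ℝ))
      / ((2 * A * B : ℕ) : ℝ) := by
    push_cast
    rw [eq_div_iff (by positivity)]
    linear_combination (-(B : ℝ) ^ 2) * h2
  rw [this]
  exact div_mem (sub_mem (add_mem hx (one_mem _)) (natCast_mem _ _)) (natCast_mem _ _)

theorem rowTrUp : STrUp := by
  refine ⟨⟨{ carrier := {g | ∀ i j, InK (g.1 i j)}
             one_mem' := fun i j => ?_
             mul_mem' := fun ha hb => K_mm ha hb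
             inv_mem' := fun {a} ha => K_mm (K_mm K_J fun i j => K_conj (ha j i)) K_J },
    fun _ => Iff.rfl⟩, fun G hG => ?_⟩
  · rw [U31.val_one, Matrix.one_apply]
    split_ifs
    exacts [K_one, K_zero]
  · refine Subfield.closure_le.2 ?_
    rintro x ⟨γ, ⟨c, g, hg, e⟩, rfl⟩
    have hγ : (γ.1.1)ᴴ * J * γ.1.1 = J := γ.2
    have h1 : (g.1)ᴴ * J * g.1 = J := g.2
    rw [e, conjTranspose_smul, Matrix.smul_mul, Matrix.smul_mul, Matrix.mul_smul, hγ,
      smul_smul] at h1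
    have h2 : star c * c = 1 := by simpa [J] using congrFun (congrFun h1 1) 1
    have h3 : normSq c = 1 := by
      have : ((normSq c : ℝ) : ℂ) = 1 := by rw [normSq_eq_conj_mul_self]; exact h2
      exact_mod_cast this
    obtain ⟨p, q, h4⟩ := K_nsq (K_sum _ fun i => hG g hg i i)
    have h5 : normSq (Matrix.trace γ.1.1) = p + q * √2 := by
      rw [← h4]
      change _ = normSq (Matrix.trace g.1)
      rw [e, Matrix.trace_smul, smul_eq_mul, map_mul, h3, one_mul]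
    rw [h5]
    exact sub_mem (add_mem (SubfieldClass.ratCast_mem _ _) (mul_mem (SubfieldClass.ratCast_mem _ _)
      (Subfield.subset_closure rfl))) (one_mem _)

end Pool.Agent.MP_d97ab6_al.H91
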