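import Pool.Agent.MP_d97ab6_al.H91.Sem
import Pool.Agent.MP_d97ab6_al.H91.Dat
import Pool.Agent.MP_d97ab6_al.H91.Mono
import Pool.Agent.MP_d97ab6_al.H91.Core
import Pool.Agent.MP_d97ab6_al.H91.Bridge
import Pool.Agent.MP_d97ab6_al.H91.Vol
import Pool.Agent.MP_d97ab6_al.H91.Bound
import Pool.Agent.MP_d97ab6_al.H91.Pgrp
import Pool.Agent.MP_d97ab6_al.H91.Pred
import Pool.Agent.MP_d97ab6_al.H91.Disc
import Pool.Agent.MP_d97ab6_al.H91.Tr
import Pool.Agent.MP_d97ab6_al.H91.NA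

/-! From the finite facts to the lattice. -/

namespace Pool.Agent.MP_d97ab6_al.H91

open Matrix Complex
open scoped ComplexConjugate

namespace MainA

theorem zeq {x : Z8} {a b c d : ℤ} (h : x.a = a ∧ x.b = b ∧ x.c = c ∧ x.d = d) :
    toC x = a + b * zeta + c * zeta ^ 2 + d * zeta ^ 3 := by
  obtain ⟨h1, h2, h3, h4⟩ := h
  rw [toC, h1, h2, h3, h4]

theorem ent {c : ℕ} {i j : Fin 4} (a b e d : ℤ)
    (h : (cz c i j).a = a ∧ (cz c i j).b = b ∧ (cz c i j).c = e ∧ (cz c i j).d = d) :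
    cm c i j = (a + b * zeta + e * zeta ^ 2 + d * zeta ^ 3) / 4 := by
  rw [← zeq h]; rfl

theorem hv0 : col0 (cm dat.v0) = vec false := by
  have h0 := ent (c := dat.v0) (i := 0) (j := 0) 4 0 0 0 (by decide +kernel)
  have h1 := ent (c := dat.v0) (i := 1) (j := 0) 0 0 0 0 (by decide +kernel)
  have h2 := ent (c := dat.v0) (i := 2) (j := 0) 0 0 0 0 (by decide +kernel)
  have h3 := ent (c := dat.v0) (i := 3) (j := 0) 0 0 0 0 (by decide +kernel)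
  funext i
  fin_cases i
  · simpa [col0, vec] using h0
  · simpa [col0, vec] using h1
  · simpa [col0, vec] using h2
  · simpa [col0, vec] using h3

theorem hv1 : col0 (cm dat.v1) = vec true := by
  have h0 := ent (c := dat.v1) (i := 0) (j := 0) (-2) 2 (-4) 0 (by decide +kernel)
  have h1 := ent (c := dat.v1) (i := 1) (j := 0) 0 0 0 0 (by decide +kernel)
  have h2 := ent (c := dat.v1) (i := 2) (j := 0) 0 0 0 0 (by decide +kernel)
  have h3 := ent (c := dat.v1) (i := 3) (j := 0) 4 0 0 0 (by decide +kernel)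
  funext i
  fin_cases i
  · show cm dat.v1 0 0 = ⟨-((0 : ℝ) ^ 2 + 0 ^ 2 + 0 ^ 2 + 0 ^ 2 + (1 - √2 / 2)) / 2, -1 + √2 / 4⟩
    rw [h0, Tr.z2]
    apply Complex.ext
    · simp [zeta]; ring
    · simp [zeta]; ring
  · show cm dat.v1 1 0 = ⟨0, 0⟩
    rw [h1]; apply Complex.ext <;> simp
  · show cm dat.v1 2 0 = ⟨0, 0⟩
    rw [h2]; apply Complex.ext <;> simp
  · simpa [col0, vec, pt] using h3

theorem p0 {p : U31} (hp : p ∈ P0set) :
    ∃ k : ℕ, ap p (vec false) = zeta ^ k • vec false ∧ ∀ w, ap p w 3 = zeta ^ k * w 3 := by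
  obtain ⟨k, sw, a, b, l0, l1, l2, l3, t2, -, h⟩ := hp
  refine ⟨k, ?_, fun w => ?_⟩
  · rw [ap, h]
    funext i
    cases sw <;> fin_cases i <;> simp [pm, vec, Matrix.mulVec, dotProduct, Fin.sum_univ_four]
  · rw [ap, h]
    cases sw <;> simp [pm, Matrix.mulVec, dotProduct, Fin.sum_univ_four]

theorem nz (k : ℕ) : normSq (zeta ^ k) = 1 := by rw [map_pow, Disc.normSq_zeta, one_pow]

theorem e30 (g : U31) : g.1 3 0 = ap g (vec false) 3 := by
  simp [ap, vec, Matrix.mulVec, dotProduct, Fin.sum_univ_four]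

theorem one_P0 : (1 : U31) ∈ P0set := by
  obtain ⟨P, hP⟩ := rowPgrp.2
  rw [← hP]; exact P.one_mem

theorem one_R (h : cm dat.idc = 1) : (1 : U31) ∈ RR dat false false := ⟨255, h.symm⟩

theorem near (hid : cm dat.idc = 1) (hE : ∀ n < 84, ∃ t, EntSem false (dat.e0 false n) t)
    {g : U31} (hg : g ∈ TT dat false false) : g ∈ P0set ∨ 1 ≤ normSq (g.1 3 0) := by
  obtain ⟨p, hp, r, ⟨n, hr⟩, q, hq, rfl⟩ := hg
  by_cases hn : n = 255
  · left
    subst hn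
    have : r = 1 := Subtype.ext (hr.trans hid)
    rw [this, mul_one]
    exact Pgrp.mul_mem hp hq
  · right
    have hb : Nat.beq n 255 = false := by
      cases h : Nat.beq n 255
      · rfl
      · exact absurd (Nat.eq_of_beq_eq_true h) hn
    have e1 : dat.gR false false n = (dat.e0 false (n % 84)).g := by
      show cond (Nat.beq n 255) dat.idc (dat.r00.get (n % 84)).g = (dat.r00.get (n % 84 % 84)).g
      rw [hb, Nat.mod_mod]; rfl
    obtain ⟨t, ht, -, c, x0, x1, x2, x3, t', u', h1, -, -, -, h2⟩ := hE (n % 84) (Nat.mod_lt _ (by norm_num))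
    have : r = t := Subtype.ext (by rw [hr, e1, ht])
    subst this
    obtain ⟨k, -, hk⟩ := p0 hp
    obtain ⟨k', hk', -⟩ := p0 hq
    rw [e30, ap_mul, ap_mul, hk, hk', ap_smul, h1]
    have : (zeta ^ k' • c • pt x0 x1 x2 x3 t' u') 3 = zeta ^ k' * c := by simp [pt]
    rw [this, map_mul, map_mul, nz, nz, one_mul, one_mul]
    exact h2 rfl

theorem nrm1 : nrm (pt 0 0 0 0 0 1) = 1 := by
  have := Pred.nrm_pt 1 0 0 0 0 0 1
  simpa using this

theorem in0 (k : ℕ) : In (kap false) (zeta ^ k • vec false) (pt 0 0 0 0 0 1) := by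
  have : herm (zeta ^ k • vec false) (pt 0 0 0 0 0 1) = conj (zeta ^ k) := by simp [herm, vec, pt]
  rw [In, this, normSq_conj, nz, nrm1]
  norm_num [kap]

theorem in0' : In (kap false) (vec false) (pt 0 0 0 0 0 1) := by simpa using in0 0

theorem K_int (n : ℤ) : InK n := ⟨n, 0, 0, 0, by simp⟩
theorem K_rat (n : ℚ) : InK n := ⟨n, 0, 0, 0, by simp⟩
theorem K_zeta : InK zeta := ⟨0, 1, 0, 0, by simp⟩
theorem K_I : InK I := ⟨0, 0, 1, 0, by simp [Tr.z2]⟩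
theorem K_pow {z : ℂ} (h : InK z) (k : ℕ) : InK (z ^ k) := by
  induction k with
  | zero => simpa using Tr.K_one
  | succ k ih => rw [pow_succ]; exact Tr.K_mul ih h
theorem K_neg {z : ℂ} (h : InK z) : InK (-z) := by
  have := Tr.K_mul (K_int (-1)) h
  simpa using this
theorem K_sub {z w : ℂ} (h : InK z) (h' : InK w) : InK (z - w) := by
  rw [sub_eq_add_neg]; exact Tr.K_add h (K_neg h')
theorem K_half {z : ℂ} (h : InK z) : InK (z / 2) := by
  have := Tr.K_mul h (K_rat (1 / 2))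
  simpa [div_eq_mul_inv] using this

theorem K_cm (c : ℕ) (i j : Fin 4) : InK (cm c i j) :=
  ⟨(cz c i j).a / 4, (cz c i j).b / 4, (cz c i j).c / 4, (cz c i j).d / 4, by
    simp only [cm, toC]; push_cast; ring⟩

theorem K_pm (k : ℕ) (sw : Bool) (a b : ℕ) (l0 l1 l2 l3 t2 : ℤ) (i j : Fin 4) :
    InK (pm k sw a b l0 l1 l2 l3 t2 i j) := by
  have a1 := Tr.K_mul (K_neg (K_sub (K_int l0) (Tr.K_mul (K_int l1) K_I))) (K_pow K_I a)
  have a2 := Tr.K_mul (K_neg (K_sub (K_int l2) (Tr.K_mul (K_int l3) K_I))) (K_pow K_I b)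
  have a3 := K_half (Tr.K_add (K_neg (Tr.K_add (Tr.K_add (Tr.K_add (K_pow (K_int l0) 2)
    (K_pow (K_int l1) 2)) (K_pow (K_int l2) 2)) (K_pow (K_int l3) 2))) (Tr.K_mul (K_int t2) K_I))
  have a4 := Tr.K_add (K_int l0) (Tr.K_mul (K_int l1) K_I)
  have a5 := Tr.K_add (K_int l2) (Tr.K_mul (K_int l3) K_I)
  have a6 := K_pow K_I a
  have a7 := K_pow K_I b
  have a8 := Tr.K_zero
  have a9 := Tr.K_one
  refine Tr.K_mul (K_pow K_zeta k) ?_
  cases sw <;> fin_cases i <;> fin_cases j <;> assumption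

theorem K_PP (i : Bool) {p : U31} (hp : p ∈ PP dat i) (a b : Fin 4) : InK (p.1 a b) := by
  cases i
  · obtain ⟨k, sw, a', b', l0, l1, l2, l3, t2, -, h⟩ := hp
    rw [h]; exact K_pm ..
  · obtain ⟨n, k, h⟩ := hp
    rw [h]; exact Tr.K_mul (K_pow K_zeta k) (K_cm ..)

theorem liftEl {G : Subgroup U31} {g : U31} (hg : g ∈ G) (hd : g.1.det = 1) :
    ∃ γ ∈ lift G, γ.1.1 = g.1 :=
  ⟨⟨⟨g.1, hd⟩, g.2⟩, ⟨1, g, hg, by simp⟩, rfl⟩

noncomputable def r0 : M4 :=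
  !![0, 0, 0, (1 + zeta ^ 3) / 2; 0, 0, zeta ^ 3, 0; 0, -zeta ^ 2, 0, 0;
    1 + zeta + zeta ^ 2 + zeta ^ 3, 0, 0, 0]

def r0z : Fin 4 → Fin 4 → Z8 :=
  ![![⟨0, 0, 0, 0⟩, ⟨0, 0, 0, 0⟩, ⟨0, 0, 0, 0⟩, ⟨2, 0, 0, 2⟩],
    ![⟨0, 0, 0, 0⟩, ⟨0, 0, 0, 0⟩, ⟨0, 0, 0, 4⟩, ⟨0, 0, 0, 0⟩],
    ![⟨0, 0, 0, 0⟩, ⟨0, 0, -4, 0⟩, ⟨0, 0, 0, 0⟩, ⟨0, 0, 0, 0⟩],
    ![⟨4, 4, 4, 4⟩, ⟨0, 0, 0, 0⟩, ⟨0, 0, 0, 0⟩, ⟨0, 0, 0, 0⟩]]

theorem r0_cz : ∀ i j : Fin 4, (cz (dat.gR false false 3) i j).a = (r0z i j).a ∧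
    (cz (dat.gR false false 3) i j).b = (r0z i j).b ∧ (cz (dat.gR false false 3) i j).c = (r0z i j).c ∧
      (cz (dat.gR false false 3) i j).d = (r0z i j).d := by decide +kernel

theorem r0_eq : cm (dat.gR false false 3) = r0 := by
  ext i j
  rw [ent _ _ _ _ (r0_cz i j)]
  fin_cases i <;> fin_cases j <;> simp [r0z, r0] <;> ring

theorem cval : 1 + zeta + zeta ^ 2 + zeta ^ 3 = ⟨1, 1 + √2⟩ := by
  rw [Tr.z2, Tr.z3]
  apply Complex.ext
  · simp [zeta]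
  · simp [zeta]; ring

theorem r0_conj : r0 * Tm = Lm * r0 := by
  have h2 : √2 * √2 = 2 := Real.mul_self_sqrt (by norm_num)
  have h : (1 + zeta + zeta ^ 2 + zeta ^ 3) * (2 * I) =
      ((8 + 4 * √2 : ℝ) : ℂ) * I * ((1 + zeta ^ 3) / 2) := by
    rw [cval, Tr.z3]
    apply Complex.ext
    · simp; nlinarith
    · simp; nlinarith
  ext i j
  fin_cases i <;> fin_cases j <;> simp [r0, Tm, Lm, Matrix.mul_apply, Fin.sum_univ_four]
  simpa using h

theorem in_r0 {r : U31} (hr : r.1 = r0) : In (kap false) (ap r (vec false)) (pt 0 0 0 0 0 1) := by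
  have h2 : √2 * √2 = 2 := Real.mul_self_sqrt (by norm_num)
  have : herm (ap r (vec false)) (pt 0 0 0 0 0 1) =
      conj (1 + zeta + zeta ^ 2 + zeta ^ 3) * ⟨-(1 / 2), 0⟩ := by
    rw [ap, hr]
    simp [herm, r0, vec, pt, Matrix.mulVec, dotProduct, Fin.sum_univ_four]
    left; norm_num
  rw [In, this, map_mul, normSq_conj, cval, nrm1, normSq_mk, normSq_mk]
  have := Bound.s2.2
  simp only [kap]
  nlinarith

theorem Tm_eq : pm 0 false 0 0 0 0 0 0 4 = Tm := by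
  ext i j
  fin_cases i <;> fin_cases j <;> simp [pm, Tm]
  ring

theorem det_Tm : Tm.det = 1 := by
  rw [Matrix.det_of_isUpperTriangular]
  · simp [Tm, Fin.prod_univ_four]
  · intro i j h
    fin_cases i <;> fin_cases j <;> simp_all [Tm]

end MainA

open MainA in
theorem mainA (hA : Adj (TT dat)) (hid : cm dat.idc = 1) (hR : RFacts dat)
    (hE : ∀ n < 84, ∃ t, EntSem false (dat.e0 false n) t) :
    ∃ Γ : Subgroup SU31, IsLattice Γ ∧ ¬ IsArith Γ ∧ adField Γ = Subfield.closure {√2} ∧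
      ∀ (g : SU31) (Δ : Subgroup SU31),
        Subgroup.Commensurable (Γ.map (MulAut.conj g).toMonoidHom) Δ → √2 ∈ adField Δ := by
  obtain ⟨G, hG⟩ := rowCore rowMono rowBound rowLip _ hA
  have hP : P0set ⊆ G := by
    intro p hp
    obtain ⟨k, hk, -⟩ := p0 hp
    exact hG.mem p ⟨p, hp, 1, one_R hid, 1, one_P0, by simp⟩ ⟨_, in0', hk ▸ in0 k⟩
  have hdisc := rowDisc G fun g hg y h1 h2 => near hid hE (hG.near g hg y h1 h2)
  have hcov := rowCov rowPgrp (rowPred rowPgrp) rowBred G hP hG.cover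
  have hlat : IsLattice (lift G) :=
    rowBridge (lift G) {g | Sieg (g.1.1 *ᵥ pt 0 0 0 0 0 2)} hdisc (fun μ _ => rowVol μ) hcov
  let T : U31 := ⟨pm 0 false 0 0 0 0 0 0 4, rowPgrp.1 ..⟩
  have hT : T ∈ G := hP ⟨0, false, 0, 0, 0, 0, 0, 0, 4, by simp [PValid], rfl⟩
  have hT1 : T.1 = Tm := Tm_eq
  obtain ⟨r, hr, -⟩ := hR false false 3
  have hrG : r ∈ G :=
    hG.mem r ⟨1, one_P0, r, ⟨3, hr⟩, 1, one_P0, by simp⟩ ⟨_, in0', in_r0 (hr.trans r0_eq)⟩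
  have hri : r.1 * (r⁻¹).1 = 1 := by rw [← U31.val_mul, mul_inv_cancel]; rfl
  have hL1 : (r * T * r⁻¹).1 = Lm := by
    rw [U31.val_mul, U31.val_mul, hT1]
    have : r.1 * Tm = Lm * r.1 := by rw [hr, r0_eq, r0_conj]
    rw [this, Matrix.mul_assoc, hri, Matrix.mul_one]
  have hLd : (r * T * r⁻¹).1.det = 1 := by
    rw [U31.val_mul, U31.val_mul, hT1, det_mul, det_mul, det_Tm, mul_one, ← det_mul, hri, det_one]
  have h1 : ∃ γ ∈ lift G, γ.1.1 = Tm := hT1 ▸ liftEl hT (hT1 ▸ det_Tm)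
  have h2 : ∃ γ ∈ lift G, γ.1.1 = Lm :=
    hL1 ▸ liftEl (G.mul_mem (G.mul_mem hrG hT) (G.inv_mem hrG)) hLd
  have htr := rowTr _ h1 h2
  refine ⟨lift G, hlat, rowNA _ h1 h2, le_antisymm ?_ ?_, htr⟩
  · obtain ⟨⟨Q, hQ⟩, hup⟩ := rowTrUp
    refine hup G fun g hg => (hQ g).1 (hG.le Q ?_ hg)
    rintro i j _ ⟨p, hp, r, ⟨n, hr⟩, q, hq, rfl⟩
    exact Q.mul_mem (Q.mul_mem ((hQ p).2 (K_PP i hp)) ((hQ r).2 (hr ▸ K_cm _))) ((hQ q).2 (K_PP j hq))
  · rw [Subfield.closure_le, Set.singleton_subset_iff]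
    refine htr 1 (lift G) ?_
    have : (lift G).map (MulAut.conj (1 : SU31)).toMonoidHom = lift G := by
      ext x; simp
    rw [this]

end Pool.Agent.MP_d97ab6_al.H91
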