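import Pool.Agent.MP_d97ab6_al.H91.MainA
import Pool.Agent.MP_d97ab6_al.H91.JAll

/-! From the kernel computations to the finite facts. -/

namespace Pool.Agent.MP_d97ab6_al.H91

open Matrix Complex

namespace MainB

/-- The end of the interval covered by the jobs with first entry `a`. -/
def cv (a : Nat) : List (Nat × Nat × Nat) → Nat → Nat
  | [], s => s
  | t :: l, s => cv a l (cond (Nat.beq t.1 a && Nat.ble t.2.1 s) (max s (t.2.1 + t.2.2)) s)

theorem cv_spec (a : Nat) : ∀ (l : List (Nat × Nat × Nat)) (s m : Nat), s ≤ m → m < cv a l s →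
    ∃ t ∈ l, t.1 = a ∧ t.2.1 ≤ m ∧ m < t.2.1 + t.2.2
  | [], s, m, h1, h2 => absurd h2 (Nat.not_lt.2 h1)
  | t :: l, s, m, h1, h2 => by
    rw [cv] at h2
    cases hc : (Nat.beq t.1 a && Nat.ble t.2.1 s) with
    | false =>
      rw [hc] at h2
      obtain ⟨t', ht', h⟩ := cv_spec a l s m h1 h2
      exact ⟨t', List.mem_cons_of_mem _ ht', h⟩
    | true =>
      rw [hc] at h2
      rw [Bool.and_eq_true] at hc
      have e1 := Nat.eq_of_beq_eq_true hc.1
      have e2 := Nat.le_of_ble_eq_true hc.2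
      by_cases hm : m < t.2.1 + t.2.2
      · exact ⟨t, List.mem_cons_self, e1, e2.trans h1, hm⟩
      · obtain ⟨t', ht', h⟩ := cv_spec a l _ m (max_le h1 (Nat.not_lt.1 hm)) h2
        exact ⟨t', List.mem_cons_of_mem _ ht', h⟩

theorem inf_of {i k : Bool} {l : List (Nat × Nat × Nat)} (hl : ∀ t ∈ l, JInf i k t) {n1 n2 s : Nat}
    (h1 : s ≤ n2) (h2 : n2 < cv n1 l s) :
    ∃ s, enumPair dat i k (dat.e0 i n1) (dat.e0 k n2) s ≠ 0 := by
  obtain ⟨t, ht, e1, e2, e3⟩ := cv_spec n1 l s n2 h1 h2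
  obtain ⟨s', hs⟩ := hl t ht
  obtain ⟨a, -, ha⟩ := (loop_ne_zero hs).2 (n2 - t.2.1) (by omega)
  have : Nat.add t.2.1 (n2 - t.2.1) = n2 := Nat.add_sub_cancel' e2
  rw [this, e1] at ha
  exact ⟨a, ha⟩

theorem ball_of {i k : Bool} {l : List (Nat × Nat × Nat)} (hl : ∀ t ∈ l, JBall i k t) {n2 m : Nat}
    (h2 : m < cv n2 l 0) :
    ∃ lo cnt s, lo ≤ m ∧ m < lo + cnt ∧ checkBall dat i k n2 lo cnt s ≠ 0 := by
  obtain ⟨t, ht, e1, e2, e3⟩ := cv_spec n2 l 0 m (Nat.zero_le _) h2
  obtain ⟨s', hs⟩ := hl t ht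
  exact ⟨_, _, s', e2, e3, e1 ▸ hs⟩

theorem c00 : ∀ n < 84, 84 ≤ cv n lJInf00 n := by decide +kernel
theorem c01 : ∀ n < 84, 8 ≤ cv n lJInf01 0 := by decide +kernel
theorem c11 : ∀ n < 8, 8 ≤ cv n lJInf11 n := by decide +kernel
theorem b00 : ∀ n < 8, 384 ≤ cv n lJBall00 0 := by decide +kernel
theorem b01 : ∀ n < 4, 384 ≤ cv n lJBall01 0 := by decide +kernel
theorem b11 : ∀ n < 4, 384 ≤ cv n lJBall11 0 := by decide +kernel
theorem k0 : ∀ n < 17, n ∈ lJCov0 := by decide +kernel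
theorem k1 : ∀ n < 89, n ∈ lJCov1 := by decide +kernel
theorem i01 : (dat.e01 0).g = dat.idc := by decide +kernel
theorem i01' : (dat.e01 0).gi = dat.idc := by decide +kernel
theorem i11 : (dat.e11 0).g = dat.idc := by decide +kernel

theorem of_cond {b : Bool} {a : Nat} (h : cond b a 0 ≠ 0) : b = true := by
  cases b
  · exact absurd rfl h
  · rfl

theorem ent0 : ∀ n < 84, entOK dat false n = true := fun n hn => by
  obtain ⟨a, -, ha⟩ := (loop_ne_zero jent0).2 n hn
  have := of_cond ha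
  rwa [show Nat.add 0 n = n from Nat.zero_add n] at this

theorem ent1 : ∀ n < 8, entOK dat true n = true := fun n hn => by
  obtain ⟨a, -, ha⟩ := (loop_ne_zero jent1).2 n hn
  have := of_cond ha
  rwa [show Nat.add 0 n = n from Nat.zero_add n] at this

theorem ch0 : ∀ n < 134, chOK dat false (tb0.get n) = true := fun n hn => by
  obtain ⟨a, -, ha⟩ := (loop_ne_zero jch0).2 n hn
  have := of_cond ha
  rwa [show Nat.add 0 n = n from Nat.zero_add n] at this

theorem ch1 : ∀ n < 125, chOK dat true (tb1.get n) = true := fun n hn => by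
  obtain ⟨a, -, ha⟩ := (loop_ne_zero jch1).2 n hn
  have := of_cond ha
  rwa [show Nat.add 0 n = n from Nat.zero_add n] at this

end MainB

open MainA MainB in
theorem mainB (ka : KA) (kb : KB) (kc : KC) (grp : SGrp) (cert : SCert) (sent : SEnt) (enum : SEnum)
    (ball : SBall) (sch : SCh) (srun : SRun) (adj : SAdj) :
    ∃ Γ : Subgroup SU31, IsLattice Γ ∧ ¬ IsArith Γ ∧ adField Γ = Subfield.closure {√2} ∧
      ∀ (g : SU31) (Δ : Subgroup SU31),
        Subgroup.Commensurable (Γ.map (MulAut.conj g).toMonoidHom) Δ → √2 ∈ adField Δ := by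
  have hS : SFacts dat := by
    refine grp ka kb kc rowPgrp dat g3i jmisc hv1 (fun e he => ?_) jwrd
    obtain rfl | rfl | rfl : e = 0 ∨ e = 1 ∨ e = 2 := by omega
    exacts [jgrp0, jgrp1, jgrp2]
  obtain ⟨hE, hR⟩ := sent ka kc dat hv0 hv1
  have hR : RFacts dat := hR hS.idc (by decide) (by decide) (by decide) ent0 ent1 je11
  have hC : CertOK dat := cert ka kb rowPgrp dat hS hR
  have hEn : EnumOK dat := enum ka kb rowPgrp dat hS hC
  have hB : BallOK dat := ball ka kb dat hv0 hv1 hC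
  have hch := sch ka kb kc rowPgrp dat hv0 hv1 hS hR
  have oneS : (1 : U31) ∈ Sset dat := by
    obtain ⟨P, hP⟩ := hS.grp
    rw [← hP]; exact P.one_mem
  have o0 : (1 : U31) ∈ TT dat false false := ⟨1, one_P0, 1, one_R hS.idc, 1, one_P0, by simp⟩
  have o1 : (1 : U31) ∈ TT dat true false := by
    refine ⟨1, oneS, 1, ⟨0, ?_⟩, 1, one_P0, by simp⟩
    show (1 : M4) = cm (dat.e01 0).gi
    rw [i01', hS.idc]
  have cA : Covered (TT dat) false rootA := by
    obtain ⟨s, hs⟩ := jtop0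
    refine srun _ false tb0 134 kb0 17 o0 (fun n hn => hch _ _ (ch0 n hn)) (fun n hn => ?_) 60 root0 s hs
    obtain ⟨s, hs⟩ := aJCov0 n (k0 n hn)
    exact srun _ false tb0 134 kb0 0 o0 (fun n hn => hch _ _ (ch0 n hn))
      (fun n hn => absurd hn (Nat.not_lt_zero n)) 60 _ s hs
  have cB : Covered (TT dat) true rootB := by
    obtain ⟨s, hs⟩ := jtop1
    refine srun _ true tb1 125 kb1 89 o1 (fun n hn => hch _ _ (ch1 n hn)) (fun n hn => ?_) 60 root1 s hs
    obtain ⟨s, hs⟩ := aJCov1 n (k1 n hn)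
    exact srun _ true tb1 125 kb1 0 o1 (fun n hn => hch _ _ (ch1 n hn))
      (fun n hn => absurd hn (Nat.not_lt_zero n)) 60 _ s hs
  have hA : Adj (TT dat) := by
    refine adj rowPgrp (rowPred rowPgrp) rowBred dat hS hR hC hEn hB ka (by decide) (by decide)
      (by decide) (by decide) (by decide) (i01 ▸ hS.idc) (i11 ▸ hS.idc) ?_ ?_ ?_ ?_ cA cB
    · intro k n hn
      cases k
      · exact hE _ _ (ent0 n hn)
      · exact hE _ _ (ent1 n hn)
    · intro i
      cases i
      exacts [jsym0, jsym1]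
    · intro i k hik n1 h1 n2 h2 h12
      cases i <;> cases k
      · exact inf_of aJInf00 (h12 rfl) (lt_of_lt_of_le h2 (c00 n1 h1))
      · exact inf_of aJInf01 (Nat.zero_le _) (lt_of_lt_of_le h2 (c01 n1 h1))
      · exact absurd (hik rfl) (by decide)
      · exact inf_of aJInf11 (h12 rfl) (lt_of_lt_of_le h2 (c11 n1 h1))
    · intro i k hik n2 h2 m hm
      cases i <;> cases k
      · exact ball_of aJBall00 (lt_of_lt_of_le hm (b00 n2 h2))
      · exact ball_of aJBall01 (lt_of_lt_of_le hm (b01 n2 h2))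
      · exact absurd (hik rfl) (by decide)
      · exact ball_of aJBall11 (lt_of_lt_of_le hm (b11 n2 h2))
  exact mainA hA hS.idc hR fun n hn => hE _ _ (ent0 n hn)

end Pool.Agent.MP_d97ab6_al.H91
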