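import Pool.Agent.MP_d97ab6_al.H91.NAC

/-! Row NA. -/

namespace Pool.Agent.MP_d97ab6_al.H91

theorem rowNA : SNA := NA.rowNAc

end Pool.Agent.MP_d97ab6_al.H91
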