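import Mathlib

/-! Linear algebra for the proof of non-arithmeticity. -/

set_option autoImplicit false

namespace Pool.Agent.MP_d97ab6_al.H91.NA

open Matrix Polynomial

variable {n : Type} [Fintype n] [DecidableEq n]

/-- eigenvalues -/
def Ev (A : Matrix n n ℂ) (μ : ℂ) : Prop := ∃ v ≠ 0, A *ᵥ v = μ • v

theorem ev_iff (A : Matrix n n ℂ) (μ : ℂ) : Ev A μ ↔ A.charpoly.IsRoot μ := by
  rw [IsRoot, Matrix.eval_charpoly, ← Matrix.exists_mulVec_eq_zero_iff]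
  refine exists_congr fun v => and_congr_right fun _ => ?_
  rw [Matrix.sub_mulVec, sub_eq_zero, eq_comm, Matrix.scalar_apply, ← Matrix.smul_one_eq_diagonal,
    Matrix.smul_mulVec, Matrix.one_mulVec]

theorem ev_finite (A : Matrix n n ℂ) : {μ | Ev A μ}.Finite := by
  simp only [ev_iff]
  exact Polynomial.finite_setOfPred_isRoot A.charpoly_monic.ne_zero

theorem eq_one_of_bdd {x C : ℝ} (hx : 0 < x) (h : ∀ m : ℤ, x ^ m ≤ C) : x = 1 := by
  rcases lt_trichotomy x 1 with h1 | h1 | h1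
  · obtain ⟨k, hk⟩ := pow_unbounded_of_one_lt C ((one_lt_inv₀ hx).2 h1)
    have := h (-k)
    rw [_root_.zpow_neg, zpow_natCast, ← inv_pow] at this
    exact absurd hk this.not_gt
  · exact h1
  · obtain ⟨k, hk⟩ := pow_unbounded_of_one_lt C h1
    have := h k
    rw [zpow_natCast] at this
    exact absurd hk this.not_gt

theorem mulVec_le (A : Matrix n n ℂ) (B : ℝ) (hB : 0 ≤ B) (h : ∀ i j, ‖A i j‖ ≤ B) (v : n → ℂ) :
    ‖A *ᵥ v‖ ≤ Fintype.card n * B * ‖v‖ := by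
  refine (pi_norm_le_iff_of_nonneg (by positivity)).2 fun i => ?_
  refine (norm_sum_le _ _).trans ((Finset.sum_le_card_nsmul _ _ (B * ‖v‖) fun j _ => ?_).trans
    (le_of_eq ?_))
  · rw [norm_mul]
    exact mul_le_mul (h i j) (norm_le_pi_norm v j) (norm_nonneg _) hB
  · simp [mul_assoc]

section
variable {L : Type} [Group L] (ρ : L →* Matrix n n ℂ)

theorem mv_mul (x y : L) (v : n → ℂ) : ρ (x * y) *ᵥ v = ρ x *ᵥ (ρ y *ᵥ v) := by
  rw [map_mul, Matrix.mulVec_mulVec]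

theorem mv_ne (x : L) {v : n → ℂ} (hv : v ≠ 0) : ρ x *ᵥ v ≠ 0 := fun h => hv (by
  rw [← Matrix.one_mulVec v, ← map_one ρ, ← inv_mul_cancel x, mv_mul, h, Matrix.mulVec_zero])

theorem ev_ne {x : L} {μ : ℂ} (h : Ev (ρ x) μ) : μ ≠ 0 := by
  rintro rfl
  obtain ⟨v, hv, h⟩ := h
  exact mv_ne ρ x hv (by simpa using h)

theorem ev_conj (g : L) {x : L} {μ : ℂ} (h : Ev (ρ x) μ) : Ev (ρ (g * x * g⁻¹)) μ := by
  obtain ⟨v, hv, h⟩ := h
  refine ⟨ρ g *ᵥ v, mv_ne ρ g hv, ?_⟩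
  rw [← mv_mul, inv_mul_cancel_right, mv_mul, h, Matrix.mulVec_smul]

theorem mv_zpow {x : L} {μ : ℂ} {v : n → ℂ} (hμ : μ ≠ 0) (h : ρ x *ᵥ v = μ • v) (m : ℤ) :
    ρ (x ^ m) *ᵥ v = μ ^ m • v := by
  induction m using Int.induction_on with
  | zero => simp
  | succ i ih => rw [_root_.zpow_add_one, mv_mul, h, Matrix.mulVec_smul, ih, smul_smul,
      zpow_add_one₀ hμ, mul_comm]
  | pred i ih =>
    have := mv_mul ρ (x ^ (-(i : ℤ) - 1)) x v
    rw [← _root_.zpow_add_one, sub_add_cancel, ih, h, Matrix.mulVec_smul] at this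
    rw [zpow_sub_one₀ hμ, mul_comm, ← smul_smul, this, smul_smul, inv_mul_cancel₀ hμ, one_smul]

theorem growth (y : L) (v : n → ℂ) (hv : v ≠ 0) (r C : ℝ) (hr : 0 < r)
    (h : ∀ m : ℤ, ‖ρ (y ^ m) *ᵥ v‖ ≤ C * r ^ m) : ∃ ν, Ev (ρ y) ν ∧ ‖ν‖ = r := by
  let W : Submodule ℂ (n → ℂ) :=
    { carrier := {w | ∃ C, ∀ m : ℤ, ‖ρ (y ^ m) *ᵥ w‖ ≤ C * r ^ m}
      zero_mem' := ⟨0, by simp⟩
      add_mem' := by
        rintro a b ⟨C, hC⟩ ⟨D, hD⟩
        refine ⟨C + D, fun m => ?_⟩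
        rw [Matrix.mulVec_add, add_mul]
        exact (norm_add_le _ _).trans (add_le_add (hC m) (hD m))
      smul_mem' := by
        rintro c a ⟨C, hC⟩
        refine ⟨‖c‖ * C, fun m => ?_⟩
        rw [Matrix.mulVec_smul, norm_smul, mul_assoc]
        exact mul_le_mul_of_nonneg_left (hC m) (norm_nonneg _) }
  have hW : ∀ w ∈ W, Matrix.toLin' (ρ y) w ∈ W := by
    rintro w ⟨C, hC⟩
    refine ⟨C * r, fun m => ?_⟩
    rw [Matrix.toLin'_apply, ← mv_mul, ← _root_.zpow_add_one, mul_assoc, mul_comm r,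
      ← zpow_add_one₀ hr.ne']
    exact hC _
  have : Nontrivial W := ⟨⟨⟨v, C, h⟩, 0, fun e => hv (congrArg Subtype.val e)⟩⟩
  obtain ⟨ν, hν⟩ := Module.End.exists_eigenvalue ((Matrix.toLin' (ρ y)).restrict hW)
  obtain ⟨⟨w, D, hD⟩, h1⟩ := hν.exists_hasEigenvector
  have h2 : ρ y *ᵥ w = ν • w := congrArg Subtype.val h1.apply_eq_smul
  have h3 : w ≠ 0 := fun e => h1.2 (Subtype.ext e)
  have h4 := ev_ne ρ ⟨w, h3, h2⟩
  refine ⟨ν, ⟨w, h3, h2⟩, (div_eq_one_iff_eq hr.ne').1 (eq_one_of_bdd (C := D / ‖w‖)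
    (div_pos (norm_pos_iff.2 h4) hr) fun m => ?_)⟩
  have := hD m
  rw [mv_zpow ρ h4 h2, norm_smul, norm_zpow] at this
  rwa [div_zpow, div_le_div_iff₀ (zpow_pos hr m) (norm_pos_iff.2 h3)]

end

theorem charpoly_prod (A : Matrix n n ℂ) :
    A.charpoly = (A.charpoly.roots.map fun z => X - C z).prod :=
  (IsAlgClosed.splits _).eq_prod_roots_of_monic A.charpoly_monic

theorem kronecker (A : Matrix n n ℤ) (h : ∀ μ, Ev (A.map (Int.castRingHom ℂ)) μ → ‖μ‖ = 1) :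
    ∃ e N : ℕ, 0 < e ∧ (A.map (Int.castRingHom ℂ) ^ e - 1) ^ N = 0 := by
  set B := A.map (Int.castRingHom ℂ) with hB
  have h1 : A.charpoly.map (Int.castRingHom ℂ) = B.charpoly := (Matrix.charpoly_map _ _).symm
  have h2 : ∀ z ∈ B.charpoly.roots, ‖z‖ = 1 := fun z hz =>
    h z ((ev_iff _ _).2 (isRoot_of_mem_roots hz))
  have h3 : (A.charpoly.map (Int.castRingHom ℂ)).mahlerMeasure = 1 := by
    rw [h1, mahlerMeasure_eq_leadingCoeff_mul_prod_roots, B.charpoly_monic.leadingCoeff, norm_one,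
      one_mul]
    refine Multiset.prod_eq_one fun x hx => ?_
    obtain ⟨z, hz, rfl⟩ := Multiset.mem_map.1 hx
    rw [h2 z hz, max_self]
  have h4 : ∀ z ∈ B.charpoly.roots, ∃ e, 0 < e ∧ z ^ e = 1 := fun z hz =>
    pow_eq_one_of_mahlerMeasure_eq_one h3 (norm_ne_zero_iff.1 (by rw [h2 z hz]; simp))
      (by rw [← h1] at hz; exact hz)
  choose! f hf using h4
  refine ⟨(B.charpoly.roots.map f).prod, Multiset.card B.charpoly.roots,
    Multiset.prod_pos fun x hx => ?_, ?_⟩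
  · obtain ⟨z, hz, rfl⟩ := Multiset.mem_map.1 hx
    exact (hf z hz).1
  generalize he : (B.charpoly.roots.map f).prod = e
  have h5 : B.charpoly ∣ (X ^ e - 1) ^ Multiset.card B.charpoly.roots := by
    conv_lhs => rw [charpoly_prod]
    rw [← Multiset.prod_replicate, ← Multiset.map_const']
    refine Multiset.prod_dvd_prod_of_dvd _ _ fun z hz => dvd_iff_isRoot.2 ?_
    obtain ⟨c, hc⟩ := Multiset.dvd_prod (Multiset.mem_map_of_mem f hz)
    rw [he] at hc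
    simp [hc, pow_mul, (hf z hz).2]
  obtain ⟨q, hq⟩ := h5
  have := congrArg (aeval B) hq
  rwa [map_mul, Matrix.aeval_self_charpoly, zero_mul, map_pow, map_sub, map_pow, aeval_X,
    map_one] at this

theorem ratio (h Y : Matrix n n ℂ) (ν : ℂ) (hν : ν ≠ 0) (hY : Y ≠ 0) (e : h * Y = Y * (ν • h)) :
    ∃ μ, Ev h μ ∧ Ev h (μ / ν) := by
  have h1 : ∀ p : ℂ[X], aeval h p * Y = Y * aeval (ν • h) p := fun p => by
    induction p using Polynomial.induction_on' with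
    | add p q hp hq => rw [map_add, map_add, add_mul, mul_add, hp, hq]
    | monomial k c =>
      rw [aeval_monomial, aeval_monomial, mul_assoc, ← (SemiconjBy.pow_right e.symm k).eq,
        ← mul_assoc, ← mul_assoc, Algebra.commutes]
  have h2 := h1 h.charpoly
  rw [Matrix.aeval_self_charpoly, zero_mul] at h2
  have h3 : (aeval (ν • h) h.charpoly).det = 0 := by
    by_contra h3
    exact hY ((Matrix.isUnit_iff_isUnit_det _ |>.2 (Ne.isUnit h3)).mul_left_eq_zero.1 h2.symm)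
  have h4 := map_multiset_prod
    (Matrix.detMonoidHom.comp (aeval (R := ℂ) (ν • h)).toRingHom.toMonoidHom)
    (h.charpoly.roots.map fun z => X - C z)
  rw [← charpoly_prod] at h4
  obtain ⟨_, h5, h6⟩ := Multiset.mem_map.1 (Multiset.prod_eq_zero_iff.1 (h4.symm.trans h3))
  obtain ⟨μ, h7, rfl⟩ := Multiset.mem_map.1 h5
  obtain ⟨v, hv, h8⟩ := Matrix.exists_mulVec_eq_zero_iff.2 h6
  refine ⟨μ, (ev_iff _ _).2 (isRoot_of_mem_roots h7), v, hv, ?_⟩
  have h9 : (ν • h - μ • (1 : Matrix n n ℂ)) *ᵥ v = 0 := by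
    simpa [Algebra.algebraMap_eq_smul_one] using h8
  rw [Matrix.sub_mulVec, Matrix.smul_mulVec, Matrix.smul_mulVec, Matrix.one_mulVec,
    sub_eq_zero] at h9
  rw [div_eq_inv_mul, ← smul_smul, ← h9, smul_smul, inv_mul_cancel₀ hν, one_smul]

/-- polynomial functions with matrix values -/
def Pl (f : ℂ → Matrix n n ℂ) : Prop := ∃ P : Matrix n n ℂ[X], ∀ y, f y = P.map (eval y)

theorem Pl.const (A : Matrix n n ℂ) : Pl fun _ => A := ⟨A.map C, fun y => by ext; simp⟩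

theorem Pl.mul {f g : ℂ → Matrix n n ℂ} (hf : Pl f) (hg : Pl g) : Pl fun y => f y * g y := by
  obtain ⟨P, hP⟩ := hf
  obtain ⟨Q, hQ⟩ := hg
  exact ⟨P * Q, fun y => by
    beta_reduce; rw [hP, hQ]; exact (Matrix.map_mul (f := evalRingHom y)).symm⟩

theorem Pl.sub {f g : ℂ → Matrix n n ℂ} (hf : Pl f) (hg : Pl g) : Pl fun y => f y - g y := by
  obtain ⟨P, hP⟩ := hf
  obtain ⟨Q, hQ⟩ := hg
  exact ⟨P - Q, fun y => by ext; simp [hP, hQ]⟩

theorem Pl.aff {f : ℂ → Matrix n n ℂ} (hf : Pl f) (c d : ℂ) : Pl fun y => f (c * y + d) := by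
  obtain ⟨P, hP⟩ := hf
  exact ⟨P.map fun p => p.comp (C c * X + C d), fun y => by ext; simp [hP, eval_comp]⟩

theorem Pl.eq_of_bdd {f : ℂ → Matrix n n ℂ} (hf : Pl f) (B : ℝ)
    (h : ∀ (m : ℕ) i j, ‖f m i j‖ ≤ B) (y : ℂ) : f y = f 0 := by
  obtain ⟨P, hP⟩ := hf
  ext i j
  have : (P i j).degree ≤ 0 := by
    by_contra h1
    have h2 := (P i j).tendsto_norm_atTop (not_le.1 h1) (z := fun m : ℕ => (m : ℂ))
      (l := Filter.atTop) (by simpa using tendsto_natCast_atTop_atTop)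
    obtain ⟨m, hm⟩ := (h2.eventually_gt_atTop B).exists
    exact absurd (h m i j) (by simpa [hP] using hm)
  rw [hP, hP, Matrix.map_apply, Matrix.map_apply, eq_C_of_degree_le_zero this, eval_C, eval_C]

theorem Pl.ext {f g : ℂ → Matrix n n ℂ} (hf : Pl f) (hg : Pl g) (h : ∀ m : ℕ, f m = g m) (y : ℂ) :
    f y = g y := by
  have := (hf.sub hg).eq_of_bdd 0 (fun m i j => by simp [h]) y
  have h0 := h 0
  rw [Nat.cast_zero] at h0
  rwa [h0, sub_self, sub_eq_zero] at this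

theorem Pl.bdd {f : ℂ → Matrix n n ℂ} (hf : Pl f) :
    ∃ B, 0 ≤ B ∧ ∀ y : ℂ, ‖y‖ ≤ 1 → ∀ i j, ‖f y i j‖ ≤ B := by
  obtain ⟨P, hP⟩ := hf
  obtain ⟨B, hB⟩ := (isCompact_closedBall (0 : ℂ) 1).exists_bound_of_continuousOn
    (f := fun y (q : n × n) => (P q.1 q.2).eval y) (by fun_prop)
  refine ⟨max B 0, le_max_right _ _, fun y hy i j => le_max_of_le_left ?_⟩
  rw [hP]
  exact (norm_le_pi_norm _ (i, j)).trans (hB y (by simpa using hy))

theorem exists_pl (U : Matrix n n ℂ) (N : ℕ) (h : (U - 1) ^ N = 0) :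
    ∃ b, Pl b ∧ ∀ m : ℕ, b m = U ^ m := by
  obtain ⟨D, rfl⟩ : ∃ D, U = D + 1 := ⟨U - 1, by simp⟩
  rw [add_sub_cancel_right] at h
  refine ⟨_, ⟨∑ j ∈ Finset.range N, (descPochhammer ℂ j * C (j.factorial : ℂ)⁻¹) • (D ^ j).map C,
    fun _ => rfl⟩, fun m => ?_⟩
  have h1 : (D + 1) ^ m = ∑ j ∈ Finset.range N, (m.choose j : ℂ) • D ^ j := by
    rw [(Commute.one_right D).add_pow, Finset.sum_subset (Finset.range_mono (Nat.le_add_right _ N)),
      Finset.sum_subset (Finset.range_mono (Nat.le_add_left N (m + 1)))]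
    · refine Finset.sum_congr rfl fun j _ => ?_
      rw [one_pow, mul_one, ← nsmul_eq_mul', Nat.cast_smul_eq_nsmul]
    · intro j _ hj
      rw [pow_eq_zero_of_le (by simpa using hj) h, smul_zero]
    · intro j _ hj
      rw [Nat.choose_eq_zero_of_lt (by simpa using hj), Nat.cast_zero, mul_zero]
  rw [h1]
  ext i k
  simp [Matrix.sum_apply, eval_finsetSum, Nat.cast_choose_eq_descPochhammer_div, div_eq_mul_inv]

theorem Pl.coeff {b : ℂ → Matrix n n ℂ} (hb : Pl b) (h : Matrix n n ℂ) (c : ℂ)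
    (e : ∀ y, h * b y = b (c * y) * h) (h1 : b 1 ≠ b 0) :
    ∃ (j : ℕ) (Y : Matrix n n ℂ), 0 < j ∧ Y ≠ 0 ∧ h * Y = Y * (c ^ j • h) := by
  obtain ⟨P, hP⟩ := hb
  by_contra! H
  refine h1 ?_
  ext i k
  have : (P i k).degree ≤ 0 := by
    refine (degree_le_iff_coeff_zero _ _).2 fun j hj => ?_
    by_contra h2
    refine H j (P.map (Polynomial.coeff · j)) (by exact_mod_cast hj)
      (fun h3 => h2 (congrFun (congrFun h3 i) k)) ?_
    ext i k
    have h3 : ∑ l, C (h i l) * P l k = ∑ l, (P i l).comp (C c * X) * C (h l k) := by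
      refine Polynomial.funext fun y => ?_
      have := congrFun (congrFun (e y) i) k
      simpa [hP, Matrix.mul_apply, eval_finsetSum, eval_comp] using this
    have := congrArg (Polynomial.coeff · j) h3
    simpa [Matrix.mul_apply, comp_C_mul_X_coeff, mul_assoc] using this
  rw [hP, hP, Matrix.map_apply, Matrix.map_apply, eq_C_of_degree_le_zero this, eval_C, eval_C]

theorem exists_sigma : ∃ (K : Subfield ℂ) (σ : K →+* ℂ) (h : ((√2 : ℝ) : ℂ) ∈ K),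
    (∀ z : ℂ, IsAlgebraic ℚ z → z ∈ K) ∧ σ ⟨_, h⟩ = -((√2 : ℝ) : ℂ) := by
  have h2 : ((√2 : ℝ) : ℂ) ^ 2 = 2 := by
    rw [← Complex.ofReal_pow, Real.sq_sqrt (by norm_num)]; simp
  have h : ((√2 : ℝ) : ℂ) ∈ algebraicClosure ℚ ℂ := mem_algebraicClosure_iff.2
    (IsAlgebraic.of_pow (n := 2) (by norm_num) (by
      rw [h2]; exact_mod_cast isAlgebraic_natCast (R := ℚ) (A := ℂ) 2))
  have : IsAlgClosure ℚ (algebraicClosure ℚ ℂ) := algebraicClosure.isAlgClosure ℚ ℂ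
  have : IsGalois ℚ (algebraicClosure ℚ ℂ) := IsAlgClosure.isGalois ℚ _
  have h3 : ¬ ∀ f : Gal(algebraicClosure ℚ ℂ/ℚ), f ⟨_, h⟩ = ⟨_, h⟩ := by
    rw [← InfiniteGalois.mem_range_algebraMap_iff_fixed]
    rintro ⟨q, hq⟩
    refine irrational_sqrt_two ⟨q, ?_⟩
    exact_mod_cast (show (q : ℂ) = (√2 : ℝ) from congrArg Subtype.val hq)
  obtain ⟨f, hf⟩ := not_forall.1 h3
  refine ⟨(algebraicClosure ℚ ℂ).toSubfield,
    (algebraicClosure ℚ ℂ).val.toRingHom.comp f.toRingEquiv.toRingHom, h,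
    fun z hz => mem_algebraicClosure_iff.2 hz, ?_⟩
  have h4 : (⟨_, h⟩ : algebraicClosure ℚ ℂ) ^ 2 = 2 := Subtype.ext h2
  have h5 : f ⟨_, h⟩ ^ 2 = ⟨_, h⟩ ^ 2 := by rw [← map_pow, h4, map_ofNat]
  exact congrArg Subtype.val ((sq_eq_sq_iff_eq_or_eq_neg.1 h5).resolve_left hf)

end Pool.Agent.MP_d97ab6_al.H91.NA
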