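import Pool.Agent.MP_d97ab6_al.H91.NAA

/-! A criterion for non-arithmeticity. -/

set_option autoImplicit false

namespace Pool.Agent.MP_d97ab6_al.H91.NA

open Matrix Polynomial

theorem par_zero {G : Type} [Group G] {a : ℝ → G} (h : ∀ s t, a (s + t) = a s * a t) :
    a 0 = 1 := by
  have := h 0 0
  rw [add_zero] at this
  exact left_eq_mul.1 this

theorem par_zpow {G : Type} [Group G] {a : ℝ → G} (h : ∀ s t, a (s + t) = a s * a t) (t : ℝ)
    (m : ℤ) : a t ^ m = a (m * t) := by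
  induction m using Int.induction_on with
  | zero => simp [par_zero h]
  | succ i ih => rw [_root_.zpow_add_one, ih, ← h]; congr 1; push_cast; ring
  | pred i ih =>
    rw [_root_.zpow_sub_one, ih, mul_inv_eq_iff_eq_mul, ← h]; congr 1; push_cast; ring

theorem par_pow {G : Type} [Group G] {a : ℝ → G} (h : ∀ s t, a (s + t) = a s * a t) (t : ℝ)
    (m : ℕ) : a t ^ m = a (m * t) := by simpa using par_zpow h t m

theorem cosh_le {s t : ℝ} (hs : 0 ≤ s) (h : s ≤ t) :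
    Real.exp s + Real.exp (-s) ≤ Real.exp t + Real.exp (-t) := by
  have := Real.cosh_le_cosh.2 (show |s| ≤ |t| by rwa [abs_of_nonneg hs, abs_of_nonneg (hs.trans h)])
  rw [Real.cosh_eq, Real.cosh_eq] at this
  linarith

theorem final (F : Set ℝ) (hF : F.Finite) (h : ∀ m : ℕ, ∃ t, 0 < t ∧ ∃ r ∈ F, 0 ≤ r ∧
    Real.exp t + Real.exp (-t) = 2 + (m + 1) * (16 + 8 * √2) ∧
    Real.exp (r * t) + Real.exp (-(r * t)) = 2 + (m + 1) * (16 - 8 * √2)) : False := by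
  obtain ⟨M, hM⟩ := (hF.image fun r => 12 / (1 - r)).bddAbove
  obtain ⟨m, hm⟩ := exists_nat_gt (Real.exp M)
  obtain ⟨t, ht, r, hr, h0, h1, h2⟩ := h m
  have s1 : (1 : ℝ) < √2 := Real.one_lt_sqrt_two
  have s2 : √2 < (10 : ℝ) / 7 := (Real.sqrt_lt' (by norm_num)).2 (by norm_num)
  have hm0 : (0 : ℝ) ≤ m := m.cast_nonneg
  have r1 : r < 1 := by
    by_contra! r1
    have := cosh_le ht.le (le_mul_of_one_le_left ht.le r1)
    nlinarith
  have e1 : Real.exp (-t) ≤ Real.exp t := Real.exp_le_exp.2 (by linarith)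
  have e2 : Real.exp (-(r * t)) ≤ Real.exp (r * t) :=
    Real.exp_le_exp.2 (by nlinarith [mul_nonneg h0 ht.le])
  have e3 : Real.exp t ≤ 12 * Real.exp (r * t) := by nlinarith [Real.exp_pos (-t)]
  have e4 : (1 - r) * t ≤ 12 := by
    have := Real.add_one_le_exp ((1 - r) * t)
    have e5 : Real.exp t = Real.exp ((1 - r) * t) * Real.exp (r * t) := by
      rw [← Real.exp_add]; congr 1; ring
    rw [e5] at e3
    linarith [le_of_mul_le_mul_right e3 (Real.exp_pos _)]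
  have e5 : t ≤ M := le_trans ((le_div_iff₀' (sub_pos.2 r1)).2 e4) (hM ⟨r, hr, rfl⟩)
  nlinarith [Real.exp_le_exp.2 e5]

theorem real_root {w : ℂ} {τ : ℝ} (hτ : 2 < τ) (h : w ^ 2 + 1 = τ * w) :
    Real.exp |Real.log ‖w‖| + Real.exp (-|Real.log ‖w‖|) = τ := by
  obtain ⟨x, y⟩ := w
  have h1 := congrArg Complex.re h
  have h2 := congrArg Complex.im h
  simp [sq] at h1 h2
  obtain rfl : y = 0 := by
    by_contra hy
    have : τ = 2 * x := mul_right_cancel₀ hy (by linarith)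
    nlinarith [mul_self_nonneg y]
  have hx : 0 < x := by nlinarith [mul_self_nonneg x]
  have h3 : ‖(⟨x, 0⟩ : ℂ)‖ = x := (Complex.norm_real x).trans (abs_of_pos hx)
  have h4 : Real.exp (Real.log x) + Real.exp (-Real.log x) = τ := by
    rw [Real.exp_neg, Real.exp_log hx]
    field_simp
    linarith
  rw [h3]
  rcases abs_choice (Real.log x) with e | e <;> rw [e]
  · exact h4
  · rw [neg_neg, add_comm, h4]

section
variable {n : Type} [Fintype n] [DecidableEq n] {L G : Type} [Group L] [Group G]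
  [TopologicalSpace G] (ρ : L →* Matrix n n ℂ) (φ : L →* G)
  (hB : ∀ C : Set G, IsCompact C → ∃ B, 0 ≤ B ∧ ∀ x, φ x ∈ C → ∀ i j, ‖ρ x i j‖ ≤ B)
include hB

theorem compare (x y : L) (μ : ℂ) (hμ : Ev (ρ x) μ) (C : Set G) (hC : IsCompact C) (r D : ℝ)
    (hr : 0 < r) (h : ∀ m : ℤ, ∃ k : ℤ, φ (y ^ m * (x ^ k)⁻¹) ∈ C ∧ ‖μ‖ ^ k ≤ D * r ^ m) :
    ∃ ν, Ev (ρ y) ν ∧ ‖ν‖ = r := by
  obtain ⟨B, h0, hB⟩ := hB C hC
  have h1 := ev_ne ρ hμ
  obtain ⟨v, hv, h2⟩ := hμ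
  refine growth ρ y v hv r (Fintype.card n * B * ‖v‖ * D) hr fun m => ?_
  obtain ⟨k, h3, h4⟩ := h m
  have := mulVec_le _ B h0 (hB _ h3) (ρ (x ^ k) *ᵥ v)
  rw [← mv_mul, inv_mul_cancel_right, mv_zpow ρ h1 h2, norm_smul, norm_zpow] at this
  refine this.trans ?_
  rw [mul_comm _ ‖v‖, ← mul_assoc, mul_assoc _ D]
  exact mul_le_mul_of_nonneg_left h4 (by positivity)

variable {a u : ℝ → G} (ha : Continuous a) (hu : Continuous u)
  (a_add : ∀ s t, a (s + t) = a s * a t) (u_add : ∀ s t, u (s + t) = u s * u t)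
  (hau : ∀ t s, a t * u s = u (Real.exp (2 * t) * s) * a t)

include ha a_add in
theorem expo (h x : L) (hh : φ h = a 1) (t : ℝ) (ht : 0 < t) (hx : φ x = a t) (μ : ℂ)
    (hμ : Ev (ρ x) μ) : ∃ ν, Ev (ρ h) ν ∧ Real.log ‖μ‖ = t * Real.log ‖ν‖ := by
  have h0 := norm_pos_iff.2 (ev_ne ρ hμ)
  obtain ⟨c, hc⟩ : ∃ c, Real.log ‖μ‖ = t * c := ⟨Real.log ‖μ‖ / t, by field_simp⟩
  obtain ⟨ν, h1, h2⟩ := compare ρ φ hB x h μ hμ (a '' Set.Icc 0 t) (isCompact_Icc.image ha)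
    (Real.exp c) (Real.exp (|c| * t)) (Real.exp_pos _) fun m => by
      have f1 : (⌊m / t⌋ : ℝ) * t ≤ m := (le_div_iff₀ ht).1 (Int.floor_le _)
      have f2 : (m : ℝ) < (⌊m / t⌋ + 1) * t := (div_lt_iff₀ ht).1 (Int.lt_floor_add_one _)
      refine ⟨⌊m / t⌋, ⟨m - ⌊m / t⌋ * t, ⟨by linarith, by linarith⟩, ?_⟩, ?_⟩
      · rw [map_mul, map_inv, map_zpow, map_zpow, hh, hx, par_zpow a_add, par_zpow a_add,
          eq_mul_inv_iff_mul_eq, ← a_add]
        congr 1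
        ring
      · rw [← Real.exp_log h0, hc, ← Real.rpow_intCast, ← Real.rpow_intCast, ← Real.exp_mul,
          ← Real.exp_mul, ← Real.exp_add, Real.exp_le_exp]
        nlinarith [mul_nonneg (sub_nonneg.2 (neg_le_abs c)) (sub_nonneg.2 f1),
          mul_nonneg (abs_nonneg c) (sub_nonneg.2 f2.le)]
  exact ⟨ν, h1, by rw [h2, Real.log_exp, hc]⟩

include u_add hau in
theorem unit_mod (hs : Function.Surjective φ) (T : L) (s : ℝ) (hT : φ T = u s) (μ : ℂ)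
    (hμ : Ev (ρ T) μ) : ‖μ‖ = 1 := by
  obtain ⟨h, hh⟩ := hs (a (Real.log 2 / 2))
  have h1 : ∀ μ, Ev (ρ T) μ → ∃ ν, Ev (ρ T) ν ∧ ‖ν‖ = ‖μ‖ ^ 2 := fun μ hμ => by
    obtain ⟨ν, h1, h2⟩ := compare ρ φ hB T (h * T * h⁻¹) μ hμ {1} isCompact_singleton (‖μ‖ ^ 2) 1
      (pow_pos (norm_pos_iff.2 (ev_ne ρ hμ)) 2) fun m => ⟨2 * m, by
        have e : φ (h * T * h⁻¹) = φ T ^ (2 : ℤ) := by
          rw [map_mul, map_mul, map_inv, hh, hT, hau, mul_inv_cancel_right, par_zpow u_add,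
            mul_div_cancel₀ _ two_ne_zero, Real.exp_log two_pos, Int.cast_ofNat]
        rw [map_mul, map_inv, map_zpow, map_zpow, e, ← _root_.zpow_mul, mul_inv_cancel]
        rfl, by rw [one_mul, _root_.zpow_mul, zpow_ofNat]⟩
    exact ⟨ν, by simpa [mul_assoc] using ev_conj ρ h⁻¹ h1, h2⟩
  have h2 : ∀ j : ℕ, ‖μ‖ ^ 2 ^ j ∈ (fun z : ℂ => ‖z‖) '' {z | Ev (ρ T) z} := fun j => by
    induction j with
    | zero => exact ⟨μ, hμ, by simp⟩
    | succ j ih =>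
      obtain ⟨z, h3, h4⟩ := ih
      obtain ⟨ν, h5, h6⟩ := h1 z h3
      exact ⟨ν, h5, by rw [pow_succ, pow_mul, ← h4]; exact h6⟩
  by_contra h3
  exact Set.infinite_of_injective_forall_mem
    ((pow_right_injective₀ (norm_pos_iff.2 (ev_ne ρ hμ)) h3).comp
      (Nat.pow_right_injective le_rfl)) h2 ((ev_finite _).image _)

include hu u_add hau in
theorem link (T x : L) (s t : ℝ) (hs : 0 ≤ s) (hT : φ T = u s) (hx : φ x = a t) (N : ℕ)
    (hN : (ρ T - 1) ^ N = 0) (h1 : ρ T ≠ 1) :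
    ∃ (j : ℕ) (μ : ℂ), 0 < j ∧ Ev (ρ x) μ ∧ Ev (ρ x) (μ / (Real.exp (2 * t) : ℝ) ^ j) := by
  obtain ⟨b, hb, hb'⟩ := exists_pl _ N hN
  have b0 : b 0 = 1 := by simpa using hb' 0
  have b1 : ∀ (k : ℕ) y, b (y + k) = ρ (T ^ k) * b y := fun k y => by
    simpa using (hb.aff 1 k).ext ((Pl.const (ρ (T ^ k))).mul hb) (fun m => by
      rw [one_mul, ← Nat.cast_add, hb', hb', map_pow, ← pow_add, add_comm]) y
  have b2 : ∀ k : ℕ, b (-k) = ρ (T ^ k)⁻¹ := fun k => by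
    have := b1 k (-k)
    rw [neg_add_cancel, b0] at this
    rw [← Matrix.one_mul (b _), ← map_one ρ, ← inv_mul_cancel (T ^ k), map_mul, mul_assoc, ← this,
      mul_one]
  obtain ⟨B, h0, hB⟩ := hB _ ((isCompact_Icc (a := -s) (b := 0)).image hu)
  obtain ⟨B', h0', hB'⟩ := hb.bdd
  generalize hl : Real.exp (2 * t) = l
  have hl0 : 0 < l := hl ▸ Real.exp_pos _
  have e1 : ∀ m : ℕ, ρ x * b (-1 * m + 0) * ρ x⁻¹ = ρ (x * T ^ m * x⁻¹)⁻¹ := fun m => by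
    rw [neg_one_mul, add_zero, b2, ← map_mul, ← map_mul]
    congr 1
    group
  have e2 := ((((Pl.const (ρ x)).mul (hb.aff (-1) 0)).mul (Pl.const (ρ x⁻¹))).mul
    (hb.aff l 0)).eq_of_bdd (Fintype.card n * (B * B')) fun m i j => by
      have f1 := Nat.floor_le (show 0 ≤ l * m by positivity)
      have f2 := Nat.lt_floor_add_one (l * m)
      generalize ⌊l * m⌋₊ = k at f1 f2
      rw [e1, show (l : ℂ) * m + 0 = ((l * m - k : ℝ) : ℂ) + k by push_cast; ring, b1,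
        ← mul_assoc, ← map_mul, Matrix.mul_apply]
      refine (norm_sum_le _ _).trans ((Finset.sum_le_card_nsmul _ _ (B * B') fun q _ => ?_).trans
        (le_of_eq (by simp)))
      rw [norm_mul]
      refine mul_le_mul (hB _ ⟨(k - l * m) * s, ⟨by nlinarith, by nlinarith⟩, ?_⟩ _ _)
        (hB' _ ?_ _ _) (norm_nonneg _) h0
      · rw [map_mul, map_inv, map_mul, map_mul, map_inv, map_pow, map_pow, hT, hx, par_pow u_add,
          par_pow u_add, hau, mul_inv_cancel_right, eq_inv_mul_iff_mul_eq, ← u_add, hl]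
        congr 1
        ring
      · rw [Complex.norm_real, Real.norm_eq_abs, abs_le]
        constructor <;> linarith
  have e3 := ((Pl.const (ρ x)).mul hb).ext ((hb.aff l 0).mul (Pl.const (ρ x))) fun m => by
    have := e2 m
    simp only [mul_zero, add_zero, b0, mul_one, ← map_mul, mul_inv_cancel, map_one] at this
    have e4 := e1 m
    rw [add_zero] at e4
    rw [e4] at this
    rw [add_zero, ← Matrix.one_mul (b (l * m)), ← map_one ρ, ← mul_inv_cancel (x * T ^ m * x⁻¹),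
      map_mul,
      mul_assoc (ρ _), this, mul_one, hb', ← map_pow, ← map_mul, ← map_mul, inv_mul_cancel_right]
  obtain ⟨j, Y, k1, k2, k3⟩ := hb.coeff (ρ x) l (by simpa using e3) (by
    have := hb' 1
    rw [Nat.cast_one, pow_one] at this
    rwa [this, b0])
  obtain ⟨μ, k4, k5⟩ := ratio _ Y _ (pow_ne_zero j (by exact_mod_cast hl0.ne')) k2 k3
  exact ⟨j, μ, k1, k4, k5⟩

include ha hu a_add u_add hau in
theorem core (hρ : Function.Injective ρ) (hs : Function.Surjective φ)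
    (hu1 : ∀ s, 0 < s → u s ≠ 1) (T : L) (s : ℝ) (s0 : 0 < s) (hT : φ T = u s)
    (A : Matrix n n ℤ) (hA : ρ T = A.map (Int.castRingHom ℂ))
    (hγ : ∀ m : ℕ, ∃ (g : G) (t : ℝ) (k : ℕ) (h : L) (A : Matrix n n ℤ), 0 < t ∧ 0 < k ∧
      Real.exp t + Real.exp (-t) = 2 + (m + 1) * (16 + 8 * √2) ∧ φ h = g * a (k * t) * g⁻¹ ∧
      ρ h = A.map (Int.castRingHom ℂ)) : False := by
  obtain ⟨e, N, he, hN⟩ := kronecker A fun μ hμ =>
    unit_mod ρ φ hB u_add hau hs T s hT μ (hA ▸ hμ)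
  rw [← hA, ← map_pow] at hN
  have hT' : φ (T ^ e) = u (e * s) := by rw [map_pow, hT, par_pow u_add]
  have h1 : ρ (T ^ e) ≠ 1 := fun h => hu1 (e * s) (by positivity) (by
    rw [← hT', hρ (h.trans (map_one ρ).symm), map_one])
  obtain ⟨h₁, hh⟩ := hs (a 1)
  obtain ⟨K, σ, hK, hK', hσ⟩ := exists_sigma
  obtain ⟨S, hS, hS'⟩ : ∃ S : Set ℝ, S.Finite ∧ ∀ ν, Ev (ρ h₁) ν → Real.log ‖ν‖ ∈ S :=
    ⟨_, (ev_finite (ρ h₁)).image fun z => Real.log ‖z‖, fun ν h => ⟨ν, h, rfl⟩⟩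
  have hD := hS.image2 (· - ·) hS
  refine final _ (hD.image2 (fun p q => |p| / q) hD) fun m => ?_
  obtain ⟨g, t, k, h, A, ht, hk, h2, h3, h4⟩ := hγ m
  obtain ⟨g, rfl⟩ := hs g
  have hx : φ (g⁻¹ * h * g⁻¹⁻¹) = a (k * t) := by simp [h3, mul_assoc]
  have hkt : 0 < k * t := by positivity
  have ev1 : ∀ μ, Ev (ρ (g⁻¹ * h * g⁻¹⁻¹)) μ ↔ aeval μ A.charpoly = 0 := fun μ => by
    refine Iff.trans ⟨fun h => by simpa [mul_assoc] using ev_conj ρ g h, ev_conj ρ g⁻¹⟩ ?_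
    rw [h4, ev_iff, Matrix.charpoly_map, IsRoot, eval_map, aeval_def]
    rfl
  generalize g⁻¹ * h * g⁻¹⁻¹ = x at hx ev1
  have ev2 : ∀ μ, Ev (ρ x) μ → IsAlgebraic ℚ μ := fun μ hμ =>
    (IsIntegral.tower_top (R := ℤ) ⟨A.charpoly, A.charpoly_monic, (ev1 μ).1 hμ⟩).isAlgebraic
  have ev3 : ∀ z : K, Ev (ρ x) z → Ev (ρ x) (σ z) := fun z hz => (ev1 _).2 (by
    have e1 : aeval z A.charpoly = 0 := Subtype.val_injective
      ((aeval_algHom_apply K.subtype.toIntAlgHom z _).symm.trans ((ev1 _).1 hz))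
    exact (aeval_algHom_apply σ.toIntAlgHom z _).trans (by rw [e1, map_zero]))
  have ev4 : ∀ μ μ' w : ℂ, ∀ j : ℕ, Ev (ρ x) μ → Ev (ρ x) μ' → μ = μ' * w ^ (2 * k * j) →
      ∃ p ∈ Set.image2 (· - ·) S S, 2 * j * Real.log ‖w‖ = t * p := fun μ μ' w j q1 q2 q3 => by
    obtain ⟨ν, r1, r2⟩ := expo ρ φ hB ha a_add h₁ x hh _ hkt hx μ q1
    obtain ⟨ν', r3, r4⟩ := expo ρ φ hB ha a_add h₁ x hh _ hkt hx μ' q2
    refine ⟨_, ⟨_, hS' ν r1, _, hS' ν' r3, rfl⟩, mul_left_cancel₀ (a := (k : ℝ)) (by positivity) ?_⟩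
    have q4 := norm_ne_zero_iff.2 (ev_ne ρ q1)
    rw [q3, norm_mul] at r2 q4
    rw [Real.log_mul (left_ne_zero_of_mul q4) (right_ne_zero_of_mul q4), norm_pow, Real.log_pow,
      r4] at r2
    push_cast at r2
    linear_combination r2
  obtain ⟨j, μ, hj, q1, q2⟩ := link ρ φ hB hu u_add hau (T ^ e) x _ _ (by positivity) hT' hx N hN h1
  generalize hl : ((Real.exp t : ℝ) : ℂ) = l
  have l0 : l ≠ 0 := hl ▸ by exact_mod_cast Real.exp_ne_zero t
  have l1 : ((Real.exp (2 * (k * t)) : ℝ) : ℂ) ^ j = l ^ (2 * k * j) := by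
    rw [pow_mul, ← hl, ← Complex.ofReal_pow _ (2 * k), ← Real.exp_nat_mul]
    push_cast
    ring_nf
  rw [l1] at q2
  generalize hμ' : μ / l ^ (2 * k * j) = μ' at q2
  have l2 : μ = μ' * l ^ (2 * k * j) := by rw [← hμ', div_mul_cancel₀ _ (pow_ne_zero _ l0)]
  have l3 : l ∈ K := hK' l (IsAlgebraic.of_pow (n := 2 * k * j) (by positivity) (by
    have := (ev2 _ q2).inv.mul (ev2 _ q1)
    rwa [l2, inv_mul_cancel_left₀ (ev_ne ρ q2)] at this))
  obtain ⟨p, p1, p2⟩ := ev4 μ μ' l j q1 q2 l2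
  obtain ⟨q, p3, p4⟩ := ev4 _ _ (σ ⟨l, l3⟩) j (ev3 ⟨μ, hK' _ (ev2 _ q1)⟩ q1)
    (ev3 ⟨μ', hK' _ (ev2 _ q2)⟩ q2) (by rw [← map_pow, ← map_mul]; exact congrArg σ (Subtype.ext l2))
  rw [← hl, Complex.norm_real, Real.norm_eq_abs, Real.log_abs, Real.log_exp, mul_comm t] at p2
  obtain rfl := mul_right_cancel₀ ht.ne' p2
  have l4 : (⟨l, l3⟩ : K) ^ 2 + 1 = (2 + (m + 1) * (16 + 8 * ⟨_, hK⟩)) * ⟨l, l3⟩ := by
    refine Subtype.ext ?_
    have := congrArg (fun x : ℝ => (x : ℂ)) h2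
    rw [Real.exp_neg] at this
    simp only [Complex.ofReal_add, Complex.ofReal_inv, hl, Complex.ofReal_mul,
      Complex.ofReal_ofNat, Complex.ofReal_natCast, Complex.ofReal_one] at this
    show l ^ 2 + 1 = (2 + (m + 1) * (16 + 8 * ((√2 : ℝ) : ℂ))) * l
    rw [← this]
    field_simp
  have l5 := congrArg σ l4
  simp only [map_add, map_mul, map_pow, map_one, map_ofNat, map_natCast, hσ] at l5
  have s2 : √2 < (10 : ℝ) / 7 := (Real.sqrt_lt' (by norm_num)).2 (by norm_num)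
  have l6 := real_root (w := σ ⟨l, l3⟩) (τ := 2 + (m + 1) * (16 - 8 * √2))
    (lt_add_of_pos_right _ (mul_pos (by positivity) (by linarith)))
    (by rw [l5]; push_cast; ring)
  have l7 : |q| / (2 * j) * t = |Real.log ‖σ ⟨l, l3⟩‖| := by
    have := congrArg abs p4
    rw [abs_mul, abs_mul t, abs_of_pos ht, abs_of_pos (by positivity)] at this
    field_simp
    linarith
  exact ⟨t, ht, _, ⟨q, p3, _, p1, rfl⟩, by positivity, h2, by rw [l7, l6]⟩

end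

theorem proper {L G : Type} [Group L] [Group G] [TopologicalSpace L] [TopologicalSpace G]
    [IsTopologicalGroup L] [IsTopologicalGroup G] [T2Space G] [BaireSpace G] [SigmaCompactSpace L]
    [WeaklyLocallyCompactSpace L] (φ : L →* G) (hc : Continuous φ) (hs : Function.Surjective φ)
    (hk : IsCompact (φ.ker : Set L)) (C : Set G) (hC : IsCompact C) :
    ∃ D, IsCompact D ∧ φ ⁻¹' C ⊆ D := by
  have ho := φ.isOpenMap_of_sigmaCompact hs hc
  obtain ⟨D, h1, h2⟩ : ∃ D, IsCompact D ∧ C ⊆ φ '' D := by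
    refine hC.induction_on ⟨∅, isCompact_empty, by simp⟩
      (fun _ _ h ⟨D, h1, h2⟩ => ⟨D, h1, h.trans h2⟩)
      (fun _ _ ⟨D, h1, h2⟩ ⟨D', h3, h4⟩ => ⟨D ∪ D', h1.union h3, ?_⟩) fun g _ => ?_
    · rw [Set.image_union]
      exact Set.union_subset_union h2 h4
    · obtain ⟨x, rfl⟩ := hs g
      obtain ⟨D, h1, h2⟩ := exists_compact_mem_nhds x
      exact ⟨_, mem_nhdsWithin_of_mem_nhds (ho.image_mem_nhds h2), D, h1, subset_rfl⟩
  refine ⟨_, h1.mul hk, fun x hx => ?_⟩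
  obtain ⟨y, h3, h4⟩ := h2 hx
  exact ⟨y, h3, y⁻¹ * x, by simp [h4], by simp⟩

theorem abstract {G : Type} [Group G] [TopologicalSpace G] [IsTopologicalGroup G] [T2Space G]
    [BaireSpace G] (a u : ℝ → G) (ha : Continuous a) (hu : Continuous u)
    (a_add : ∀ s t, a (s + t) = a s * a t) (u_add : ∀ s t, u (s + t) = u s * u t)
    (hau : ∀ t s, a t * u s = u (Real.exp (2 * t) * s) * a t) (hu1 : ∀ s, 0 < s → u s ≠ 1)
    (Γ : Subgroup G) (hT : u 1 ∈ Γ)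
    (hγ : ∀ n : ℕ, ∃ (g : G) (t : ℝ), 0 < t ∧
      Real.exp t + Real.exp (-t) = 2 + (n + 1) * (16 + 8 * √2) ∧ g * a t * g⁻¹ ∈ Γ)
    {N : ℕ} (H : Subgroup (GL (Fin N) ℝ)) (φ : H →* G) (hH : IsClosed (H : Set (GL (Fin N) ℝ)))
    (hc : Continuous φ) (hs : Function.Surjective φ) (hk : IsCompact (φ.ker : Set H)) :
    ¬ Subgroup.Commensurable (((Matrix.GeneralLinearGroup.map (n := Fin N)
      (Int.castRingHom ℝ)).range.subgroupOf H).map φ) Γ := by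
  intro hcom
  have : SigmaCompactSpace (Matrix (Fin N) (Fin N) ℝ) :=
    inferInstanceAs (SigmaCompactSpace (Fin N → Fin N → ℝ))
  have : WeaklyLocallyCompactSpace (Matrix (Fin N) (Fin N) ℝ) :=
    inferInstanceAs (WeaklyLocallyCompactSpace (Fin N → Fin N → ℝ))
  have : SigmaCompactSpace (Matrix (Fin N) (Fin N) ℝ)ᵐᵒᵖ :=
    MulOpposite.opHomeomorph.symm.isClosedEmbedding.sigmaCompactSpace
  have : SigmaCompactSpace (GL (Fin N) ℝ) := Units.isClosedEmbedding_embedProduct.sigmaCompactSpace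
  have : SigmaCompactSpace H := hH.sigmaCompactSpace
  have : WeaklyLocallyCompactSpace H := hH.isClosedEmbedding_subtypeVal.weaklyLocallyCompactSpace
  let ρ : H →* Matrix (Fin N) (Fin N) ℂ :=
    Complex.ofRealHom.mapMatrix.toMonoidHom.comp ((Units.coeHom _).comp H.subtype)
  have r0 : ∀ x i j, ρ x i j = (x.1.1 i j : ℝ) := fun _ _ _ => rfl
  have r1 : ∀ γ ∈ Γ, ∃ (k : ℕ) (h : H) (A : Matrix (Fin N) (Fin N) ℤ), 0 < k ∧ φ h = γ ^ k ∧
      ρ h = A.map (Int.castRingHom ℂ) := fun γ hγ => by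
    obtain ⟨k, k1, -, ⟨h, ⟨A, k2⟩, k3⟩, -⟩ := Subgroup.exists_pow_mem_of_relIndex_ne_zero hcom.1 hγ
    refine ⟨k, h, A.1, k1, k3, ?_⟩
    ext i j
    rw [r0, show h.1 = _ from k2.symm]
    simp
  obtain ⟨k, T, A, k1, k2, k3⟩ := r1 _ hT
  refine core ρ φ (fun C hC => ?_) ha hu a_add u_add hau (fun x y h => ?_) hs hu1 T (k * 1)
    (by positivity) (k2.trans (par_pow u_add 1 k)) A k3 fun m => ?_
  · obtain ⟨D, h1, h2⟩ := proper φ hc hs hk C hC
    obtain ⟨B, hB⟩ := h1.exists_bound_of_continuousOn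
      (f := fun x (q : Fin N × Fin N) => x.1.1 q.1 q.2) (by fun_prop)
    refine ⟨max B 0, le_max_right _ _, fun x hx i j => le_max_of_le_left ?_⟩
    rw [r0, Complex.norm_real]
    exact (norm_le_pi_norm (fun q : Fin N × Fin N => x.1.1 q.1 q.2) (i, j)).trans (hB x (h2 hx))
  · ext i j
    exact Complex.ofReal_injective ((r0 x i j).symm.trans (h ▸ r0 y i j))
  · obtain ⟨g, t, h1, h2, h3⟩ := hγ m
    obtain ⟨k, h, A, k1, k2, k3⟩ := r1 _ h3
    exact ⟨g, t, k, h, A, h1, k1, h2, by rw [k2, conj_pow, par_pow a_add], k3⟩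

end Pool.Agent.MP_d97ab6_al.H91.NA
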