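import Pool.Agent.MP_d97ab6_al.H91.Spec
import Pool.Agent.MP_d97ab6_al.H91.NAB

/-! The criterion for non-arithmeticity applied to a copy of `SL(2,ℝ)` in `SU(3,1)`. -/

set_option autoImplicit false

namespace Pool.Agent.MP_d97ab6_al.H91.NA

open Matrix Complex Topology

/-- the matrix of the embedding -/
noncomputable def im (a b c d : ℝ) : M4 :=
  !![a, 0, 0, b * I; 0, 1, 0, 0; 0, 0, 1, 0; -(c * I), 0, 0, d]

theorem im_mul (a b c d a' b' c' d' : ℝ) : im a b c d * im a' b' c' d' =
    im (a * a' + b * c') (a * b' + b * d') (c * a' + d * c') (c * b' + d * d') := by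
  ext i j
  fin_cases i <;> fin_cases j <;> simp [im, Matrix.mul_apply, Fin.sum_univ_four] <;>
    ring_nf <;> simp

/-- the embedding -/
noncomputable def io (a b c d : ℝ) (h : a * d - b * c = 1) : SU31 :=
  ⟨⟨im a b c d, by
    have h' : (a : ℂ) * d - b * c = 1 := by exact_mod_cast h
    simp [im, Matrix.det_succ_row_zero, Fin.sum_univ_succ, Fin.succAbove]
    linear_combination h' + (b : ℂ) * c * I_mul_I⟩, by
    have h' : (a : ℂ) * d - b * c = 1 := by exact_mod_cast h
    show (im a b c d)ᴴ * J * im a b c d = J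
    ext i j
    fin_cases i <;> fin_cases j <;> simp [im, J, Matrix.mul_apply, Fin.sum_univ_four]
    · ring
    · linear_combination h' + (b : ℂ) * c * I_mul_I
    · linear_combination h' + (b : ℂ) * c * I_mul_I
    · ring⟩

theorem ext' {g h : SU31} (e : g.1.1 = h.1.1) : g = h := Subtype.ext (Subtype.ext e)

theorem val_mul (g h : SU31) : (g * h).1.1 = g.1.1 * h.1.1 := rfl

/-- the diagonal group -/
noncomputable def aa (t : ℝ) : SU31 :=
  io (Real.exp t) 0 0 (Real.exp (-t)) (by simp [← Real.exp_add])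

/-- the unipotent group -/
noncomputable def uu (s : ℝ) : SU31 := io 1 (2 * s) 0 1 (by simp)

theorem cont_im {a b c d : ℝ → ℝ} (ha : Continuous a) (hb : Continuous b) (hc : Continuous c)
    (hd : Continuous d) : Continuous fun t => im (a t) (b t) (c t) (d t) := by
  refine continuous_matrix fun i j => ?_
  fin_cases i <;> fin_cases j <;> simp [im] <;> fun_prop

theorem uu_add (s t : ℝ) : uu (s + t) = uu s * uu t :=
  ext' (by simp only [val_mul, uu, io, im_mul]; congr 1 <;> ring)

theorem rowNAc : SNA := by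
  rintro Γ ⟨T, hT, hT'⟩ ⟨L, hL, hL'⟩ ⟨N, H, φ, h1, h2, h3, h4, h5⟩
  have e1 : IsClosedEmbedding fun g : SU31 => g.1.1 := by
    refine ⟨IsEmbedding.subtypeVal.comp IsEmbedding.subtypeVal, ?_⟩
    have : Set.range (fun g : SU31 => g.1.1) = {g | g.det = 1} ∩ {g | gᴴ * J * g = J} :=
      Set.ext fun g => ⟨by rintro ⟨g, rfl⟩; exact ⟨g.1.2, g.2⟩, fun h => ⟨⟨⟨g, h.1⟩, h.2⟩, rfl⟩⟩
    rw [this]
    exact (isClosed_eq (by fun_prop) continuous_const).inter
      (isClosed_eq (by fun_prop) continuous_const)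
  have : LocallyCompactSpace (Matrix (Fin 4) (Fin 4) ℂ) :=
    inferInstanceAs (LocallyCompactSpace (Fin 4 → Fin 4 → ℂ))
  have := e1.locallyCompactSpace
  have hu : uu 1 ∈ Γ := by
    rw [show uu 1 = T from ext' (by rw [hT']; simp [uu, io, im, Tm])]
    exact hT
  refine abstract aa uu
    (e1.isEmbedding.continuous_iff.2 (cont_im (by fun_prop) (by fun_prop) (by fun_prop)
      (by fun_prop)))
    (e1.isEmbedding.continuous_iff.2 (cont_im (by fun_prop) (by fun_prop) (by fun_prop)
      (by fun_prop)))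
    (fun s t => ext' ?_) uu_add (fun t s => ext' ?_) (fun s hs h => ?_) Γ hu (fun n => ?_)
    H φ h1 h2 h3 h4 h5
  · simp only [val_mul, aa, io, im_mul]
    congr 1 <;> simp [Real.exp_add, mul_comm]
  · simp only [val_mul, aa, uu, io, im_mul]
    congr 1 <;> simp
    rw [mul_assoc, mul_right_comm, ← Real.exp_add]
    ring_nf
  · have := congrArg (fun g : SU31 => g.1.1 0 3) h
    simp [uu, io, im] at this
    exact hs.ne' this
  · obtain ⟨β, hβ⟩ : ∃ β : ℝ, β = 8 + 4 * √2 := ⟨_, rfl⟩
    have b0 : 0 < β := by rw [hβ]; positivity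
    have b1 : 1 < 1 + (n + 1) * β := lt_add_of_pos_right _ (by positivity)
    have t0 := Real.arcosh_pos b1
    have t1 := Real.cosh_arcosh b1.le
    generalize Real.arcosh _ = t at t0 t1
    rw [Real.cosh_eq] at t1
    have t2 : Real.exp t * Real.exp (-t) = 1 := by simp [← Real.exp_add]
    have t3 : Real.exp t - Real.exp (-t) ≠ 0 :=
      (sub_pos.2 (Real.exp_lt_exp.2 (by linarith))).ne'
    obtain ⟨k, hk⟩ : ∃ k, k * (-β * (Real.exp t - Real.exp (-t))) = 1 :=
      ⟨_, inv_mul_cancel₀ (mul_ne_zero (neg_ne_zero.2 b0.ne') t3)⟩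
    refine ⟨io (Real.exp t - 1) (k * (Real.exp (-t) - 1)) (-β) (k * -β) (by linear_combination hk),
      t, t0, by rw [hβ] at t1; linarith, ?_⟩
    have hm := Γ.mul_mem (Γ.zpow_mem hu (-(n + 1))) hL
    rw [par_zpow uu_add] at hm
    convert hm using 1
    rw [mul_inv_eq_iff_eq_mul]
    refine ext' ?_
    have hL2 : Lm = im 1 0 (-β) 1 := by simp [Lm, im, hβ]; ring
    simp only [val_mul, hL', hL2, aa, uu, io, im_mul]
    generalize Real.exp t = x at *
    generalize Real.exp (-t) = y at *
    push_cast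
    congr 1
    · linear_combination 2 * x * t1 - t2
    · linear_combination k * (2 * y * t1 - t2)
    · ring
    · ring

end Pool.Agent.MP_d97ab6_al.H91.NA
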