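import Pool.Agent.MP_d97ab6_al.H91.Spec
import Pool.Agent.MP_d97ab6_al.H91.Chk

/-! Meaning of the packed numbers and the statements on the soundness of the checkers. -/

namespace Pool.Agent.MP_d97ab6_al.H91

open Matrix Complex

noncomputable def toC (x : Z8) : ℂ := x.a + x.b * zeta + x.c * zeta ^ 2 + x.d * zeta ^ 3
def Z8.l1 (x : Z8) : ℕ := x.a.natAbs + x.b.natAbs + x.c.natAbs + x.d.natAbs
def Z8.ev (x : Z8) : ℤ := x.a + x.b * 2 ^ 256 + x.c * 2 ^ 512 + x.d * 2 ^ 768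

/-- `n` packs the row `y`, whose entries have coefficient sums at most `b`. -/
def RepV (n : ℕ) (y : V4) (b : ℕ) : Prop :=
  ∃ x : Fin 4 → Z8, (n : ℤ) ≡ (x 0).ev + (x 1).ev * 2 ^ 64 + (x 2).ev * 2 ^ 128 + (x 3).ev * 2 ^ 192
    [ZMOD (Mo : ℤ)] ∧ ∀ j, y j = toC (x j) ∧ (x j).l1 ≤ b

def RepM (X : R4) (g : M4) (b : ℕ) : Prop :=
  RepV X.r0 (g 0) b ∧ RepV X.r1 (g 1) b ∧ RepV X.r2 (g 2) b ∧ RepV X.r3 (g 3) b

def byt (c sh : ℕ) : ℤ := (fld c sh 256 : ℤ) - 128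
def cz (c i j : ℕ) : Z8 :=
  ⟨byt c (8 * i + 64 * j), byt c (8 * i + 64 * j + 256), byt c (8 * i + 64 * j + 512),
    byt c (8 * i + 64 * j + 768)⟩

/-- The matrix of a code. -/
noncomputable def cm (c : ℕ) : M4 := fun i j => toC (cz c i j) / 4

/-- Column zero. -/
def col0 (g : M4) : V4 := fun i => g i 0

/-- `X` is the biased fixed point approximation of `x`. -/
def Close (X : ℕ) (x : ℝ) : Prop := |(X : ℝ) - 1073741824 - x * 268435456| ≤ 1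
def Rng (X : ℕ) : Prop := 536870912 ≤ X ∧ X ≤ 1610612736

/-- The numbers approximate the coordinates. -/
def Co (a0 a1 a2 a3 t u : ℕ) (x0 x1 x2 x3 t' u' : ℝ) : Prop :=
  Close a0 x0 ∧ Close a1 x1 ∧ Close a2 x2 ∧ Close a3 x3 ∧ Close t t' ∧
    |(u : ℝ) - u' * 268435456| ≤ 1 ∧ Rng a0 ∧ Rng a1 ∧ Rng a2 ∧ Rng a3

/-- Packed arithmetic, first part. -/
structure KA : Prop where
  rows : ∀ c, RepM (rows c) ((4 : ℂ) • cm c) 512
  drow : ∀ c X g b (i : Fin 4), RepM X g b →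
    RepV (drow c (8 * i) (8 * i + 64) (8 * i + 128) (8 * i + 192) X) ((((4 : ℂ) • cm c) * g) i) (2048 * b)
  dmul : ∀ c X g b, RepM X g b → RepM (dmul c X) (((4 : ℂ) • cm c) * g) (2048 * b)
  idR : RepM idR 1 1
  id16 : RepM id16 ((16 : ℂ) • (1 : M4)) 16
  mono : ∀ X g b b', RepM X g b → b ≤ b' → RepM X g b'
  eqs : ∀ X Y g h b b' e k, eqs X Y (e + 256 * k) = true → RepM X g b → RepM Y h b' →
    b + 2 ^ e * b' < 2 ^ 63 → g = ((2 : ℂ) ^ e * zeta ^ k) • h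
  dec : ∀ x y b, RepV x y b → b < 2 ^ 63 → y 0 = toC (dec x)

/-- Packed arithmetic, second part. -/
structure KB : Prop where
  pmulP : ∀ (sw : Bool) (a b' L0 L1 L2 L3 T q : ℕ) X g b, L0 ≤ q + 8 → L1 ≤ q + 8 → L2 ≤ q + 8 →
    L3 ≤ q + 8 → 8 ≤ q → T ≤ 127 → RepM X g b →
    RepM (pmulP sw a b' L0 L1 L2 L3 T X)
      (((4 : ℂ) • pm 0 sw a b' ((L0 : ℤ) - 8) ((L1 : ℤ) - 8) ((L2 : ℤ) - 8) ((L3 : ℤ) - 8) ((T : ℤ) - 68)) * g)
      ((8 * q ^ 2 + 16 * q + 200) * b)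
  pmulC : ∀ c, ∃ sw a b' l0 l1 l2 l3 t2, PValid sw l0 l1 l2 l3 t2 ∧ ∀ X g b, RepM X g b →
    RepM (pmulC c X) (((4 : ℂ) • pm 0 sw a b' l0 l1 l2 l3 t2) * g) (1024 * b)
  far : ∀ x y b bd, RepV x y b → b < 2 ^ 63 → far x bd = true → (bd : ℝ) ≤ 10000 * normSq (y 0)
  hval : ∀ i u1 Z g b, RepM Z g b → ∃ y, RepV (hval i u1 Z) y (32768 * b) ∧
    y 0 = 16 * herm (vec i) (col0 (cm u1 * g))

/-- Unitarity and approximate coordinates. -/
structure KC : Prop where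
  uOK : ∀ g gi, uOK g gi = true → IsU (cm g) ∧ cm gi = J * (cm g)ᴴ * J
  coOK : ∀ V g b a0 a1 a2 a3 t u, coOK V a0 a1 a2 a3 t u = true → RepM V g b → b < 2 ^ 63 →
    g 3 0 ≠ 0 → ∃ x0 x1 x2 x3 t' u', col0 g = g 3 0 • pt x0 x1 x2 x3 t' u' ∧
      Co a0 a1 a2 a3 t u x0 x1 x2 x3 t' u'
  nge : ∀ x y b p q, RepV x y b → b < 2 ^ 63 → nge x p q = true → (q : ℝ) ≤ p * normSq (y 0)
  nle : ∀ x y b p q, RepV x y b → b < 2 ^ 63 → nle x p q = true → (p : ℝ) * normSq (y 0) ≤ q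

/-- The finite group as a set. -/
def Sset (D : Dat) : Set U31 := {g | ∃ n k : ℕ, g.1 = zeta ^ k • cm (D.gS n)}
def PP (D : Dat) : Bool → Set U31
  | false => P0set
  | true => Sset D
def RR (D : Dat) (i k : Bool) : Set U31 := {r | ∃ n, r.1 = cm (D.gR i k n)}
/-- The adjacency sets. -/
def TT (D : Dat) (i k : Bool) : Set U31 :=
  {g | ∃ p ∈ PP D i, ∃ r ∈ RR D i k, ∃ q ∈ PP D k, g = p * r * q}

/-- Facts on the finite group. -/
structure SFacts (D : Dat) : Prop where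
  grp : ∃ P : Subgroup U31, (P : Set U31) = Sset D
  isU : ∀ n, IsU (cm (D.gS n))
  fix : ∀ p ∈ Sset D, ∃ k : ℕ, ap p (vec true) = zeta ^ k • vec true
  rot : ∀ a b : ℕ, ∃ p ∈ Sset D, p.1 = pm 0 false a b 0 0 0 0 0
  idc : cm D.idc = 1

def SGrp : Prop :=
  KA → KB → KC → SPgrp → ∀ D g3i, checkMisc D g3i = true → col0 (cm D.v1) = vec true →
    (∀ e < 3, ∃ s, checkGrp D e s ≠ 0) → (∃ s, checkWrd D s ≠ 0) → SFacts D

/-- All representatives are unitary and the second code is the inverse. -/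
def RFacts (D : Dat) : Prop :=
  ∀ i k n, ∃ r : U31, r.1 = cm (D.gR i k n) ∧ (r⁻¹).1 = cm (D.gRi i k n)

/-- Soundness of one identity. -/
def CertOK (D : Dat) : Prop :=
  ∀ i k u1 X1 s (t1 g : U31), cert D i k u1 X1 s ≠ 0 → (t1⁻¹).1 = cm u1 →
    RepM X1 ((16 : ℂ) • g.1) (2 ^ 25) → t1⁻¹ * g ∈ TT D i k

def SCert : Prop := KA → KB → SPgrp → ∀ D, SFacts D → RFacts D → CertOK D

/-- Meaning of a representative seen from the cusp. -/
def EntSem (k : Bool) (e : Ent) (t : U31) : Prop :=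
  t.1 = cm e.g ∧ (t⁻¹).1 = cm e.gi ∧ ∃ (c : ℂ) (x0 x1 x2 x3 t' u' : ℝ),
    ap t (vec k) = c • pt x0 x1 x2 x3 t' u' ∧ Co e.a0 e.a1 e.a2 e.a3 e.t e.u x0 x1 x2 x3 t' u' ∧
      0 ≤ u' ∧ (268435456 : ℝ) ^ 2 ≤ (e.sg : ℝ) ^ 2 * normSq c ∧ (k = false → 1 ≤ normSq c)

def SEnt : Prop :=
  KA → KC → ∀ D : Dat, col0 (cm D.v0) = vec false → col0 (cm D.v1) = vec true →
    (∀ k n, entOK D k n = true → ∃ t, EntSem k (D.e0 k n) t) ∧
    (cm D.idc = 1 → 1 ≤ D.n00 → 1 ≤ D.n01 → 1 ≤ D.n11 → (∀ n < D.n00, entOK D false n = true) →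
      (∀ n < D.n01, entOK D true n = true) → checkE11 D ≠ 0 → RFacts D)

/-- Soundness of the enumeration of the cusp group. -/
def EnumOK (D : Dat) : Prop :=
  ∀ i k e1 e2 s (t1 t2 : U31), enumPair D i k e1 e2 s ≠ 0 → EntSem i e1 t1 → EntSem k e2 t2 →
    ∀ p ∈ P0set, normSq (herm (ap t1 (vec i)) (ap (p * t2) (vec k))) < Bd i k →
      t1⁻¹ * (p * t2) ∈ TT D i k

def SEnum : Prop := KA → KB → SPgrp → ∀ D, SFacts D → CertOK D → EnumOK D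

/-- Soundness of the enumeration of the finite group. -/
def BallOK (D : Dat) : Prop :=
  ∀ i k n2 lo cnt s, checkBall D i k n2 lo cnt s ≠ 0 → ∀ j < cnt, ∀ n1 < D.nR true i,
    ∀ t1 σ t2 : U31, (t1⁻¹).1 = cm (D.gRi true i n1) → σ.1 = cm (D.gS (lo + j)) →
      t2.1 = cm (D.gR true k n2) →
        normSq (herm (ap t1 (vec i)) (ap (σ * t2) (vec k))) < Bd i k → t1⁻¹ * (σ * t2) ∈ TT D i k

def SBall : Prop :=
  KA → KB → ∀ D : Dat, col0 (cm D.v0) = vec false → col0 (cm D.v1) = vec true → CertOK D → BallOK D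

/-- The point with the given coordinates lies in the box. -/
def InBx (b : Bx) (x0 x1 x2 x3 t u : ℝ) : Prop :=
  |x0 * 268435456 + 1073741824 - b.c0| ≤ b.h0 ∧ |x1 * 268435456 + 1073741824 - b.c1| ≤ b.h1 ∧
    |x2 * 268435456 + 1073741824 - b.c2| ≤ b.h2 ∧ |x3 * 268435456 + 1073741824 - b.c3| ≤ b.h3 ∧
      |t * 268435456 + 1073741824 - b.c4| ≤ b.h4 ∧ |u * 268435456 - b.c5| ≤ b.h5

/-- The part of the piece `i` inside the box is covered by shrunk neighbours. -/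
def Covered (T : Bool → Bool → Set U31) (i : Bool) (b : Bx) : Prop :=
  ∀ x0 x1 x2 x3 t u : ℝ, InBx b x0 x1 x2 x3 t u → |x0| ≤ 1 → |x1| ≤ 1 → |x2| ≤ 1 → |x3| ≤ 1 →
    |t| ≤ 1 → 0 < u → In (kap i) (vec i) (pt x0 x1 x2 x3 t u) →
      ∃ j, ∃ s ∈ T i j, In (kap' j) (ap s (vec j)) (pt x0 x1 x2 x3 t u)

/-- Meaning of a neighbouring chart. -/
def ChSem (T : Bool → Bool → Set U31) (i : Bool) (c : Ch) : Prop :=
  ∃ s ∈ T i c.j, ∃ (d : ℂ) (x0 x1 x2 x3 t' u' : ℝ), d ≠ 0 ∧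
    ap s (vec c.j) = d • pt x0 x1 x2 x3 t' u' ∧ Co c.a0 c.a1 c.a2 c.a3 c.t c.u x0 x1 x2 x3 t' u' ∧
      0 ≤ u' ∧ (c.kl : ℝ) * normSq d ≤ kap' c.j * 268435456

def SCh : Prop :=
  KA → KB → KC → SPgrp → ∀ D : Dat, col0 (cm D.v0) = vec false → col0 (cm D.v1) = vec true →
    SFacts D → RFacts D → ∀ i c, chOK D i c = true → ChSem (TT D) i c

def SRun : Prop :=
  ∀ (T : Bool → Bool → Set U31) (i : Bool) (tb : Tr Ch) (nt : ℕ) (kb : Tr Bx) (nk : ℕ),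
    (1 : U31) ∈ T i false → (∀ n < nt, ChSem T i (tb.get n)) → (∀ n < nk, Covered T i (kb.get n)) →
      ∀ fuel b s, run i tb nt kb nk fuel b s ≠ 0 → Covered T i b

def rootA : Bx := ⟨1140850688, 1140850688, 1140850688, 1140850688, 1073741824, 85504661, 67108864,
  67108864, 67108864, 67108864, 268435456, 93381⟩
def rootB : Bx := ⟨1140850688, 1140850688, 1140850688, 1140850688, 905969664, 209715200, 67108864,
  67108864, 67108864, 67108864, 100663296, 192937984⟩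

/-- Assembly of the finite facts. -/
def SAdj : Prop :=
  SPgrp → SPred → SBred → ∀ D : Dat, SFacts D → RFacts D → CertOK D → EnumOK D → BallOK D → KA →
    1 ≤ D.ns → 1 ≤ D.n00 → D.n00 ≤ 255 → 1 ≤ D.n01 → 1 ≤ D.n11 →
    cm (D.e01 0).g = 1 → cm (D.e11 0).g = 1 →
    (∀ k, ∀ n < D.nR false k, ∃ t, EntSem k (D.e0 k n) t) →
    (∀ i, ∃ s, checkSym D i s ≠ 0) →
    (∀ i k, (i = true → k = true) → ∀ n1 < D.nR false i, ∀ n2 < D.nR false k, (i = k → n1 ≤ n2) →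
      ∃ s, enumPair D i k (D.e0 i n1) (D.e0 k n2) s ≠ 0) →
    (∀ i k, (i = true → k = true) → ∀ n2 < D.nR true k, ∀ m < D.ns,
      ∃ lo cnt s, lo ≤ m ∧ m < lo + cnt ∧ checkBall D i k n2 lo cnt s ≠ 0) →
    Covered (TT D) false rootA → Covered (TT D) true rootB → Adj (TT D)

theorem loop_ne_zero {n : ℕ} {f : ℕ → ℕ → ℕ} {s : ℕ} (h : loop n f s ≠ 0) :
    s ≠ 0 ∧ ∀ i < n, ∃ a, a ≠ 0 ∧ f i a ≠ 0 := by
  induction n with
  | zero => exact ⟨h, fun i hi => absurd hi (Nat.not_lt_zero i)⟩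
  | succ n ih =>
    have e : loop (n + 1) f s = cond (Nat.beq (loop n f s) 0) 0 (f n (loop n f s)) := rfl
    rw [e] at h
    cases hb : Nat.beq (loop n f s) 0 with
    | true => rw [hb] at h; exact absurd rfl h
    | false =>
      rw [hb] at h
      have hne : loop n f s ≠ 0 := Nat.ne_of_beq_eq_false hb
      refine ⟨(ih hne).1, fun i hi => ?_⟩
      rcases Nat.lt_succ_iff_lt_or_eq.mp hi with h1 | h1
      · exact (ih hne).2 i h1
      · exact ⟨_, hne, h1 ▸ h⟩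

end Pool.Agent.MP_d97ab6_al.H91
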