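import Pool.Agent.MP_d97ab6_al.H91.Base

/-! Statements of the independent parts. -/

namespace Pool.Agent.MP_d97ab6_al.H91

open Matrix Complex MeasureTheory Topology

/-- Chains of adjacent overlapping charts. -/
def Chained {E C : Type} (U : C → Set E) (A : C → C → Prop) : C → C → Prop :=
  Relation.ReflTransGen (fun c c' => A c c' ∧ (U c ∩ U c').Nonempty)

/-- Monodromy lemma for a system of charts on a convex open set. -/
def SMono : Prop :=
  ∀ (E : Type) [NormedAddCommGroup E] [NormedSpace ℝ E] (Ω : Set E) (C : Type) (U : C → Set E)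
    (A : C → C → Prop) (c0 : C), Convex ℝ Ω → IsOpen Ω → (∀ c, IsOpen (U c)) → (∀ c, U c ⊆ Ω) →
    (∀ c, IsPreconnected (U c)) → (U c0).Nonempty → (∀ c, A c c) → (∀ c c', A c c' → A c' c) →
    (∀ c c' c'' x, x ∈ U c → x ∈ U c' → x ∈ U c'' → A c c' → A c' c'' → A c c'') →
    (∀ x ∈ Ω, ∃ N ∈ 𝓝 x, ∀ c, ∀ y ∈ N, y ∈ U c → ∃ c', A c c' ∧ N ⊆ U c') →
    (∀ x ∈ Ω, ∃ c, Chained U A c0 c ∧ x ∈ U c) ∧
      (∀ c c', Chained U A c0 c → Chained U A c0 c' → (U c ∩ U c').Nonempty → A c c')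

/-- Two pieces that meet have close centres. -/
def SBound : Prop :=
  ∀ (i j : Bool) (g h : U31) (y : V4), In (kap i) (ap g (vec i)) y → In (kap j) (ap h (vec j)) y →
    normSq (herm (ap g (vec i)) (ap h (vec j))) < Bd i j

/-- Uniform margin between a shrunk piece and the piece. -/
def SLip : Prop :=
  ∃ η : ℝ, 0 < η ∧ ∀ (j : Bool) (g : U31) (y z : V4), 0 < nrm y → 0 < nrm z →
    normSq (herm y z) < (1 + η) * nrm y * nrm z → In (kap' j) (ap g (vec j)) y →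
      In (kap j) (ap g (vec j)) z

/-- The finite facts about the adjacency sets. -/
structure Adj (T : Bool → Bool → Set U31) : Prop where
  one : ∀ i j, (1 : U31) ∈ T i j
  symm : ∀ i j s, s ∈ T i j → s⁻¹ ∈ T j i
  trans : ∀ j i k s s', s ∈ T j i → s' ∈ T j k →
    normSq (herm (ap s (vec i)) (ap s' (vec k))) < Bd i k → s⁻¹ * s' ∈ T i k
  cover : ∀ i y, In (kap i) (vec i) y → ∃ j, ∃ s ∈ T i j, In (kap' j) (ap s (vec j)) y

/-- What the monodromy lemma gives for the group. -/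
structure Core (T : Bool → Bool → Set U31) (G : Subgroup U31) : Prop where
  near : ∀ g ∈ G, ∀ y, In (kap false) (vec false) y → In (kap false) (ap g (vec false)) y →
    g ∈ T false false
  cover : ∀ y, 0 < nrm y → ∃ g ∈ G,
    In (kap false) (vec false) (ap g y) ∨ In (kap true) (vec true) (ap g y)
  mem : ∀ g ∈ T false false,
    (∃ y, In (kap false) (vec false) y ∧ In (kap false) (ap g (vec false)) y) → g ∈ G
  le : ∀ Q : Subgroup U31, (∀ i j, T i j ⊆ Q) → G ≤ Q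

def SCore : Prop :=
  SMono → SBound → SLip → ∀ T, Adj T → ∃ G, Core T G

/-- The cusp group is a group. -/
def SPgrp : Prop :=
  (∀ k sw a b l0 l1 l2 l3 t2, IsU (pm k sw a b l0 l1 l2 l3 t2)) ∧
    ∃ P : Subgroup U31, (P : Set U31) = P0set

/-- Reduction into the box by the cusp group. -/
def SPred : Prop :=
  ∀ y : V4, 0 < nrm y → ∃ p ∈ P0set, ∃ (c : ℂ) (x0 x1 x2 x3 t u : ℝ), c ≠ 0 ∧
    ap p y = c • pt x0 x1 x2 x3 t u ∧ 0 ≤ x0 ∧ x0 ≤ 1 / 2 ∧ 0 ≤ x1 ∧ x1 ≤ 1 / 2 ∧ 0 ≤ x2 ∧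
      x2 ≤ 1 / 2 ∧ 0 ≤ x3 ∧ x3 ≤ 1 / 2 ∧ |t| ≤ 1 ∧ 0 < u

/-- Reduction of the ball by the rotations, with bounds. -/
def SBred : Prop :=
  ∀ y : V4, In (kap true) (vec true) y → ∃ (a b : ℕ) (c : ℂ) (x0 x1 x2 x3 t u : ℝ), c ≠ 0 ∧
    pm 0 false a b 0 0 0 0 0 *ᵥ y = c • pt x0 x1 x2 x3 t u ∧ 0 ≤ x0 ∧ x0 ≤ 1 / 2 ∧ 0 ≤ x1 ∧
      x1 ≤ 1 / 2 ∧ 0 ≤ x2 ∧ x2 ≤ 1 / 2 ∧ 0 ≤ x3 ∧ x3 ≤ 1 / 2 ∧ -1 ≤ t ∧ t ≤ -1 / 4 ∧
        1 / 16 ≤ u ∧ u ≤ 3 / 2

/-- The preimage of the Siegel set has finite Haar measure. -/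
def SVol : Prop :=
  ∀ [MeasurableSpace SU31] [BorelSpace SU31] (μ : Measure SU31) [μ.IsHaarMeasure],
    μ {g | Sieg (g.1.1 *ᵥ pt 0 0 0 0 0 2)} < ⊤

/-- From a covering set of finite measure to an invariant measure on the quotient. -/
def SBridge : Prop :=
  ∀ (Γ : Subgroup SU31) (F : Set SU31), DiscreteTopology Γ →
    (∀ [MeasurableSpace SU31] [BorelSpace SU31] (μ : Measure SU31) [μ.IsHaarMeasure], μ F < ⊤) →
    (∀ g : SU31, ∃ γ ∈ Γ, γ * g ∈ F) → IsLattice Γ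

/-- Discreteness. -/
def SDisc : Prop :=
  ∀ G : Subgroup U31, (∀ g ∈ G, ∀ y, In (kap false) (vec false) y →
    In (kap false) (ap g (vec false)) y → g ∈ P0set ∨ 1 ≤ normSq (g.1 3 0)) →
      DiscreteTopology (lift G)

/-- Covering of the group by translates of the Siegel set. -/
def SCov : Prop :=
  SPgrp → SPred → SBred → ∀ G : Subgroup U31, P0set ⊆ G →
    (∀ y, 0 < nrm y → ∃ g ∈ G,
      In (kap false) (vec false) (ap g y) ∨ In (kap true) (vec true) (ap g y)) →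
    ∀ g : SU31, ∃ γ ∈ lift G, Sieg ((γ * g).1.1 *ᵥ pt 0 0 0 0 0 2)

/-- A group containing the two unipotent elements is not arithmetic. -/
def SNA : Prop :=
  ∀ Γ : Subgroup SU31, (∃ γ ∈ Γ, γ.1.1 = Tm) → (∃ γ ∈ Γ, γ.1.1 = Lm) → ¬ IsArith Γ

/-- The trace field contains the square root of two, in the whole commensurability class. -/
def STr : Prop :=
  ∀ Γ : Subgroup SU31, (∃ γ ∈ Γ, γ.1.1 = Tm) → (∃ γ ∈ Γ, γ.1.1 = Lm) →
    ∀ (g : SU31) (Δ : Subgroup SU31),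
      Subgroup.Commensurable (Γ.map (MulAut.conj g).toMonoidHom) Δ → √2 ∈ adField Δ

/-- The trace field is contained in the field generated by the square root of two. -/
def STrUp : Prop :=
  (∃ Q : Subgroup U31, ∀ g, g ∈ Q ↔ ∀ i j, InK (g.1 i j)) ∧
    ∀ G : Subgroup U31, (∀ g ∈ G, ∀ i j, InK (g.1 i j)) →
      adField (lift G) ≤ Subfield.closure {√2}

end Pool.Agent.MP_d97ab6_al.H91
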